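import Mathlib

/-!
Graphs of maximum degree at most two.
-/

namespace HD21

open SimpleGraph

/-- All vertices have at most two neighbours. -/
def DegLETwo {V : Type*} (G : SimpleGraph V) : Prop :=
  ∀ v a b c : V, G.Adj v a → G.Adj v b → G.Adj v c → a = b ∨ a = c ∨ b = c

/-- In a graph of maximum degree at most two, the interior vertices of a path have no neighbours
besides their two neighbours on the path. -/
theorem path_interior {V : Type*} {G : SimpleGraph V} (hG : DegLETwo G) {u v : V}
    (p : G.Walk u v) (hp : p.IsPath) (i : ℕ) (hi : 1 ≤ i) (hi' : i < p.length) (x : V)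
    (hx : G.Adj (p.getVert i) x) : x = p.getVert (i - 1) ∨ x = p.getVert (i + 1) := by
  have h1 : G.Adj (p.getVert i) (p.getVert (i + 1)) := p.adj_getVert_succ hi'
  have h2 : G.Adj (p.getVert (i - 1)) (p.getVert (i - 1 + 1)) :=
    p.adj_getVert_succ (by omega)
  rw [show i - 1 + 1 = i by omega] at h2
  rcases hG _ _ _ _ h2.symm h1 hx with h | h | h
  · exfalso
    have h3 := hp.getVert_injOn (show i - 1 ∈ {i | i ≤ p.length} by simp; omega)
      (show i + 1 ∈ {i | i ≤ p.length} by simp; omega) h
    omega
  · exact Or.inl h.symm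
  · exact Or.inr h.symm

/-- Two paths with the same start, of degree one, agree as long as both are defined. -/
theorem paths_agree {V : Type*} {G : SimpleGraph V} (hG : DegLETwo G) {z1 z2 z3 : V}
    (p : G.Walk z1 z2) (hp : p.IsPath) (q : G.Walk z1 z3) (hq : q.IsPath)
    (hz1 : ∀ a b, G.Adj z1 a → G.Adj z1 b → a = b) :
    ∀ i, i ≤ p.length → i ≤ q.length →
      p.getVert i = q.getVert i ∧ (i + 1 ≤ p.length → i + 1 ≤ q.length →
        p.getVert (i + 1) = q.getVert (i + 1)) := by
  intro i
  induction i with
  | zero =>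
    intro _ _
    refine ⟨by simp, fun h1 h2 => ?_⟩
    have h3 := p.adj_getVert_succ (i := 0) (by omega)
    have h4 := q.adj_getVert_succ (i := 0) (by omega)
    rw [Walk.getVert_zero] at h3 h4
    exact hz1 _ _ h3 h4
  | succ i ih =>
    intro h1 h2
    obtain ⟨h3, h4⟩ := ih (by omega) (by omega)
    have h5 := h4 h1 h2
    refine ⟨h5, fun h6 h7 => ?_⟩
    have h8 := q.adj_getVert_succ (i := i + 1) (by omega)
    rw [← h5] at h8
    rcases path_interior hG p hp (i + 1) (by omega) (by omega) _ h8 with h | h
    · exfalso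
      rw [show i + 1 - 1 = i by omega, h3] at h
      have h9 := hq.getVert_injOn (show i + 1 + 1 ∈ {i | i ≤ q.length} by simp; omega)
        (show i ∈ {i | i ≤ q.length} by simp; omega) h
      omega
    · exact h.symm

theorem end_not_interior {V : Type*} {G : SimpleGraph V} {u v : V}
    (q : G.Walk u v) (hq : q.IsPath) (i : ℕ) (hi : 1 ≤ i) (hi' : i < q.length)
    (hz : ∀ a b, G.Adj (q.getVert i) a → G.Adj (q.getVert i) b → a = b) : False := by
  have h1 : G.Adj (q.getVert i) (q.getVert (i + 1)) := q.adj_getVert_succ hi'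
  have h2 : G.Adj (q.getVert (i - 1)) (q.getVert (i - 1 + 1)) :=
    q.adj_getVert_succ (by omega)
  rw [show i - 1 + 1 = i by omega] at h2
  have h3 := hq.getVert_injOn (show i - 1 ∈ {i | i ≤ q.length} by simp; omega)
    (show i + 1 ∈ {i | i ≤ q.length} by simp; omega) (hz _ _ h2.symm h1)
  omega

/-- In a graph of maximum degree at most two, a connected component has at most two vertices with
at most one neighbour. -/
theorem few_ends {V : Type*} {G : SimpleGraph V} (hG : DegLETwo G) (z1 z2 z3 : V)
    (h12 : G.Reachable z1 z2) (h13 : G.Reachable z1 z3) (hne12 : z1 ≠ z2) (hne13 : z1 ≠ z3)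
    (hne23 : z2 ≠ z3)
    (hz1 : ∀ a b, G.Adj z1 a → G.Adj z1 b → a = b) (hz2 : ∀ a b, G.Adj z2 a → G.Adj z2 b → a = b)
    (hz3 : ∀ a b, G.Adj z3 a → G.Adj z3 b → a = b) : False := by
  obtain ⟨p, hp⟩ := h12.exists_isPath
  obtain ⟨q, hq⟩ := h13.exists_isPath
  have hp0 : 1 ≤ p.length := by
    by_contra h
    exact hne12 (Walk.eq_of_length_eq_zero (p := p) (by omega))
  have hq0 : 1 ≤ q.length := by
    by_contra h
    exact hne13 (Walk.eq_of_length_eq_zero (p := q) (by omega))
  rcases lt_trichotomy p.length q.length with h | h | h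
  · have h1 := (paths_agree hG p hp q hq hz1 p.length le_rfl h.le).1
    rw [Walk.getVert_length] at h1
    exact end_not_interior q hq p.length hp0 h (by rw [← h1]; exact hz2)
  · have h1 := (paths_agree hG p hp q hq hz1 p.length le_rfl h.le).1
    rw [Walk.getVert_length, h, Walk.getVert_length] at h1
    exact hne23 h1
  · have h1 := (paths_agree hG p hp q hq hz1 q.length h.le le_rfl).1
    rw [Walk.getVert_length] at h1
    exact end_not_interior p hp q.length hq0 h (by rw [h1]; exact hz3)

end HD21
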