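import Mathlib
import Pool.Agent.HD21.DegTwo

/-!
Few vertices are close to the ends of the components.
-/

namespace HD21

open SimpleGraph

/-- `E` has two neighbours and each neighbour of `E` has a neighbour other than `E`. -/
def GoodV {V : Type*} (G : SimpleGraph V) (E : V) : Prop :=
  (∃ e1 e2, e1 ≠ e2 ∧ G.Adj E e1 ∧ G.Adj E e2) ∧ (∀ e, G.Adj E e → ∃ f, f ≠ E ∧ G.Adj e f)

/-- A vertex which is not good is equal or adjacent to a vertex with at most one neighbour. -/
theorem exists_end_of_not_good {V : Type*} {G : SimpleGraph V} {E : V} (h : ¬ GoodV G E) :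
    ∃ z, (E = z ∨ G.Adj z E) ∧ ∀ a b, G.Adj z a → G.Adj z b → a = b := by
  by_cases h1 : ∃ e1 e2, e1 ≠ e2 ∧ G.Adj E e1 ∧ G.Adj E e2
  · have h2 : ¬ ∀ e, G.Adj E e → ∃ f, f ≠ E ∧ G.Adj e f := fun h2 => h ⟨h1, h2⟩
    push Not at h2
    obtain ⟨e, he, h3⟩ := h2
    refine ⟨e, Or.inr he.symm, fun a b ha hb => ?_⟩
    have ha' : a = E := by
      by_contra h4
      exact h3 a h4 ha
    have hb' : b = E := by
      by_contra h4
      exact h3 b h4 hb
    rw [ha', hb']
  · refine ⟨E, Or.inl rfl, fun a b ha hb => ?_⟩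
    by_contra h2
    exact h1 ⟨a, b, h2, ha, hb⟩

/-- Among 13 distinct vertices reachable from three given vertices one is good.
Proof. If all are bad, each `E t` has `z t` equal or adjacent to `E t` with at most one neighbour.
Five of them lie in the component of the same `f`; there `z` takes at most two values
(`few_ends`), so three have the same `z`; they lie in `{z} ∪ N(z)`, which has at most two
elements. -/
theorem bad_count {V : Type*} {G : SimpleGraph V} (hG : DegLETwo G) (F : Finset V)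
    (hF : F.card ≤ 3) (E : ℕ → V) (hE : ∀ t < 13, ∀ t' < 13, t ≠ t' → E t ≠ E t')
    (hreach : ∀ t < 13, ∃ f ∈ F, G.Reachable (E t) f) : ∃ t < 13, GoodV G (E t) := by
  classical
  by_contra hcon
  push Not at hcon
  have hz : ∀ t, ∃ z, t < 13 → (E t = z ∨ G.Adj z (E t)) ∧
      ∀ a b, G.Adj z a → G.Adj z b → a = b := by
    intro t
    by_cases ht : t < 13
    · obtain ⟨z, hz⟩ := exists_end_of_not_good (hcon t ht)
      exact ⟨z, fun _ => hz⟩
    · exact ⟨E t, fun h => absurd h ht⟩
  choose z hz using hz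
  have hf : ∀ t, ∃ f, t < 13 → f ∈ F ∧ G.Reachable (E t) f := by
    intro t
    by_cases ht : t < 13
    · obtain ⟨f, hf, hf'⟩ := hreach t ht
      exact ⟨f, fun _ => ⟨hf, hf'⟩⟩
    · exact ⟨E t, fun h => absurd h ht⟩
  choose f hf using hf
  obtain ⟨y, -, hy⟩ := Finset.exists_lt_card_fiber_of_mul_lt_card_of_maps_to
    (s := Finset.range 13) (t := F) (f := f) (n := 4)
    (fun t ht => (hf t (Finset.mem_range.1 ht)).1) (by rw [Finset.card_range]; omega)
  obtain ⟨T, hT⟩ : ∃ T, T = (Finset.range 13).filter (fun t => f t = y) := ⟨_, rfl⟩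
  rw [← hT] at hy
  have hT1 : ∀ t ∈ T, t < 13 := by
    intro t ht
    rw [hT, Finset.mem_filter, Finset.mem_range] at ht
    exact ht.1
  have hzy : ∀ t ∈ T, G.Reachable (z t) y := by
    intro t ht
    have h1 := hT1 t ht
    have h2 : G.Reachable (E t) y := by
      rw [hT, Finset.mem_filter] at ht
      rw [← ht.2]
      exact (hf t h1).2
    rcases (hz t h1).1 with h3 | h3
    · rw [← h3]
      exact h2
    · exact h3.reachable.trans h2
  have hZ : (T.image z).card ≤ 2 := by
    by_contra h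
    rw [not_le, Finset.two_lt_card] at h
    obtain ⟨a, ha, b, hb, c, hc, hab, hac, hbc⟩ := h
    obtain ⟨ta, hta, rfl⟩ := Finset.mem_image.1 ha
    obtain ⟨tb, htb, rfl⟩ := Finset.mem_image.1 hb
    obtain ⟨tc, htc, rfl⟩ := Finset.mem_image.1 hc
    exact few_ends hG _ _ _ ((hzy ta hta).trans (hzy tb htb).symm)
      ((hzy ta hta).trans (hzy tc htc).symm) hab hac hbc (hz ta (hT1 ta hta)).2
      (hz tb (hT1 tb htb)).2 (hz tc (hT1 tc htc)).2
  obtain ⟨w, -, hw⟩ := Finset.exists_lt_card_fiber_of_mul_lt_card_of_maps_to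
    (s := T) (t := T.image z) (f := z) (n := 2)
    (fun t ht => Finset.mem_image_of_mem z ht) (by omega)
  rw [Finset.two_lt_card] at hw
  obtain ⟨a, ha, b, hb, c, hc, hab, hac, hbc⟩ := hw
  rw [Finset.mem_filter] at ha hb hc
  have ha1 := hT1 a ha.1
  have hb1 := hT1 b hb.1
  have hc1 := hT1 c hc.1
  have h1 := hz a ha1
  have h2 := (hz b hb1).1
  have h3 := (hz c hc1).1
  rw [ha.2] at h1
  rw [hb.2] at h2
  rw [hc.2] at h3
  have eab := hE a ha1 b hb1 hab
  have eac := hE a ha1 c hc1 hac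
  have ebc := hE b hb1 c hc1 hbc
  obtain ⟨h1, h4⟩ := h1
  rcases h1 with h1 | h1
  · rcases h2 with h2 | h2
    · exact eab (h1.trans h2.symm)
    · rcases h3 with h3 | h3
      · exact eac (h1.trans h3.symm)
      · exact ebc (h4 _ _ h2 h3)
  · rcases h2 with h2 | h2
    · rcases h3 with h3 | h3
      · exact ebc (h2.trans h3.symm)
      · exact eac (h4 _ _ h1 h3)
    · exact eab (h4 _ _ h1 h2)

end HD21
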