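import Mathlib

/-!
Chains with small steps in a pseudo-metric that has sparse hub sets.
-/

namespace HD21

/-- The pseudo-metric axioms for a real valued function of two variables. -/
structure IsPM {V : Type*} (d : V → V → ℝ) : Prop where
  self : ∀ u, d u u = 0
  symm : ∀ u v, d u v = d v u
  tri : ∀ u v x, d u x ≤ d u v + d v x
  nonneg : ∀ u v, 0 ≤ d u v

variable {V : Type*}

/-- The last index of a chain at which a property holds. -/
theorem exists_last (m : ℕ) (P : ℕ → Prop) (t : ℕ) (ht : t ≤ m) (hP : P t) :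
    ∃ i, i ≤ m ∧ t ≤ i ∧ P i ∧ ∀ j, i < j → j ≤ m → ¬ P j := by
  classical
  have hne : ((Finset.range (m + 1)).filter P).Nonempty :=
    ⟨t, by simp [hP]; omega⟩
  refine ⟨((Finset.range (m + 1)).filter P).max' hne, ?_, ?_, ?_, ?_⟩
  · have := Finset.max'_mem _ hne
    simp only [Finset.mem_filter, Finset.mem_range] at this
    omega
  · exact Finset.le_max' _ _ (by simp [hP]; omega)
  · have := Finset.max'_mem _ hne
    simp only [Finset.mem_filter, Finset.mem_range] at this
    exact this.2
  · intro j hj hjm hPj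
    have := Finset.le_max' ((Finset.range (m + 1)).filter P) j (by simp [hPj]; omega)
    omega

/-- First exit of a chain from a ball of radius `5 * w`, and the hub on the way. -/
theorem exit_hub {d : V → V → ℝ} (hd : IsPM d) {w : ℝ} (hw : 0 < w) (H : Finset V)
    (hhit : ∀ u v, 5 * w < d u v → d u v ≤ 10 * w → ∃ c ∈ H, d u c + d c v = d u v)
    (x : ℕ → V) (m : ℕ) (hx : ∀ i < m, d (x i) (x (i + 1)) ≤ w)
    (i : ℕ) (hi : i ≤ m) (hfar : 5 * w < d (x i) (x m)) :
    ∃ j c, i < j ∧ j ≤ m ∧ c ∈ H ∧ d (x i) c + d c (x j) ≤ 6 * w := by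
  classical
  have hex : ∃ j, i ≤ j ∧ j ≤ m ∧ 5 * w < d (x i) (x j) := ⟨m, hi, le_refl _, hfar⟩
  obtain ⟨h1, h2, h3⟩ := Nat.find_spec hex
  set j := Nat.find hex with hj
  have hij : i < j := by
    rcases Nat.lt_or_ge i j with h | h
    · exact h
    · have : i = j := le_antisymm h1 h
      rw [← this, hd.self] at h3
      linarith
  have hmin : ¬ (i ≤ j - 1 ∧ j - 1 ≤ m ∧ 5 * w < d (x i) (x (j - 1))) :=
    Nat.find_min hex (by omega)
  have h4 : d (x i) (x (j - 1)) ≤ 5 * w := by
    by_contra hc
    exact hmin ⟨by omega, by omega, not_le.mp hc⟩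
  have h5 : d (x (j - 1)) (x j) ≤ w := by
    have := hx (j - 1) (by omega)
    rwa [Nat.sub_add_cancel (by omega)] at this
  have h6 : d (x i) (x j) ≤ 6 * w := by
    have := hd.tri (x i) (x (j - 1)) (x j)
    linarith
  obtain ⟨c, hc, hcc⟩ := hhit (x i) (x j) h3 (by linarith)
  exact ⟨j, c, hij, h2, hc, by rw [hcc]; exact h6⟩

/-- **Chains are short.** If `H` hits a shortest path between any two points at distance in
`(5w, 10w]` and every ball of radius `10w` contains at most two points of `H`, then the end points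
of any chain with steps at most `w` are at distance at most `25w`. -/
theorem chain_bound [DecidableEq V] {d : V → V → ℝ} (hd : IsPM d) {w : ℝ} (hw : 0 < w)
    (H : Finset V)
    (hhit : ∀ u v, 5 * w < d u v → d u v ≤ 10 * w → ∃ c ∈ H, d u c + d c v = d u v)
    (hsp : ∀ v, (H.filter (fun c => d v c ≤ 10 * w)).card ≤ 2)
    (x : ℕ → V) (m : ℕ) (hx : ∀ i < m, d (x i) (x (i + 1)) ≤ w) :
    d (x 0) (x m) ≤ 25 * w := by
  by_contra hD
  push Not at hD
  have hex := exit_hub hd hw H hhit x m hx
  -- the first hub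
  obtain ⟨j0, b, hj0, hj0m, hb, hb0⟩ := hex 0 (Nat.zero_le _) (by linarith)
  have n1 := hd.nonneg (x 0) b
  have n2 := hd.nonneg b (x j0)
  have hxb : d (x 0) b ≤ 6 * w := by linarith
  obtain ⟨t0, ht0m, ht0⟩ : ∃ t, t ≤ m ∧ d (x t) b ≤ 4 * w := by
    rcases le_total (d (x 0) b) (3 * w) with h | h
    · exact ⟨0, Nat.zero_le _, by linarith⟩
    · exact ⟨j0, hj0m, by rw [hd.symm]; linarith⟩
  -- last time near b
  obtain ⟨ib, hibm, -, hib, hiblast⟩ := exists_last m (fun i => d (x i) b ≤ 4 * w) t0 ht0m ht0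
  have hmb : 4 * w < d (x m) b := by
    have := hd.tri (x 0) b (x m)
    rw [hd.symm b (x m)] at this
    linarith
  have hibm' : ib < m := by
    rcases Nat.lt_or_ge ib m with h | h
    · exact h
    · have : ib = m := le_antisymm hibm h
      rw [this] at hib
      linarith
  have hib3 : 3 * w < d (x ib) b := by
    have h1 : 4 * w < d (x (ib + 1)) b := not_le.mp (hiblast (ib + 1) (by omega) (by omega))
    have h2 := hd.tri (x (ib + 1)) (x ib) b
    have h3 := hx ib hibm'
    rw [hd.symm] at h3
    linarith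
  -- the second hub
  have hfar1 : 5 * w < d (x ib) (x m) := by
    have h1 := hd.tri (x 0) b (x m)
    have h2 := hd.tri b (x ib) (x m)
    rw [hd.symm b (x ib)] at h2
    linarith
  obtain ⟨j1, c, hj1, hj1m, hc, hc1⟩ := hex ib hibm hfar1
  have n3 := hd.nonneg (x ib) c
  have n4 := hd.nonneg c (x j1)
  have hcb : c ≠ b := by
    intro h
    subst h
    have h1 : 4 * w < d (x j1) c := not_le.mp (hiblast j1 hj1 hj1m)
    rw [hd.symm] at h1
    linarith
  have hbc : d b c ≤ 10 * w := by
    have := hd.tri b (x ib) c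
    rw [hd.symm b (x ib)] at this
    linarith
  obtain ⟨t1, ht1m, ht1i, ht1⟩ : ∃ t, t ≤ m ∧ ib ≤ t ∧ d (x t) c ≤ 4 * w := by
    rcases le_total (d (x ib) c) (3 * w) with h | h
    · exact ⟨ib, hibm, le_refl _, by linarith⟩
    · exact ⟨j1, hj1m, hj1.le, by rw [hd.symm]; linarith⟩
  obtain ⟨ic, hicm, hict, hic, hiclast⟩ := exists_last m (fun i => d (x i) c ≤ 4 * w) t1 ht1m ht1
  have hmc : 4 * w < d (x m) c := by
    have h1 := hd.tri (x 0) b (x m)
    have h2 := hd.tri b c (x m)
    rw [hd.symm c (x m)] at h2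
    linarith
  have hicm' : ic < m := by
    rcases Nat.lt_or_ge ic m with h | h
    · exact h
    · have : ic = m := le_antisymm hicm h
      rw [this] at hic
      linarith
  have hic3 : 3 * w < d (x ic) c := by
    have h1 : 4 * w < d (x (ic + 1)) c := not_le.mp (hiclast (ic + 1) (by omega) (by omega))
    have h2 := hd.tri (x (ic + 1)) (x ic) c
    have h3 := hx ic hicm'
    rw [hd.symm] at h3
    linarith
  -- the third hub
  have hfar2 : 5 * w < d (x ic) (x m) := by
    have h1 := hd.tri (x 0) b (x m)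
    have h2 := hd.tri b c (x m)
    have h3 := hd.tri c (x ic) (x m)
    rw [hd.symm c (x ic)] at h3
    linarith
  obtain ⟨j2, a, hj2, hj2m, ha, ha1⟩ := hex ic hicm hfar2
  have n5 := hd.nonneg (x ic) a
  have n6 := hd.nonneg a (x j2)
  have hac : a ≠ c := by
    intro h
    subst h
    have h1 : 4 * w < d (x j2) a := not_le.mp (hiclast j2 hj2 hj2m)
    rw [hd.symm] at h1
    linarith
  have hab : a ≠ b := by
    intro h
    subst h
    have h1 : 4 * w < d (x j2) a := not_le.mp (hiblast j2 (by omega) hj2m)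
    rw [hd.symm] at h1
    have h2 : d (x ic) a ≤ 2 * w := by linarith
    have h3 : ic ≤ ib := by
      by_contra h4
      exact (hiblast ic (by omega) hicm) (by linarith)
    have h5 : ic = ib := by omega
    rw [h5] at h2
    linarith
  have hca : d c a ≤ 10 * w := by
    have := hd.tri c (x ic) a
    rw [hd.symm c (x ic)] at this
    linarith
  have hsub : ({a, b, c} : Finset V) ⊆ H.filter (fun y => d c y ≤ 10 * w) := by
    intro y hy
    simp only [Finset.mem_insert, Finset.mem_singleton] at hy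
    rw [Finset.mem_filter]
    rcases hy with rfl | rfl | rfl
    · exact ⟨ha, hca⟩
    · exact ⟨hb, by rw [hd.symm]; exact hbc⟩
    · exact ⟨hc, by rw [hd.self]; linarith⟩
  have h3 : ({a, b, c} : Finset V).card = 3 := by
    rw [Finset.card_eq_three]
    exact ⟨a, b, c, hab, hac, hcb.symm, rfl⟩
  have := Finset.card_le_card hsub
  have := hsp c
  omega

end HD21
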