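import Mathlib
import Pool.Agent.HD21.Chain

/-!
Hub sets which also hit the edges, and the jump lemma.
-/

namespace HD21

/-- `S` is a hub set at scale `r`: it meets every shortest path of length in `(r, 2r]`, in
particular the path that consists of a single edge of `T`, and every ball of radius `2r` contains
at most two of its points. -/
structure HubSet {V : Type*} [DecidableEq V] (d : V → V → ℝ) (T : V → V → Prop) (r : ℝ)
    (S : Finset V) : Prop where
  hit : ∀ u v, r < d u v → d u v ≤ 2 * r → ∃ c ∈ S, d u c + d c v = d u v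
  edge : ∀ u v, T u v → r < d u v → d u v ≤ 2 * r → u ∈ S ∨ v ∈ S
  sparse : ∀ v, (S.filter (fun c => d v c ≤ 2 * r)).card ≤ 2

/-- A geometric grid. -/
theorem grid {a t : ℝ} (K : ℕ) (h1 : a < t) (h2 : t ≤ a * 1.01 ^ K) :
    ∃ l < K, a * 1.01 ^ l < t ∧ t ≤ 1.01 * (a * 1.01 ^ l) := by
  induction K with
  | zero => simp at h2; linarith
  | succ K ih =>
    by_cases h : t ≤ a * 1.01 ^ K
    · obtain ⟨l, hl, h3, h4⟩ := ih h
      exact ⟨l, by omega, h3, h4⟩
    · refine ⟨K, by omega, not_le.mp h, ?_⟩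
      rw [pow_succ] at h2
      linarith

theorem jump {ι V : Type*} [DecidableEq ι] [DecidableEq V] {d : V → V → ℝ} (hd : IsPM d)
    {T : V → V → Prop} (hH : ∀ r, 0 < r → ∃ S, HubSet d T r S) {ρ : ℝ} (hρ : 0 < ρ)
    {S : Finset V} (hS : HubSet d T (0.95 * ρ) S)
    (Y : Finset V) (K N M : ℕ) (I : Finset ι) (x p q : ι → V)
    (hT : ∀ i ∈ I, T (p i) (q i))
    (hxp : ∀ i ∈ I, d (x i) (p i) ≤ 1.03 * ρ)
    (hy : ∀ i ∈ I, ∃ y ∈ Y, d (x i) (q i) = d (x i) y + d y (q i) ∧ ρ ≤ d (x i) y ∧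
      ρ ≤ d y (q i))
    (hne : ∀ i ∈ I, ∀ j ∈ I, i ≠ j → p i ≠ p j ∧ q i ≠ q j ∧ p i ≠ q j)
    (hK : ∀ i ∈ I, d (p i) (q i) ≤ 0.96 * ρ * 1.01 ^ K)
    (hN : ∀ (c : V), (I.filter (fun i => d c (x i) < ρ)).card ≤ N)
    (hI : Y.card * K * (2 * (N + M + 2) + 2) < I.card) :
    ∃ J ⊆ I, M ≤ J.card ∧ ∃ b ∈ S, ∀ i ∈ J, p i ∈ S ∧ d (x i) b ≤ 1.9 * ρ ∧ b ≠ p i ∧
      p i ≠ x i := by
  classical
  -- choose the separators and the scales
  have hyc : ∀ i, ∃ y, i ∈ I → y ∈ Y ∧ d (x i) (q i) = d (x i) y + d y (q i) ∧ ρ ≤ d (x i) y ∧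
      ρ ≤ d y (q i) := by
    intro i
    by_cases hi : i ∈ I
    · obtain ⟨y, hy1, hy2⟩ := hy i hi
      exact ⟨y, fun _ => ⟨hy1, hy2⟩⟩
    · exact ⟨x i, fun h => absurd h hi⟩
  choose yy hyy using hyc
  have hlc : ∀ i, ∃ l, i ∈ I → l < K ∧ 0.96 * ρ * 1.01 ^ l < d (p i) (q i) ∧
      d (p i) (q i) ≤ 1.01 * (0.96 * ρ * 1.01 ^ l) := by
    intro i
    by_cases hi : i ∈ I
    · have h1 := hyy i hi
      have h2 := hd.tri (x i) (p i) (q i)
      have h3 := hxp i hi
      obtain ⟨l, hl1, hl2, hl3⟩ := grid (a := 0.96 * ρ) K (t := d (p i) (q i))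
        (by linarith [h1.2.1, h1.2.2.1, h1.2.2.2]) (hK i hi)
      exact ⟨l, fun _ => ⟨hl1, hl2, hl3⟩⟩
    · exact ⟨0, fun h => absurd h hi⟩
  choose ll hll using hlc
  -- a common separator and a common scale
  obtain ⟨⟨y, l⟩, hyl, hcard1⟩ := Finset.exists_lt_card_fiber_of_mul_lt_card_of_maps_to
    (s := I) (t := Y ×ˢ Finset.range K) (f := fun i => (yy i, ll i))
    (n := 2 * (N + M + 2) + 2) (by
      intro i hi
      rw [Finset.mem_product, Finset.mem_range]
      exact ⟨(hyy i hi).1, (hll i hi).1⟩) (by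
      rw [Finset.card_product, Finset.card_range]
      exact hI)
  set I1 := I.filter (fun i => (yy i, ll i) = (y, l)) with hI1
  set τ : ℝ := 0.96 * ρ * 1.01 ^ l with hτ
  have hτ1 : 0.96 * ρ ≤ τ := by
    rw [hτ]
    have h1 : (1 : ℝ) ≤ 1.01 ^ l := one_le_pow₀ (by norm_num)
    nlinarith
  have hτ0 : 0 < τ := by linarith
  have hsub1 : ∀ i ∈ I1, i ∈ I := fun i hi => (Finset.mem_filter.mp hi).1
  have hprop1 : ∀ i ∈ I1, d (x i) (q i) = d (x i) y + d y (q i) ∧ ρ ≤ d (x i) y ∧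
      ρ ≤ d y (q i) ∧ τ < d (p i) (q i) ∧ d (p i) (q i) ≤ 1.01 * τ := by
    intro i hi
    have h1 := (Finset.mem_filter.mp hi).1
    have h2 := (Finset.mem_filter.mp hi).2
    rw [Prod.mk.injEq] at h2
    obtain ⟨h3, h4⟩ := h2
    have h5 := hyy i h1
    have h6 := hll i h1
    rw [h3] at h5
    rw [h4] at h6
    exact ⟨h5.2.1, h5.2.2.1, h5.2.2.2, h6.2.1, h6.2.2⟩
  -- the hub set at scale τ
  obtain ⟨S1, hS1⟩ := hH τ hτ0
  have hyq1 : ∀ i ∈ I1, d y (q i) ≤ 0.03 * ρ + 1.01 * τ := by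
    intro i hi
    obtain ⟨h1, h2, h3, h4, h5⟩ := hprop1 i hi
    have h6 := hd.tri (x i) (p i) (q i)
    have h7 := hxp i (hsub1 i hi)
    linarith
  have hex1 : (I1.filter (fun i => q i ∈ S1 ∨ (p i ∈ S1 ∧ d y (p i) ≤ 2 * τ))).card ≤ 2 := by
    refine le_trans (Finset.card_le_card_of_injOn (fun i => if q i ∈ S1 then q i else p i) ?_ ?_)
      (hS1.sparse y)
    · intro i hi
      have hi' := Finset.mem_filter.mp (Finset.mem_coe.mp hi)
      rw [Finset.mem_coe, Finset.mem_filter]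
      by_cases h : q i ∈ S1
      · simp only [h, if_true]
        refine ⟨trivial, ?_⟩
        have := hyq1 i hi'.1
        linarith
      · simp only [h, if_false]
        rcases hi'.2 with h' | h'
        · exact absurd h' h
        · exact h'
    · intro i hi j hj hij
      by_contra hne'
      have hi' := hsub1 i (Finset.mem_filter.mp (Finset.mem_coe.mp hi)).1
      have hj' := hsub1 j (Finset.mem_filter.mp (Finset.mem_coe.mp hj)).1
      obtain ⟨h1, h2, h3⟩ := hne i hi' j hj' hne'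
      obtain ⟨h4, h5, h6⟩ := hne j hj' i hi' (Ne.symm hne')
      simp only at hij
      split_ifs at hij
      · exact h2 hij
      · exact h6 hij.symm
      · exact h3 hij
      · exact h1 hij
  set I2 := I1.filter (fun i => ¬ (q i ∈ S1 ∨ (p i ∈ S1 ∧ d y (p i) ≤ 2 * τ))) with hI2
  have hcard2 : 2 * (N + M + 2) < I2.card := by
    have := Finset.card_filter_add_card_filter_not (s := I1)
      (fun i => q i ∈ S1 ∨ (p i ∈ S1 ∧ d y (p i) ≤ 2 * τ))
    rw [← hI2] at this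
    omega
  have hsub2 : ∀ i ∈ I2, i ∈ I1 := fun i hi => (Finset.mem_filter.mp hi).1
  have hyp2 : ∀ i ∈ I2, 2 * τ < d y (p i) := by
    intro i hi
    have h1 := (Finset.mem_filter.mp hi).2
    push Not at h1
    obtain ⟨h2, h3⟩ := h1
    obtain ⟨-, -, -, h4, h5⟩ := hprop1 i (hsub2 i hi)
    rcases hS1.edge (p i) (q i) (hT i (hsub1 i (hsub2 i hi))) h4 (by linarith) with h6 | h6
    · exact h3 h6
    · exact absurd h6 h2
  -- sizes
  have hbd : ∀ i ∈ I2, d (x i) y ≤ 1.06 * ρ ∧ d y (q i) ≤ 1.09 * ρ ∧ 1.92 * ρ < d y (p i) ∧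
      τ ≤ 1.05 * ρ := by
    intro i hi
    obtain ⟨h1, h2, h3, h4, h5⟩ := hprop1 i (hsub2 i hi)
    have h6 := hyp2 i hi
    have h7 := hxp i (hsub1 i (hsub2 i hi))
    have h8 := hyq1 i (hsub2 i hi)
    have h9 := hd.tri y (q i) (p i)
    rw [hd.symm (q i) (p i)] at h9
    have h10 := hd.tri (x i) (p i) (q i)
    have h11 := hd.tri y (x i) (p i)
    rw [hd.symm y (x i)] at h11
    refine ⟨?_, ?_, ?_, ?_⟩ <;> linarith
  -- a common hub at scale 0.95 ρ
  have hbc : ∀ i, ∃ b, i ∈ I2 → b ∈ S ∧ d (x i) b + d b y = d (x i) y := by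
    intro i
    by_cases hi : i ∈ I2
    · obtain ⟨h1, h2, h3, h4⟩ := hbd i hi
      obtain ⟨-, h5, -⟩ := hprop1 i (hsub2 i hi)
      obtain ⟨b, hb, hb'⟩ := hS.hit (x i) y (by linarith) (by linarith)
      exact ⟨b, fun _ => ⟨hb, hb'⟩⟩
    · exact ⟨y, fun h => absurd h hi⟩
  choose bb hbb using hbc
  obtain ⟨b, hbS, hcard3⟩ := Finset.exists_lt_card_fiber_of_mul_lt_card_of_maps_to
    (s := I2) (t := S.filter (fun c => d y c ≤ 2 * (0.95 * ρ))) (f := bb) (n := N + M + 2) (by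
      intro i hi
      obtain ⟨h1, h2⟩ := hbb i hi
      rw [Finset.mem_filter]
      refine ⟨h1, ?_⟩
      have h3 := (hbd i hi).1
      have h4 := hd.nonneg (x i) (bb i)
      rw [hd.symm]
      linarith) (by
      have h1 := hS.sparse y
      calc _ ≤ 2 * (N + M + 2) := Nat.mul_le_mul_right _ h1
        _ < _ := hcard2)
  set I3 := I2.filter (fun i => bb i = b) with hI3
  have hsub3 : ∀ i ∈ I3, i ∈ I2 := fun i hi => (Finset.mem_filter.mp hi).1
  have hb3 : ∀ i ∈ I3, d (x i) b + d b y = d (x i) y := by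
    intro i hi
    have h1 := (hbb i (hsub3 i hi)).2
    rwa [(Finset.mem_filter.mp hi).2] at h1
  have hyb : d y b ≤ 0.06 * ρ := by
    obtain ⟨i, hi, hi'⟩ : ∃ i ∈ I3, ρ ≤ d b (x i) := by
      by_contra hcon
      push Not at hcon
      have h1 : I3 ⊆ I.filter (fun i => d b (x i) < ρ) := by
        intro i hi
        rw [Finset.mem_filter]
        exact ⟨hsub1 i (hsub2 i (hsub3 i hi)), hcon i hi⟩
      have h2 := Finset.card_le_card h1
      have h3 := hN b
      omega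
    have h1 := hb3 i hi
    have h2 := (hbd i (hsub3 i hi)).1
    rw [hd.symm] at hi'
    rw [hd.symm]
    linarith
  -- drop the indices whose far end is a hub
  have hex3 : (I3.filter (fun i => q i ∈ S)).card ≤ 2 := by
    refine le_trans (Finset.card_le_card_of_injOn q ?_ ?_) (hS.sparse y)
    · intro i hi
      have hi' := Finset.mem_filter.mp (Finset.mem_coe.mp hi)
      rw [Finset.mem_coe, Finset.mem_filter]
      refine ⟨hi'.2, ?_⟩
      have := (hbd i (hsub3 i hi'.1)).2.1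
      linarith
    · intro i hi j hj hij
      by_contra hne'
      have hi' := hsub1 i (hsub2 i (hsub3 i (Finset.mem_filter.mp (Finset.mem_coe.mp hi)).1))
      have hj' := hsub1 j (hsub2 j (hsub3 j (Finset.mem_filter.mp (Finset.mem_coe.mp hj)).1))
      exact (hne i hi' j hj' hne').2.1 hij
  set J := I3.filter (fun i => ¬ q i ∈ S) with hJ
  have hcard4 : M ≤ J.card := by
    have := Finset.card_filter_add_card_filter_not (s := I3) (fun i => q i ∈ S)
    rw [← hJ] at this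
    omega
  refine ⟨J, fun i hi => hsub1 i (hsub2 i (hsub3 i (Finset.mem_filter.mp hi).1)), hcard4, b,
    (Finset.mem_filter.mp hbS).1, ?_⟩
  intro i hi
  obtain ⟨hi3, hqS⟩ := Finset.mem_filter.mp hi
  obtain ⟨h1, h2, h3, h4⟩ := hbd i (hsub3 i hi3)
  obtain ⟨-, h5, h6, h7, h8⟩ := hprop1 i (hsub2 i (hsub3 i hi3))
  refine ⟨?_, ?_, ?_, ?_⟩
  · rcases hS.edge (p i) (q i) (hT i (hsub1 i (hsub2 i (hsub3 i hi3)))) (by linarith)
      (by linarith) with h | h
    · exact h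
    · exact absurd h hqS
  · have h9 := hd.tri (x i) y b
    linarith
  · rintro rfl
    linarith
  · intro h
    rw [h, hd.symm] at h3
    linarith

end HD21
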