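import Mathlib
import Pool.Agent.HD21.Jump

/-!
Paths of clusters are short.
-/

namespace HD21

/-! ### Integer sequences with small steps -/

theorem mono_of_steps {c : ℕ → ℕ} {m : ℕ} (hc : ∀ i < m, c (i + 1) = c i ∨ c (i + 1) = c i + 1)
    {i j : ℕ} (hij : i ≤ j) (hj : j ≤ m) : c i ≤ c j := by
  induction j with
  | zero =>
    have : i = 0 := by omega
    rw [this]
  | succ j ih =>
    rcases Nat.lt_or_ge i (j + 1) with h | h
    · have h1 := ih (by omega) (by omega)
      have h2 := hc j (by omega)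
      omega
    · have : i = j + 1 := by omega
      rw [this]

theorem ivt {c : ℕ → ℕ} {m : ℕ} (hc : ∀ i < m, c (i + 1) = c i ∨ c (i + 1) = c i + 1)
    {t : ℕ} (h0 : c 0 ≤ t) (ht : t ≤ c m) : ∃ l ≤ m, c l = t := by
  induction m with
  | zero => exact ⟨0, le_refl _, by omega⟩
  | succ m ih =>
    by_cases h : t ≤ c m
    · obtain ⟨l, hl, hl'⟩ := ih (fun i hi => hc i (by omega)) h
      exact ⟨l, by omega, hl'⟩
    · have := hc m (by omega)
      exact ⟨m + 1, le_refl _, by omega⟩

/-- First exit from a set that meets few cells. -/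
theorem exit_cells {c : ℕ → ℕ} {m : ℕ} (hc : ∀ i < m, c (i + 1) = c i ∨ c (i + 1) = c i + 1)
    (P : ℕ → Prop) [DecidablePred P] (hc0 : c 0 = 0) (hP : P 0) {N : ℕ} (hm : N + 1 ≤ c m)
    (hcard : (((Finset.range (m + 1)).filter P).image c).card ≤ N) :
    ∃ j < m, P j ∧ ¬ P (j + 1) ∧ c (j + 1) ≤ N + 1 := by
  by_contra hcon
  push Not at hcon
  have key : ∀ l ≤ m, c l ≤ N + 1 → P l := by
    intro l
    induction l with
    | zero => intro _ _; exact hP
    | succ l ih =>
      intro hl hcl
      have h1 := hc l (by omega)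
      by_contra h2
      have := hcon l (by omega) (ih (by omega) (by omega)) h2
      omega
  have hsub : Finset.range (N + 2) ⊆ ((Finset.range (m + 1)).filter P).image c := by
    intro t ht
    rw [Finset.mem_range] at ht
    obtain ⟨l, hl, hl'⟩ := ivt hc (t := t) (by omega) (by omega)
    rw [Finset.mem_image]
    exact ⟨l, by rw [Finset.mem_filter, Finset.mem_range]; exact ⟨by omega, key l hl (by omega)⟩,
      hl'⟩
  have := Finset.card_le_card hsub
  rw [Finset.card_range] at this
  omega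

/-! ### Paths through cells -/

/-- A path `z 0, ..., z m` whose consecutive points are `T`-adjacent, running monotonically
through cells numbered `κ 0 = 0, ..., κ m = n`, with points of different cells at distance more
than `s` and all distances at most `D`. -/
structure CellPath {V : Type*} (d : V → V → ℝ) (T : V → V → Prop) (s D : ℝ) (z : ℕ → V)
    (κ : ℕ → ℕ) (m n : ℕ) : Prop where
  step : ∀ i < m, T (z i) (z (i + 1))
  inj : ∀ i ≤ m, ∀ j ≤ m, z i = z j → i = j
  zero : κ 0 = 0
  last : κ m = n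
  cell : ∀ i < m, κ (i + 1) = κ i ∨ κ (i + 1) = κ i + 1
  sep : ∀ i ≤ m, ∀ j ≤ m, κ i ≠ κ j → s < d (z i) (z j)
  diam : ∀ i ≤ m, ∀ j ≤ m, d (z i) (z j) ≤ D

/-- The cells meeting the open ball. -/
noncomputable def cellsO {V : Type*} (d : V → V → ℝ) (z : ℕ → V) (κ : ℕ → ℕ) (m : ℕ) (c : V)
    (r : ℝ) : Finset ℕ := by
  classical
  exact ((Finset.range (m + 1)).filter (fun i => d c (z i) < r)).image κ

/-- The cells meeting the closed ball. -/
noncomputable def cellsC {V : Type*} (d : V → V → ℝ) (z : ℕ → V) (κ : ℕ → ℕ) (m : ℕ) (c : V)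
    (r : ℝ) : Finset ℕ := by
  classical
  exact ((Finset.range (m + 1)).filter (fun i => d c (z i) ≤ r)).image κ

theorem mem_cellsO {V : Type*} {d : V → V → ℝ} {z : ℕ → V} {κ : ℕ → ℕ} {m : ℕ} {c : V}
    {r : ℝ} {β : ℕ} : β ∈ cellsO d z κ m c r ↔ ∃ i ≤ m, d c (z i) < r ∧ κ i = β := by
  classical
  unfold cellsO
  simp only [Finset.mem_image, Finset.mem_filter, Finset.mem_range, Nat.lt_succ_iff]
  constructor
  · rintro ⟨i, ⟨h1, h2⟩, h3⟩
    exact ⟨i, h1, h2, h3⟩
  · rintro ⟨i, h1, h2, h3⟩
    exact ⟨i, ⟨h1, h2⟩, h3⟩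

theorem mem_cellsC {V : Type*} {d : V → V → ℝ} {z : ℕ → V} {κ : ℕ → ℕ} {m : ℕ} {c : V}
    {r : ℝ} {β : ℕ} : β ∈ cellsC d z κ m c r ↔ ∃ i ≤ m, d c (z i) ≤ r ∧ κ i = β := by
  classical
  unfold cellsC
  simp only [Finset.mem_image, Finset.mem_filter, Finset.mem_range, Nat.lt_succ_iff]
  constructor
  · rintro ⟨i, ⟨h1, h2⟩, h3⟩
    exact ⟨i, h1, h2, h3⟩
  · rintro ⟨i, h1, h2, h3⟩
    exact ⟨i, ⟨h1, h2⟩, h3⟩

section

variable {V : Type*} {d : V → V → ℝ} {T : V → V → Prop} {s D : ℝ} {z : ℕ → V}
  {κ : ℕ → ℕ} {m n : ℕ}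

/-- The forward jump. -/
theorem forward (hd : IsPM d) (hP : CellPath d T s D z κ m n) {g : ℝ} (hg : 0 ≤ g) {i : ℕ}
    (hi : i ≤ m) {N : ℕ} (hN : (cellsC d z κ m (z i) g).card ≤ N) (hn : κ i + (N + 1) ≤ n) :
    ∃ j, i ≤ j ∧ j + 1 ≤ m ∧ d (z i) (z j) ≤ g ∧ g < d (z i) (z (j + 1)) ∧
      κ (j + 1) ≤ κ i + (N + 1) := by
  classical
  obtain ⟨j, hj, hPj, hnPj, hcj⟩ := exit_cells (c := fun l => κ (i + l) - κ i) (m := m - i)
    (by
      intro l hl
      have h1 := hP.cell (i + l) (by omega)
      have h2 := mono_of_steps hP.cell (i := i) (j := i + l) (by omega) (by omega)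
      have h3 : i + (l + 1) = i + l + 1 := rfl
      simp only [h3]
      omega)
    (fun l => d (z i) (z (i + l)) ≤ g) (by simp) (by simp [hd.self, hg]) (N := N)
    (by
      have h1 : i + (m - i) = m := by omega
      simp only [h1, hP.last]
      omega)
    (by
      refine le_trans ?_ hN
      have hsub : ((((Finset.range (m - i + 1)).filter (fun l => d (z i) (z (i + l)) ≤ g)).image
        (fun l => κ (i + l) - κ i)).image (fun t => t + κ i)) ⊆ cellsC d z κ m (z i) g := by
        intro t ht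
        simp only [Finset.mem_image, Finset.mem_filter, Finset.mem_range] at ht
        obtain ⟨_, ⟨l, ⟨hl1, hl2⟩, rfl⟩, rfl⟩ := ht
        rw [mem_cellsC]
        refine ⟨i + l, by omega, hl2, ?_⟩
        have h2 := mono_of_steps hP.cell (i := i) (j := i + l) (by omega) (by omega)
        omega
      have h3 := Finset.card_le_card hsub
      rwa [Finset.card_image_of_injective _ (add_left_injective (κ i))] at h3)
  refine ⟨i + j, by omega, by omega, hPj, not_le.mp hnPj, ?_⟩
  have h3 : i + (j + 1) = i + j + 1 := rfl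
  simp only [h3] at hcj
  omega

/-- The backward jump. -/
theorem backward (hd : IsPM d) (hP : CellPath d T s D z κ m n) {g : ℝ} (hg : 0 ≤ g) {i : ℕ}
    (hi : i ≤ m) {N : ℕ} (hN : (cellsC d z κ m (z i) g).card ≤ N) (hn : N + 1 ≤ κ i) :
    ∃ j, j + 1 ≤ i ∧ d (z i) (z (j + 1)) ≤ g ∧ g < d (z i) (z j) ∧
      κ i ≤ κ j + (N + 1) := by
  classical
  obtain ⟨j, hj, hPj, hnPj, hcj⟩ := exit_cells (c := fun l => κ i - κ (i - l)) (m := i)
    (by
      intro l hl
      have h1 := hP.cell (i - (l + 1)) (by omega)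
      have h2 := mono_of_steps hP.cell (i := i - (l + 1)) (j := i) (by omega) (by omega)
      have h4 := mono_of_steps hP.cell (i := i - l) (j := i) (by omega) (by omega)
      have h3 : i - (l + 1) + 1 = i - l := by omega
      rw [h3] at h1
      omega)
    (fun l => d (z i) (z (i - l)) ≤ g) (by simp) (by simp [hd.self, hg]) (N := N)
    (by
      simp only [Nat.sub_self, hP.zero]
      omega)
    (by
      refine le_trans ?_ hN
      have hinj : Set.InjOn (fun t => κ i - t) (((((Finset.range (i + 1)).filter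
        (fun l => d (z i) (z (i - l)) ≤ g)).image (fun l => κ i - κ (i - l))) : Finset ℕ) : Set ℕ) := by
        intro a ha b hb hab
        have ha' := Finset.mem_coe.mp ha
        have hb' := Finset.mem_coe.mp hb
        simp only [Finset.mem_image, Finset.mem_filter, Finset.mem_range] at ha' hb'
        obtain ⟨l, -, rfl⟩ := ha'
        obtain ⟨l', -, rfl⟩ := hb'
        have h2 := mono_of_steps hP.cell (i := i - l) (j := i) (by omega) (by omega)
        have h3 := mono_of_steps hP.cell (i := i - l') (j := i) (by omega) (by omega)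
        simp only at hab
        omega
      rw [← Finset.card_image_of_injOn hinj]
      refine Finset.card_le_card ?_
      intro t ht
      simp only [Finset.mem_image, Finset.mem_filter, Finset.mem_range] at ht
      obtain ⟨_, ⟨l, ⟨hl1, hl2⟩, rfl⟩, rfl⟩ := ht
      rw [mem_cellsC]
      refine ⟨i - l, by omega, hl2, ?_⟩
      have h2 := mono_of_steps hP.cell (i := i - l) (j := i) (by omega) (by omega)
      omega)
  refine ⟨i - (j + 1), by omega, ?_, not_le.mp hnPj, ?_⟩
  · have h3 : i - (j + 1) + 1 = i - j := by omega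
    rw [h3]
    exact hPj
  · have h2 := mono_of_steps hP.cell (i := i - (j + 1)) (j := i) (by omega) (by omega)
    omega

end

end HD21
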