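import Mathlib

/-!
All definitions used in the statements: weighted graphs, highway dimension, the two optimisation
problems, treewidth, single-linkage clusters and the host graphs.
-/

namespace HD21

open SimpleGraph

variable {V : Type*}

/-! ### Weighted graphs and highway dimension -/

/-- The total weight of a walk. -/
noncomputable def wlen {G : SimpleGraph V} (wt : Sym2 V → ℝ) {u v : V} (p : G.Walk u v) : ℝ :=
  (p.edges.map wt).sum

/-- The shortest path distance. -/
noncomputable def gdist (G : SimpleGraph V) (wt : Sym2 V → ℝ) (u v : V) : ℝ :=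
  sInf {x | ∃ p : G.Walk u v, x = wlen wt p}

/-- `p` is a shortest path: a path whose weight is the distance of its end points. -/
def IsShortest (G : SimpleGraph V) (wt : Sym2 V → ℝ) {u v : V} (p : G.Walk u v) : Prop :=
  p.IsPath ∧ wlen wt p = gdist G wt u v

/-- `S` is a shortest path cover for scale `r`: it meets the vertex set of every shortest path
whose length lies in `(r, 2r]`. -/
def IsSPC (G : SimpleGraph V) (wt : Sym2 V → ℝ) (r : ℝ) (S : Set V) : Prop :=
  ∀ (u v : V) (p : G.Walk u v), IsShortest G wt p → r < wlen wt p → wlen wt p ≤ 2 * r →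
    ∃ x ∈ S, x ∈ p.support

/-- `S` is locally `h`-sparse at scale `r`: every ball of radius `2r` contains at most `h` of its
vertices. -/
def LocallySparse (G : SimpleGraph V) (wt : Sym2 V → ℝ) (r : ℝ) (h : ℕ) (S : Set V) : Prop :=
  ∀ v, (S ∩ {x | gdist G wt v x ≤ 2 * r}).ncard ≤ h

/-- The highway dimension is at most `h`. -/
def HighwayDimLE (G : SimpleGraph V) (wt : Sym2 V → ℝ) (h : ℕ) : Prop :=
  ∀ r > 0, ∃ S : Set V, IsSPC G wt r S ∧ LocallySparse G wt r h S

/-! ### The two optimisation problems -/

/-- The weights of the closed walks that visit every vertex. -/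
def tourWeights (G : SimpleGraph V) (wt : Sym2 V → ℝ) : Set ℝ :=
  {x | ∃ (v : V) (p : G.Walk v v), (∀ u, u ∈ p.support) ∧ x = wlen wt p}

/-- TSP: the minimum weight of a closed walk visiting every vertex. -/
noncomputable def tsp (G : SimpleGraph V) (wt : Sym2 V → ℝ) : ℝ := sInf (tourWeights G wt)

/-- The weights of the connected subgraphs that contain the terminals `R`. -/
noncomputable def steinerWeights (G : SimpleGraph V) (wt : Sym2 V → ℝ) (R : Set V) : Set ℝ :=
  {x | ∃ H : G.Subgraph, H.Connected ∧ R ⊆ H.verts ∧ x = ∑ᶠ e ∈ H.edgeSet, wt e}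

/-- STP: the minimum weight of a connected subgraph containing the terminals `R`. -/
noncomputable def stp (G : SimpleGraph V) (wt : Sym2 V → ℝ) (R : Set V) : ℝ :=
  sInf (steinerWeights G wt R)

/-! ### Treewidth -/

/-- `H` has treewidth at most `t`, in elimination-order form: `pos` is an elimination order, and
`A v` is a set of at most `t` later vertices which becomes a clique of the completed graph, such
that every edge of `H` is covered. -/
def TreewidthLE (H : SimpleGraph V) (t : ℕ) : Prop :=
  ∃ (pos : V → ℕ) (A : V → Finset V), Function.Injective pos ∧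
    (∀ v, (A v).card ≤ t) ∧ (∀ v, ∀ u ∈ A v, pos v < pos u) ∧
    (∀ v, ∀ a ∈ A v, ∀ b ∈ A v, pos a < pos b → b ∈ A a) ∧
    (∀ u v, H.Adj u v → pos u < pos v → v ∈ A u)

/-! ### Single-linkage clusters -/

/-- `u` and `v` are joined by a chain of steps of distance at most `s` (they lie in the same
single-linkage cluster at threshold `s`). -/
def Chained (d : V → V → ℝ) (s : ℝ) (u v : V) : Prop :=
  Relation.ReflTransGen (fun a b => d a b ≤ s) u v

theorem Chained.refl (d : V → V → ℝ) (s : ℝ) (u : V) : Chained d s u u :=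
  Relation.ReflTransGen.refl

/-- Every single-linkage cluster at threshold `s` has diameter at most `C * s`. -/
def UD (C : ℝ) (d : V → V → ℝ) : Prop :=
  ∀ s, 0 ≤ s → ∀ u v, Chained d s u v → d u v ≤ C * s

open Classical in
/-- The least element of the single-linkage cluster of `u` at threshold `s`. -/
noncomputable def rep [Fintype V] [LinearOrder V] (d : V → V → ℝ) (s : ℝ) (u : V) : V :=
  (Finset.univ.filter (fun v => Chained d s u v)).min'
    ⟨u, by simpa using Chained.refl d s u⟩

/-- The representatives of level `i`: level `0` is `V` itself, and level `i + 1` consists of the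
least elements of the clusters at threshold `s i`. -/
noncomputable def lev [Fintype V] [LinearOrder V] (d : V → V → ℝ) (s : ℕ → ℝ) : ℕ → V → V
  | 0 => id
  | i + 1 => rep d (s i)

/-! ### Host graphs -/

/-- `u` and `v` are adjacent and the edge is a shortest path. -/
def Tight (G : SimpleGraph V) (wt : Sym2 V → ℝ) (u v : V) : Prop :=
  G.Adj u v ∧ wt s(u, v) = gdist G wt u v

/-- `a` and `b` are representatives of level `i` whose clusters are joined by a `T`-edge. -/
def CellAdj (L : ℕ → V → V) (T : V → V → Prop) (i : ℕ) (a b : V) : Prop :=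
  ∃ u v, (T u v ∨ T v u) ∧ L i u = a ∧ L i v = b

theorem CellAdj.symm {L : ℕ → V → V} {T : V → V → Prop} {i : ℕ} {a b : V}
    (h : CellAdj L T i a b) : CellAdj L T i b a := by
  obtain ⟨u, v, h1, h2, h3⟩ := h
  exact ⟨v, u, h1.symm, h3, h2⟩

/-- The host graph: for every level `i < N` and every cluster of level `i + 1`, the star from its
representative to the representatives of its subclusters of level `i`, and for `i ≥ 1` also the
pairs of representatives of subclusters joined by a `T`-edge. -/
def host (L : ℕ → V → V) (T : V → V → Prop) (N : ℕ) : SimpleGraph V where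
  Adj a b := a ≠ b ∧ ∃ i < N, L i a = a ∧ L i b = b ∧ L (i + 1) a = L (i + 1) b ∧
    (L (i + 1) b = a ∨ L (i + 1) a = b ∨ (1 ≤ i ∧ CellAdj L T i a b))
  symm := ⟨fun a b h => by
    obtain ⟨h1, i, hi, h2, h3, h4, h5⟩ := h
    refine ⟨h1.symm, i, hi, h3, h2, h4.symm, ?_⟩
    rcases h5 with h5 | h5 | ⟨h5, h6⟩
    · exact Or.inr (Or.inl h5)
    · exact Or.inl h5
    · exact Or.inr (Or.inr ⟨h5, h6.symm⟩)⟩
  loopless := ⟨fun a h => h.1 rfl⟩

/-- The weights given by a distance. -/
noncomputable def dwt (d : V → V → ℝ) : Sym2 V → ℝ :=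
  Sym2.lift ⟨fun a b => max (d a b) (d b a), fun _ _ => max_comm _ _⟩

/-- The scales: level `i` of the hierarchy with offset `j` has threshold `σ * 2 ^ (j + k * i)`. -/
noncomputable def scale (σ : ℝ) (k j i : ℕ) : ℝ := σ * 2 ^ (j + k * i)

/-- `σ` and `N` are admissible: `σ * 2 ^ k` is at most the least positive distance, and
`σ * 2 ^ (k * N)` is at least the diameter. -/
def Adm (d : V → V → ℝ) (k : ℕ) (σ : ℝ) (N : ℕ) : Prop :=
  0 < σ ∧ (∀ u v, 0 < d u v → σ * 2 ^ k ≤ d u v) ∧ (∀ u v, d u v ≤ σ * 2 ^ (k * N))

/-- The host graph number `j`. -/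
noncomputable def hostGraph [Fintype V] [LinearOrder V] (G : SimpleGraph V)
    (wt : Sym2 V → ℝ) (k : ℕ) (σ : ℝ) (N : ℕ) (j : Fin k) : SimpleGraph V :=
  host (lev (gdist G wt) (scale σ k j)) (Tight G wt) (N + 1)

end HD21
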