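import Mathlib
import Pool.Agent.HD21.Chain
import Pool.Agent.HD21.Defs

/-!
Weighted graphs, shortest path distance, shortest path covers and highway dimension.
-/

namespace HD21

open SimpleGraph

variable {V : Type*}

section basics

variable {G : SimpleGraph V} {wt : Sym2 V → ℝ}

@[simp] theorem wlen_nil (u : V) : wlen wt (Walk.nil : G.Walk u u) = 0 := by simp [wlen]

@[simp] theorem wlen_cons {u v x : V} (h : G.Adj u v) (p : G.Walk v x) :
    wlen wt (Walk.cons h p) = wt s(u, v) + wlen wt p := by simp [wlen]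

theorem wlen_append {u v x : V} (p : G.Walk u v) (q : G.Walk v x) :
    wlen wt (p.append q) = wlen wt p + wlen wt q := by simp [wlen, Walk.edges_append]

theorem wlen_reverse {u v : V} (p : G.Walk u v) : wlen wt p.reverse = wlen wt p := by
  simp [wlen, Walk.edges_reverse, List.map_reverse, List.sum_reverse]

theorem sum_map_nonneg (h0 : ∀ e, 0 ≤ wt e) (l : List (Sym2 V)) : 0 ≤ (l.map wt).sum := by
  apply List.sum_nonneg
  intro x hx
  obtain ⟨e, -, rfl⟩ := List.mem_map.mp hx
  exact h0 e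

theorem wlen_nonneg (h0 : ∀ e, 0 ≤ wt e) {u v : V} (p : G.Walk u v) : 0 ≤ wlen wt p :=
  sum_map_nonneg h0 _

theorem toFinset_sum_le {α : Type*} [DecidableEq α] (f : α → ℝ) (h0 : ∀ e, 0 ≤ f e)
    (l : List α) : ∑ e ∈ l.toFinset, f e ≤ (l.map f).sum := by
  induction l with
  | nil => simp
  | cons a l ih =>
    rw [List.toFinset_cons, List.map_cons, List.sum_cons]
    by_cases ha : a ∈ l.toFinset
    · rw [Finset.insert_eq_of_mem ha]
      linarith [h0 a]
    · rw [Finset.sum_insert ha]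
      linarith

theorem wlen_bypass_le [DecidableEq V] (h0 : ∀ e, 0 ≤ wt e) {u v : V} (p : G.Walk u v) :
    wlen wt p.bypass ≤ wlen wt p := by
  classical
  have h1 : wlen wt p.bypass = ∑ e ∈ p.bypass.edges.toFinset, wt e := by
    rw [List.sum_toFinset _ (p.bypass_isPath.isTrail.edges_nodup)]
    rfl
  rw [h1]
  refine le_trans (Finset.sum_le_sum_of_subset_of_nonneg ?_ (fun i _ _ => h0 i))
    (toFinset_sum_le wt h0 p.edges)
  intro e he
  rw [List.mem_toFinset] at he ⊢
  exact p.edges_bypass_subset_edges he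

/-- Existence of shortest paths. -/
theorem exists_shortest [Finite V] (h0 : ∀ e, 0 ≤ wt e) {u v : V} (hr : G.Reachable u v) :
    ∃ p : G.Walk u v, p.IsPath ∧ wlen wt p = gdist G wt u v ∧ ∀ q : G.Walk u v, wlen wt p ≤ wlen wt q := by
  classical
  haveI := Fintype.ofFinite V
  set T : Set ℝ := {x | ∃ p : G.Walk u v, p.IsPath ∧ x = wlen wt p} with hT
  have hfin : T.Finite := by
    refine Set.Finite.subset (Set.finite_range
      (fun l : {l : List (Sym2 V) // l.Nodup} => (l.1.map wt).sum)) ?_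
    rintro x ⟨p, hp, rfl⟩
    exact ⟨⟨p.edges, hp.isTrail.edges_nodup⟩, rfl⟩
  have hne : T.Nonempty := by
    obtain ⟨q⟩ := hr
    exact ⟨_, q.bypass, q.bypass_isPath, rfl⟩
  obtain ⟨x, ⟨p, hp, hx⟩, hmin⟩ := Set.exists_min_image T id hfin hne
  have hall : ∀ q : G.Walk u v, wlen wt p ≤ wlen wt q := by
    intro q
    refine le_trans ?_ (wlen_bypass_le h0 q)
    have := hmin (wlen wt q.bypass) ⟨q.bypass, q.bypass_isPath, rfl⟩
    simpa [hx] using this
  refine ⟨p, hp, ?_, hall⟩
  refine le_antisymm ?_ ?_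
  · refine le_csInf ⟨_, p, rfl⟩ ?_
    rintro y ⟨q, rfl⟩
    exact hall q
  · exact csInf_le ⟨0, by rintro y ⟨q, rfl⟩; exact wlen_nonneg h0 q⟩ ⟨p, rfl⟩

theorem gdist_le_wlen (h0 : ∀ e, 0 ≤ wt e) {u v : V} (p : G.Walk u v) :
    gdist G wt u v ≤ wlen wt p :=
  csInf_le ⟨0, by rintro y ⟨q, rfl⟩; exact wlen_nonneg h0 q⟩ ⟨p, rfl⟩

theorem gdist_adj_le (h0 : ∀ e, 0 ≤ wt e) {u v : V} (h : G.Adj u v) :
    gdist G wt u v ≤ wt s(u, v) := by
  have := gdist_le_wlen (wt := wt) h0 (Walk.cons h Walk.nil)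
  simpa using this

theorem isPM_gdist [Finite V] (h0 : ∀ e, 0 ≤ wt e) (hc : G.Connected) : IsPM (gdist G wt) where
  self u := by
    refine le_antisymm ?_ ?_
    · simpa using gdist_le_wlen (wt := wt) h0 (Walk.nil : G.Walk u u)
    · obtain ⟨p, -, hp, -⟩ := exists_shortest h0 (hc.preconnected u u)
      rw [← hp]
      exact wlen_nonneg h0 p
  symm u v := by
    obtain ⟨p, -, hp, -⟩ := exists_shortest h0 (hc.preconnected u v)
    obtain ⟨q, -, hq, -⟩ := exists_shortest h0 (hc.preconnected v u)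
    refine le_antisymm ?_ ?_
    · rw [← hq, ← wlen_reverse]
      exact gdist_le_wlen h0 _
    · rw [← hp, ← wlen_reverse]
      exact gdist_le_wlen h0 _
  tri u v x := by
    obtain ⟨p, -, hp, -⟩ := exists_shortest h0 (hc.preconnected u v)
    obtain ⟨q, -, hq, -⟩ := exists_shortest h0 (hc.preconnected v x)
    rw [← hp, ← hq, ← wlen_append]
    exact gdist_le_wlen h0 _
  nonneg u v := by
    obtain ⟨p, -, hp, -⟩ := exists_shortest h0 (hc.preconnected u v)
    rw [← hp]
    exact wlen_nonneg h0 p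

/-- Hubs lie on shortest paths. -/
theorem hub_split [Finite V] (h0 : ∀ e, 0 ≤ wt e) (hc : G.Connected) {r : ℝ}
    {S : Set V} (hS : IsSPC G wt r S) (u v : V) (h1 : r < gdist G wt u v)
    (h2 : gdist G wt u v ≤ 2 * r) :
    ∃ c ∈ S, gdist G wt u c + gdist G wt c v = gdist G wt u v := by
  classical
  obtain ⟨p, hp, hpd, -⟩ := exists_shortest h0 (hc.preconnected u v)
  obtain ⟨c, hcS, hcp⟩ := hS u v p ⟨hp, hpd⟩ (by rw [hpd]; exact h1) (by rw [hpd]; exact h2)
  refine ⟨c, hcS, le_antisymm ?_ ((isPM_gdist h0 hc).tri u c v)⟩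
  have h3 := gdist_le_wlen (wt := wt) h0 (p.takeUntil c hcp)
  have h4 := gdist_le_wlen (wt := wt) h0 (p.dropUntil c hcp)
  have h5 : wlen wt p = wlen wt (p.takeUntil c hcp) + wlen wt (p.dropUntil c hcp) := by
    rw [← wlen_append, Walk.take_spec]
  linarith

/-- In a graph of highway dimension at most 2, chains with steps at most `w` are short. -/
theorem chain_of_hd [Finite V] (h0 : ∀ e, 0 ≤ wt e) (hc : G.Connected)
    (hh : HighwayDimLE G wt 2) {w : ℝ} (hw : 0 < w) (x : ℕ → V) (m : ℕ)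
    (hx : ∀ i < m, gdist G wt (x i) (x (i + 1)) ≤ w) :
    gdist G wt (x 0) (x m) ≤ 25 * w := by
  classical
  haveI := Fintype.ofFinite V
  obtain ⟨S, hS, hsp⟩ := hh (5 * w) (by linarith)
  refine chain_bound (isPM_gdist h0 hc) hw S.toFinset ?_ ?_ x m hx
  · intro u v h1 h2
    obtain ⟨c, hcS, hcc⟩ := hub_split h0 hc hS u v h1 (by linarith)
    exact ⟨c, by simpa using hcS, hcc⟩
  · intro v
    have h3 := hsp v
    rw [Set.ncard_eq_toFinset_card'] at h3
    refine le_trans (Finset.card_le_card ?_) h3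
    intro c hc'
    simp only [Finset.mem_filter, Set.mem_toFinset] at hc'
    simp only [Set.mem_toFinset, Set.mem_inter_iff, Set.mem_setOf_eq]
    exact ⟨hc'.1, by linarith [hc'.2]⟩

end basics

end HD21
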