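import Mathlib
import Pool.Agent.HD21.Graph

/-!
Single-linkage clusters, the pieces of the hierarchy and the induced distance.
-/

namespace HD21

variable {V : Type*}

theorem Chained.symm {d : V → V → ℝ} (hd : IsPM d) {s : ℝ} {u v : V} (h : Chained d s u v) :
    Chained d s v u := by
  unfold Chained at h ⊢
  induction h with
  | refl => exact Relation.ReflTransGen.refl
  | tail _ hbc ih => exact Relation.ReflTransGen.head (by rw [hd.symm]; exact hbc) ih

theorem Chained.trans {d : V → V → ℝ} {s : ℝ} {u v x : V} (h : Chained d s u v)
    (h' : Chained d s v x) : Chained d s u x := Relation.ReflTransGen.trans h h'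

theorem Chained.mono {d : V → V → ℝ} {s t : ℝ} (hst : s ≤ t) {u v : V} (h : Chained d s u v) :
    Chained d t u v := by
  unfold Chained at h ⊢
  induction h with
  | refl => exact Relation.ReflTransGen.refl
  | tail _ hbc ih => exact Relation.ReflTransGen.tail ih (le_trans hbc hst)

theorem Chained.single {d : V → V → ℝ} {s : ℝ} {u v : V} (h : d u v ≤ s) : Chained d s u v :=
  Relation.ReflTransGen.single h

/-- A chain as a sequence. -/
theorem Chained.exists_seq {d : V → V → ℝ} {s : ℝ} {u v : V} (h : Chained d s u v) :
    ∃ (x : ℕ → V) (m : ℕ), x 0 = u ∧ x m = v ∧ ∀ i < m, d (x i) (x (i + 1)) ≤ s := by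
  induction h with
  | refl => exact ⟨fun _ => u, 0, rfl, rfl, by intro i hi; omega⟩
  | @tail b c _ hbc ih =>
    obtain ⟨x, m, hx0, hxm, hx⟩ := ih
    refine ⟨fun i => if i ≤ m then x i else c, m + 1, by simp [hx0], by simp, ?_⟩
    intro i hi
    rcases Nat.lt_or_ge i m with h | h
    · have h1 : i ≤ m := h.le
      have h2 : i + 1 ≤ m := h
      simp only [h1, h2, if_true]
      exact hx i h
    · have h1 : i = m := by omega
      subst h1
      simp only [le_refl, if_true]
      rw [if_neg (by omega), hxm]
      exact hbc

/-- Highway dimension at most 2 implies the cluster property with constant `25`. -/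
theorem ud_of_hd [Finite V] {G : SimpleGraph V} {wt : Sym2 V → ℝ} (h0 : ∀ e, 0 ≤ wt e)
    (hc : G.Connected) (hh : HighwayDimLE G wt 2) : UD 25 (gdist G wt) := by
  have key : ∀ s, 0 < s → ∀ u v, Chained (gdist G wt) s u v → gdist G wt u v ≤ 25 * s := by
    intro s hs u v h
    obtain ⟨x, m, hx0, hxm, hx⟩ := h.exists_seq
    rw [← hx0, ← hxm]
    exact chain_of_hd h0 hc hh hs x m hx
  intro s hs u v h
  rcases hs.lt_or_eq with h1 | h1
  · exact key s h1 u v h
  · subst h1
    refine le_of_forall_pos_le_add ?_
    intro ε hε
    have := key (ε / 25) (by positivity) u v (h.mono (by positivity))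
    linarith

/-! ### Abstract hierarchies -/

/-- A hierarchy of representatives. -/
structure Hier (L : ℕ → V → V) : Prop where
  zero : ∀ u, L 0 u = u
  idem : ∀ i u, L i (L i u) = L i u
  up : ∀ i u, L (i + 1) (L i u) = L (i + 1) u
  down : ∀ i u, L i (L (i + 1) u) = L (i + 1) u

variable [Fintype V] [DecidableEq V]

/-- The piece of the hierarchy below the cluster of level `i + 1` represented by `c`: the
representatives of its subclusters of level `i` (and just `c` if `c` represents no cluster). -/
def piece (L : ℕ → V → V) (i : ℕ) (c : V) : Finset V :=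
  insert c ((Finset.univ.filter (fun u => L (i + 1) u = c)).image (L i))

/-- The projection to a piece. -/
def proj (L : ℕ → V → V) (i : ℕ) (c : V) (u : V) : V :=
  if L (i + 1) u = c then L i u else c

theorem proj_mem (L : ℕ → V → V) (i : ℕ) (c u : V) : proj L i c u ∈ piece L i c := by
  unfold proj piece
  split_ifs with h
  · exact Finset.mem_insert_of_mem (Finset.mem_image_of_mem _ (by simpa using h))
  · exact Finset.mem_insert_self _ _

theorem proj_of_mem {L : ℕ → V → V} (hL : Hier L) {i : ℕ} {c u : V} (h : u ∈ piece L i c) :
    proj L i c u = u := by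
  unfold piece at h
  rcases Finset.mem_insert.mp h with rfl | h
  · unfold proj
    split_ifs with h1
    · rw [← h1, hL.down]
    · rfl
  · obtain ⟨v, hv, rfl⟩ := Finset.mem_image.mp h
    simp only [Finset.mem_filter, Finset.mem_univ, true_and] at hv
    unfold proj
    rw [hL.up, if_pos hv, hL.idem]

/-- The contribution of level `i` to the induced distance. -/
theorem sum_proj {L : ℕ → V → V} {d : V → V → ℝ} (hd : IsPM d) (i : ℕ) (u v : V) :
    ∑ c, d (proj L i c u) (proj L i c v) =
      if L (i + 1) u = L (i + 1) v then d (L i u) (L i v)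
      else d (L i u) (L (i + 1) u) + d (L (i + 1) v) (L i v) := by
  split_ifs with h
  · rw [Finset.sum_eq_single (L (i + 1) u)]
    · unfold proj
      rw [if_pos rfl, if_pos h.symm]
    · intro c _ hc
      unfold proj
      rw [if_neg (fun h' => hc h'.symm), if_neg (fun h' => hc (by rw [← h', h]))]
      exact hd.self c
    · intro h'
      exact absurd (Finset.mem_univ _) h'
  · have : ∀ c, d (proj L i c u) (proj L i c v) =
        (if c = L (i + 1) u then d (L i u) (L (i + 1) u) else 0) +
        (if c = L (i + 1) v then d (L (i + 1) v) (L i v) else 0) := by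
      intro c
      unfold proj
      by_cases h1 : L (i + 1) u = c
      · subst h1
        rw [if_pos rfl, if_neg (fun h' => h h'.symm), if_pos rfl, if_neg h, add_zero]
      · by_cases h2 : L (i + 1) v = c
        · subst h2
          rw [if_neg h1, if_pos rfl, if_neg (fun h' => h h'.symm), if_pos rfl, zero_add]
        · rw [if_neg h1, if_neg h2, if_neg (fun h' => h1 h'.symm), if_neg (fun h' => h2 h'.symm),
            hd.self, add_zero]
    rw [Finset.sum_congr rfl (fun c _ => this c), Finset.sum_add_distrib]
    simp

/-- The induced distance dominates `d`. -/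
theorem le_sum_proj {L : ℕ → V → V} (hL : Hier L) {d : V → V → ℝ} (hd : IsPM d) (N : ℕ)
    (u v : V) (htop : L N u = L N v) :
    d u v ≤ ∑ i ∈ Finset.range N, ∑ c, d (proj L i c u) (proj L i c v) := by
  have key : ∀ n, d u v ≤ ∑ i ∈ Finset.range n, ∑ c, d (proj L i c u) (proj L i c v)
      + d (L n u) (L n v) := by
    intro n
    induction n with
    | zero => simp [hL.zero]
    | succ n ih =>
      rw [Finset.sum_range_succ, sum_proj hd n u v]
      have : d (L n u) (L n v) ≤ (if L (n + 1) u = L (n + 1) v then d (L n u) (L n v)
          else d (L n u) (L (n + 1) u) + d (L (n + 1) v) (L n v)) +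
          d (L (n + 1) u) (L (n + 1) v) := by
        split_ifs with h
        · have := hd.nonneg (L (n + 1) u) (L (n + 1) v)
          linarith
        · have h1 := hd.tri (L n u) (L (n + 1) u) (L n v)
          have h2 := hd.tri (L (n + 1) u) (L (n + 1) v) (L n v)
          linarith
      linarith
  have := key N
  rw [htop, hd.self] at this
  linarith

/-! ### The hierarchy of single-linkage clusters -/

section clusters

variable {V : Type*} [Fintype V] [LinearOrder V]

theorem rep_chained (d : V → V → ℝ) (s : ℝ) (u : V) : Chained d s u (rep d s u) := by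
  classical
  have h := Finset.min'_mem (Finset.univ.filter (fun v => Chained d s u v))
    ⟨u, by simpa using Chained.refl d s u⟩
  have h2 := (Finset.mem_filter.mp h).2
  unfold rep
  convert h2

theorem rep_le {d : V → V → ℝ} {s : ℝ} {u v : V} (h : Chained d s u v) : rep d s u ≤ v := by
  classical
  have h2 := Finset.min'_le (Finset.univ.filter (fun v => Chained d s u v)) v
    (Finset.mem_filter.mpr ⟨Finset.mem_univ _, h⟩)
  unfold rep
  convert h2

theorem rep_eq_iff {d : V → V → ℝ} (hd : IsPM d) {s : ℝ} {u v : V} :
    rep d s u = rep d s v ↔ Chained d s u v := by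
  constructor
  · intro h
    have h1 := rep_chained d s u
    have h2 := (rep_chained d s v).symm hd
    rw [← h] at h2
    exact h1.trans h2
  · intro h
    refine le_antisymm (rep_le (h.trans (rep_chained d s v))) (rep_le ?_)
    exact (h.symm hd).trans (rep_chained d s u)

theorem hier_lev {d : V → V → ℝ} (hd : IsPM d) {s : ℕ → ℝ} (hs : Monotone s) :
    Hier (lev d s) where
  zero u := rfl
  idem i u := by
    cases i with
    | zero => rfl
    | succ i => exact (rep_eq_iff hd).mpr ((rep_chained d (s i) u).symm hd)
  up i u := by
    cases i with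
    | zero => rfl
    | succ i =>
      refine (rep_eq_iff hd).mpr (Chained.symm hd ?_)
      exact (rep_chained d (s i) u).mono (hs (Nat.le_succ i))
  down i u := by
    cases i with
    | zero => rfl
    | succ i =>
      refine le_antisymm (rep_le (Chained.refl _ _ _)) ?_
      have h1 : Chained d (s i) (rep d (s (i + 1)) u) (rep d (s i) (rep d (s (i + 1)) u)) :=
        rep_chained _ _ _
      refine rep_le ?_
      exact (rep_chained d (s (i + 1)) u).trans (h1.mono (hs (Nat.le_succ i)))

/-- Upper bound for the induced distance. -/
theorem sum_proj_le {d : V → V → ℝ} (hd : IsPM d) {C : ℝ} (hC : 0 ≤ C) (hU : UD C d) {s : ℕ → ℝ}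
    (hs : Monotone s) (hs0 : ∀ i, 0 ≤ s i) (N : ℕ) (u v : V) :
    ∑ i ∈ Finset.range N, ∑ c, d (proj (lev d s) i c u) (proj (lev d s) i c v) ≤
      d u v + 4 * C * ∑ i ∈ Finset.range N, (if s i < d u v then s i else 0) := by
  classical
  set J : ℕ → ℝ := fun i => if s i < d u v then s i else 0 with hJ
  have hJ0 : ∀ i, 0 ≤ J i := by
    intro i
    simp only [hJ]
    split_ifs
    · exact hs0 i
    · exact le_refl _
  have hJs : ∀ i, lev d s (i + 1) u ≠ lev d s (i + 1) v → J i = s i := by
    intro i hi
    simp only [hJ]
    rw [if_pos]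
    by_contra h
    exact hi ((rep_eq_iff hd).mpr (Chained.single (not_lt.mp h)))
  have hsum0 : ∀ n, 0 ≤ ∑ i ∈ Finset.range n, J i := fun n => Finset.sum_nonneg (fun i _ => hJ0 i)
  have hH := hier_lev hd hs
  have hstep : ∀ i x, d (lev d s i x) (lev d s (i + 1) x) ≤ C * s i := by
    intro i x
    refine hU (s i) (hs0 i) _ _ ?_
    refine (rep_eq_iff hd).mp ?_
    change lev d s (i + 1) (lev d s i x) = lev d s (i + 1) (lev d s (i + 1) x)
    rw [hH.up, hH.idem]
  have key : ∀ n, ∑ i ∈ Finset.range n, ∑ c, d (proj (lev d s) i c u) (proj (lev d s) i c v) ≤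
      if lev d s n u = lev d s n v then d u v + 4 * C * ∑ i ∈ Finset.range n, J i
      else 2 * C * ∑ i ∈ Finset.range n, J i := by
    intro n
    induction n with
    | zero =>
      simp only [Finset.range_zero, Finset.sum_empty, mul_zero, add_zero]
      split_ifs
      · exact hd.nonneg u v
      · exact le_refl _
    | succ n ih =>
      rw [Finset.sum_range_succ, sum_proj hd n u v, Finset.sum_range_succ]
      by_cases h1 : lev d s n u = lev d s n v
      · have h2 : lev d s (n + 1) u = lev d s (n + 1) v := by
          rw [← hH.up, h1, hH.up]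
        rw [if_pos h1] at ih
        rw [if_pos h2, if_pos h2, h1, hd.self]
        have h3 : 0 ≤ 4 * C * J n := by have := hJ0 n; positivity
        linarith
      · rw [if_neg h1] at ih
        by_cases h2 : lev d s (n + 1) u = lev d s (n + 1) v
        · rw [if_pos h2, if_pos h2]
          have h5 : 0 ≤ 4 * C * J n := by have := hJ0 n; positivity
          cases n with
          | zero =>
            simp only [Finset.range_zero, Finset.sum_empty, mul_zero] at ih ⊢
            have h6 : d (lev d s 0 u) (lev d s 0 v) = d u v := rfl
            rw [h6]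
            linarith
          | succ n =>
            have hJn := hJs n h1
            have h6 : ∀ x, d x (lev d s (n + 1) x) ≤ C * s n := fun x =>
              hU (s n) (hs0 n) _ _ (rep_chained d (s n) x)
            have h7 := hd.tri (lev d s (n + 1) u) u (lev d s (n + 1) v)
            have h8 := hd.tri u v (lev d s (n + 1) v)
            have h9 := h6 u
            have h10 := h6 v
            rw [hd.symm] at h9
            rw [Finset.sum_range_succ (fun i => J i) n, hJn] at ih
            rw [Finset.sum_range_succ (fun i => J i) n, hJn]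
            have h11 : 0 ≤ 2 * C * ∑ i ∈ Finset.range n, J i := by
              have := hsum0 n
              positivity
            linarith
        · rw [if_neg h2, if_neg h2, hJs n h2]
          have h3 := hstep n u
          have h4 := hstep n v
          rw [hd.symm] at h4
          linarith
  refine le_trans (key N) ?_
  split_ifs
  · exact le_refl _
  · have h1 := hsum0 N
    have h2 := hd.nonneg u v
    have h3 : 0 ≤ 2 * C * ∑ i ∈ Finset.range N, J i := by positivity
    have h4 : (∑ i ∈ Finset.range N, (if s i < d u v then s i else 0)) =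
      ∑ i ∈ Finset.range N, J i := rfl
    rw [h4]
    linarith

/-- Aspect ratio of the pieces. -/
theorem piece_aspect {d : V → V → ℝ} (hd : IsPM d) {C : ℝ} (hU : UD C d) {s : ℕ → ℝ}
    (hs : Monotone s) (hs0 : ∀ i, 0 ≤ s i) (i : ℕ) (c : V) :
    (∀ a ∈ piece (lev d s) (i + 1) c, ∀ b ∈ piece (lev d s) (i + 1) c, a ≠ b → s i < d a b) ∧
    (∀ a ∈ piece (lev d s) i c, ∀ b ∈ piece (lev d s) i c, d a b ≤ C * s i) := by
  have hH := hier_lev hd hs
  constructor
  · intro a ha b hb hab
    by_contra h
    have h1 : lev d s (i + 1) a = lev d s (i + 1) b :=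
      (rep_eq_iff hd).mpr (Chained.single (not_lt.mp h))
    have h2 : ∀ x ∈ piece (lev d s) (i + 1) c, x = lev d s (i + 1) x ∨ (x = c ∧ ∀ y, lev d s (i + 2) y ≠ c) := by
      intro x hx
      unfold piece at hx
      rcases Finset.mem_insert.mp hx with rfl | hx
      · by_cases h3 : ∃ y, lev d s (i + 2) y = x
        · obtain ⟨y, rfl⟩ := h3
          left
          exact (hH.down (i + 1) y).symm
        · right
          push Not at h3
          exact ⟨rfl, h3⟩
      · obtain ⟨v, -, rfl⟩ := Finset.mem_image.mp hx
        left
        exact (hH.idem (i + 1) v).symm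
    have h5 : (∃ y, lev d s (i + 2) y = c) ∨ (a = c ∧ b = c) := by
      by_cases h3 : ∃ y, lev d s (i + 2) y = c
      · exact Or.inl h3
      · right
        have h4 : ∀ x ∈ piece (lev d s) (i + 1) c, x = c := by
          intro x hx
          unfold piece at hx
          rcases Finset.mem_insert.mp hx with rfl | hx
          · rfl
          · obtain ⟨v, hv, rfl⟩ := Finset.mem_image.mp hx
            simp only [Finset.mem_filter, Finset.mem_univ, true_and] at hv
            exact absurd ⟨v, hv⟩ h3
        exact ⟨h4 a ha, h4 b hb⟩
    rcases h5 with ⟨y, hy⟩ | ⟨h5, h6⟩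
    · rcases h2 a ha with h3 | h3
      · rcases h2 b hb with h4 | h4
        · exact hab (by rw [h3, h4, h1])
        · exact h4.2 y hy
      · exact h3.2 y hy
    · exact hab (by rw [h5, h6])
  · intro a ha b hb
    refine hU (s i) (hs0 i) _ _ ?_
    have h2 : ∀ x ∈ piece (lev d s) i c, Chained d (s i) x c := by
      intro x hx
      unfold piece at hx
      rcases Finset.mem_insert.mp hx with rfl | hx
      · exact Chained.refl _ _ _
      · obtain ⟨v, hv, rfl⟩ := Finset.mem_image.mp hx
        simp only [Finset.mem_filter, Finset.mem_univ, true_and] at hv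
        rw [← hv, ← hH.up]
        exact rep_chained _ _ _
    exact (h2 a ha).trans ((h2 b hb).symm hd)

end clusters

end HD21
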