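import Mathlib
import Pool.Agent.HD21.Levels

/-!
The host graph of a hierarchy, and treewidth.
-/

namespace HD21

open SimpleGraph

variable {V : Type*}

theorem dwt_mk {d : V → V → ℝ} (hd : IsPM d) (a b : V) : dwt d s(a, b) = d a b := by
  simp [dwt, hd.symm b a]

theorem dwt_nonneg {d : V → V → ℝ} (hd : IsPM d) (e : Sym2 V) : 0 ≤ dwt d e := by
  induction e using Sym2.ind with
  | _ a b => rw [dwt_mk hd]; exact hd.nonneg _ _

/-- The graph of the subclusters below the cluster `c`, without the apex. -/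
def cellGraph (L : ℕ → V → V) (T : V → V → Prop) (i : ℕ) (c : V) :
    SimpleGraph {a : V // L i a = a ∧ L (i + 1) a = c ∧ a ≠ c} where
  Adj a b := a ≠ b ∧ CellAdj L T i a.1 b.1
  symm := ⟨fun _ _ h => ⟨h.1.symm, h.2.symm⟩⟩
  loopless := ⟨fun _ h => h.1 rfl⟩

end HD21
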