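import Mathlib
import Pool.Agent.HD21.HostDef

/-!
Distances in the host graph.
-/

namespace HD21

open SimpleGraph

variable {V : Type*} [Fintype V] [DecidableEq V]

omit [Fintype V] [DecidableEq V] in
theorem star_adj {L : ℕ → V → V} (hL : Hier L) (T : V → V → Prop) {N n : ℕ} (hn : n < N) (u : V) :
    L n u = L (n + 1) u ∨ (host L T N).Adj (L n u) (L (n + 1) u) := by
  by_cases h : L n u = L (n + 1) u
  · exact Or.inl h
  · refine Or.inr ⟨h, n, hn, hL.idem n u, hL.down n u, ?_, Or.inr (Or.inl (hL.up n u))⟩
    rw [hL.up, hL.idem]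

omit [Fintype V] [DecidableEq V] in
theorem walk_of_eq_or_adj {G : SimpleGraph V} {d : V → V → ℝ} (hd : IsPM d) {a b : V} (h : a = b ∨ G.Adj a b) :
    ∃ p : G.Walk a b, wlen (dwt d) p = d a b := by
  rcases h with rfl | h
  · exact ⟨Walk.nil, by rw [wlen_nil, hd.self]⟩
  · exact ⟨Walk.cons h Walk.nil, by rw [wlen_cons, wlen_nil, dwt_mk hd, add_zero]⟩

/-- A `T`-edge is realised in the host graph within the induced distance. -/
theorem host_walk {L : ℕ → V → V} (hL : Hier L) {d : V → V → ℝ} (hd : IsPM d)
    {T : V → V → Prop} (N : ℕ) (h01 : ∀ u v, L 1 u = L 1 v → d u v = 0) {u v : V}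
    (htop : L N u = L N v) (hT : T u v) :
    ∃ p : (host L T N).Walk u v,
      wlen (dwt d) p ≤ ∑ i ∈ Finset.range N, ∑ c, d (proj L i c u) (proj L i c v) := by
  have key : ∀ n ≤ N, (L n u = L n v → ∃ p : (host L T N).Walk u v,
      wlen (dwt d) p ≤ ∑ i ∈ Finset.range n, ∑ c, d (proj L i c u) (proj L i c v)) ∧
      (L n u ≠ L n v → ∃ (p : (host L T N).Walk u (L n u)) (q : (host L T N).Walk v (L n v)),
        wlen (dwt d) p + wlen (dwt d) q ≤ ∑ i ∈ Finset.range n, ∑ c, d (proj L i c u) (proj L i c v)) := by
    intro n
    induction n with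
    | zero =>
      intro _
      rw [hL.zero, hL.zero, Finset.range_zero, Finset.sum_empty]
      refine ⟨?_, fun _ => ⟨Walk.nil, Walk.nil, by rw [wlen_nil, wlen_nil, add_zero]⟩⟩
      rintro rfl
      exact ⟨Walk.nil, by rw [wlen_nil]⟩
    | succ n ih =>
      intro hn
      obtain ⟨ih1, ih2⟩ := ih (by omega)
      rw [Finset.sum_range_succ, sum_proj hd n u v]
      by_cases h1 : L n u = L n v
      · have h2 : L (n + 1) u = L (n + 1) v := by rw [← hL.up, h1, hL.up]
        refine ⟨fun _ => ?_, fun h => absurd h2 h⟩
        obtain ⟨p, hp⟩ := ih1 h1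
        refine ⟨p, hp.trans ?_⟩
        rw [if_pos h2]
        have := hd.nonneg (L n u) (L n v)
        linarith
      · obtain ⟨p, q, hpq⟩ := ih2 h1
        constructor
        · intro h2
          rw [if_pos h2]
          rcases Nat.eq_zero_or_pos n with h0 | h0
          · subst h0
            have e1 : ∀ x, L 0 x = x := hL.zero
            have h3 : L 1 u = L 1 v := h2
            obtain ⟨p1, hp1⟩ := walk_of_eq_or_adj hd (star_adj hL T (N := N) (n := 0) hn u)
            obtain ⟨p2, hp2⟩ := walk_of_eq_or_adj hd (star_adj hL T (N := N) (n := 0) hn v)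
            have z1 : d (L 0 u) (L (0 + 1) u) = 0 := by
              rw [e1]
              exact h01 _ _ (hL.idem 1 u).symm
            have z2 : d (L 0 v) (L (0 + 1) v) = 0 := by
              rw [e1]
              exact h01 _ _ (hL.idem 1 v).symm
            have hpp : wlen (dwt d) ((p1.copy (e1 u) h3).append (p2.copy (e1 v) rfl).reverse) = 0 := by
              rw [wlen_append, wlen_reverse]
              have c1 : wlen (dwt d) (p1.copy (e1 u) h3) = wlen (dwt d) p1 := by
                unfold wlen
                rw [Walk.edges_copy]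
              have c2 : wlen (dwt d) (p2.copy (e1 v) rfl) = wlen (dwt d) p2 := by
                unfold wlen
                rw [Walk.edges_copy]
              rw [c1, c2, hp1, hp2, z1, z2, add_zero]
            refine ⟨(p1.copy (e1 u) h3).append (p2.copy (e1 v) rfl).reverse, ?_⟩
            rw [hpp, Finset.range_zero, Finset.sum_empty, zero_add]
            exact hd.nonneg _ _
          · have hadj : (host L T N).Adj (L n u) (L n v) := by
              refine ⟨h1, n, by omega, hL.idem n u, hL.idem n v, ?_, Or.inr (Or.inr ⟨h0, u, v, Or.inl hT, rfl, rfl⟩)⟩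
              rw [hL.up, hL.up, h2]
            obtain ⟨r, hr⟩ := walk_of_eq_or_adj hd (Or.inr hadj)
            refine ⟨(p.append r).append q.reverse, ?_⟩
            rw [wlen_append, wlen_append, wlen_reverse, hr]
            linarith
        · intro h2
          rw [if_neg h2]
          obtain ⟨p1, hp1⟩ := walk_of_eq_or_adj hd (star_adj hL T (N := N) (n := n) hn u)
          obtain ⟨p2, hp2⟩ := walk_of_eq_or_adj hd (star_adj hL T (N := N) (n := n) hn v)
          refine ⟨p.append p1, q.append p2, ?_⟩
          rw [wlen_append, wlen_append, hp1, hp2, hd.symm (L (n + 1) v) (L n v)]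
          linarith
  exact (key N le_rfl).1 htop

omit [Fintype V] [DecidableEq V] in
theorem host_connected [Nonempty V] {L : ℕ → V → V} (hL : Hier L) (T : V → V → Prop) (N : ℕ)
    (htop : ∀ u v, L N u = L N v) : (host L T N).Connected := by
  have key : ∀ n ≤ N, ∀ u, (host L T N).Reachable u (L n u) := by
    intro n
    induction n with
    | zero =>
      intro _ u
      rw [hL.zero]
    | succ n ih =>
      intro hn u
      refine (ih (by omega) u).trans ?_
      rcases star_adj hL T (N := N) (n := n) hn u with h | h
      · rw [← h]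
      · exact h.reachable
  refine ⟨fun u v => ?_⟩
  have h1 := key N le_rfl u
  have h2 := key N le_rfl v
  rw [htop u v] at h1
  exact h1.trans h2.symm

end HD21
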