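import Mathlib

/-!
Graphs without long paths have elimination forests of small height.
-/

namespace HD21

open SimpleGraph

/-- `v` is reached from `u` inside `S`. -/
def RchIn {P : Type*} (Γ : SimpleGraph P) (S : Finset P) (u v : P) : Prop :=
  ∃ q : Γ.Walk u v, ∀ x ∈ q.support, x ∈ S

/-- All paths inside `S` which start at `u` have at most `M` vertices. -/
def ShortAt {P : Type*} (Γ : SimpleGraph P) (S : Finset P) (M : ℕ) (u : P) : Prop :=
  ∀ (w : P) (p : Γ.Walk u w), p.IsPath → (∀ x ∈ p.support, x ∈ S) → p.length + 1 ≤ M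

/-- An elimination forest of the subgraph induced by `S`. -/
structure EF {P : Type*} (Γ : SimpleGraph P) (S : Finset P) (M : ℕ) (dep : P → ℕ)
    (anc : P → Finset P) : Prop where
  h0 : ∀ v ∈ S, anc v ⊆ S
  h1 : ∀ v ∈ S, dep v + 1 ≤ M
  h2 : ∀ v ∈ S, (anc v).card = dep v
  h3 : ∀ v ∈ S, ∀ u ∈ anc v, dep u < dep v
  h4 : ∀ v ∈ S, ∀ a ∈ anc v, ∀ b ∈ anc v, a ≠ b → dep a ≠ dep b
  h5 : ∀ v ∈ S, ∀ a ∈ anc v, ∀ b ∈ anc v, dep b < dep a → b ∈ anc a
  h6 : ∀ u ∈ S, ∀ v ∈ S, Γ.Adj u v → u ∈ anc v ∨ v ∈ anc u

section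

variable {P : Type*} {Γ : SimpleGraph P}

theorem RchIn.trans {S : Finset P} {u v w : P} (h : RchIn Γ S u v) (h' : RchIn Γ S v w) :
    RchIn Γ S u w := by
  obtain ⟨p, hp⟩ := h
  obtain ⟨q, hq⟩ := h'
  refine ⟨p.append q, fun x hx => ?_⟩
  rcases (Walk.mem_support_append_iff _ _).1 hx with h | h
  · exact hp x h
  · exact hq x h

theorem RchIn.symm {S : Finset P} {u v : P} (h : RchIn Γ S u v) : RchIn Γ S v u := by
  obtain ⟨p, hp⟩ := h
  refine ⟨p.reverse, fun x hx => hp x ?_⟩
  rwa [Walk.support_reverse, List.mem_reverse] at hx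

theorem RchIn.left {S : Finset P} {u v : P} (h : RchIn Γ S u v) : u ∈ S := by
  obtain ⟨p, hp⟩ := h
  exact hp u p.start_mem_support

theorem RchIn.right {S : Finset P} {u v : P} (h : RchIn Γ S u v) : v ∈ S := by
  obtain ⟨p, hp⟩ := h
  exact hp v p.end_mem_support

theorem RchIn.edge {S : Finset P} {u v : P} (hu : u ∈ S) (hv : v ∈ S) (h : Γ.Adj u v) :
    RchIn Γ S u v := by
  refine ⟨Walk.cons h Walk.nil, fun x hx => ?_⟩
  simp only [Walk.support_cons, Walk.support_nil, List.mem_cons, List.not_mem_nil, or_false] at hx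
  rcases hx with rfl | rfl
  · exact hu
  · exact hv

/-- A walk inside `S` stays in a class which is closed under adjacency inside `S`. -/
theorem RchIn.stay {S K : Finset P} (hK : ∀ x ∈ K, ∀ y ∈ S, Γ.Adj x y → y ∈ K) {u v : P}
    (h : RchIn Γ S u v) (hu : u ∈ K) : RchIn Γ K u v := by
  obtain ⟨p, hp⟩ := h
  induction p with
  | nil =>
    refine ⟨Walk.nil, fun x hx => ?_⟩
    simp only [Walk.support_nil, List.mem_cons, List.not_mem_nil, or_false] at hx
    rw [hx]
    exact hu
  | @cons a b c hab p ih =>
    have hb : b ∈ K := hK a hu b (hp b (by simp)) hab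
    exact (RchIn.edge hu hb hab).trans (ih hb (fun x hx => hp x (by simp [hx])))

theorem EF.union [DecidableEq P] {S₁ S₂ : Finset P} {M : ℕ} {dep₁ dep₂ : P → ℕ} {anc₁ anc₂ : P → Finset P}
    (H₁ : EF Γ S₁ M dep₁ anc₁) (H₂ : EF Γ S₂ M dep₂ anc₂) (hd : Disjoint S₁ S₂)
    (hno : ∀ x ∈ S₁, ∀ y ∈ S₂, ¬ Γ.Adj x y) :
    EF Γ (S₁ ∪ S₂) M (fun v => if v ∈ S₁ then dep₁ v else dep₂ v)
      (fun v => if v ∈ S₁ then anc₁ v else anc₂ v) := by
  have hn : ∀ v ∈ S₂, v ∉ S₁ := fun v hv hv' => Finset.disjoint_left.1 hd hv' hv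
  constructor
  · intro v hv
    rcases Finset.mem_union.1 hv with h | h
    · simp only [h, if_true]
      exact (H₁.h0 v h).trans Finset.subset_union_left
    · simp only [hn v h, if_false]
      exact (H₂.h0 v h).trans Finset.subset_union_right
  · intro v hv
    rcases Finset.mem_union.1 hv with h | h
    · simp only [h, if_true]
      exact H₁.h1 v h
    · simp only [hn v h, if_false]
      exact H₂.h1 v h
  · intro v hv
    rcases Finset.mem_union.1 hv with h | h
    · simp only [h, if_true]
      exact H₁.h2 v h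
    · simp only [hn v h, if_false]
      exact H₂.h2 v h
  · intro v hv
    rcases Finset.mem_union.1 hv with h | h
    · simp only [h, if_true]
      intro u hu
      simp only [H₁.h0 v h hu, if_true]
      exact H₁.h3 v h u hu
    · simp only [hn v h, if_false]
      intro u hu
      simp only [hn u (H₂.h0 v h hu), if_false]
      exact H₂.h3 v h u hu
  · intro v hv
    rcases Finset.mem_union.1 hv with h | h
    · simp only [h, if_true]
      intro a ha b hb
      simp only [H₁.h0 v h ha, H₁.h0 v h hb, if_true]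
      exact H₁.h4 v h a ha b hb
    · simp only [hn v h, if_false]
      intro a ha b hb
      simp only [hn a (H₂.h0 v h ha), hn b (H₂.h0 v h hb), if_false]
      exact H₂.h4 v h a ha b hb
  · intro v hv
    rcases Finset.mem_union.1 hv with h | h
    · simp only [h, if_true]
      intro a ha b hb
      simp only [H₁.h0 v h ha, H₁.h0 v h hb, if_true]
      exact H₁.h5 v h a ha b hb
    · simp only [hn v h, if_false]
      intro a ha b hb
      simp only [hn a (H₂.h0 v h ha), hn b (H₂.h0 v h hb), if_false]
      exact H₂.h5 v h a ha b hb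
  · intro u hu v hv huv
    rcases Finset.mem_union.1 hu with h | h <;> rcases Finset.mem_union.1 hv with h' | h'
    · simp only [h, h', if_true]
      exact H₁.h6 u h v h' huv
    · exact absurd huv (hno u h v h')
    · exact absurd huv.symm (hno v h' u h)
    · simp only [hn u h, hn v h', if_false]
      exact H₂.h6 u h v h' huv

theorem EF.root [DecidableEq P] {S : Finset P} {M : ℕ} {dep : P → ℕ} {anc : P → Finset P} {r : P} (hr : r ∉ S)
    (H : EF Γ S M dep anc) :
    EF Γ (insert r S) (M + 1) (fun v => if v = r then 0 else dep v + 1)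
      (fun v => if v = r then ∅ else insert r (anc v)) := by
  have hne : ∀ v ∈ S, v ≠ r := fun v hv h => hr (h ▸ hv)
  constructor
  · intro v hv
    rcases Finset.mem_insert.1 hv with rfl | h
    · simp
    · simp only [hne v h, if_false]
      exact Finset.insert_subset_insert _ (H.h0 v h)
  · intro v hv
    rcases Finset.mem_insert.1 hv with rfl | h
    · simp
    · simp only [hne v h, if_false]
      have := H.h1 v h
      omega
  · intro v hv
    rcases Finset.mem_insert.1 hv with rfl | h
    · simp
    · simp only [hne v h, if_false]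
      rw [Finset.card_insert_of_notMem (fun h' => hr (H.h0 v h h')), H.h2 v h]
  · intro v hv
    rcases Finset.mem_insert.1 hv with rfl | h
    · simp
    · simp only [hne v h, if_false]
      intro u hu
      rcases Finset.mem_insert.1 hu with rfl | hu
      · simp
      · simp only [hne u (H.h0 v h hu), if_false]
        have := H.h3 v h u hu
        omega
  · intro v hv
    rcases Finset.mem_insert.1 hv with rfl | h
    · simp
    · simp only [hne v h, if_false]
      intro a ha b hb hab
      rcases Finset.mem_insert.1 ha with ha' | ha' <;> rcases Finset.mem_insert.1 hb with hb' | hb'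
      · exact absurd (ha'.trans hb'.symm) hab
      · simp [ha', hne b (H.h0 v h hb')]
      · simp [hb', hne a (H.h0 v h ha')]
      · simp only [hne a (H.h0 v h ha'), hne b (H.h0 v h hb'), if_false]
        have := H.h4 v h a ha' b hb' hab
        omega
  · intro v hv
    rcases Finset.mem_insert.1 hv with rfl | h
    · simp
    · simp only [hne v h, if_false]
      intro a ha b hb hab
      rcases Finset.mem_insert.1 ha with ha' | ha' <;> rcases Finset.mem_insert.1 hb with hb' | hb'
      · simp [ha'] at hab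
      · simp [ha'] at hab
      · simp [hb', hne a (H.h0 v h ha')]
      · simp only [hne a (H.h0 v h ha'), hne b (H.h0 v h hb'), if_false] at hab ⊢
        exact Finset.mem_insert_of_mem (H.h5 v h a ha' b hb' (by omega))
  · intro u hu v hv huv
    rcases Finset.mem_insert.1 hu with rfl | h <;> rcases Finset.mem_insert.1 hv with rfl | h'
    · exact absurd huv (Γ.loopless.irrefl _)
    · left
      simp [hne v h']
    · right
      simp [hne u h]
    · simp only [hne u h, hne v h', if_false]
      rcases H.h6 u h v h' huv with h1 | h1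
      · exact Or.inl (Finset.mem_insert_of_mem h1)
      · exact Or.inr (Finset.mem_insert_of_mem h1)

/-- Elimination forests of induced subgraphs. -/
theorem exists_ef [DecidableEq P] : ∀ (n : ℕ) (S : Finset P), S.card = n → ∀ M : ℕ,
    (∀ v ∈ S, ∃ u, RchIn Γ S u v ∧ ShortAt Γ S M u) → ∃ dep anc, EF Γ S M dep anc := by
  classical
  intro n
  induction n using Nat.strong_induction_on with
  | _ n ih =>
    intro S hS M hM
    rcases S.eq_empty_or_nonempty with rfl | ⟨v, hv⟩
    · exact ⟨fun _ => 0, fun _ => ∅, by constructor <;> simp⟩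
    obtain ⟨u, hu1, hu2⟩ := hM v hv
    have huS : u ∈ S := hu1.left
    have hM1 : 1 ≤ M := by
      have := hu2 u Walk.nil Walk.IsPath.nil (fun x hx => by
        simp only [Walk.support_nil, List.mem_cons, List.not_mem_nil, or_false] at hx
        rw [hx]
        exact huS)
      simpa using this
    obtain ⟨K, hK⟩ : ∃ K : Finset P, K = S.filter (fun x => RchIn Γ S u x) := ⟨_, rfl⟩
    have hKS : K ⊆ S := by rw [hK]; exact Finset.filter_subset _ _
    have hmK : ∀ x, x ∈ K ↔ RchIn Γ S u x := by
      intro x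
      rw [hK, Finset.mem_filter]
      exact ⟨fun h => h.2, fun h => ⟨h.right, h⟩⟩
    have huK : u ∈ K := (hmK u).2 ⟨Walk.nil, fun x hx => by
        simp only [Walk.support_nil, List.mem_cons, List.not_mem_nil, or_false] at hx
        rw [hx]
        exact huS⟩
    have hcl : ∀ x ∈ K, ∀ y ∈ S, Γ.Adj x y → y ∈ K := fun x hx y hy hxy =>
      (hmK y).2 (((hmK x).1 hx).trans (RchIn.edge (hKS hx) hy hxy))
    have hcl' : ∀ x ∈ S \ K, ∀ y ∈ S, Γ.Adj x y → y ∈ S \ K := by
      intro x hx y hy hxy
      rw [Finset.mem_sdiff] at hx ⊢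
      exact ⟨hy, fun h => hx.2 (hcl y h x hx.1 hxy.symm)⟩
    by_cases hKe : K = S
    · -- `u` is the root
      obtain ⟨M', rfl⟩ : ∃ M', M = M' + 1 := ⟨M - 1, by omega⟩
      have hstep : ∀ w ∈ S.erase u, ∃ u', RchIn Γ (S.erase u) u' w ∧ ShortAt Γ (S.erase u) M' u' := by
        intro w hw
        rw [Finset.mem_erase] at hw
        obtain ⟨q, hq⟩ := (hmK w).1 (by rw [hKe]; exact hw.2)
        have hpath := q.bypass_isPath
        have hsup : ∀ x ∈ q.bypass.support, x ∈ S := fun x hx => hq x (q.support_bypass_subset_support hx)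
        rcases hb : q.bypass with _ | ⟨hadj, p⟩
        · exact absurd rfl hw.1
        · rename_i b
          rw [hb] at hpath hsup
          rw [Walk.cons_isPath_iff] at hpath
          refine ⟨b, ⟨p, fun x hx => ?_⟩, ?_⟩
          · rw [Finset.mem_erase]
            refine ⟨fun h => hpath.2 (h ▸ hx), hsup x (by simp [hx])⟩
          · intro z p' hp' hp'S
            have h1 := hu2 z (Walk.cons hadj p') (by
              rw [Walk.cons_isPath_iff]
              exact ⟨hp', fun h => (Finset.mem_erase.1 (hp'S u h)).1 rfl⟩) (fun x hx => by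
              rw [Walk.support_cons, List.mem_cons] at hx
              rcases hx with rfl | hx
              · exact huS
              · exact (Finset.mem_erase.1 (hp'S x hx)).2)
            rw [Walk.length_cons] at h1
            omega
      obtain ⟨dep, anc, H⟩ := ih _ (by rw [← hS]; exact Finset.card_erase_lt_of_mem huS) (S.erase u) rfl M' hstep
      have H' := H.root (Finset.notMem_erase u S)
      rw [Finset.insert_erase huS] at H'
      exact ⟨_, _, H'⟩
    · -- two parts
      have hlt : K.card < n := by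
        rw [← hS]
        exact Finset.card_lt_card (lt_of_le_of_ne hKS hKe)
      have hlt' : (S \ K).card < n := by
        rw [← hS]
        refine Finset.card_lt_card (Finset.ssubset_iff_subset_ne.2 ⟨Finset.sdiff_subset, fun h => ?_⟩)
        have : u ∈ S \ K := by rw [h]; exact huS
        exact (Finset.mem_sdiff.1 this).2 huK
      obtain ⟨dep₁, anc₁, H₁⟩ := ih _ hlt K rfl M (by
        intro w hw
        obtain ⟨u', h1, h2⟩ := hM w (hKS hw)
        refine ⟨u', (h1.symm.stay hcl hw).symm, fun z p hp hpS => h2 z p hp fun x hx => hKS (hpS x hx)⟩)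
      obtain ⟨dep₂, anc₂, H₂⟩ := ih _ hlt' (S \ K) rfl M (by
        intro w hw
        obtain ⟨u', h1, h2⟩ := hM w (Finset.mem_sdiff.1 hw).1
        refine ⟨u', (h1.symm.stay hcl' hw).symm, fun z p hp hpS =>
          h2 z p hp fun x hx => (Finset.mem_sdiff.1 (hpS x hx)).1⟩)
      have H := H₁.union H₂ Finset.disjoint_sdiff (fun x hx y hy hxy =>
        (Finset.mem_sdiff.1 hy).2 (hcl x hx y (Finset.mem_sdiff.1 hy).1 hxy))
      rw [Finset.union_sdiff_of_subset hKS] at H
      exact ⟨_, _, H⟩

end

/-- A finite graph all of whose paths have at most `M` vertices has an elimination forest of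
height at most `M`: `anc v` is the set of proper ancestors of `v` and `dep v` is the depth. -/
theorem elim_forest {P : Type*} [Fintype P] [DecidableEq P] (Γ : SimpleGraph P) (M : ℕ)
    (hM : ∀ (u v : P) (p : Γ.Walk u v), p.IsPath → p.length + 1 ≤ M) :
    ∃ (dep : P → ℕ) (anc : P → Finset P),
      (∀ v, dep v + 1 ≤ M) ∧ (∀ v, (anc v).card = dep v) ∧
      (∀ v, ∀ u ∈ anc v, dep u < dep v) ∧
      (∀ v, ∀ a ∈ anc v, ∀ b ∈ anc v, a ≠ b → dep a ≠ dep b) ∧
      (∀ v, ∀ a ∈ anc v, ∀ b ∈ anc v, dep b < dep a → b ∈ anc a) ∧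
      (∀ u v, Γ.Adj u v → u ∈ anc v ∨ v ∈ anc u) := by
  obtain ⟨dep, anc, H⟩ := exists_ef (Γ := Γ) _ Finset.univ rfl M (fun v _ =>
    ⟨v, ⟨Walk.nil, fun x _ => Finset.mem_univ x⟩, fun w p hp _ => hM v w p hp⟩)
  exact ⟨dep, anc, fun v => H.h1 v (Finset.mem_univ v), fun v => H.h2 v (Finset.mem_univ v),
    fun v => H.h3 v (Finset.mem_univ v), fun v => H.h4 v (Finset.mem_univ v), fun v => H.h5 v (Finset.mem_univ v),
    fun u v => H.h6 u (Finset.mem_univ u) v (Finset.mem_univ v)⟩

end HD21
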