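import Mathlib
import Pool.Agent.HD21.HostDef
import Pool.Agent.HD21.Forest

/-!
Treewidth of the host graph.
-/

namespace HD21

open SimpleGraph

/-- The elimination forest of the graph of the subclusters of a cluster, as functions on `V`. -/
theorem forest_cell {V : Type*} [Fintype V] [DecidableEq V] {L : ℕ → V → V} (T : V → V → Prop)
    {M i : ℕ} (c : V)
    (hp : ∀ (a b : {a : V // L i a = a ∧ L (i + 1) a = c ∧ a ≠ c}) (p : (cellGraph L T i c).Walk a b),
      p.IsPath → p.length + 1 ≤ M) :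
    ∃ (dep : V → ℕ) (anc : V → Finset V), (∀ v, dep v ≤ M) ∧ (∀ v, (anc v).card ≤ M) ∧
      (∀ v, ∀ u ∈ anc v, (L i u = u ∧ L (i + 1) u = c ∧ u ≠ c) ∧ dep u < dep v) ∧
      (∀ v, ∀ a ∈ anc v, ∀ b ∈ anc v, a ≠ b → dep a ≠ dep b) ∧
      (∀ v, ∀ a ∈ anc v, ∀ b ∈ anc v, dep b < dep a → b ∈ anc a) ∧
      ∀ u v, (L i u = u ∧ L (i + 1) u = c ∧ u ≠ c) → (L i v = v ∧ L (i + 1) v = c ∧ v ≠ c) → u ≠ v →
        CellAdj L T i u v → u ∈ anc v ∨ v ∈ anc u := by
  classical
  obtain ⟨dep, anc, h1, h2, h3, h4, h5, h6⟩ := elim_forest (cellGraph L T i c) M hp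
  have hd : ∀ (v : V) (h : L i v = v ∧ L (i + 1) v = c ∧ v ≠ c),
      (if h : L i v = v ∧ L (i + 1) v = c ∧ v ≠ c then dep ⟨v, h⟩ else 0) = dep ⟨v, h⟩ :=
    fun v h => dif_pos h
  have ha : ∀ (v : V) (h : L i v = v ∧ L (i + 1) v = c ∧ v ≠ c),
      (if h : L i v = v ∧ L (i + 1) v = c ∧ v ≠ c then (anc ⟨v, h⟩).image Subtype.val else ∅) =
        (anc ⟨v, h⟩).image Subtype.val := fun v h => dif_pos h
  have hmem : ∀ v u : V, u ∈ (if h : L i v = v ∧ L (i + 1) v = c ∧ v ≠ c then
      (anc ⟨v, h⟩).image Subtype.val else ∅) →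
      ∃ (h : L i v = v ∧ L (i + 1) v = c ∧ v ≠ c) (h' : L i u = u ∧ L (i + 1) u = c ∧ u ≠ c),
        (⟨u, h'⟩ : {a : V // L i a = a ∧ L (i + 1) a = c ∧ a ≠ c}) ∈ anc ⟨v, h⟩ := by
    intro v u hu
    by_cases h : L i v = v ∧ L (i + 1) v = c ∧ v ≠ c
    · rw [ha v h, Finset.mem_image] at hu
      obtain ⟨⟨x, hx⟩, hx1, rfl⟩ := hu
      exact ⟨h, hx, hx1⟩
    · rw [dif_neg h] at hu
      exact absurd hu (Finset.notMem_empty _)
  refine ⟨fun v => if h : L i v = v ∧ L (i + 1) v = c ∧ v ≠ c then dep ⟨v, h⟩ else 0,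
    fun v => if h : L i v = v ∧ L (i + 1) v = c ∧ v ≠ c then (anc ⟨v, h⟩).image Subtype.val else ∅,
    ?_, ?_, ?_, ?_, ?_, ?_⟩
  · intro v
    by_cases h : L i v = v ∧ L (i + 1) v = c ∧ v ≠ c
    · simp only [hd v h]
      have := h1 ⟨v, h⟩
      omega
    · simp only [dif_neg h]
      exact Nat.zero_le _
  · intro v
    by_cases h : L i v = v ∧ L (i + 1) v = c ∧ v ≠ c
    · simp only [ha v h]
      refine Finset.card_image_le.trans ?_
      rw [h2]
      have := h1 ⟨v, h⟩
      omega
    · simp only [dif_neg h, Finset.card_empty]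
      exact Nat.zero_le _
  · intro v u hu
    obtain ⟨h, h', hx⟩ := hmem v u hu
    refine ⟨h', ?_⟩
    simp only [hd v h, hd u h']
    exact h3 _ _ hx
  · intro v a haa b hbb hab
    obtain ⟨h, h', hx⟩ := hmem v a haa
    obtain ⟨_, h'', hy⟩ := hmem v b hbb
    simp only [hd a h', hd b h'']
    exact h4 _ _ hx _ hy (fun he => hab (congrArg Subtype.val he))
  · intro v a haa b hbb hab
    obtain ⟨h, h', hx⟩ := hmem v a haa
    obtain ⟨_, h'', hy⟩ := hmem v b hbb
    simp only [hd a h', hd b h''] at hab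
    simp only [ha a h']
    exact Finset.mem_image.2 ⟨⟨b, h''⟩, h5 _ _ hx _ hy hab, rfl⟩
  · intro u v hu hv huv hadj
    have h7 : (cellGraph L T i c).Adj ⟨u, hu⟩ ⟨v, hv⟩ := ⟨fun he => huv (congrArg Subtype.val he), hadj⟩
    rcases h6 _ _ h7 with h8 | h8
    · left
      simp only [ha v hv]
      exact Finset.mem_image.2 ⟨⟨u, hu⟩, h8, rfl⟩
    · right
      simp only [ha u hu]
      exact Finset.mem_image.2 ⟨⟨v, hv⟩, h8, rfl⟩

/-- If the paths of all graphs of subclusters have at most `M` vertices then the host graph has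
treewidth at most `M + 1`.
Proof: for `v` which is not the top representative let `i` be the level with `L i v = v` and
`L (i + 1) v ≠ v`, and `c = L (i + 1) v`; `A v` is `c` together with the ancestors of `v` in the
elimination forest of `cellGraph L T i c` (no ancestors for `i = 0`). Order by level first, then
by decreasing depth. -/
theorem host_treewidth {V : Type*} [Fintype V] [DecidableEq V] {L : ℕ → V → V} (hL : Hier L)
    (T : V → V → Prop) (N M : ℕ) (htop : ∀ u v, L N u = L N v)
    (hpath : ∀ i c, 1 ≤ i → i < N →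
      ∀ (a b : {a : V // L i a = a ∧ L (i + 1) a = c ∧ a ≠ c}) (p : (cellGraph L T i c).Walk a b),
        p.IsPath → p.length + 1 ≤ M) :
    TreewidthLE (host L T N) (M + 1) := by
  classical
  -- the forests
  have hF : ∀ (i : ℕ) (c : V), ∃ (dep : V → ℕ) (anc : V → Finset V), (∀ v, dep v ≤ M) ∧
      (∀ v, (anc v).card ≤ M) ∧
      (∀ v, ∀ u ∈ anc v, (L i u = u ∧ L (i + 1) u = c ∧ u ≠ c) ∧ dep u < dep v) ∧
      (∀ v, ∀ a ∈ anc v, ∀ b ∈ anc v, a ≠ b → dep a ≠ dep b) ∧
      (∀ v, ∀ a ∈ anc v, ∀ b ∈ anc v, dep b < dep a → b ∈ anc a) ∧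
      (1 ≤ i → i < N → ∀ u v, (L i u = u ∧ L (i + 1) u = c ∧ u ≠ c) →
        (L i v = v ∧ L (i + 1) v = c ∧ v ≠ c) → u ≠ v → CellAdj L T i u v → u ∈ anc v ∨ v ∈ anc u) := by
    intro i c
    by_cases h : 1 ≤ i ∧ i < N
    · obtain ⟨dep, anc, h1, h2, h3, h4, h5, h6⟩ := forest_cell (L := L) T c (hpath i c h.1 h.2)
      exact ⟨dep, anc, h1, h2, h3, h4, h5, fun _ _ => h6⟩
    · refine ⟨fun _ => 0, fun _ => ∅, fun _ => Nat.zero_le _, fun _ => ?_, fun v u hu => ?_, fun v a hv => ?_,
        fun v a hv => ?_, fun h1 h2 => absurd ⟨h1, h2⟩ h⟩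
      · rw [Finset.card_empty]
        exact Nat.zero_le _
      · exact absurd hu (Finset.notMem_empty _)
      · exact absurd hv (Finset.notMem_empty _)
      · exact absurd hv (Finset.notMem_empty _)
  choose dep anc f1 f2 f3 f4 f5 f6 using hF
  -- the levels
  have hdown : ∀ {i j : ℕ} {v : V}, j ≤ i → L i v = v → L j v = v := by
    intro i j v hj
    induction i with
    | zero =>
      intro h
      obtain rfl : j = 0 := by omega
      exact h
    | succ i ih =>
      intro h
      rcases Nat.lt_or_ge j (i + 1) with h1 | h1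
      · refine ih (by omega) ?_
        have h2 := hL.down i v
        rw [h] at h2
        exact h2
      · obtain rfl : j = i + 1 := by omega
        exact h
  obtain ⟨lev, hlev⟩ : ∃ lev : V → ℕ, lev = fun v => Nat.findGreatest (fun i => L i v = v) N := ⟨_, rfl⟩
  have l1 : ∀ v, L (lev v) v = v := by
    intro v
    rw [hlev]
    exact Nat.findGreatest_spec (P := fun i => L i v = v) (Nat.zero_le N) (hL.zero v)
  have l2 : ∀ {i : ℕ} {v : V}, i ≤ N → L i v = v → i ≤ lev v := by
    intro i v hi h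
    rw [hlev]
    exact Nat.le_findGreatest hi h
  have l4 : ∀ {i : ℕ} {v : V}, i ≤ N → L i v = v → L (i + 1) v ≠ v → lev v = i := by
    intro i v hi h h'
    refine le_antisymm ?_ (l2 hi h)
    by_contra hc
    push Not at hc
    exact h' (hdown (by omega) (l1 v))
  have l3 : ∀ v, lev v ≤ N := by
    intro v
    rw [hlev]
    exact Nat.findGreatest_le _
  -- the position
  obtain ⟨n, hn⟩ : ∃ n, n = Fintype.card V := ⟨_, rfl⟩
  obtain ⟨e⟩ : Nonempty (V ≃ Fin n) := by
    rw [hn]
    exact ⟨Fintype.equivFin V⟩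
  obtain ⟨D, hD⟩ : ∃ D : V → ℕ, D = fun v => dep (lev v) (L (lev v + 1) v) v := ⟨_, rfl⟩
  have hDM : ∀ v, D v ≤ M := fun v => by rw [hD]; exact f1 _ _ _
  obtain ⟨K, hK⟩ : ∃ K : V → ℕ, K = fun v => lev v * (M + 1) + (M - D v) := ⟨_, rfl⟩
  obtain ⟨pos, hpos⟩ : ∃ pos : V → ℕ, pos = fun v => K v * n + (e v : ℕ) := ⟨_, rfl⟩
  have hposlt : ∀ {u v : V}, K u < K v → pos u < pos v := by
    intro u v h
    have h1 : (K u + 1) * n ≤ K v * n := Nat.mul_le_mul_right _ h
    have h2 := (e u).2
    have h3 : (K u + 1) * n = K u * n + n := by ring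
    simp only [hpos]
    omega
  have hposle : ∀ {u v : V}, pos u < pos v → K u ≤ K v := by
    intro u v h
    by_contra hc
    push Not at hc
    have := hposlt hc
    omega
  have kl : ∀ {u v : V}, lev u < lev v → K u < K v := by
    intro u v h
    have h1 : (lev u + 1) * (M + 1) ≤ lev v * (M + 1) := Nat.mul_le_mul_right _ h
    have h2 : (lev u + 1) * (M + 1) = lev u * (M + 1) + (M + 1) := by ring
    simp only [hK]
    omega
  have kd : ∀ {u v : V}, lev u = lev v → D u < D v → K v < K u := by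
    intro u v h h'
    have h1 := hDM v
    simp only [hK]
    rw [h]
    omega
  have kd' : ∀ {u v : V}, lev u = lev v → K u ≤ K v → D v ≤ D u := by
    intro u v h h'
    by_contra hc
    push Not at hc
    have := kd h hc
    omega
  -- vertices of a cell
  have cl : ∀ {i : ℕ} {c u : V}, i < N → (L i u = u ∧ L (i + 1) u = c ∧ u ≠ c) →
      lev u = i ∧ D u = dep i c u := by
    intro i c u hi hu
    have h1 : lev u = i := l4 hi.le hu.1 (by rw [hu.2.1]; exact hu.2.2.symm)
    refine ⟨h1, ?_⟩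
    simp only [hD]
    rw [h1, hu.2.1]
  refine ⟨pos, fun v => if lev v < N then insert (L (lev v + 1) v) (anc (lev v) (L (lev v + 1) v) v) else ∅,
    ?_, ?_, ?_, ?_, ?_⟩
  · intro u v h
    simp only [hpos] at h
    have h2 := (e u).2
    have h3 := (e v).2
    have h4 : (e u : ℕ) = e v := by
      have h5 : (K u * n + (e u : ℕ)) % n = (K v * n + (e v : ℕ)) % n := by rw [h]
      rw [Nat.mul_comm, Nat.mul_add_mod, Nat.mul_comm, Nat.mul_add_mod, Nat.mod_eq_of_lt h2, Nat.mod_eq_of_lt h3] at h5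
      exact h5
    exact e.injective (Fin.ext h4)
  · intro v
    simp only
    split_ifs
    · refine (Finset.card_insert_le _ _).trans ?_
      have := f2 (lev v) (L (lev v + 1) v) v
      omega
    · rw [Finset.card_empty]
      exact Nat.zero_le _
  · intro v u hu
    simp only at hu
    split_ifs at hu with hv
    · rcases Finset.mem_insert.1 hu with rfl | hu
      · refine hposlt (kl ?_)
        have := l2 (i := lev v + 1) (v := L (lev v + 1) v) (by omega) (hL.idem _ _)
        omega
      · obtain ⟨h1, h2⟩ := f3 _ _ _ _ hu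
        obtain ⟨h3, h4⟩ := cl hv h1
        refine hposlt (kd h3 ?_)
        rw [h4]
        have h5 : D v = dep (lev v) (L (lev v + 1) v) v := by rw [hD]
        rw [h5]
        exact h2
    · exact absurd hu (Finset.notMem_empty _)
  · intro v a ha b hb hab
    simp only at ha hb
    split_ifs at ha hb with hv
    · simp only
      rcases Finset.mem_insert.1 ha with ha | ha
      · rcases Finset.mem_insert.1 hb with hb | hb
        · exfalso
          rw [ha, hb] at hab
          exact lt_irrefl _ hab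
        · exfalso
          obtain ⟨h1, h2⟩ := f3 _ _ _ _ hb
          obtain ⟨h3, h4⟩ := cl hv h1
          have h5 := l2 (i := lev v + 1) (v := L (lev v + 1) v) (by omega) (hL.idem _ _)
          have h6 : pos b < pos a := by
            rw [ha]
            exact hposlt (kl (by omega))
          omega
      · obtain ⟨h1, h2⟩ := f3 _ _ _ _ ha
        obtain ⟨h3, h4⟩ := cl hv h1
        rw [h3, if_pos hv, h1.2.1]
        rcases Finset.mem_insert.1 hb with hb | hb
        · rw [hb]
          exact Finset.mem_insert_self _ _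
        · obtain ⟨g1, g2⟩ := f3 _ _ _ _ hb
          obtain ⟨g3, g4⟩ := cl hv g1
          have hne : b ≠ a := by
            rintro rfl
            exact lt_irrefl _ hab
          have h5 := kd' (h3.trans g3.symm) (hposle hab)
          rw [h4, g4] at h5
          have h6 := f4 _ _ _ _ hb _ ha hne
          exact Finset.mem_insert_of_mem (f5 _ _ _ _ ha _ hb (by omega))
    · exact absurd ha (Finset.notMem_empty _)
  · rintro u v ⟨huv, j, hj, h1, h2, h3, h4⟩ hlt
    simp only
    -- the case that `u` is the representative of the larger cluster is impossible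
    have c1 : L (j + 1) v ≠ u := by
      intro h
      have g1 : lev v = j := l4 hj.le h2 (by rw [h]; exact huv)
      have g2 : L (j + 1) u = u := by rw [h3, h]
      have g3 := l2 (i := j + 1) (by omega) g2
      have g4 := hposlt (kl (u := v) (v := u) (by omega))
      omega
    have c2 : L (j + 1) u ≠ u := by
      rw [h3]
      exact c1
    have g1 : lev u = j := l4 hj.le h1 c2
    rw [g1, if_pos hj]
    by_cases c3 : L (j + 1) u = v
    · rw [c3]
      exact Finset.mem_insert_self _ _
    · rcases h4 with h4 | h4 | ⟨h4, h5⟩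
      · exact absurd h4 c1
      · exact absurd h4 c3
      · have hu : L j u = u ∧ L (j + 1) u = L (j + 1) u ∧ u ≠ L (j + 1) u := ⟨h1, rfl, c2.symm⟩
        have hv : L j v = v ∧ L (j + 1) v = L (j + 1) u ∧ v ≠ L (j + 1) u := ⟨h2, h3.symm, fun h => c3 h.symm⟩
        rcases f6 j (L (j + 1) u) h4 hj u v hu hv huv h5 with h6 | h6
        · exfalso
          obtain ⟨-, g2⟩ := f3 _ _ _ _ h6
          obtain ⟨g3, g4⟩ := cl hj hu
          obtain ⟨g5, g6⟩ := cl hj hv
          have g7 := hposlt (kd (u := u) (v := v) (g3.trans g5.symm) (by rw [g4, g6]; exact g2))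
          omega
        · exact Finset.mem_insert_of_mem h6

end HD21
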