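import Mathlib

/-!
Lifting a path of clusters to a path of vertices.
-/

namespace HD21

/-- A chain of relations can be shortened to an injective one. -/
theorem exists_seq {V : Type*} {R : V → V → Prop} {u v : V} (h : Relation.ReflTransGen R u v) :
    ∃ (z : ℕ → V) (m : ℕ), z 0 = u ∧ z m = v ∧ (∀ i < m, R (z i) (z (i + 1))) ∧
      (∀ i ≤ m, ∀ j ≤ m, z i = z j → i = j) := by
  classical
  induction h using Relation.ReflTransGen.head_induction_on with
  | refl => exact ⟨fun _ => v, 0, rfl, rfl, fun i hi => absurd hi (by omega),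
      fun i hi j hj _ => by omega⟩
  | @head b c hbc _ ih =>
    obtain ⟨z, m, h0, hm, hR, hinj⟩ := ih
    by_cases hx : ∃ j ≤ m, z j = b
    · obtain ⟨j, hj, hjb⟩ := hx
      refine ⟨fun i => z (i + j), m - j, ?_, ?_, ?_, ?_⟩
      · simp [hjb]
      · show z (m - j + j) = v
        rw [Nat.sub_add_cancel hj, hm]
      · intro i hi
        have h1 := hR (i + j) (by omega)
        have h2 : i + 1 + j = i + j + 1 := by omega
        show R (z (i + j)) (z (i + 1 + j))
        rw [h2]
        exact h1
      · intro i hi k hk hik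
        have h1 := hinj (i + j) (by omega) (k + j) (by omega) hik
        omega
    · refine ⟨fun i => if i = 0 then b else z (i - 1), m + 1, ?_, ?_, ?_, ?_⟩
      · simp
      · show (if m + 1 = 0 then b else z (m + 1 - 1)) = v
        rw [if_neg (by omega), Nat.add_sub_cancel, hm]
      · intro i hi
        show R (if i = 0 then b else z (i - 1)) (if i + 1 = 0 then b else z (i + 1 - 1))
        rw [if_neg (by omega : ¬ (i + 1 = 0)), Nat.add_sub_cancel]
        by_cases hi0 : i = 0
        · rw [if_pos hi0, hi0, h0]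
          exact hbc
        · rw [if_neg hi0]
          have h1 := hR (i - 1) (by omega)
          have h2 : i - 1 + 1 = i := by omega
          rw [h2] at h1
          exact h1
      · intro i hi k hk hik
        have hik' : (if i = 0 then b else z (i - 1)) = (if k = 0 then b else z (k - 1)) := hik
        by_cases hi0 : i = 0
        · by_cases hk0 : k = 0
          · omega
          · rw [if_pos hi0, if_neg hk0] at hik'
            exact absurd ⟨k - 1, by omega, hik'.symm⟩ hx
        · by_cases hk0 : k = 0
          · rw [if_neg hi0, if_pos hk0] at hik'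
            exact absurd ⟨i - 1, by omega, hik'⟩ hx
          · rw [if_neg hi0, if_neg hk0] at hik'
            have h1 := hinj (i - 1) (by omega) (k - 1) (by omega) hik'
            omega

/-- The lift with a prescribed first vertex. -/
theorem lift_path_from {V : Type*} (T : V → V → Prop) (cell : V → V)
    (hin : ∀ u v, cell u = cell v →
      Relation.ReflTransGen (fun x y => T x y ∧ cell x = cell u ∧ cell y = cell u) u v)
    (n : ℕ) : ∀ (a : ℕ → V) (_ : ∀ i ≤ n, ∀ j ≤ n, a i = a j → i = j)
    (s : V) (_ : cell s = a 0)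
    (_ : ∀ i < n, ∃ u v, T u v ∧ cell u = a i ∧ cell v = a (i + 1)),
    ∃ (z : ℕ → V) (κ : ℕ → ℕ) (m : ℕ), z 0 = s ∧
      (∀ i < m, T (z i) (z (i + 1))) ∧ (∀ i ≤ m, ∀ j ≤ m, z i = z j → i = j) ∧
      (∀ i ≤ m, cell (z i) = a (κ i)) ∧ (∀ i ≤ m, κ i ≤ n) ∧ κ 0 = 0 ∧ κ m = n ∧
      (∀ i < m, κ (i + 1) = κ i ∨ κ (i + 1) = κ i + 1) := by
  classical
  induction n with
  | zero =>
    intro a _ s hs _
    exact ⟨fun _ => s, fun _ => 0, 0, rfl, fun i hi => absurd hi (by omega),
      fun i hi j hj _ => by omega, fun i _ => hs, fun i _ => le_refl 0, rfl, rfl,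
      fun i hi => absurd hi (by omega)⟩
  | succ n ih =>
    intro a ha s hs hadj
    obtain ⟨u, v, huv, hu, hv⟩ := hadj 0 (by omega)
    obtain ⟨y, p, y0, yp, yR, yinj⟩ := exists_seq (hin s u (by rw [hs, hu]))
    obtain ⟨z, κ, m, z0, zT, zinj, zc, κn, κ0, κm, κs⟩ := ih (fun i => a (i + 1))
      (fun i hi j hj hij => by
        have h1 := ha (i + 1) (by omega) (j + 1) (by omega) hij
        omega) v hv
      (fun i hi => hadj (i + 1) (by omega))
    -- the cells of the first part
    have yc : ∀ i ≤ p, cell (y i) = a 0 := by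
      intro i hi
      rcases Nat.eq_zero_or_pos i with h | h
      · rw [h, y0, hs]
      · have h1 := (yR (i - 1) (by omega)).2.2
        have h2 : i - 1 + 1 = i := by omega
        rw [h2] at h1
        rw [h1, hs]
    have yz : ∀ i ≤ p, ∀ j ≤ m, y i ≠ z j := by
      intro i hi j hj h
      have h1 := yc i hi
      rw [h, zc j hj] at h1
      have h2 := ha (κ j + 1) (by have := κn j hj; omega) 0 (by omega) h1
      omega
    have Zl : ∀ i ≤ p, (if i ≤ p then y i else z (i - (p + 1))) = y i := fun i hi => if_pos hi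
    have Zr : ∀ i, (if i + (p + 1) ≤ p then y (i + (p + 1)) else z (i + (p + 1) - (p + 1))) = z i := by
      intro i
      rw [if_neg (by omega), Nat.add_sub_cancel]
    have Kl : ∀ i ≤ p, (if i ≤ p then 0 else κ (i - (p + 1)) + 1) = 0 := fun i hi => if_pos hi
    have Kr : ∀ i, (if i + (p + 1) ≤ p then 0 else κ (i + (p + 1) - (p + 1)) + 1) = κ i + 1 := by
      intro i
      rw [if_neg (by omega), Nat.add_sub_cancel]
    have split : ∀ i, i ≤ m + (p + 1) → i ≤ p ∨ ∃ k ≤ m, i = k + (p + 1) := by
      intro i hi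
      by_cases h : i ≤ p
      · exact Or.inl h
      · exact Or.inr ⟨i - (p + 1), by omega, by omega⟩
    refine ⟨fun i => if i ≤ p then y i else z (i - (p + 1)),
      fun i => if i ≤ p then 0 else κ (i - (p + 1)) + 1, m + (p + 1), ?_, ?_, ?_, ?_, ?_, ?_, ?_, ?_⟩
    · show (if 0 ≤ p then y 0 else z (0 - (p + 1))) = s
      rw [Zl 0 (by omega), y0]
    · intro i hi
      show T (if i ≤ p then y i else z (i - (p + 1)))
        (if i + 1 ≤ p then y (i + 1) else z (i + 1 - (p + 1)))
      rcases split i (by omega) with h | ⟨k, hk, rfl⟩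
      · rw [Zl i h]
        by_cases h1 : i + 1 ≤ p
        · rw [Zl (i + 1) h1]
          exact (yR i (by omega)).1
        · have h2 : i = p := by omega
          have h3 := Zr 0
          rw [Nat.zero_add] at h3
          rw [h2, h3, yp, z0]
          exact huv
      · rw [Zr k]
        have h1 : k + (p + 1) + 1 = (k + 1) + (p + 1) := by omega
        rw [h1, Zr (k + 1)]
        exact zT k (by omega)
    · intro i hi j hj hij
      have hij' : (if i ≤ p then y i else z (i - (p + 1))) =
        (if j ≤ p then y j else z (j - (p + 1))) := hij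
      rcases split i hi with h | ⟨k, hk, rfl⟩
      · rw [Zl i h] at hij'
        rcases split j hj with h' | ⟨l, hl, rfl⟩
        · rw [Zl j h'] at hij'
          exact yinj i h j h' hij'
        · rw [Zr l] at hij'
          exact absurd hij' (yz i h l hl)
      · rw [Zr k] at hij'
        rcases split j hj with h' | ⟨l, hl, rfl⟩
        · rw [Zl j h'] at hij'
          exact absurd hij'.symm (yz j h' k hk)
        · rw [Zr l] at hij'
          rw [zinj k hk l hl hij']
    · intro i hi
      show cell (if i ≤ p then y i else z (i - (p + 1))) =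
        a (if i ≤ p then 0 else κ (i - (p + 1)) + 1)
      rcases split i hi with h | ⟨k, hk, rfl⟩
      · rw [Zl i h, Kl i h]
        exact yc i h
      · rw [Zr k, Kr k]
        exact zc k hk
    · intro i hi
      show (if i ≤ p then 0 else κ (i - (p + 1)) + 1) ≤ n + 1
      rcases split i hi with h | ⟨k, hk, rfl⟩
      · rw [Kl i h]
        omega
      · rw [Kr k]
        have := κn k hk
        omega
    · show (if 0 ≤ p then 0 else κ (0 - (p + 1)) + 1) = 0
      rw [Kl 0 (by omega)]
    · show (if m + (p + 1) ≤ p then 0 else κ (m + (p + 1) - (p + 1)) + 1) = n + 1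
      rw [Kr m, κm]
    · intro i hi
      show (if i + 1 ≤ p then 0 else κ (i + 1 - (p + 1)) + 1) =
          (if i ≤ p then 0 else κ (i - (p + 1)) + 1) ∨
        (if i + 1 ≤ p then 0 else κ (i + 1 - (p + 1)) + 1) =
          (if i ≤ p then 0 else κ (i - (p + 1)) + 1) + 1
      rcases split i (by omega) with h | ⟨k, hk, rfl⟩
      · rw [Kl i h]
        by_cases h1 : i + 1 ≤ p
        · left
          rw [Kl (i + 1) h1]
        · right
          have h2 : i = p := by omega
          have h3 := Kr 0
          rw [Nat.zero_add] at h3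
          rw [h2, h3, κ0]
      · rw [Kr k]
        have h1 : k + (p + 1) + 1 = (k + 1) + (p + 1) := by omega
        rw [h1, Kr (k + 1)]
        rcases κs k (by omega) with h2 | h2
        · left
          rw [h2]
        · right
          rw [h2]

/-- Lifting a path of clusters `a 0, ..., a n` to a path of vertices. -/
theorem lift_path {V : Type*} (T : V → V → Prop) (cell : V → V)
    (hin : ∀ u v, cell u = cell v →
      Relation.ReflTransGen (fun x y => T x y ∧ cell x = cell u ∧ cell y = cell u) u v)
    (n : ℕ) (a : ℕ → V) (ha : ∀ i ≤ n, ∀ j ≤ n, a i = a j → i = j)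
    (h0 : ∃ x, cell x = a 0)
    (hadj : ∀ i < n, ∃ u v, T u v ∧ cell u = a i ∧ cell v = a (i + 1)) :
    ∃ (z : ℕ → V) (κ : ℕ → ℕ) (m : ℕ),
      (∀ i < m, T (z i) (z (i + 1))) ∧ (∀ i ≤ m, ∀ j ≤ m, z i = z j → i = j) ∧
      (∀ i ≤ m, cell (z i) = a (κ i)) ∧ (∀ i ≤ m, κ i ≤ n) ∧ κ 0 = 0 ∧ κ m = n ∧
      (∀ i < m, κ (i + 1) = κ i ∨ κ (i + 1) = κ i + 1) := by
  obtain ⟨s, hs⟩ := h0
  obtain ⟨z, κ, m, -, h⟩ := lift_path_from T cell hin n a ha s hs hadj
  exact ⟨z, κ, m, h⟩

end HD21
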