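import Mathlib
import Pool.Agent.HD21.Cells

/-!
The induction step: if every ball of radius `ρ` meets few cells then so does every ball of radius
`1.01 ρ`.
-/

namespace HD21

/-- The number of cells after one step. -/
def stepBound (K N : ℕ) : ℕ :=
  (2 * (3 * N + 1) + 1) *
      (2 * K * K * (2 * (N + (2 * K * K * (2 * (N + 2 + 2) + 2) + 1) + 2) + 2)) +
    (2 * K * N) * (2 * (3 * N + 1) + 1) + 2 * (3 * N + 1) + 2 * K * N + 2 * N

variable {V : Type*} [DecidableEq V] {d : V → V → ℝ} {T : V → V → Prop} {s D : ℝ} {z : ℕ → V}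
  {κ : ℕ → ℕ} {m n : ℕ}

/-- Separators: few points of the ball of radius about `2ρ` lie on shortest paths between any point
of the ball and any point farther away than `1.03 ρ`. -/
theorem separators (hd : IsPM d) (hH : ∀ r, 0 < r → ∃ S, HubSet d T r S) {ρ : ℝ} (hρ : 0 < ρ)
    (K : ℕ) (v : V) : ∃ Y : Finset V, Y.card ≤ 2 * K ∧
      ∀ x w, d v x < 1.01 * ρ → 1.03 * ρ < d x w → d x w ≤ 1.03 * ρ * 1.01 ^ K →
        ∃ y ∈ Y, d x w = d x y + d y w := by
  classical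
  have hpow : ∀ k : ℕ, (1 : ℝ) ≤ 1.01 ^ k := fun k => one_le_pow₀ (by norm_num)
  choose S hS using fun k : ℕ => hH (1.03 * ρ * 1.01 ^ k) (by positivity)
  refine ⟨(Finset.range K).biUnion
    (fun k => (S k).filter (fun c => d v c ≤ 2 * (1.03 * ρ * 1.01 ^ k))), ?_, ?_⟩
  · refine le_trans Finset.card_biUnion_le ?_
    refine le_trans (Finset.sum_le_sum (fun k _ => (hS k).sparse v)) ?_
    simp [mul_comm]
  · intro x w h1 h2 h3
    obtain ⟨k, hk, h4, h5⟩ := grid K h2 h3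
    set r : ℝ := 1.03 * ρ * 1.01 ^ k with hr
    have hrρ : 1.03 * ρ ≤ r := by
      rw [hr]
      have := hpow k
      nlinarith
    obtain ⟨y, hy, hy'⟩ := (hS k).hit x w h4 (by linarith)
    refine ⟨y, ?_, hy'.symm⟩
    rw [Finset.mem_biUnion]
    refine ⟨k, Finset.mem_range.mpr hk, ?_⟩
    rw [Finset.mem_filter]
    refine ⟨hy, ?_⟩
    have h6 := hd.tri v x y
    have h7 := hd.nonneg y w
    linarith

/-- The induction step. -/
theorem step (hd : IsPM d) (hH : ∀ r, 0 < r → ∃ S, HubSet d T r S)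
    (hTs : ∀ a b, T a b → T b a) (hP : CellPath d T s D z κ m n) (hs : 0 < s) {K : ℕ}
    (hDK : D ≤ 0.48 * s * 1.01 ^ K) {ρ : ℝ} (hρs : s / 2 ≤ ρ) {N : ℕ}
    (hN : ∀ c, (cellsO d z κ m c ρ).card ≤ N) (v : V) :
    (cellsO d z κ m v (1.01 * ρ)).card ≤ stepBound K N := by
  classical
  have hρ : 0 < ρ := by linarith
  have hpowK : (1 : ℝ) ≤ 1.01 ^ K := one_le_pow₀ (by norm_num)
  have hD1 : D ≤ 0.96 * ρ * 1.01 ^ K := by
    have : 0.48 * s * 1.01 ^ K ≤ 0.96 * ρ * 1.01 ^ K := by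
      apply mul_le_mul_of_nonneg_right _ (by positivity)
      linarith
    linarith
  have hD2 : D ≤ 1.03 * ρ * 1.01 ^ K := by
    have : 0.96 * ρ * 1.01 ^ K ≤ 1.03 * ρ * 1.01 ^ K := by
      apply mul_le_mul_of_nonneg_right _ (by positivity)
      linarith
    linarith
  obtain ⟨S, hS⟩ := hH (0.95 * ρ) (by positivity)
  obtain ⟨Y, hYc, hY⟩ := separators hd hH hρ K v
  by_contra hcon
  push Not at hcon
  -- bad cells
  set Bad : Finset ℕ := Y.biUnion (fun y => cellsO d z κ m y ρ) with hBad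
  have hBadc : Bad.card ≤ 2 * K * N := by
    refine le_trans Finset.card_biUnion_le ?_
    refine le_trans (Finset.sum_le_sum (fun y _ => hN y)) ?_
    rw [Finset.sum_const, smul_eq_mul]
    exact Nat.mul_le_mul_right _ hYc
  have hnotbad : ∀ i ≤ m, κ i ∉ Bad → ∀ y ∈ Y, ρ ≤ d y (z i) := by
    intro i hi hb y hy
    by_contra h
    refine hb ?_
    rw [hBad, Finset.mem_biUnion]
    exact ⟨y, hy, mem_cellsO.mpr ⟨i, hi, not_le.mp h, rfl⟩⟩
  -- cells with a point whose ball meets many cells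
  set CL : Finset ℕ := ((Finset.range (m + 1)).filter (fun i => d v (z i) < 1.01 * ρ ∧
    3 * N < (cellsC d z κ m (z i) (1.03 * ρ)).card)).image κ with hCL
  have hCLc : CL.card ≤ 2 * N := by
    have hsub : CL ⊆ (S.filter (fun c => d v c ≤ 2 * (0.95 * ρ))).biUnion
        (fun b => cellsO d z κ m b ρ) := by
      intro β hβ
      rw [hCL, Finset.mem_image] at hβ
      obtain ⟨i, hi, rfl⟩ := hβ
      rw [Finset.mem_filter, Finset.mem_range] at hi
      obtain ⟨him, hi1, hi2⟩ := hi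
      by_contra hno
      rw [Finset.mem_biUnion] at hno
      push Not at hno
      have hfar : ∀ b ∈ S, d (z i) b ≤ 2 * (0.95 * ρ) → 0.03 * ρ < d (z i) b := by
        intro b hb hb2
        by_contra h
        push Not at h
        refine hno b ?_ ?_
        · rw [Finset.mem_filter]
          refine ⟨hb, ?_⟩
          have := hd.tri v (z i) b
          linarith
        · refine mem_cellsO.mpr ⟨i, by omega, ?_, rfl⟩
          rw [hd.symm]
          linarith
      have hsub2 : cellsC d z κ m (z i) (1.03 * ρ) ⊆ cellsO d z κ m (z i) ρ ∪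
          (S.filter (fun c => d (z i) c ≤ 2 * (0.95 * ρ))).biUnion
            (fun b => cellsO d z κ m b ρ) := by
        intro γ hγ
        obtain ⟨l, hl, hl1, rfl⟩ := mem_cellsC.mp hγ
        rw [Finset.mem_union]
        by_cases h : d (z i) (z l) < ρ
        · left
          exact mem_cellsO.mpr ⟨l, hl, h, rfl⟩
        · right
          push Not at h
          obtain ⟨b, hb, hb'⟩ := hS.hit (z i) (z l) (by linarith) (by linarith)
          have h1 := hd.nonneg b (z l)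
          have h2 := hfar b hb (by linarith)
          rw [Finset.mem_biUnion]
          refine ⟨b, Finset.mem_filter.mpr ⟨hb, by linarith⟩, ?_⟩
          exact mem_cellsO.mpr ⟨l, hl, by linarith, rfl⟩
      have h3 := Finset.card_le_card hsub2
      have h4 := Finset.card_union_le (cellsO d z κ m (z i) ρ)
        ((S.filter (fun c => d (z i) c ≤ 2 * (0.95 * ρ))).biUnion (fun b => cellsO d z κ m b ρ))
      have h5 : ((S.filter (fun c => d (z i) c ≤ 2 * (0.95 * ρ))).biUnion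
          (fun b => cellsO d z κ m b ρ)).card ≤ 2 * N := by
        refine le_trans Finset.card_biUnion_le ?_
        refine le_trans (Finset.sum_le_sum (fun y _ => hN y)) ?_
        rw [Finset.sum_const, smul_eq_mul]
        exact Nat.mul_le_mul_right _ (hS.sparse (z i))
      have h6 := hN (z i)
      omega
    refine le_trans (Finset.card_le_card hsub) ?_
    refine le_trans Finset.card_biUnion_le ?_
    refine le_trans (Finset.sum_le_sum (fun y _ => hN y)) ?_
    rw [Finset.sum_const, smul_eq_mul]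
    exact Nat.mul_le_mul_right _ (hS.sparse v)
  have hnotCL : ∀ i ≤ m, d v (z i) < 1.01 * ρ → κ i ∉ CL →
      (cellsC d z κ m (z i) (1.03 * ρ)).card ≤ 3 * N := by
    intro i hi h1 h2
    by_contra h3
    refine h2 ?_
    rw [hCL, Finset.mem_image]
    exact ⟨i, by rw [Finset.mem_filter, Finset.mem_range]; exact ⟨by omega, h1, by omega⟩, rfl⟩
  -- the good cells
  set W : ℕ := 3 * N + 1 with hW
  set G : Finset ℕ := (cellsO d z κ m v (1.01 * ρ)).filter (fun β => β ∉ CL ∧ W ≤ β ∧ β + W ≤ n ∧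
    ∀ b ∈ Bad, ¬ (β ≤ b + W ∧ b ≤ β + W)) with hG
  have hκn : ∀ i ≤ m, κ i ≤ n := by
    intro i hi
    rw [← hP.last]
    exact mono_of_steps hP.cell hi le_rfl
  have hGc : (2 * W + 1) *
      (2 * K * K * (2 * (N + (2 * K * K * (2 * (N + 2 + 2) + 2) + 1) + 2) + 2)) < G.card := by
    have hsub : cellsO d z κ m v (1.01 * ρ) ⊆ G ∪ (CL ∪ (Finset.range W ∪
        (Finset.Ico (n + 1 - W) (n + 1) ∪ Bad.biUnion (fun b => Finset.Icc (b - W) (b + W))))) := by
      intro β hβ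
      by_contra h
      simp only [Finset.mem_union, not_or] at h
      obtain ⟨h1, h2, h3, h4, h5⟩ := h
      refine h1 ?_
      rw [hG, Finset.mem_filter]
      rw [Finset.mem_range] at h3
      rw [Finset.mem_Ico] at h4
      obtain ⟨i, hi, hi1, hi2⟩ := mem_cellsO.mp hβ
      have h6 := hκn i hi
      refine ⟨hβ, h2, by omega, by omega, ?_⟩
      intro b hb hbb
      refine h5 ?_
      rw [Finset.mem_biUnion]
      exact ⟨b, hb, by rw [Finset.mem_Icc]; omega⟩
    have h1 := Finset.card_le_card hsub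
    have h2 := Finset.card_union_le G (CL ∪ (Finset.range W ∪
        (Finset.Ico (n + 1 - W) (n + 1) ∪ Bad.biUnion (fun b => Finset.Icc (b - W) (b + W)))))
    have h3 := Finset.card_union_le CL (Finset.range W ∪
        (Finset.Ico (n + 1 - W) (n + 1) ∪ Bad.biUnion (fun b => Finset.Icc (b - W) (b + W))))
    have h4 := Finset.card_union_le (Finset.range W)
        (Finset.Ico (n + 1 - W) (n + 1) ∪ Bad.biUnion (fun b => Finset.Icc (b - W) (b + W)))
    have h5 := Finset.card_union_le (Finset.Ico (n + 1 - W) (n + 1))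
      (Bad.biUnion (fun b => Finset.Icc (b - W) (b + W)))
    have h6 : (Bad.biUnion (fun b => Finset.Icc (b - W) (b + W))).card ≤
        (2 * K * N) * (2 * W + 1) := by
      refine le_trans Finset.card_biUnion_le ?_
      refine le_trans (Finset.sum_le_sum (g := fun _ => 2 * W + 1) (fun b _ => ?_)) ?_
      · rw [Nat.card_Icc]
        omega
      · rw [Finset.sum_const, smul_eq_mul]
        exact Nat.mul_le_mul_right _ hBadc
    have h7 : (Finset.Ico (n + 1 - W) (n + 1)).card ≤ W := by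
      rw [Nat.card_Ico]
      omega
    rw [Finset.card_range] at h4
    unfold stepBound at hcon
    rw [← hW] at hcon
    omega
  -- a residue class
  obtain ⟨ρ', -, hIc⟩ := Finset.exists_lt_card_fiber_of_mul_lt_card_of_maps_to
    (s := G) (t := Finset.range (2 * W + 1)) (f := fun β => β % (2 * W + 1))
    (n := 2 * K * K * (2 * (N + (2 * K * K * (2 * (N + 2 + 2) + 2) + 1) + 2) + 2)) (by
      intro β _
      rw [Finset.mem_range]
      exact Nat.mod_lt _ (by omega)) (by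
      rw [Finset.card_range]
      exact hGc)
  set I : Finset ℕ := G.filter (fun β => β % (2 * W + 1) = ρ') with hI
  have hIG : ∀ β ∈ I, β ∈ G := fun β hβ => (Finset.mem_filter.mp hβ).1
  have hIsep : ∀ β ∈ I, ∀ γ ∈ I, β ≠ γ → β + W < γ - W ∨ γ + W < β - W := by
    intro β hβ γ hγ hne
    have h1 := (Finset.mem_filter.mp hβ).2
    have h2 := (Finset.mem_filter.mp hγ).2
    rcases Nat.lt_or_ge β γ with h | h
    · left
      have h3 : (2 * W + 1) ∣ γ - β := (Nat.modEq_iff_dvd' h.le).mp (by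
        unfold Nat.ModEq
        rw [h1, h2])
      have := Nat.le_of_dvd (by omega) h3
      omega
    · right
      have h3 : (2 * W + 1) ∣ β - γ := (Nat.modEq_iff_dvd' h).mp (by
        unfold Nat.ModEq
        rw [h1, h2])
      have := Nat.le_of_dvd (by omega) h3
      omega
  have hIprop : ∀ β ∈ I, β ∉ CL ∧ W ≤ β ∧ β + W ≤ n ∧ ∀ b ∈ Bad, ¬ (β ≤ b + W ∧ b ≤ β + W) :=
    fun β hβ => (Finset.mem_filter.mp (hIG β hβ)).2
  -- positions
  have hpos : ∀ β, ∃ i, β ∈ I → i ≤ m ∧ d v (z i) < 1.01 * ρ ∧ κ i = β := by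
    intro β
    by_cases hβ : β ∈ I
    · obtain ⟨i, h1, h2, h3⟩ := mem_cellsO.mp (Finset.mem_filter.mp (hIG β hβ)).1
      exact ⟨i, fun _ => ⟨h1, h2, h3⟩⟩
    · exact ⟨0, fun h => absurd h hβ⟩
  choose pos hpos using hpos
  have hfw : ∀ β, ∃ j, β ∈ I → pos β ≤ j ∧ j + 1 ≤ m ∧ d (z (pos β)) (z j) ≤ 1.03 * ρ ∧
      1.03 * ρ < d (z (pos β)) (z (j + 1)) ∧ κ (j + 1) ≤ β + W := by
    intro β
    by_cases hβ : β ∈ I
    · obtain ⟨h1, h2, h3⟩ := hpos β hβ
      obtain ⟨h4, h5, h6, h7⟩ := hIprop β hβ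
      have h8 := hnotCL (pos β) h1 h2 (by rw [h3]; exact h4)
      obtain ⟨j, hj1, hj2, hj3, hj4, hj5⟩ := forward hd hP (g := 1.03 * ρ) (by positivity) h1 h8
        (by rw [h3]; exact h6)
      exact ⟨j, fun _ => ⟨hj1, hj2, hj3, hj4, by rw [h3] at hj5; exact hj5⟩⟩
    · exact ⟨0, fun h => absurd h hβ⟩
  choose jf hjf using hfw
  have hbw : ∀ β, ∃ j, β ∈ I → j + 1 ≤ pos β ∧ d (z (pos β)) (z (j + 1)) ≤ 1.03 * ρ ∧
      1.03 * ρ < d (z (pos β)) (z j) ∧ β ≤ κ j + W := by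
    intro β
    by_cases hβ : β ∈ I
    · obtain ⟨h1, h2, h3⟩ := hpos β hβ
      obtain ⟨h4, h5, h6, h7⟩ := hIprop β hβ
      have h8 := hnotCL (pos β) h1 h2 (by rw [h3]; exact h4)
      obtain ⟨j, hj1, hj3, hj4, hj5⟩ := backward hd hP (g := 1.03 * ρ) (by positivity) h1 h8
        (by rw [h3]; exact h5)
      exact ⟨j, fun _ => ⟨hj1, hj3, hj4, by rw [h3] at hj5; exact hj5⟩⟩
    · exact ⟨0, fun h => absurd h hβ⟩
  choose jb hjb using hbw
  have hmono := fun {i j : ℕ} (h : i ≤ j) (h' : j ≤ m) => mono_of_steps hP.cell h h'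
  -- positions of different windows carry different vertices
  have hdiff : ∀ β ∈ I, ∀ γ ∈ I, β ≠ γ → ∀ a ≤ m, ∀ b ≤ m, β ≤ κ a + W → κ a ≤ β + W →
      γ ≤ κ b + W → κ b ≤ γ + W → z a ≠ z b := by
    intro β hβ γ hγ hne a ha b hb h1 h2 h3 h4 hab
    have h5 : κ a ≠ κ b := by
      rcases hIsep β hβ γ hγ hne with h | h <;> omega
    have h6 := hP.sep a ha b hb h5
    rw [hab, hd.self] at h6
    linarith
  have hsepY : ∀ β ∈ I, ∀ j ≤ m, β ≤ κ j + W → κ j ≤ β + W → 1.03 * ρ < d (z (pos β)) (z j) →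
      ∃ y ∈ Y, d (z (pos β)) (z j) = d (z (pos β)) y + d y (z j) ∧ ρ ≤ d (z (pos β)) y ∧
        ρ ≤ d y (z j) := by
    intro β hβ j hj h1 h2 h3
    obtain ⟨h4, h5, h6⟩ := hpos β hβ
    obtain ⟨h7, h8, h9, h10⟩ := hIprop β hβ
    obtain ⟨y, hy, hy'⟩ := hY (z (pos β)) (z j) h5 h3
      (le_trans (hP.diam _ h4 _ hj) hD2)
    refine ⟨y, hy, hy', ?_, ?_⟩
    · rw [hd.symm]
      refine hnotbad (pos β) h4 ?_ y hy
      intro hb
      exact h10 _ hb (by rw [h6]; omega)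
    · exact hnotbad j hj (fun hb => h10 _ hb ⟨h1, h2⟩) y hy
  have hcN : ∀ I' : Finset ℕ, I' ⊆ I → ∀ c : V,
      (I'.filter (fun β => d c (z (pos β)) < ρ)).card ≤ N := by
    intro I' hI' c
    refine le_trans (Finset.card_le_card ?_) (hN c)
    intro β hβ
    rw [Finset.mem_filter] at hβ
    obtain ⟨h4, h5, h6⟩ := hpos β (hI' hβ.1)
    exact mem_cellsO.mpr ⟨pos β, h4, hβ.2, h6⟩
  have hYK : ∀ t, Y.card * K * t ≤ 2 * K * K * t := fun t =>
    Nat.mul_le_mul_right _ (Nat.mul_le_mul_right _ hYc)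
  -- windows
  have hjfκ : ∀ β ∈ I, (β ≤ κ (jf β) + W ∧ κ (jf β) ≤ β + W) ∧
      (β ≤ κ (jf β + 1) + W ∧ κ (jf β + 1) ≤ β + W) := by
    intro β hβ
    obtain ⟨h1, h2, h3⟩ := hpos β hβ
    obtain ⟨h4, h5, h6, h7, h8⟩ := hjf β hβ
    have h9 := hmono (i := pos β) (j := jf β) h4 (by omega)
    have h10 := hmono (i := jf β) (j := jf β + 1) (by omega) h5
    omega
  have hjbκ : ∀ β ∈ I, (β ≤ κ (jb β) + W ∧ κ (jb β) ≤ β + W) ∧
      (β ≤ κ (jb β + 1) + W ∧ κ (jb β + 1) ≤ β + W) := by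
    intro β hβ
    obtain ⟨h1, h2, h3⟩ := hpos β hβ
    obtain ⟨h4, h5, h6, h7⟩ := hjb β hβ
    have h9 := hmono (i := jb β + 1) (j := pos β) h4 h1
    have h10 := hmono (i := jb β) (j := jb β + 1) (by omega) (by omega)
    omega
  -- forward jumps
  obtain ⟨J1, hJ1, hJ1c, b, hb, hJ1p⟩ := jump hd hH hρ hS Y K N
    (2 * K * K * (2 * (N + 2 + 2) + 2) + 1) I
    (fun β => z (pos β)) (fun β => z (jf β)) (fun β => z (jf β + 1))
    (fun β hβ => hP.step _ (by have := (hjf β hβ).2.1; omega))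
    (fun β hβ => (hjf β hβ).2.2.1)
    (fun β hβ => hsepY β hβ _ (hjf β hβ).2.1 (hjfκ β hβ).2.1 (hjfκ β hβ).2.2 (hjf β hβ).2.2.2.1)
    (fun β hβ γ hγ hne => by
      have h1 := (hjf β hβ).2.1
      have h2 := (hjf γ hγ).2.1
      refine ⟨hdiff β hβ γ hγ hne _ (by omega) _ (by omega) (hjfκ β hβ).1.1 (hjfκ β hβ).1.2
        (hjfκ γ hγ).1.1 (hjfκ γ hγ).1.2, hdiff β hβ γ hγ hne _ h1 _ h2 (hjfκ β hβ).2.1
        (hjfκ β hβ).2.2 (hjfκ γ hγ).2.1 (hjfκ γ hγ).2.2, hdiff β hβ γ hγ hne _ (by omega) _ h2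
        (hjfκ β hβ).1.1 (hjfκ β hβ).1.2 (hjfκ γ hγ).2.1 (hjfκ γ hγ).2.2⟩)
    (fun β hβ => le_trans (hP.diam _ (by have := (hjf β hβ).2.1; omega) _ (hjf β hβ).2.1) hD1)
    (fun c => hcN I (fun _ h => h) c)
    (lt_of_le_of_lt (hYK _) hIc)
  -- backward jumps
  obtain ⟨J2, hJ2, hJ2c, b', hb', hJ2p⟩ := jump hd hH hρ hS Y K N 2 J1
    (fun β => z (pos β)) (fun β => z (jb β + 1)) (fun β => z (jb β))
    (fun β hβ => hTs _ _ (hP.step _ (by
      have h1 := (hjb β (hJ1 hβ)).1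
      have h2 := (hpos β (hJ1 hβ)).1
      omega)))
    (fun β hβ => (hjb β (hJ1 hβ)).2.1)
    (fun β hβ => hsepY β (hJ1 hβ) _ (by
      have h1 := (hjb β (hJ1 hβ)).1
      have h2 := (hpos β (hJ1 hβ)).1
      omega) (hjbκ β (hJ1 hβ)).1.1 (hjbκ β (hJ1 hβ)).1.2 (hjb β (hJ1 hβ)).2.2.1)
    (fun β hβ γ hγ hne => by
      have hβ := hJ1 hβ
      have hγ := hJ1 hγ
      have h1 := (hjb β hβ).1
      have h2 := (hpos β hβ).1
      have h3 := (hjb γ hγ).1
      have h4 := (hpos γ hγ).1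
      refine ⟨hdiff β hβ γ hγ hne _ (by omega) _ (by omega) (hjbκ β hβ).2.1 (hjbκ β hβ).2.2
        (hjbκ γ hγ).2.1 (hjbκ γ hγ).2.2, hdiff β hβ γ hγ hne _ (by omega) _ (by omega)
        (hjbκ β hβ).1.1 (hjbκ β hβ).1.2 (hjbκ γ hγ).1.1 (hjbκ γ hγ).1.2,
        hdiff β hβ γ hγ hne _ (by omega) _ (by omega)
        (hjbκ β hβ).2.1 (hjbκ β hβ).2.2 (hjbκ γ hγ).1.1 (hjbκ γ hγ).1.2⟩)
    (fun β hβ => by
      have h1 := (hjb β (hJ1 hβ)).1
      have h2 := (hpos β (hJ1 hβ)).1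
      exact le_trans (hP.diam _ (by omega) _ (by omega)) hD1)
    (fun c => hcN J1 hJ1 c)
    (lt_of_le_of_lt (hYK _) (by omega))
  -- an index whose backward hub is not `b`
  obtain ⟨β, hβ, hβb⟩ : ∃ β ∈ J2, z (jb β + 1) ≠ b := by
    by_contra hno
    push Not at hno
    obtain ⟨β, hβ, γ, hγ, hne⟩ := Finset.one_lt_card.mp (show 1 < J2.card by omega)
    have hβI := hJ1 (hJ2 hβ)
    have hγI := hJ1 (hJ2 hγ)
    have h1 := (hjb β hβI).1
    have h2 := (hpos β hβI).1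
    have h3 := (hjb γ hγI).1
    have h4 := (hpos γ hγI).1
    refine hdiff β hβI γ hγI hne (jb β + 1) (by omega) (jb γ + 1) (by omega)
      (hjbκ β hβI).2.1 (hjbκ β hβI).2.2 (hjbκ γ hγI).2.1 (hjbκ γ hγI).2.2 ?_
    rw [hno β hβ, hno γ hγ]
  have hβ1 := hJ2 hβ
  have hβI := hJ1 hβ1
  obtain ⟨hp1, hp2, hp3, hp4⟩ := hJ1p β hβ1
  obtain ⟨hq1, hq2, hq3, hq4⟩ := hJ2p β hβ
  obtain ⟨f1, f2, f3, f4, f5⟩ := hjf β hβI
  obtain ⟨g1, g2, g3, g4⟩ := hjb β hβI
  have hpp : z (jf β) ≠ z (jb β + 1) := by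
    intro h
    have h1 := hP.inj (jf β) (by omega) (jb β + 1) (by have := (hpos β hβI).1; omega) h
    have h2 : jf β = pos β := by omega
    exact hp4 (by simp only [h2])
  have hsub : ({b, z (jf β), z (jb β + 1)} : Finset V) ⊆
      S.filter (fun c => d (z (pos β)) c ≤ 2 * (0.95 * ρ)) := by
    intro y hy
    simp only [Finset.mem_insert, Finset.mem_singleton] at hy
    rw [Finset.mem_filter]
    rcases hy with rfl | rfl | rfl
    · exact ⟨hb, by linarith⟩
    · exact ⟨hp1, by linarith⟩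
    · exact ⟨hq1, by linarith⟩
  have h3 : ({b, z (jf β), z (jb β + 1)} : Finset V).card = 3 := by
    rw [Finset.card_eq_three]
    exact ⟨b, z (jf β), z (jb β + 1), hp3, fun h => hβb h.symm, hpp, rfl⟩
  have h4 := Finset.card_le_card hsub
  have h5 := hS.sparse (z (pos β))
  omega

end HD21
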