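import Mathlib
import Pool.Agent.HD21.Step
import Pool.Agent.HD21.HostDef
import Pool.Agent.HD21.Lift

/-!
The graphs of subclusters have no long paths.
-/

namespace HD21

open SimpleGraph

/-- The bound for the number of cells. -/
def cellBound (K : ℕ) : ℕ → ℕ
  | 0 => 1
  | q + 1 => stepBound K (cellBound K q)

section

variable {V : Type*} [DecidableEq V] {d : V → V → ℝ} {T : V → V → Prop} {s D : ℝ} {z : ℕ → V}
  {κ : ℕ → ℕ} {m n : ℕ}

/-- A path runs through few cells. -/
theorem path_bound (hd : IsPM d) (hH : ∀ r, 0 < r → ∃ S, HubSet d T r S)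
    (hTs : ∀ a b, T a b → T b a) (hP : CellPath d T s D z κ m n) (hs : 0 < s) {K : ℕ}
    (hDK : D ≤ 0.48 * s * 1.01 ^ K) : n + 1 ≤ cellBound K K := by
  classical
  have key : ∀ q, ∀ c, (cellsO d z κ m c (s / 2 * 1.01 ^ q)).card ≤ cellBound K q := by
    intro q
    induction q with
    | zero =>
      intro c
      refine Finset.card_le_one.mpr ?_
      intro β hβ γ hγ
      obtain ⟨i, hi, hi1, rfl⟩ := mem_cellsO.mp hβ
      obtain ⟨j, hj, hj1, rfl⟩ := mem_cellsO.mp hγ
      by_contra h
      have h1 := hP.sep i hi j hj h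
      have h2 := hd.tri (z i) c (z j)
      rw [hd.symm (z i) c] at h2
      simp only [pow_zero, mul_one] at hi1 hj1
      linarith
    | succ q ih =>
      intro c
      have h1 : (1 : ℝ) ≤ 1.01 ^ q := one_le_pow₀ (by norm_num)
      have h2 := step hd hH hTs hP hs hDK (ρ := s / 2 * 1.01 ^ q) (by nlinarith) ih c
      have h3 : 1.01 * (s / 2 * 1.01 ^ q) = s / 2 * (1.01 : ℝ) ^ (q + 1) := by
        rw [pow_succ]
        ring
      rw [h3] at h2
      exact h2
  refine le_trans ?_ (key K (z 0))
  have hsub : Finset.range (n + 1) ⊆ cellsO d z κ m (z 0) (s / 2 * 1.01 ^ K) := by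
    intro β hβ
    rw [Finset.mem_range] at hβ
    obtain ⟨l, hl, hl'⟩ := ivt hP.cell (t := β) (by rw [hP.zero]; omega) (by rw [hP.last]; omega)
    refine mem_cellsO.mpr ⟨l, hl, ?_, hl'⟩
    have h1 := hP.diam 0 (Nat.zero_le _) l hl
    have h2 : (0 : ℝ) < 1.01 ^ K := by positivity
    nlinarith
  have := Finset.card_le_card hsub
  rwa [Finset.card_range] at this

end

/-! ### Tight edges -/

section

variable {V : Type*} [Fintype V] [DecidableEq V] {G : SimpleGraph V} {wt : Sym2 V → ℝ}

theorem Tight.symm' (h0 : ∀ e, 0 ≤ wt e) (hc : G.Connected) {u v : V} (h : Tight G wt u v) :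
    Tight G wt v u := by
  refine ⟨h.1.symm, ?_⟩
  rw [Sym2.eq_swap, h.2, (isPM_gdist h0 hc).symm]

/-- Highway dimension at most 2 provides hub sets. -/
theorem hubSet_of_hd (h0 : ∀ e, 0 ≤ wt e) (hc : G.Connected) (hh : HighwayDimLE G wt 2) :
    ∀ r, 0 < r → ∃ S, HubSet (gdist G wt) (Tight G wt) r S := by
  classical
  intro r hr
  obtain ⟨S, hS, hsp⟩ := hh r hr
  refine ⟨S.toFinset, ?_, ?_, ?_⟩
  · intro u v h1 h2
    obtain ⟨c, hcS, hcc⟩ := hub_split h0 hc hS u v h1 h2
    exact ⟨c, by simpa using hcS, hcc⟩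
  · intro u v hT h1 h2
    have hw : wlen wt (Walk.cons hT.1 Walk.nil) = gdist G wt u v := by
      rw [wlen_cons, wlen_nil, add_zero, hT.2]
    obtain ⟨x, hx, hx'⟩ := hS u v (Walk.cons hT.1 Walk.nil)
      ⟨by simp [hT.1.ne], hw⟩ (by rw [hw]; exact h1) (by rw [hw]; exact h2)
    simp only [Walk.support_cons, Walk.support_nil, List.mem_cons, List.not_mem_nil,
      or_false] at hx'
    rcases hx' with rfl | rfl
    · exact Or.inl (by simpa using hx)
    · exact Or.inr (by simpa using hx)
  · intro v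
    have h3 := hsp v
    rw [Set.ncard_eq_toFinset_card'] at h3
    refine le_trans (Finset.card_le_card ?_) h3
    intro c hc'
    simp only [Finset.mem_filter, Set.mem_toFinset] at hc'
    simp only [Set.mem_toFinset, Set.mem_inter_iff, Set.mem_setOf_eq]
    exact ⟨hc'.1, hc'.2⟩

/-- A shortest path is a chain of tight edges inside a ball around its end. -/
theorem tight_chain (h0 : ∀ e, 0 ≤ wt e) (hc : G.Connected) {x y : V} (p : G.Walk x y)
    (hp : wlen wt p = gdist G wt x y) (D : ℝ) (hD : gdist G wt x y ≤ D) :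
    Relation.ReflTransGen (fun a b => Tight G wt a b ∧ gdist G wt a y ≤ D ∧ gdist G wt b y ≤ D)
      x y := by
  have hd := isPM_gdist (G := G) (wt := wt) h0 hc
  induction p with
  | nil => exact Relation.ReflTransGen.refl
  | @cons a b c h q ih =>
    rw [wlen_cons] at hp
    have h1 := gdist_le_wlen (wt := wt) h0 q
    have h2 := gdist_adj_le (wt := wt) h0 h
    have h3 := hd.tri a b c
    have h4 := hd.nonneg a b
    have h5 : wlen wt q = gdist G wt b c := by linarith
    have h6 : gdist G wt b c ≤ D := by linarith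
    refine Relation.ReflTransGen.head ⟨⟨h, by linarith⟩, hD, h6⟩ (ih h5 h6)

end

section

variable {V : Type*} [Fintype V] [LinearOrder V] {G : SimpleGraph V} {wt : Sym2 V → ℝ}

/-- Inside a cluster any two vertices are joined by tight edges. -/
theorem tight_inside (h0 : ∀ e, 0 ≤ wt e) (hc : G.Connected) (s : ℝ) (u v : V)
    (huv : rep (gdist G wt) s u = rep (gdist G wt) s v) :
    Relation.ReflTransGen (fun x y => Tight G wt x y ∧
      rep (gdist G wt) s x = rep (gdist G wt) s u ∧ rep (gdist G wt) s y = rep (gdist G wt) s u)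
      u v := by
  classical
  have hd := isPM_gdist (G := G) (wt := wt) h0 hc
  have key : ∀ w, Chained (gdist G wt) s u w →
      Relation.ReflTransGen (fun x y => Tight G wt x y ∧
      rep (gdist G wt) s x = rep (gdist G wt) s u ∧ rep (gdist G wt) s y = rep (gdist G wt) s u)
      u w := by
    intro w hw
    unfold Chained at hw
    induction hw with
    | refl => exact Relation.ReflTransGen.refl
    | @tail b c hb hbc ih =>
      refine ih.trans ?_
      obtain ⟨p, -, hp, -⟩ := exists_shortest (wt := wt) h0 (hc.preconnected b c)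
      have h1 := tight_chain h0 hc p hp s hbc
      have h2 : ∀ a, gdist G wt a c ≤ s → rep (gdist G wt) s a = rep (gdist G wt) s u := by
        intro a ha
        refine ((rep_eq_iff hd).mpr ?_).symm
        have h3 : Chained (gdist G wt) s u c := Relation.ReflTransGen.tail hb hbc
        exact h3.trans ((Chained.single ha).symm hd)
      refine Relation.ReflTransGen.mono ?_ _ _ h1
      intro a b h
      exact ⟨h.1, h2 a h.2.1, h2 b h.2.2⟩
  exact key v ((rep_eq_iff hd).mp huv)

/-- The graphs of subclusters have no long paths. -/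
theorem cellGraph_path (h0 : ∀ e, 0 ≤ wt e) (hc : G.Connected) (hh : HighwayDimLE G wt 2)
    {s : ℕ → ℝ} (hs : Monotone s) (hs0 : ∀ i, 0 < s i) {K : ℕ}
    (hK : ∀ i, 25 * s (i + 1) ≤ 0.48 * s i * 1.01 ^ K) (i : ℕ) (hi : 1 ≤ i) (c : V)
    (a b : {a : V // lev (gdist G wt) s i a = a ∧ lev (gdist G wt) s (i + 1) a = c ∧ a ≠ c})
    (p : (cellGraph (lev (gdist G wt) s) (Tight G wt) i c).Walk a b) (hp : p.IsPath) :
    p.length + 1 ≤ cellBound K K := by
  classical
  have hd := isPM_gdist (G := G) (wt := wt) h0 hc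
  have hU := ud_of_hd h0 hc hh
  have hL := hier_lev (d := gdist G wt) hd hs
  obtain ⟨i, rfl⟩ : ∃ i', i = i' + 1 := ⟨i - 1, by omega⟩
  have hlev : ∀ x, lev (gdist G wt) s (i + 1) x = rep (gdist G wt) (s i) x := fun _ => rfl
  obtain ⟨z, κ, m, hz1, hz2, hz3, hz4, hz5, hz6, hz7⟩ := lift_path (Tight G wt)
    (lev (gdist G wt) s (i + 1)) (fun u v huv => tight_inside h0 hc (s i) u v huv) p.length
    (fun j => (p.getVert j).1)
    (by
      intro j hj l hl hjl
      exact hp.getVert_injOn hj hl (Subtype.ext hjl))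
    ⟨(p.getVert 0).1, (p.getVert 0).2.1⟩
    (by
      intro j hj
      obtain ⟨-, u, v, h1, h2, h3⟩ := p.adj_getVert_succ hj
      refine ⟨u, v, ?_, h2, h3⟩
      rcases h1 with h1 | h1
      · exact h1
      · exact h1.symm' h0 hc)
  refine path_bound hd (hubSet_of_hd h0 hc hh) (fun _ _ h => h.symm' h0 hc)
    (s := s i) (D := 25 * s (i + 1)) (z := z) (κ := κ) (m := m) ?_ (hs0 i) (hK i)
  refine ⟨hz1, hz2, hz5, hz6, hz7, ?_, ?_⟩
  · intro j hj l hl hjl
    by_contra h
    push Not at h
    have h1 : lev (gdist G wt) s (i + 1) (z j) = lev (gdist G wt) s (i + 1) (z l) :=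
      (rep_eq_iff hd).mpr (Chained.single h)
    rw [hz3 j hj, hz3 l hl] at h1
    exact hjl (hp.getVert_injOn (hz4 j hj) (hz4 l hl) (Subtype.ext h1))
  · intro j hj l hl
    refine hU (s (i + 1)) (hs0 _).le _ _ ?_
    refine (rep_eq_iff hd).mp ?_
    have h1 : ∀ j ≤ m, rep (gdist G wt) (s (i + 1)) (z j) = c := by
      intro j hj
      have h2 : lev (gdist G wt) s (i + 1 + 1) (lev (gdist G wt) s (i + 1) (z j)) =
        lev (gdist G wt) s (i + 1 + 1) (z j) := hL.up (i + 1) (z j)
      rw [hz3 j hj] at h2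
      have h3 := (p.getVert (κ j)).2.2.1
      change lev (gdist G wt) s (i + 1 + 1) (z j) = c
      rw [← h2]
      exact h3
    rw [h1 j hj, h1 l hl]

end

end HD21
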