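import Mathlib
import Pool.Agent.HD21.Levels

/-!
The travelling salesperson problem: projecting a tour to the pieces and gluing tours of the pieces.
-/

namespace HD21

open SimpleGraph

variable {V : Type*}

/-- The weights of the complete graph on `P` given by a (symmetric) distance `d`. -/
noncomputable def mwt (d : V → V → ℝ) (P : Finset V) : Sym2 P → ℝ :=
  Sym2.lift ⟨fun a b => max (d a b) (d b a), fun _ _ => max_comm _ _⟩

theorem mwt_mk {d : V → V → ℝ} (hd : IsPM d) (P : Finset V) (a b : P) :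
    mwt d P s(a, b) = d a b := by
  simp [mwt, hd.symm b.1 a.1]

theorem mwt_nonneg {d : V → V → ℝ} (hd : IsPM d) (P : Finset V) (e : Sym2 P) :
    0 ≤ mwt d P e := by
  induction e using Sym2.ind with
  | _ a b => rw [mwt_mk hd]; exact hd.nonneg _ _

/-- A tour exists. -/
theorem exists_tour [Finite V] {G : SimpleGraph V} (hc : G.Connected) :
    ∃ (v : V) (p : G.Walk v v), ∀ u, u ∈ p.support := by
  classical
  haveI := Fintype.ofFinite V
  obtain ⟨v⟩ := hc.nonempty
  have key : ∀ T : Finset V, ∃ p : G.Walk v v, ∀ u ∈ T, u ∈ p.support := by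
    intro T
    induction T using Finset.induction_on with
    | empty => exact ⟨Walk.nil, by simp⟩
    | insert a T _ ih =>
      obtain ⟨p, hp⟩ := ih
      obtain ⟨q⟩ := hc.preconnected v a
      refine ⟨p.append (q.append q.reverse), ?_⟩
      intro u hu
      rcases Finset.mem_insert.mp hu with rfl | hu
      · rw [Walk.mem_support_append_iff, Walk.mem_support_append_iff]
        exact Or.inr (Or.inl q.end_mem_support)
      · rw [Walk.mem_support_append_iff]
        exact Or.inl (hp u hu)
  obtain ⟨p, hp⟩ := key Finset.univ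
  exact ⟨v, p, fun u => hp u (Finset.mem_univ u)⟩

theorem tourWeights_nonempty [Finite V] {G : SimpleGraph V} (hc : G.Connected)
    (wt : Sym2 V → ℝ) : (tourWeights G wt).Nonempty := by
  obtain ⟨v, p, hp⟩ := exists_tour hc
  exact ⟨_, v, p, hp, rfl⟩

theorem tsp_le {G : SimpleGraph V} {wt : Sym2 V → ℝ} (h0 : ∀ e, 0 ≤ wt e) {v : V}
    (p : G.Walk v v) (hp : ∀ u, u ∈ p.support) : tsp G wt ≤ wlen wt p :=
  csInf_le ⟨0, by rintro x ⟨v, q, -, rfl⟩; exact wlen_nonneg h0 q⟩ ⟨v, p, hp, rfl⟩

/-! ### Projection -/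

/-- The image of a walk under a map of the vertices. -/
theorem exists_proj_walk {G : SimpleGraph V} {X : Type*} (f : V → X) (w' : Sym2 X → ℝ)
    (h0' : ∀ e, 0 ≤ w' e) {u v : V} (p : G.Walk u v) :
    ∃ q : (⊤ : SimpleGraph X).Walk (f u) (f v), (∀ x ∈ p.support, f x ∈ q.support) ∧
      wlen w' q ≤ (p.edges.map (fun e => w' (e.map f))).sum := by
  classical
  induction p with
  | nil => exact ⟨Walk.nil, by simp, by simp⟩
  | @cons a b c h p ih =>
    obtain ⟨q, hq, hq'⟩ := ih
    by_cases hab : f a = f b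
    · refine ⟨q.copy hab.symm rfl, ?_, ?_⟩
      · intro x hx
        rw [Walk.support_copy]
        rw [Walk.support_cons, List.mem_cons] at hx
        rcases hx with rfl | hx
        · rw [hab]
          exact q.start_mem_support
        · exact hq x hx
      · rw [Walk.edges_cons, List.map_cons, List.sum_cons]
        have h1 : wlen w' (q.copy hab.symm rfl) = wlen w' q := by simp [wlen]
        rw [h1]
        have := h0' (Sym2.map f s(a, b))
        linarith
    · refine ⟨Walk.cons (by simpa using hab) q, ?_, ?_⟩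
      · intro x hx
        rw [Walk.support_cons, List.mem_cons] at hx ⊢
        rcases hx with rfl | hx
        · exact Or.inl rfl
        · exact Or.inr (hq x hx)
      · rw [Walk.edges_cons, List.map_cons, List.sum_cons, wlen_cons]
        have : Sym2.map f s(a, b) = s(f a, f b) := rfl
        rw [this]
        linarith

/-- The retraction to a piece as a map to a subtype. -/
def projP [DecidableEq V] [Fintype V] (L : ℕ → V → V) (i : ℕ) (c : V) (u : V) : piece L i c :=
  ⟨proj L i c u, proj_mem L i c u⟩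

theorem sum_list_comm {α ι : Type*} (T : Finset ι) (g : ι → α → ℝ) (l : List α) :
    ∑ t ∈ T, (l.map (g t)).sum = (l.map (fun e => ∑ t ∈ T, g t e)).sum := by
  induction l with
  | nil => simp
  | cons a l ih =>
    simp only [List.map_cons, List.sum_cons]
    rw [Finset.sum_add_distrib, ih]

/-- The TSP of a piece is bounded by the projection of any tour. -/
theorem tsp_piece_le [DecidableEq V] [Fintype V] {G : SimpleGraph V} {L : ℕ → V → V}
    (hL : Hier L) {d : V → V → ℝ} (hd : IsPM d) (i : ℕ) (c : V) {v : V} (p : G.Walk v v)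
    (hp : ∀ u, u ∈ p.support) :
    tsp (⊤ : SimpleGraph (piece L i c)) (mwt d (piece L i c)) ≤
      (p.edges.map (fun e => mwt d (piece L i c) (e.map (projP L i c)))).sum := by
  obtain ⟨q, hq, hq'⟩ := exists_proj_walk (projP L i c) (mwt d (piece L i c))
    (mwt_nonneg hd _) p
  refine le_trans (tsp_le (mwt_nonneg hd _) q ?_) hq'
  intro x
  have h1 := hq x.1 (hp x.1)
  have h2 : projP L i c x.1 = x := Subtype.ext (proj_of_mem hL x.2)
  rwa [h2] at h1

/-! ### Gluing -/

theorem insert_walk [DecidableEq V] {G : SimpleGraph V} {wt : Sym2 V → ℝ} {a b : V}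
    (W : G.Walk a a) (hb : b ∈ W.support) (q : G.Walk b b) :
    ∃ W' : G.Walk a a, (∀ x ∈ W.support, x ∈ W'.support) ∧ (∀ x ∈ q.support, x ∈ W'.support) ∧
      wlen wt W' = wlen wt W + wlen wt q := by
  refine ⟨(W.takeUntil b hb).append (q.append (W.dropUntil b hb)), ?_, ?_, ?_⟩
  · intro x hx
    have h1 : x ∈ ((W.takeUntil b hb).append (W.dropUntil b hb)).support := by
      rw [Walk.take_spec]
      exact hx
    rw [Walk.mem_support_append_iff] at h1
    rw [Walk.mem_support_append_iff, Walk.mem_support_append_iff]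
    tauto
  · intro x hx
    rw [Walk.mem_support_append_iff, Walk.mem_support_append_iff]
    tauto
  · rw [wlen_append, wlen_append]
    have h1 : wlen wt W = wlen wt (W.takeUntil b hb) + wlen wt (W.dropUntil b hb) := by
      rw [← wlen_append, Walk.take_spec]
    linarith

theorem insert_walks [DecidableEq V] {G : SimpleGraph V} {wt : Sym2 V → ℝ} {a : V}
    (W : G.Walk a a) (q : ∀ b, G.Walk b b) (T : Finset V) (hT : ∀ b ∈ T, b ∈ W.support) :
    ∃ W' : G.Walk a a, (∀ x ∈ W.support, x ∈ W'.support) ∧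
      (∀ b ∈ T, ∀ x ∈ (q b).support, x ∈ W'.support) ∧
      wlen wt W' = wlen wt W + ∑ b ∈ T, wlen wt (q b) := by
  induction T using Finset.induction_on with
  | empty => exact ⟨W, fun _ h => h, by simp, by simp⟩
  | insert b T hb ih =>
    obtain ⟨W1, h1, h2, h3⟩ := ih (fun b hb => hT b (Finset.mem_insert_of_mem hb))
    obtain ⟨W2, h4, h5, h6⟩ := insert_walk (wt := wt) W1
      (h1 b (hT b (Finset.mem_insert_self _ _))) (q b)
    refine ⟨W2, fun x hx => h4 x (h1 x hx), ?_, ?_⟩
    · intro b' hb' x hx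
      rcases Finset.mem_insert.mp hb' with rfl | hb'
      · exact h5 x hx
      · exact h4 x (h2 b' hb' x hx)
    · rw [h6, h3, Finset.sum_insert hb]
      ring

theorem rotate_walk [DecidableEq V] {G : SimpleGraph V} {wt : Sym2 V → ℝ} {a b : V}
    (W : G.Walk a a) (hb : b ∈ W.support) :
    ∃ W' : G.Walk b b, (∀ x ∈ W.support, x ∈ W'.support) ∧ wlen wt W' = wlen wt W := by
  refine ⟨(W.dropUntil b hb).append (W.takeUntil b hb), ?_, ?_⟩
  · intro x hx
    have h1 : x ∈ ((W.takeUntil b hb).append (W.dropUntil b hb)).support := by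
      rw [Walk.take_spec]
      exact hx
    rw [Walk.mem_support_append_iff] at h1 ⊢
    tauto
  · rw [wlen_append]
    have h1 : wlen wt W = wlen wt (W.takeUntil b hb) + wlen wt (W.dropUntil b hb) := by
      rw [← wlen_append, Walk.take_spec]
    linarith

/-- A walk in a piece can be realised in the graph. -/
theorem expand_walk [Finite V] {G : SimpleGraph V} {wt : Sym2 V → ℝ} (h0 : ∀ e, 0 ≤ wt e)
    (hc : G.Connected) (P : Finset V) {a b : P}
    (q : (⊤ : SimpleGraph P).Walk a b) :
    ∃ W : G.Walk (a : V) (b : V), (∀ x ∈ q.support, (x : V) ∈ W.support) ∧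
      wlen wt W = wlen (mwt (gdist G wt) P) q := by
  induction q with
  | nil => exact ⟨Walk.nil, by simp, by simp⟩
  | @cons a b c h q ih =>
    obtain ⟨W, hW, hW'⟩ := ih
    obtain ⟨p, -, hp, -⟩ := exists_shortest (wt := wt) h0 (hc.preconnected (a : V) (b : V))
    refine ⟨p.append W, ?_, ?_⟩
    · intro x hx
      rw [Walk.support_cons, List.mem_cons] at hx
      rw [Walk.mem_support_append_iff]
      rcases hx with rfl | hx
      · exact Or.inl p.start_mem_support
      · exact Or.inr (hW x hx)
    · rw [wlen_append, wlen_cons, mwt_mk (isPM_gdist h0 hc), hp, hW']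

theorem mem_piece_props [DecidableEq V] [Fintype V] {L : ℕ → V → V} (hL : Hier L) {i : ℕ} {c : V}
    (hcc : L (i + 1) c = c) {p : V} (hp : p ∈ piece L i c) : L i p = p ∧ L (i + 1) p = c := by
  unfold piece at hp
  rcases Finset.mem_insert.mp hp with rfl | hp
  · refine ⟨?_, hcc⟩
    have := hL.down i p
    rwa [hcc] at this
  · obtain ⟨u, hu, rfl⟩ := Finset.mem_image.mp hp
    simp only [Finset.mem_filter, Finset.mem_univ, true_and] at hu
    exact ⟨hL.idem i u, by rw [hL.up, hu]⟩

theorem fiber_sum [DecidableEq V] [Fintype V] {L : ℕ → V → V} (hL : Hier L) {i : ℕ} {c : V}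
    (hcc : L (i + 1) c = c) (y : V → ℝ) :
    ∑ p ∈ piece L i c, ∑ c' ∈ Finset.univ.filter (fun c' => L i c' = p), y c' =
      ∑ c' ∈ Finset.univ.filter (fun c' => L (i + 1) c' = c), y c' := by
  rw [← Finset.sum_fiberwise_of_maps_to (s := Finset.univ.filter (fun c' => L (i + 1) c' = c))
    (t := piece L i c) (g := L i)]
  · refine Finset.sum_congr rfl ?_
    intro p hp
    refine Finset.sum_congr ?_ (fun _ _ => rfl)
    ext c'
    simp only [Finset.mem_filter, Finset.mem_univ, true_and]
    constructor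
    · intro h
      refine ⟨?_, h⟩
      rw [← hL.up, h]
      exact (mem_piece_props hL hcc hp).2
    · intro h
      exact h.2
  · intro c' hc'
    exact Finset.mem_insert_of_mem (Finset.mem_image_of_mem _ hc')

/-- Gluing tours of the pieces below a cluster. -/
theorem glue_level [Fintype V] [DecidableEq V] {G : SimpleGraph V} {wt : Sym2 V → ℝ}
    (h0 : ∀ e, 0 ≤ wt e) (hc : G.Connected) {L : ℕ → V → V} (hL : Hier L)
    (x : ℕ → V → ℝ) (hx0 : ∀ i c, 0 ≤ x i c)
    (hx : ∀ i c, ∃ (v : piece L i c) (q : (⊤ : SimpleGraph (piece L i c)).Walk v v),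
      (∀ u, u ∈ q.support) ∧ x i c = wlen (mwt (gdist G wt) (piece L i c)) q) (i : ℕ) :
    ∀ c, L i c = c → ∃ W : G.Walk c c, (∀ u, L i u = c → u ∈ W.support) ∧
      wlen wt W ≤ ∑ i' ∈ Finset.range i,
        ∑ c' ∈ Finset.univ.filter (fun c' => L i c' = c), x i' c' := by
  induction i with
  | zero =>
    intro c _
    refine ⟨Walk.nil, ?_, by simp⟩
    intro u hu
    rw [hL.zero] at hu
    simp [hu]
  | succ i ih =>
    intro c hcc
    obtain ⟨v, q, hq, hxq⟩ := hx i c
    obtain ⟨W0, hW0, hW0'⟩ := expand_walk (wt := wt) h0 hc (piece L i c) q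
    have hW0P : ∀ p ∈ piece L i c, p ∈ W0.support := fun p hp => hW0 ⟨p, hp⟩ (hq _)
    have hcP : c ∈ piece L i c := Finset.mem_insert_self _ _
    obtain ⟨W1, hW1, hW1'⟩ := rotate_walk (wt := wt) W0 (hW0P c hcP)
    -- closed walks of the children
    have hch : ∀ p, ∃ W : G.Walk p p, p ∈ piece L i c → (∀ u, L i u = p → u ∈ W.support) ∧
      wlen wt W ≤ ∑ i' ∈ Finset.range i,
        ∑ c' ∈ Finset.univ.filter (fun c' => L i c' = p), x i' c' := by
      intro p
      by_cases hp : p ∈ piece L i c
      · obtain ⟨W, hW, hW'⟩ := ih p (mem_piece_props hL hcc hp).1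
        exact ⟨W, fun _ => ⟨hW, hW'⟩⟩
      · exact ⟨Walk.nil, fun h => absurd h hp⟩
    choose Q hQ using hch
    obtain ⟨W2, hW2, hW2Q, hW2'⟩ := insert_walks (wt := wt) W1 Q (piece L i c)
      (fun p hp => hW1 p (hW0P p hp))
    refine ⟨W2, ?_, ?_⟩
    · intro u hu
      have hp : L i u ∈ piece L i c :=
        Finset.mem_insert_of_mem (Finset.mem_image_of_mem _ (by simpa using hu))
      exact hW2Q _ hp u ((hQ _ hp).1 u rfl)
    · rw [hW2', hW1', hW0', ← hxq, Finset.sum_range_succ]
      have h1 : ∑ b ∈ piece L i c, wlen wt (Q b) ≤ ∑ i' ∈ Finset.range i,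
          ∑ c' ∈ Finset.univ.filter (fun c' => L (i + 1) c' = c), x i' c' := by
        refine le_trans (Finset.sum_le_sum (fun b hb => (hQ b hb).2)) ?_
        rw [Finset.sum_comm]
        refine le_of_eq (Finset.sum_congr rfl ?_)
        intro i' _
        exact fiber_sum hL hcc (x i')
      have h2 : x i c ≤ ∑ c' ∈ Finset.univ.filter (fun c' => L (i + 1) c' = c), x i c' :=
        Finset.single_le_sum (fun c' _ => hx0 i c') (by simpa using hcc)
      linarith

/-- Gluing optimal tours of all pieces. -/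
theorem tsp_le_sum [Fintype V] [DecidableEq V] {G : SimpleGraph V} {wt : Sym2 V → ℝ}
    (h0 : ∀ e, 0 ≤ wt e) (hc : G.Connected) {L : ℕ → V → V} (hL : Hier L) (N : ℕ)
    (htop : ∀ u v, L N u = L N v) :
    tsp G wt ≤ ∑ i ∈ Finset.range N, ∑ c,
      tsp (⊤ : SimpleGraph (piece L i c)) (mwt (gdist G wt) (piece L i c)) := by
  have hd := isPM_gdist (G := G) (wt := wt) h0 hc
  refine le_of_forall_pos_le_add ?_
  intro ε hε
  set M : ℝ := (N : ℝ) * Fintype.card V + 1 with hM
  have hM0 : 0 < M := by positivity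
  have hch : ∀ i c, ∃ y, y ∈ tourWeights (⊤ : SimpleGraph (piece L i c))
      (mwt (gdist G wt) (piece L i c)) ∧
      y < tsp (⊤ : SimpleGraph (piece L i c)) (mwt (gdist G wt) (piece L i c)) + ε / M := by
    intro i c
    haveI : Nonempty (piece L i c) := ⟨⟨c, Finset.mem_insert_self _ _⟩⟩
    exact Real.lt_sInf_add_pos (tourWeights_nonempty connected_top _) (by positivity)
  choose x hx1 hx2 using hch
  have hx0 : ∀ i c, 0 ≤ x i c := by
    intro i c
    obtain ⟨v, p, -, hp⟩ := hx1 i c
    rw [hp]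
    exact wlen_nonneg (mwt_nonneg hd _) p
  obtain ⟨v0⟩ := hc.nonempty
  have hr : L N (L N v0) = L N v0 := hL.idem N v0
  obtain ⟨W, hW, hW'⟩ := glue_level h0 hc hL x hx0 hx1 N (L N v0) hr
  have h1 : tsp G wt ≤ wlen wt W := tsp_le h0 W (fun u => hW u (htop u v0))
  refine le_trans h1 (le_trans hW' ?_)
  have h2 : ∀ i, ∑ c' ∈ Finset.univ.filter (fun c' => L N c' = L N v0), x i c' ≤
      (∑ c, tsp (⊤ : SimpleGraph (piece L i c)) (mwt (gdist G wt) (piece L i c))) +
        Fintype.card V * (ε / M) := by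
    intro i
    have h3 : Finset.univ.filter (fun c' => L N c' = L N v0) = Finset.univ := by
      ext c'
      simp [htop c' v0]
    rw [h3]
    refine le_trans (Finset.sum_le_sum (fun c _ => (hx2 i c).le)) ?_
    rw [Finset.sum_add_distrib]
    simp
  refine le_trans (Finset.sum_le_sum (fun i _ => h2 i)) ?_
  rw [Finset.sum_add_distrib]
  simp only [Finset.sum_const, Finset.card_range, nsmul_eq_mul]
  have h4 : (N : ℝ) * (Fintype.card V * (ε / M)) ≤ ε := by
    have : (N : ℝ) * (Fintype.card V * (ε / M)) = ((N : ℝ) * Fintype.card V) / M * ε := by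
      ring
    rw [this]
    have h5 : ((N : ℝ) * Fintype.card V) / M ≤ 1 := by
      rw [div_le_one hM0, hM]
      linarith
    nlinarith
  linarith

end HD21
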