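import Mathlib
import Pool.Agent.HD21.Tsp

/-!
The Steiner tree problem: projecting a connected subgraph to the pieces and gluing.
-/

namespace HD21

open SimpleGraph

variable {V : Type*}

/-- `a` and `b` are joined by a walk with all edges in `F`. -/
def ConnVia (G : SimpleGraph V) (F : Set (Sym2 V)) (a b : V) : Prop :=
  ∃ p : G.Walk a b, ∀ e ∈ p.edges, e ∈ F

theorem ConnVia.refl (G : SimpleGraph V) (F : Set (Sym2 V)) (a : V) : ConnVia G F a a :=
  ⟨Walk.nil, by simp⟩

theorem ConnVia.symm {G : SimpleGraph V} {F : Set (Sym2 V)} {a b : V} (h : ConnVia G F a b) :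
    ConnVia G F b a := by
  obtain ⟨p, hp⟩ := h
  exact ⟨p.reverse, by simpa using hp⟩

theorem ConnVia.trans {G : SimpleGraph V} {F : Set (Sym2 V)} {a b c : V} (h : ConnVia G F a b)
    (h' : ConnVia G F b c) : ConnVia G F a c := by
  obtain ⟨p, hp⟩ := h
  obtain ⟨q, hq⟩ := h'
  refine ⟨p.append q, ?_⟩
  intro e he
  rw [Walk.edges_append, List.mem_append] at he
  rcases he with he | he
  · exact hp e he
  · exact hq e he

theorem ConnVia.mono {G : SimpleGraph V} {F F' : Set (Sym2 V)} (hF : F ⊆ F') {a b : V}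
    (h : ConnVia G F a b) : ConnVia G F' a b := by
  obtain ⟨p, hp⟩ := h
  exact ⟨p, fun e he => hF (hp e he)⟩

theorem ConnVia.adj {G : SimpleGraph V} {F : Set (Sym2 V)} {a b : V} (h : G.Adj a b)
    (hF : s(a, b) ∈ F) : ConnVia G F a b :=
  ⟨Walk.cons h Walk.nil, by simpa using hF⟩

theorem steiner_nonneg {G : SimpleGraph V} {wt : Sym2 V → ℝ} (h0 : ∀ e, 0 ≤ wt e)
    (H : G.Subgraph) : 0 ≤ ∑ᶠ e ∈ H.edgeSet, wt e :=
  finsum_nonneg (fun e => finsum_nonneg (fun _ => h0 e))

theorem stp_bdd {G : SimpleGraph V} {wt : Sym2 V → ℝ} (h0 : ∀ e, 0 ≤ wt e) (R : Set V) :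
    BddBelow (steinerWeights G wt R) :=
  ⟨0, by rintro x ⟨H, -, -, rfl⟩; exact steiner_nonneg h0 H⟩

/-- The subgraph of the component of `r` in the edge set `F`. -/
def viaSubgraph (G : SimpleGraph V) (F : Set (Sym2 V)) (r : V) : G.Subgraph where
  verts := {v | ConnVia G F r v}
  Adj a b := G.Adj a b ∧ s(a, b) ∈ F ∧ ConnVia G F r a
  adj_sub h := h.1
  edge_vert h := h.2.2
  symm := ⟨fun a b h => ⟨h.1.symm, by rw [Sym2.eq_swap]; exact h.2.1,
    h.2.2.trans (ConnVia.adj h.1 h.2.1)⟩⟩

theorem walk_le_via {G : SimpleGraph V} {F : Set (Sym2 V)} {r a b : V} (p : G.Walk a b)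
    (ha : ConnVia G F r a) (hp : ∀ e ∈ p.edges, e ∈ F) : p.toSubgraph ≤ viaSubgraph G F r := by
  induction p with
  | nil =>
    change G.singletonSubgraph _ ≤ _
    rw [singletonSubgraph_le_iff]
    exact ha
  | @cons a b c h p ih =>
    rw [Walk.edges_cons] at hp
    have h1 : s(a, b) ∈ F := hp _ List.mem_cons_self
    change G.subgraphOfAdj h ⊔ p.toSubgraph ≤ _
    refine sup_le ?_ (ih (ha.trans (ConnVia.adj h h1)) (fun e he => hp e (List.mem_cons_of_mem _ he)))
    have h5 : (viaSubgraph G F r).Adj a b := ⟨h, h1, ha⟩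
    exact subgraphOfAdj_le_of_adj _ h5

theorem via_connected (G : SimpleGraph V) (F : Set (Sym2 V)) (r : V) :
    (viaSubgraph G F r).Connected := by
  rw [Subgraph.connected_iff_forall_exists_walk_subgraph]
  refine ⟨⟨r, ConnVia.refl G F r⟩, ?_⟩
  intro u v hu hv
  obtain ⟨p, hp⟩ := ConnVia.trans (ConnVia.symm hu) hv
  exact ⟨p, walk_le_via p hu hp⟩

theorem stp_le_of_conn [Finite V] {G : SimpleGraph V} {wt : Sym2 V → ℝ} (h0 : ∀ e, 0 ≤ wt e)
    {R : Set V} (hR : R.Nonempty) (F : Finset (Sym2 V))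
    (hF : ∀ a ∈ R, ∀ b ∈ R, ConnVia G (F : Set (Sym2 V)) a b) :
    stp G wt R ≤ ∑ e ∈ F, wt e := by
  classical
  obtain ⟨r, hr⟩ := hR
  have h1 : stp G wt R ≤ ∑ᶠ e ∈ (viaSubgraph G (F : Set (Sym2 V)) r).edgeSet, wt e :=
    csInf_le (stp_bdd h0 R) ⟨_, via_connected G _ r, fun b hb => hF r hr b hb, rfl⟩
  refine le_trans h1 ?_
  rw [finsum_mem_eq_finite_toFinset_sum _ (Set.toFinite _)]
  refine Finset.sum_le_sum_of_subset_of_nonneg ?_ (fun e _ _ => h0 e)
  intro e he
  rw [Set.Finite.mem_toFinset] at he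
  induction e using Sym2.ind with
  | _ a b =>
    rw [Subgraph.mem_edgeSet] at he
    exact he.2.1

/-- A connected subgraph as an edge set. -/
theorem conn_of_subgraph [Finite V] {G : SimpleGraph V} {wt : Sym2 V → ℝ} (H : G.Subgraph)
    (hH : H.Connected) {R : Set V} (hR : R ⊆ H.verts) :
    ∃ F : Finset (Sym2 V), (F : Set (Sym2 V)) ⊆ G.edgeSet ∧
      (∀ a ∈ R, ∀ b ∈ R, ConnVia G (F : Set (Sym2 V)) a b) ∧
      ∑ e ∈ F, wt e = ∑ᶠ e ∈ H.edgeSet, wt e := by
  classical
  refine ⟨(Set.toFinite H.edgeSet).toFinset, ?_, ?_, ?_⟩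
  · intro e he
    rw [Set.Finite.coe_toFinset] at he
    exact H.edgeSet_subset he
  · intro a ha b hb
    obtain ⟨p, hp⟩ := ((Subgraph.connected_iff_forall_exists_walk_subgraph H).mp hH).2
      (hR ha) (hR hb)
    refine ⟨p, ?_⟩
    intro e he
    rw [Set.Finite.coe_toFinset]
    have h1 : e ∈ p.toSubgraph.edgeSet := by rwa [Walk.mem_edges_toSubgraph]
    exact Subgraph.edgeSet_mono hp h1
  · rw [finsum_mem_eq_finite_toFinset_sum _ (Set.toFinite _)]

/-! ### Projection -/

theorem sum_image_le {α β : Type*} [DecidableEq β] (f : α → β) (w : β → ℝ) (h0 : ∀ b, 0 ≤ w b)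
    (F : Finset α) : ∑ b ∈ F.image f, w b ≤ ∑ a ∈ F, w (f a) := by
  classical
  induction F using Finset.induction_on with
  | empty => simp
  | insert a F ha ih =>
    rw [Finset.image_insert, Finset.sum_insert ha]
    by_cases h : f a ∈ F.image f
    · rw [Finset.insert_eq_of_mem h]
      linarith [h0 (f a)]
    · rw [Finset.sum_insert h]
      linarith

theorem conn_proj {G : SimpleGraph V} {X : Type*} (f : V → X) (F : Set (Sym2 V)) {a b : V}
    (h : ConnVia G F a b) : ConnVia (⊤ : SimpleGraph X) (Sym2.map f '' F) (f a) (f b) := by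
  obtain ⟨p, hp⟩ := h
  induction p with
  | nil => exact ConnVia.refl _ _ _
  | @cons a b c h p ih =>
    have h2 := ih (fun e he => hp e (by rw [Walk.edges_cons]; exact List.mem_cons_of_mem _ he))
    have h3 : s(a, b) ∈ F := hp _ (by rw [Walk.edges_cons]; exact List.mem_cons_self)
    by_cases hab : f a = f b
    · rw [hab]
      exact h2
    · refine ConnVia.trans (ConnVia.adj (by simpa using hab) ?_) h2
      exact ⟨s(a, b), h3, rfl⟩

/-- The Steiner tree problem of a piece is bounded by the projection of any solution. -/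
theorem stp_piece_le [DecidableEq V] [Fintype V] {G : SimpleGraph V} {L : ℕ → V → V}
    {d : V → V → ℝ} (hd : IsPM d) (i : ℕ) (c : V) {R : Set V} (hR : R.Nonempty)
    (F : Finset (Sym2 V)) (hF : ∀ a ∈ R, ∀ b ∈ R, ConnVia G (F : Set (Sym2 V)) a b) :
    stp (⊤ : SimpleGraph (piece L i c)) (mwt d (piece L i c)) (projP L i c '' R) ≤
      ∑ e ∈ F, mwt d (piece L i c) (e.map (projP L i c)) := by
  classical
  refine le_trans (stp_le_of_conn (mwt_nonneg hd _) (hR.image _)
    (F.image (Sym2.map (projP L i c))) ?_) (sum_image_le _ _ (mwt_nonneg hd _) F)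
  rintro _ ⟨a, ha, rfl⟩ _ ⟨b, hb, rfl⟩
  have := conn_proj (projP L i c) _ (hF a ha b hb)
  rwa [Finset.coe_image]

/-! ### Gluing -/

theorem sum_biUnion_le' {α β : Type*} [DecidableEq β] (T : Finset α) (E : α → Finset β)
    (w : β → ℝ) (h0 : ∀ b, 0 ≤ w b) : ∑ b ∈ T.biUnion E, w b ≤ ∑ a ∈ T, ∑ b ∈ E a, w b := by
  classical
  induction T using Finset.induction_on with
  | empty => simp
  | insert a T ha ih =>
    rw [Finset.biUnion_insert, Finset.sum_insert ha]
    have h1 : ∑ b ∈ E a ∪ T.biUnion E, w b ≤ ∑ b ∈ E a, w b + ∑ b ∈ T.biUnion E, w b := by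
      rw [← Finset.sum_union_inter]
      have := Finset.sum_nonneg (s := E a ∩ T.biUnion E) (f := w) (fun b _ => h0 b)
      linarith
    linarith

/-- Edges of a shortest path realising an edge of a piece. -/
theorem exists_edge_set [Finite V] {G : SimpleGraph V} {wt : Sym2 V → ℝ} (h0 : ∀ e, 0 ≤ wt e)
    (hc : G.Connected) (P : Finset V) (e : Sym2 P) :
    ∃ E : Finset (Sym2 V), (∀ a b : P, s(a, b) = e → ConnVia G (E : Set (Sym2 V)) a b) ∧
      ∑ e' ∈ E, wt e' ≤ mwt (gdist G wt) P e := by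
  classical
  induction e using Sym2.ind with
  | _ a b =>
    obtain ⟨p, -, hp, -⟩ := exists_shortest (wt := wt) h0 (hc.preconnected (a : V) (b : V))
    refine ⟨p.edges.toFinset, ?_, ?_⟩
    · intro a' b' h
      have h1 : ConnVia G (p.edges.toFinset : Set (Sym2 V)) (a : V) (b : V) :=
        ⟨p, fun e he => by simpa using he⟩
      rcases Sym2.eq_iff.mp h with ⟨rfl, rfl⟩ | ⟨rfl, rfl⟩
      · exact h1
      · exact h1.symm
    · rw [mwt_mk (isPM_gdist h0 hc), ← hp]
      exact toFinset_sum_le wt h0 _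

/-- A walk in a piece realised in the graph. -/
theorem conn_expand [Finite V] {G : SimpleGraph V} (P : Finset V) (F' : Set (Sym2 P))
    (E : Set (Sym2 V)) (hE : ∀ a b : P, s(a, b) ∈ F' → ConnVia G E (a : V) (b : V)) {a b : P}
    (h : ConnVia (⊤ : SimpleGraph P) F' a b) : ConnVia G E (a : V) (b : V) := by
  obtain ⟨p, hp⟩ := h
  induction p with
  | nil => exact ConnVia.refl _ _ _
  | @cons a b c h p ih =>
    have h3 : s(a, b) ∈ F' := hp _ (by rw [Walk.edges_cons]; exact List.mem_cons_self)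
    exact (hE a b h3).trans
      (ih (fun e he => hp e (by rw [Walk.edges_cons]; exact List.mem_cons_of_mem _ he)))

/-- Connectivity through the levels. -/
theorem conn_levels [Fintype V] [DecidableEq V] {G : SimpleGraph V} {L : ℕ → V → V}
    (hL : Hier L) (N : ℕ) (E : Set (Sym2 V)) {u v : V} (htop : L N u = L N v)
    (hE : ∀ i < N, ∀ c, ConnVia G E (proj L i c u) (proj L i c v)) : ConnVia G E u v := by
  have key : ∀ n ≤ N, ConnVia G E (L (N - n) u) (L (N - n) v) := by
    intro n
    induction n with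
    | zero =>
      intro _
      rw [Nat.sub_zero, htop]
      exact ConnVia.refl _ _ _
    | succ n ih =>
      intro hn
      have h1 := ih (by omega)
      have h2 : N - n = (N - (n + 1)) + 1 := by omega
      rw [h2] at h1
      set i := N - (n + 1) with hi
      by_cases h : L (i + 1) u = L (i + 1) v
      · have h3 := hE i (by omega) (L (i + 1) u)
        unfold proj at h3
        rwa [if_pos rfl, if_pos h.symm] at h3
      · have h3 := hE i (by omega) (L (i + 1) u)
        have h4 := hE i (by omega) (L (i + 1) v)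
        unfold proj at h3 h4
        rw [if_pos rfl, if_neg (fun h' => h h'.symm)] at h3
        rw [if_neg h, if_pos rfl] at h4
        exact (h3.trans h1).trans h4
  have := key N le_rfl
  rwa [Nat.sub_self, hL.zero, hL.zero] at this

theorem subgraph_exists {G : SimpleGraph V} (hc : G.Connected) (wt : Sym2 V → ℝ) (R : Set V) :
    (steinerWeights G wt R).Nonempty := by
  refine ⟨_, ⊤, ?_, fun _ _ => trivial, rfl⟩
  rw [Subgraph.connected_iff_forall_exists_walk_subgraph]
  obtain ⟨v⟩ := hc.nonempty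
  refine ⟨⟨v, trivial⟩, ?_⟩
  intro a b _ _
  obtain ⟨p⟩ := hc.preconnected a b
  exact ⟨p, le_top⟩

/-- Gluing optimal Steiner trees of all pieces. -/
theorem stp_le_sum [Fintype V] [DecidableEq V] {G : SimpleGraph V} {wt : Sym2 V → ℝ}
    (h0 : ∀ e, 0 ≤ wt e) (hc : G.Connected) {L : ℕ → V → V} (hL : Hier L) (N : ℕ)
    (htop : ∀ u v, L N u = L N v) {R : Set V} (hR : R.Nonempty) :
    stp G wt R ≤ ∑ i ∈ Finset.range N, ∑ c,
      stp (⊤ : SimpleGraph (piece L i c)) (mwt (gdist G wt) (piece L i c)) (projP L i c '' R) := by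
  classical
  have hd := isPM_gdist (G := G) (wt := wt) h0 hc
  refine le_of_forall_pos_le_add ?_
  intro ε hε
  set M : ℝ := (N : ℝ) * Fintype.card V + 1 with hM
  have hM0 : 0 < M := by positivity
  -- nearly optimal solutions of the pieces
  have hch : ∀ i c, ∃ F : Finset (Sym2 (piece L i c)),
      (∀ a ∈ projP L i c '' R, ∀ b ∈ projP L i c '' R,
        ConnVia (⊤ : SimpleGraph (piece L i c)) (F : Set _) a b) ∧
      ∑ e ∈ F, mwt (gdist G wt) (piece L i c) e ≤
        stp (⊤ : SimpleGraph (piece L i c)) (mwt (gdist G wt) (piece L i c))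
          (projP L i c '' R) + ε / M := by
    intro i c
    haveI : Nonempty (piece L i c) := ⟨⟨c, Finset.mem_insert_self _ _⟩⟩
    obtain ⟨y, ⟨H, hH, hHR, rfl⟩, hy⟩ := Real.lt_sInf_add_pos
      (subgraph_exists (G := (⊤ : SimpleGraph (piece L i c))) connected_top
        (mwt (gdist G wt) (piece L i c)) (projP L i c '' R))
      (show 0 < ε / M by positivity)
    obtain ⟨F, -, hF, hFw⟩ := conn_of_subgraph (wt := mwt (gdist G wt) (piece L i c)) H hH hHR
    exact ⟨F, hF, by rw [hFw]; exact hy.le⟩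
  choose F hF hFw using hch
  choose E hE hEw using fun (i : ℕ) (c : V) (e : Sym2 (piece L i c)) =>
    exists_edge_set (wt := wt) h0 hc (piece L i c) e
  set U : Finset (Sym2 V) := (Finset.range N).biUnion
    (fun i => Finset.univ.biUnion (fun c => (F i c).biUnion (E i c))) with hU
  have hconn : ∀ u ∈ R, ∀ v ∈ R, ConnVia G (U : Set (Sym2 V)) u v := by
    intro u hu v hv
    refine conn_levels hL N _ (htop u v) ?_
    intro i hi c
    have h1 := hF i c _ ⟨u, hu, rfl⟩ _ ⟨v, hv, rfl⟩
    refine conn_expand (piece L i c) (F i c : Set _) _ ?_ h1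
    intro a b hab
    refine (hE i c s(a, b) a b rfl).mono ?_
    intro e he
    rw [hU]
    simp only [Finset.coe_biUnion, Set.mem_iUnion]
    exact ⟨i, by simpa using hi, c, by simp, s(a, b), hab, he⟩
  refine le_trans (stp_le_of_conn h0 hR U hconn) ?_
  rw [hU]
  refine le_trans (sum_biUnion_le' _ _ wt h0) ?_
  have h2 : ∀ i ∈ Finset.range N, ∑ e ∈ Finset.univ.biUnion (fun c => (F i c).biUnion (E i c)), wt e ≤
      (∑ c, stp (⊤ : SimpleGraph (piece L i c)) (mwt (gdist G wt) (piece L i c))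
        (projP L i c '' R)) + Fintype.card V * (ε / M) := by
    intro i _
    refine le_trans (sum_biUnion_le' _ _ wt h0) ?_
    have h3 : ∀ c ∈ (Finset.univ : Finset V), ∑ e ∈ (F i c).biUnion (E i c), wt e ≤
        stp (⊤ : SimpleGraph (piece L i c)) (mwt (gdist G wt) (piece L i c))
          (projP L i c '' R) + ε / M := by
      intro c _
      refine le_trans (sum_biUnion_le' _ _ wt h0) (le_trans ?_ (hFw i c))
      exact Finset.sum_le_sum (fun e _ => hEw i c e)
    refine le_trans (Finset.sum_le_sum h3) ?_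
    rw [Finset.sum_add_distrib]
    simp
  refine le_trans (Finset.sum_le_sum h2) ?_
  rw [Finset.sum_add_distrib]
  simp only [Finset.sum_const, Finset.card_range, nsmul_eq_mul]
  have h4 : (N : ℝ) * (Fintype.card V * (ε / M)) ≤ ε := by
    have : (N : ℝ) * (Fintype.card V * (ε / M)) = ((N : ℝ) * Fintype.card V) / M * ε := by
      ring
    rw [this]
    have h5 : ((N : ℝ) * Fintype.card V) / M ≤ 1 := by
      rw [div_le_one hM0, hM]
      linarith
    nlinarith
  linarith

end HD21
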