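import Mathlib
import Pool.Agent.HD21.Stp

/-!
Comparing the tour and Steiner tree values of two weighted graphs on the same vertex set.
-/

namespace HD21

open SimpleGraph

variable {V : Type*}

/-- The distance of a graph as a function of unordered pairs. -/
noncomputable def gd (G : SimpleGraph V) (wt : Sym2 V → ℝ) : Sym2 V → ℝ :=
  Sym2.lift ⟨fun a b => max (gdist G wt a b) (gdist G wt b a), fun _ _ => max_comm _ _⟩

theorem gd_mk [Finite V] {G : SimpleGraph V} {wt : Sym2 V → ℝ} (h0 : ∀ e, 0 ≤ wt e)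
    (hc : G.Connected) (a b : V) : gd G wt s(a, b) = gdist G wt a b := by
  simp [gd, (isPM_gdist h0 hc).symm b a]

theorem gd_nonneg [Finite V] {G : SimpleGraph V} {wt : Sym2 V → ℝ} (h0 : ∀ e, 0 ≤ wt e)
    (hc : G.Connected) (e : Sym2 V) : 0 ≤ gd G wt e := by
  induction e using Sym2.ind with
  | _ a b => rw [gd_mk h0 hc]; exact (isPM_gdist h0 hc).nonneg _ _

/-- Replace each edge of a walk by a shortest path of `H`. -/
theorem exists_transfer_walk [Finite V] {G H : SimpleGraph V} {wh : Sym2 V → ℝ}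
    (h0 : ∀ e, 0 ≤ wh e) (hc : H.Connected) {u v : V} (p : G.Walk u v) :
    ∃ q : H.Walk u v, (∀ x ∈ p.support, x ∈ q.support) ∧
      wlen wh q = (p.edges.map (gd H wh)).sum := by
  induction p with
  | nil => exact ⟨Walk.nil, by simp, by simp⟩
  | @cons a b c h p ih =>
    obtain ⟨q, hq, hq'⟩ := ih
    obtain ⟨r, -, hr, -⟩ := exists_shortest (wt := wh) h0 (hc.preconnected a b)
    refine ⟨r.append q, ?_, ?_⟩
    · intro x hx
      rw [Walk.support_cons, List.mem_cons] at hx
      rw [Walk.mem_support_append_iff]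
      rcases hx with rfl | hx
      · exact Or.inl r.start_mem_support
      · exact Or.inr (hq x hx)
    · rw [wlen_append, hr, hq', Walk.edges_cons, List.map_cons, List.sum_cons, gd_mk h0 hc]

/-- Any tour of `G` gives a tour of `H`: replace each edge by a shortest path of `H`. -/
theorem tsp_transfer [Finite V] {G H : SimpleGraph V} {wh : Sym2 V → ℝ}
    (h0 : ∀ e, 0 ≤ wh e) (hc : H.Connected) {v : V} (p : G.Walk v v)
    (hp : ∀ u, u ∈ p.support) :
    tsp H wh ≤ (p.edges.map (gd H wh)).sum := by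
  obtain ⟨q, hq, hq'⟩ := exists_transfer_walk (wh := wh) h0 hc p
  rw [← hq']
  exact tsp_le h0 q (fun u => hq u (hp u))

/-- Edges of a shortest path. -/
theorem exists_edge_set' [Finite V] {H : SimpleGraph V} {wh : Sym2 V → ℝ} (h0 : ∀ e, 0 ≤ wh e)
    (hc : H.Connected) (e : Sym2 V) :
    ∃ E : Finset (Sym2 V), (∀ a b : V, s(a, b) = e → ConnVia H (E : Set (Sym2 V)) a b) ∧
      ∑ e' ∈ E, wh e' ≤ gd H wh e := by
  classical
  induction e using Sym2.ind with
  | _ a b =>
    obtain ⟨p, -, hp, -⟩ := exists_shortest (wt := wh) h0 (hc.preconnected a b)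
    refine ⟨p.edges.toFinset, ?_, ?_⟩
    · intro a' b' h
      have h1 : ConnVia H (p.edges.toFinset : Set (Sym2 V)) a b :=
        ⟨p, fun e he => by simpa using he⟩
      rcases Sym2.eq_iff.mp h with ⟨rfl, rfl⟩ | ⟨rfl, rfl⟩
      · exact h1
      · exact h1.symm
    · rw [gd_mk h0 hc, ← hp]
      exact toFinset_sum_le wh h0 _

theorem conn_transfer {G H : SimpleGraph V} (F : Set (Sym2 V)) (E : Set (Sym2 V))
    (hE : ∀ a b : V, s(a, b) ∈ F → ConnVia H E a b) {a b : V}
    (h : ConnVia G F a b) : ConnVia H E a b := by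
  obtain ⟨p, hp⟩ := h
  induction p with
  | nil => exact ConnVia.refl _ _ _
  | @cons a b c h p ih =>
    have h3 : s(a, b) ∈ F := hp _ (by rw [Walk.edges_cons]; exact List.mem_cons_self)
    exact (hE a b h3).trans
      (ih (fun e he => hp e (by rw [Walk.edges_cons]; exact List.mem_cons_of_mem _ he)))

/-- Any connected edge set of `G` containing `R` gives one of `H`. -/
theorem stp_transfer [Finite V] {G H : SimpleGraph V} {wh : Sym2 V → ℝ}
    (h0 : ∀ e, 0 ≤ wh e) (hc : H.Connected) {R : Set V} (hR : R.Nonempty)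
    (F : Finset (Sym2 V)) (hF : ∀ a ∈ R, ∀ b ∈ R, ConnVia G (F : Set (Sym2 V)) a b) :
    stp H wh R ≤ ∑ e ∈ F, gd H wh e := by
  classical
  choose E hE hEw using fun e : Sym2 V => exists_edge_set' (wh := wh) h0 hc e
  have hconn : ∀ a ∈ R, ∀ b ∈ R, ConnVia H ((F.biUnion E : Finset (Sym2 V)) : Set (Sym2 V)) a b := by
    intro a ha b hb
    refine conn_transfer (F : Set (Sym2 V)) _ ?_ (hF a ha b hb)
    intro x y hxy
    refine (hE s(x, y) x y rfl).mono ?_
    intro e he
    simp only [Finset.coe_biUnion, Set.mem_iUnion]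
    exact ⟨s(x, y), hxy, he⟩
  refine le_trans (stp_le_of_conn h0 hR _ hconn) ?_
  refine le_trans (sum_biUnion_le' _ _ wh h0) ?_
  exact Finset.sum_le_sum (fun e _ => hEw e)

/-- If the edges of `G` are no longer than the distances of `H` then ... the optimum values
compare. -/
theorem tsp_mono [Finite V] {G H : SimpleGraph V} {wt wh : Sym2 V → ℝ}
    (h0 : ∀ e, 0 ≤ wt e) (h0' : ∀ e, 0 ≤ wh e) (hcG : G.Connected) (hcH : H.Connected)
    (hle : ∀ a b, H.Adj a b → gdist G wt a b ≤ wh s(a, b)) : tsp G wt ≤ tsp H wh := by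
  refine le_csInf (tourWeights_nonempty hcH wh) ?_
  rintro x ⟨v, p, hp, rfl⟩
  refine le_trans (tsp_transfer h0 hcG p hp) ?_
  refine List.sum_le_sum ?_
  intro e he
  have h1 : e ∈ H.edgeSet := p.edges_subset_edgeSet he
  induction e using Sym2.ind with
  | _ a b =>
    rw [gd_mk h0 hcG]
    exact hle a b h1

theorem stp_mono [Finite V] {G H : SimpleGraph V} {wt wh : Sym2 V → ℝ}
    (h0 : ∀ e, 0 ≤ wt e) (h0' : ∀ e, 0 ≤ wh e) (hcG : G.Connected) (hcH : H.Connected)
    (hle : ∀ a b, H.Adj a b → gdist G wt a b ≤ wh s(a, b)) {R : Set V} (hR : R.Nonempty) :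
    stp G wt R ≤ stp H wh R := by
  refine le_csInf (subgraph_exists hcH wh R) ?_
  rintro x ⟨K, hK, hKR, rfl⟩
  obtain ⟨F, hFs, hF, hFw⟩ := conn_of_subgraph (wt := wh) K hK hKR
  rw [← hFw]
  refine le_trans (stp_transfer h0 hcG hR F hF) ?_
  refine Finset.sum_le_sum ?_
  intro e he
  have h1 : e ∈ H.edgeSet := hFs he
  induction e using Sym2.ind with
  | _ a b =>
    rw [gd_mk h0 hcG]
    exact hle a b h1

/-- Averaging over the members of a family. -/
theorem exists_le_of_sum_le {k : ℕ} (hk : 0 < k) (t : Fin k → ℝ) {S : ℝ} (h : ∑ j, t j ≤ S) :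
    ∃ j, k * t j ≤ S := by
  by_contra hcon
  push_neg at hcon
  haveI : Nonempty (Fin k) := ⟨⟨0, hk⟩⟩
  have h1 : ∑ _j : Fin k, S < ∑ j, (k : ℝ) * t j :=
    Finset.sum_lt_sum_of_nonempty Finset.univ_nonempty (fun j _ => hcon j)
  rw [← Finset.mul_sum, Finset.sum_const, Finset.card_univ, Fintype.card_fin, nsmul_eq_mul] at h1
  have h2 : (0 : ℝ) < k := by exact_mod_cast hk
  have h3 := mul_le_mul_of_nonneg_left h h2.le
  linarith

/-- An inequality for all elements of a nonempty set passes to the infimum. -/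
theorem le_mul_sInf {T : Set ℝ} (hT : T.Nonempty) (hT0 : ∀ x ∈ T, 0 ≤ x) {S A : ℝ}
    (h : ∀ x ∈ T, S ≤ A * x) : S ≤ A * sInf T := by
  rcases lt_or_ge 0 A with hA | hA
  · have h1 : S / A ≤ sInf T := by
      refine le_csInf hT ?_
      intro x hx
      rw [div_le_iff₀ hA]
      linarith [h x hx]
    rw [div_le_iff₀ hA] at h1
    linarith
  · obtain ⟨x, hx⟩ := hT
    have h1 : sInf T ≤ x := csInf_le ⟨0, fun y hy => hT0 y hy⟩ hx
    have h2 := mul_le_mul_of_nonpos_left h1 hA
    exact le_trans (h x hx) h2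

/-- The family version: if the distances of the `H j` add up to at most `(k + A)` times those of
`G` on the edges of `G`, then some `H j` has a good tour. -/
theorem tsp_family [Finite V] {G : SimpleGraph V} {wt : Sym2 V → ℝ} (h0 : ∀ e, 0 ≤ wt e)
    (hcG : G.Connected) {k : ℕ} (hk : 0 < k) (H : Fin k → SimpleGraph V)
    (wh : Fin k → Sym2 V → ℝ) (h0' : ∀ j e, 0 ≤ wh j e) (hcH : ∀ j, (H j).Connected) {A : ℝ}
    (hsum : ∀ a b, G.Adj a b → ∑ j, gdist (H j) (wh j) a b ≤ A * wt s(a, b)) :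
    ∃ j, k * tsp (H j) (wh j) ≤ A * tsp G wt := by
  refine exists_le_of_sum_le hk _ ?_
  refine le_mul_sInf (tourWeights_nonempty hcG wt) ?_ ?_
  · rintro x ⟨v, p, -, rfl⟩
    exact wlen_nonneg h0 p
  · rintro x ⟨v, p, hp, rfl⟩
    refine le_trans (Finset.sum_le_sum (fun j _ => tsp_transfer (h0' j) (hcH j) p hp)) ?_
    rw [sum_list_comm]
    have h1 : A * wlen wt p = (p.edges.map (fun e => A * wt e)).sum := by
      unfold wlen
      rw [List.sum_map_mul_left]
    rw [h1]
    refine List.sum_le_sum ?_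
    intro e he
    have h2 : e ∈ G.edgeSet := p.edges_subset_edgeSet he
    induction e using Sym2.ind with
    | _ a b =>
      refine le_trans (le_of_eq ?_) (hsum a b h2)
      exact Finset.sum_congr rfl (fun j _ => gd_mk (h0' j) (hcH j) a b)

theorem stp_family [Finite V] {G : SimpleGraph V} {wt : Sym2 V → ℝ} (h0 : ∀ e, 0 ≤ wt e)
    (hcG : G.Connected) {k : ℕ} (hk : 0 < k) (H : Fin k → SimpleGraph V)
    (wh : Fin k → Sym2 V → ℝ) (h0' : ∀ j e, 0 ≤ wh j e) (hcH : ∀ j, (H j).Connected) {A : ℝ}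
    (hA : 0 ≤ A)
    (hsum : ∀ a b, G.Adj a b → ∑ j, gdist (H j) (wh j) a b ≤ A * wt s(a, b))
    {R : Set V} (hR : R.Nonempty) :
    ∃ j, k * stp (H j) (wh j) R ≤ A * stp G wt R := by
  refine exists_le_of_sum_le hk _ ?_
  refine le_mul_sInf (subgraph_exists hcG wt R) ?_ ?_
  · rintro x ⟨K, -, -, rfl⟩
    exact steiner_nonneg h0 K
  · rintro x ⟨K, hK, hKR, rfl⟩
    obtain ⟨F, hFs, hF, hFw⟩ := conn_of_subgraph (wt := wt) K hK hKR
    rw [← hFw]
    refine le_trans (Finset.sum_le_sum (fun j _ => stp_transfer (h0' j) (hcH j) hR F hF)) ?_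
    rw [Finset.sum_comm, Finset.mul_sum]
    refine Finset.sum_le_sum ?_
    intro e he
    have h2 : e ∈ G.edgeSet := hFs he
    induction e using Sym2.ind with
    | _ a b =>
      refine le_trans (le_of_eq ?_) (hsum a b h2)
      exact Finset.sum_congr rfl (fun j _ => gd_mk (h0' j) (hcH j) a b)

end HD21
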