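import Mathlib
import Pool.Agent.HD21.PathBound
import Pool.Agent.HD21.Host1
import Pool.Agent.HD21.Host2
import Pool.Agent.HD21.Transfer

/-!
The explicit host graphs of bounded treewidth.
-/

namespace HD21

open SimpleGraph

theorem scale_pos {σ : ℝ} (hσ : 0 < σ) (k j i : ℕ) : 0 < scale σ k j i := by
  unfold scale
  positivity

theorem scale_mono {σ : ℝ} (hσ : 0 < σ) (k j : ℕ) : Monotone (scale σ k j) := by
  intro a b hab
  unfold scale
  apply mul_le_mul_of_nonneg_left _ hσ.le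
  exact pow_le_pow_right₀ (by norm_num) (by
    have := Nat.mul_le_mul_left k hab
    omega)

theorem scale_succ (σ : ℝ) (k j i : ℕ) : scale σ k j (i + 1) = 2 ^ k * scale σ k j i := by
  unfold scale
  rw [show j + k * (i + 1) = k + (j + k * i) by ring, pow_add]
  ring

theorem geom_sum_le {σ D : ℝ} (hσ : 0 < σ) (hD : 0 ≤ D) (M : ℕ) :
    ∑ n ∈ Finset.range M, (if σ * 2 ^ n < D then σ * 2 ^ n else 0) ≤ 2 * D := by
  have key : ∀ M : ℕ, (∑ n ∈ Finset.range M, (if σ * 2 ^ n < D then σ * 2 ^ n else 0) ≤ 2 * D) ∧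
      (∑ n ∈ Finset.range M, (if σ * 2 ^ n < D then σ * 2 ^ n else 0) ≤ σ * 2 ^ M) := by
    intro M
    induction M with
    | zero => exact ⟨by simpa using hD, by simpa using hσ.le⟩
    | succ M ih =>
      rw [Finset.sum_range_succ, pow_succ]
      have h0 : 0 < σ * 2 ^ M := by positivity
      split_ifs with h
      · constructor <;> linarith [ih.1, ih.2]
      · constructor <;> linarith [ih.1, ih.2]
  exact (key M).1

theorem sum_reindex (f : ℕ → ℝ) (k N : ℕ) :
    ∑ j ∈ Finset.range k, ∑ i ∈ Finset.range N, f (j + k * i) = ∑ n ∈ Finset.range (k * N), f n := by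
  rw [Finset.sum_comm]
  induction N with
  | zero => simp
  | succ N ih =>
    rw [Finset.sum_range_succ, ih, Nat.mul_succ, Finset.sum_range_add]
    congr 1
    exact Finset.sum_congr rfl (fun j _ => by rw [add_comm])

theorem scale_sum_le {σ D : ℝ} (hσ : 0 < σ) (hD : 0 ≤ D) (k N : ℕ) :
    ∑ j : Fin k, ∑ i ∈ Finset.range N, (if scale σ k j i < D then scale σ k j i else 0) ≤
      2 * D := by
  rw [Finset.sum_fin_eq_sum_range]
  have h1 : ∑ j ∈ Finset.range k, (if h : j < k then ∑ i ∈ Finset.range N,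
      (if scale σ k (⟨j, h⟩ : Fin k) i < D then scale σ k (⟨j, h⟩ : Fin k) i else 0) else 0) =
      ∑ j ∈ Finset.range k, ∑ i ∈ Finset.range N,
        (fun n => if σ * 2 ^ n < D then σ * 2 ^ n else 0) (j + k * i) := by
    refine Finset.sum_congr rfl ?_
    intro j hj
    rw [dif_pos (Finset.mem_range.mp hj)]
    rfl
  rw [h1]
  exact le_trans (le_of_eq (sum_reindex (fun n => if σ * 2 ^ n < D then σ * 2 ^ n else 0) k N))
    (geom_sum_le hσ hD _)

theorem exists_adm {V : Type*} [Finite V] (d : V → V → ℝ) {k : ℕ} (hk : 0 < k) :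
    ∃ σ N, Adm d k σ N := by
  classical
  haveI := Fintype.ofFinite V
  obtain ⟨μ, hμ0, hμ⟩ : ∃ μ : ℝ, 0 < μ ∧ ∀ u v, 0 < d u v → μ ≤ d u v := by
    by_cases h : ((Finset.univ : Finset (V × V)).filter (fun p => 0 < d p.1 p.2)).Nonempty
    · obtain ⟨p, hp, hmin⟩ := Finset.exists_min_image _ (fun p : V × V => d p.1 p.2) h
      refine ⟨d p.1 p.2, (Finset.mem_filter.mp hp).2, ?_⟩
      intro u v huv
      exact hmin (u, v) (by simpa using huv)
    · rw [Finset.not_nonempty_iff_eq_empty, Finset.filter_eq_empty_iff] at h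
      exact ⟨1, one_pos, fun u v huv => absurd huv (h (Finset.mem_univ (u, v)))⟩
  obtain ⟨B, hB⟩ : ∃ B : ℝ, ∀ u v, d u v ≤ B := by
    obtain ⟨B, hB⟩ := (Set.finite_range (fun p : V × V => d p.1 p.2)).bddAbove
    exact ⟨B, fun u v => hB ⟨(u, v), rfl⟩⟩
  have hσ : 0 < μ / 2 ^ k := by positivity
  obtain ⟨N, hN⟩ := pow_unbounded_of_one_lt (B / (μ / 2 ^ k))
    (show (1 : ℝ) < 2 ^ k from one_lt_pow₀ (by norm_num) (by omega))
  refine ⟨μ / 2 ^ k, N, hσ, ?_, ?_⟩
  · intro u v huv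
    rw [div_mul_cancel₀ _ (by positivity)]
    exact hμ u v huv
  · intro u v
    refine le_trans (hB u v) ?_
    rw [div_lt_iff₀ hσ] at hN
    rw [pow_mul]
    linarith

section

variable {V : Type*} [Fintype V] [LinearOrder V] {G : SimpleGraph V} {wt : Sym2 V → ℝ}

/-- Distances which dominate on edges dominate. -/
theorem dist_mono (h0 : ∀ e, 0 ≤ wt e) (hc : G.Connected) {H : SimpleGraph V} (hH : H.Connected)
    (u v : V) : gdist G wt u v ≤ gdist H (dwt (gdist G wt)) u v := by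
  have hd := isPM_gdist (G := G) (wt := wt) h0 hc
  obtain ⟨p, -, hp, -⟩ := exists_shortest (wt := dwt (gdist G wt)) (dwt_nonneg hd)
    (hH.preconnected u v)
  rw [← hp]
  clear hp
  induction p with
  | nil => rw [wlen_nil, hd.self]
  | @cons a b c h p ih =>
    rw [wlen_cons, dwt_mk hd]
    have := hd.tri a b c
    linarith

theorem host_top (h0 : ∀ e, 0 ≤ wt e) (hc : G.Connected) {k : ℕ} {σ : ℝ} {N : ℕ}
    (hA : Adm (gdist G wt) k σ N) (j : Fin k) (u v : V) :
    lev (gdist G wt) (scale σ k j) (N + 1) u = lev (gdist G wt) (scale σ k j) (N + 1) v := by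
  have hd := isPM_gdist (G := G) (wt := wt) h0 hc
  refine (rep_eq_iff hd).mpr (Chained.single ?_)
  refine le_trans (hA.2.2 u v) ?_
  unfold scale
  apply mul_le_mul_of_nonneg_left _ hA.1.le
  exact pow_le_pow_right₀ (by norm_num) (by omega)

theorem host_bottom (h0 : ∀ e, 0 ≤ wt e) (hc : G.Connected) {C : ℝ} (hU : UD C (gdist G wt))
    {k : ℕ}
    {σ : ℝ} {N : ℕ} (hA : Adm (gdist G wt) k σ N) (j : Fin k) (u v : V)
    (h : lev (gdist G wt) (scale σ k j) 1 u = lev (gdist G wt) (scale σ k j) 1 v) :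
    gdist G wt u v = 0 := by
  have hd := isPM_gdist (G := G) (wt := wt) h0 hc
  have h1 : Chained (gdist G wt) (scale σ k j 0) u v := (rep_eq_iff hd).mp h
  have h2 : Chained (gdist G wt) 0 u v := by
    refine Relation.ReflTransGen.mono ?_ _ _ h1
    intro a b hab
    by_contra hcon
    have h3 := hA.2.1 a b (not_le.mp hcon)
    have h4 : scale σ k j 0 < σ * 2 ^ k := by
      unfold scale
      apply mul_lt_mul_of_pos_left _ hA.1
      exact pow_lt_pow_right₀ (by norm_num) (by have := j.2; omega)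
    have hab' : gdist G wt a b ≤ scale σ k j 0 := hab
    linarith
  have h3 := hU 0 le_rfl u v h2
  have h4 := hd.nonneg u v
  linarith

theorem host_sum_tight (h0 : ∀ e, 0 ≤ wt e) (hc : G.Connected) {C : ℝ} (hC : 0 ≤ C)
    (hU : UD C (gdist G wt)) {k : ℕ}
    {σ : ℝ} {N : ℕ} (hA : Adm (gdist G wt) k σ N) {u v : V} (hT : Tight G wt u v) :
    ∑ j, gdist (hostGraph G wt k σ N j) (dwt (gdist G wt)) u v ≤
      (k + 8 * C) * gdist G wt u v := by
  have hd := isPM_gdist (G := G) (wt := wt) h0 hc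
  have h1 : ∀ j : Fin k, gdist (hostGraph G wt k σ N j) (dwt (gdist G wt)) u v ≤
      gdist G wt u v + 4 * C * ∑ i ∈ Finset.range (N + 1),
        (if scale σ k j i < gdist G wt u v then scale σ k j i else 0) := by
    intro j
    obtain ⟨p, hp⟩ := host_walk (hier_lev hd (scale_mono hA.1 k j)) hd (N + 1)
      (host_bottom h0 hc hU hA j) (host_top h0 hc hA j u v) hT
    refine le_trans (gdist_le_wlen (dwt_nonneg hd) p) (le_trans hp ?_)
    exact sum_proj_le hd hC hU (scale_mono hA.1 k j)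
      (fun i => (scale_pos hA.1 k j i).le) (N + 1) u v
  refine le_trans (Finset.sum_le_sum (fun j _ => h1 j)) ?_
  rw [Finset.sum_add_distrib, ← Finset.mul_sum]
  have h2 := scale_sum_le hA.1 (hd.nonneg u v) k (N + 1)
  simp only [Finset.sum_const, Finset.card_univ, Fintype.card_fin, nsmul_eq_mul]
  have h3 := mul_le_mul_of_nonneg_left h2 (show 0 ≤ 4 * C by positivity)
  linarith

theorem host_conn (h0 : ∀ e, 0 ≤ wt e) (hc : G.Connected) {k : ℕ}
    {σ : ℝ} {N : ℕ} (hA : Adm (gdist G wt) k σ N) (j : Fin k) :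
    (hostGraph G wt k σ N j).Connected := by
  haveI := hc.nonempty
  have hd := isPM_gdist (G := G) (wt := wt) h0 hc
  exact host_connected (hier_lev hd (scale_mono hA.1 k j)) _ _ (host_top h0 hc hA j)

theorem host_sum (h0 : ∀ e, 0 ≤ wt e) (hc : G.Connected) {C : ℝ} (hC : 0 ≤ C)
    (hU : UD C (gdist G wt)) {k : ℕ}
    {σ : ℝ} {N : ℕ} (hA : Adm (gdist G wt) k σ N) (u v : V) :
    ∑ j, gdist (hostGraph G wt k σ N j) (dwt (gdist G wt)) u v ≤
      (k + 8 * C) * gdist G wt u v := by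
  have hd := isPM_gdist (G := G) (wt := wt) h0 hc
  have hdj : ∀ j, IsPM (gdist (hostGraph G wt k σ N j) (dwt (gdist G wt))) := fun j =>
    isPM_gdist (dwt_nonneg hd) (host_conn h0 hc hA j)
  obtain ⟨p, -, hp, -⟩ := exists_shortest (wt := wt) h0 (hc.preconnected u v)
  induction p with
  | nil => simp [hd.self, (hdj _).self]
  | @cons a b c h q ih =>
    rw [wlen_cons] at hp
    have h1 := gdist_le_wlen (wt := wt) h0 q
    have h2 := gdist_adj_le (wt := wt) h0 h
    have h3 := hd.tri a b c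
    have h5 : wlen wt q = gdist G wt b c := by linarith
    have h6 : Tight G wt a b := ⟨h, by linarith⟩
    have h7 := ih h5
    have h8 := host_sum_tight h0 hc hC hU hA h6
    have h9 : ∑ j, gdist (hostGraph G wt k σ N j) (dwt (gdist G wt)) a c ≤
        ∑ j, gdist (hostGraph G wt k σ N j) (dwt (gdist G wt)) a b +
        ∑ j, gdist (hostGraph G wt k σ N j) (dwt (gdist G wt)) b c := by
      rw [← Finset.sum_add_distrib]
      exact Finset.sum_le_sum (fun j _ => (hdj j).tri a b c)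
    have h10 : gdist G wt a c = gdist G wt a b + gdist G wt b c := by
      have := h6.2
      linarith
    rw [h10]
    have : ((k : ℝ) + 8 * C) * (gdist G wt a b + gdist G wt b c) =
      (k + 8 * C) * gdist G wt a b + (k + 8 * C) * gdist G wt b c := by ring
    linarith

/-- The treewidth of the host graphs. -/
theorem host_tw (h0 : ∀ e, 0 ≤ wt e) (hc : G.Connected) (hh : HighwayDimLE G wt 2) {k : ℕ}
    {σ : ℝ} {N : ℕ} (hA : Adm (gdist G wt) k σ N) {K : ℕ}
    (hK : 25 * (2 : ℝ) ^ k ≤ 0.48 * 1.01 ^ K) (j : Fin k) :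
    TreewidthLE (hostGraph G wt k σ N j) (cellBound K K + 1) := by
  have hd := isPM_gdist (G := G) (wt := wt) h0 hc
  refine host_treewidth (hier_lev hd (scale_mono hA.1 k j)) _ _ _ (host_top h0 hc hA j) ?_
  intro i c hi _ a b p hp
  refine cellGraph_path h0 hc hh (scale_mono hA.1 k j) (scale_pos hA.1 k j) ?_ i hi c a b p hp
  intro i
  rw [scale_succ]
  have h1 := scale_pos hA.1 k j i
  have h2 := mul_le_mul_of_nonneg_right hK h1.le
  linarith

end

/-- The conclusions for the host graphs, given a bound for the treewidth. -/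
theorem hosts_main (k : ℕ) (hk : 0 < k) {C : ℝ} (hC : 0 ≤ C) {V : Type} [Fintype V]
    [LinearOrder V] {G : SimpleGraph V} {wt : Sym2 V → ℝ} (h0 : ∀ e, 0 ≤ wt e)
    (hc : G.Connected) (hU : UD C (gdist G wt)) {σ : ℝ} {N : ℕ} (hA : Adm (gdist G wt) k σ N)
    {t : ℕ} (ht : ∀ j, TreewidthLE (hostGraph G wt k σ N j) t) :
    (∀ j, (hostGraph G wt k σ N j).Connected) ∧
    (∀ j, TreewidthLE (hostGraph G wt k σ N j) t) ∧
    (∀ j u v, gdist G wt u v ≤ gdist (hostGraph G wt k σ N j) (dwt (gdist G wt)) u v) ∧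
    (∀ u v, ∑ j, gdist (hostGraph G wt k σ N j) (dwt (gdist G wt)) u v ≤
      (k + 8 * C) * gdist G wt u v) ∧
    (∀ j, tsp G wt ≤ tsp (hostGraph G wt k σ N j) (dwt (gdist G wt))) ∧
    (∃ j, tsp (hostGraph G wt k σ N j) (dwt (gdist G wt)) ≤ (1 + 8 * C / k) * tsp G wt) ∧
    (∀ R : Set V, R.Nonempty →
      (∀ j, stp G wt R ≤ stp (hostGraph G wt k σ N j) (dwt (gdist G wt)) R) ∧
      ∃ j, stp (hostGraph G wt k σ N j) (dwt (gdist G wt)) R ≤
        (1 + 8 * C / k) * stp G wt R) := by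
  have hd := isPM_gdist (G := G) (wt := wt) h0 hc
  have hconn := host_conn h0 hc hA
  have hw0 := dwt_nonneg hd
  have hle : ∀ j : Fin k, ∀ a b, (hostGraph G wt k σ N j).Adj a b →
      gdist G wt a b ≤ dwt (gdist G wt) s(a, b) := by
    intro j a b _
    rw [dwt_mk hd]
  have hsum : ∀ a b, G.Adj a b → ∑ j, gdist (hostGraph G wt k σ N j) (dwt (gdist G wt)) a b ≤
      ((k : ℝ) + 8 * C) * wt s(a, b) := by
    intro a b hab
    refine le_trans (host_sum h0 hc hC hU hA a b) ?_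
    exact mul_le_mul_of_nonneg_left (gdist_adj_le h0 hab) (by positivity)
  have hk' : (0 : ℝ) < k := by exact_mod_cast hk
  have hfin : ∀ x y : ℝ, k * x ≤ ((k : ℝ) + 8 * C) * y → x ≤ (1 + 8 * C / k) * y := by
    intro x y hxy
    have h1 : (1 + 8 * C / (k : ℝ)) * y = ((k : ℝ) + 8 * C) * y / k := by
      field_simp
    rw [h1, le_div_iff₀ hk']
    linarith
  refine ⟨hconn, ht, fun j u v => dist_mono h0 hc (hconn j) u v,
    host_sum h0 hc hC hU hA, fun j => tsp_mono h0 hw0 hc (hconn j) (hle j), ?_, ?_⟩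
  · obtain ⟨j, hj⟩ := tsp_family h0 hc hk (hostGraph G wt k σ N) (fun _ => dwt (gdist G wt))
      (fun _ => hw0) hconn hsum
    exact ⟨j, hfin _ _ hj⟩
  · intro R hR
    refine ⟨fun j => stp_mono h0 hw0 hc (hconn j) (hle j) hR, ?_⟩
    obtain ⟨j, hj⟩ := stp_family h0 hc hk (hostGraph G wt k σ N) (fun _ => dwt (gdist G wt))
      (fun _ => hw0) hconn (by positivity) hsum hR
    exact ⟨j, hfin _ _ hj⟩

theorem exists_K (k : ℕ) : ∃ K : ℕ, 25 * (2 : ℝ) ^ k ≤ 0.48 * 1.01 ^ K := by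
  obtain ⟨K, hK⟩ := pow_unbounded_of_one_lt (25 * (2 : ℝ) ^ k / 0.48) (show (1 : ℝ) < 1.01 by norm_num)
  refine ⟨K, ?_⟩
  rw [div_lt_iff₀ (by norm_num)] at hK
  linarith

/-- **Bounded treewidth at highway dimension 2.** -/
theorem bounded_treewidth (k : ℕ) (hk : 0 < k) : ∃ t : ℕ, ∀ (V : Type) [Fintype V]
    [LinearOrder V] (G : SimpleGraph V) (wt : Sym2 V → ℝ), (∀ e, 0 ≤ wt e) → G.Connected →
    HighwayDimLE G wt 2 →
    (∃ σ N, Adm (gdist G wt) k σ N) ∧
    ∀ σ N, Adm (gdist G wt) k σ N →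
      (∀ j, (hostGraph G wt k σ N j).Connected) ∧
      (∀ j, TreewidthLE (hostGraph G wt k σ N j) t) ∧
      (∀ j u v, gdist G wt u v ≤ gdist (hostGraph G wt k σ N j) (dwt (gdist G wt)) u v) ∧
      (∀ u v, ∑ j, gdist (hostGraph G wt k σ N j) (dwt (gdist G wt)) u v ≤
        (k + 200) * gdist G wt u v) ∧
      (∀ j, tsp G wt ≤ tsp (hostGraph G wt k σ N j) (dwt (gdist G wt))) ∧
      (∃ j, tsp (hostGraph G wt k σ N j) (dwt (gdist G wt)) ≤ (1 + 200 / k) * tsp G wt) ∧
      (∀ R : Set V, R.Nonempty →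
        (∀ j, stp G wt R ≤ stp (hostGraph G wt k σ N j) (dwt (gdist G wt)) R) ∧
        ∃ j, stp (hostGraph G wt k σ N j) (dwt (gdist G wt)) R ≤ (1 + 200 / k) * stp G wt R) := by
  obtain ⟨K, hK⟩ := exists_K k
  refine ⟨cellBound K K + 1, ?_⟩
  intro V _ _ G wt h0 hc hh
  refine ⟨exists_adm _ hk, ?_⟩
  intro σ N hA
  have hU := ud_of_hd h0 hc hh
  have h := hosts_main k hk (C := 25) (by norm_num) h0 hc hU hA (host_tw h0 hc hh hA hK)
  norm_num at h
  exact h

end HD21
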