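import Mathlib
import Pool.Agent.HD21.Cells

/-!
Hub sets with at most `h` points per ball, and the jump lemma for general `h`.
-/

namespace HD21

/-- `S` is a hub set at scale `r` with at most `h` points in every ball of radius `2r`. -/
structure HubSetH {V : Type*} [DecidableEq V] (h : ℕ) (d : V → V → ℝ) (T : V → V → Prop) (r : ℝ)
    (S : Finset V) : Prop where
  hit : ∀ u v, r < d u v → d u v ≤ 2 * r → ∃ c ∈ S, d u c + d c v = d u v
  edge : ∀ u v, T u v → r < d u v → d u v ≤ 2 * r → u ∈ S ∨ v ∈ S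
  sparse : ∀ v, (S.filter (fun c => d v c ≤ 2 * r)).card ≤ h

/-- A geometric grid. -/
theorem gridq {a t q : ℝ} (K : ℕ) (h1 : a < t) (h2 : t ≤ a * q ^ K) :
    ∃ l < K, a * q ^ l < t ∧ t ≤ q * (a * q ^ l) := by
  induction K with
  | zero => simp at h2; linarith
  | succ K ih =>
    by_cases h : t ≤ a * q ^ K
    · obtain ⟨l, hl, h3, h4⟩ := ih h
      exact ⟨l, by omega, h3, h4⟩
    · refine ⟨K, by omega, not_le.mp h, ?_⟩
      rw [pow_succ] at h2
      linarith

variable {V : Type*} [DecidableEq V] {d : V → V → ℝ} {T : V → V → Prop} {s D : ℝ} {z : ℕ → V}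
  {κ : ℕ → ℕ} {m n : ℕ}

/-- Separators for general `h`. -/
theorem separatorsH {h : ℕ} (hd : IsPM d) (hH : ∀ r, 0 < r → ∃ S, HubSetH h d T r S) {η A g : ℝ}
    (hη : 0 < η) (hg : 0 < g) (hA : A ≤ (1 - η) * g) (K : ℕ) (v : V) :
    ∃ Y : Finset V, Y.card ≤ h * K ∧
      ∀ x w, d v x ≤ A → g < d x w → d x w ≤ g * (1 + η) ^ K →
        ∃ y ∈ Y, d x w = d x y + d y w := by
  classical
  have hpow : ∀ k : ℕ, (1 : ℝ) ≤ (1 + η) ^ k := fun k => one_le_pow₀ (by linarith)
  choose S hS using fun k : ℕ => hH (g * (1 + η) ^ k) (by have := hpow k; positivity)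
  refine ⟨(Finset.range K).biUnion
    (fun k => (S k).filter (fun c => d v c ≤ 2 * (g * (1 + η) ^ k))), ?_, ?_⟩
  · refine le_trans Finset.card_biUnion_le ?_
    refine le_trans (Finset.sum_le_sum (fun k _ => (hS k).sparse v)) ?_
    simp [mul_comm]
  · intro x w h1 h2 h3
    obtain ⟨k, hk, h4, h5⟩ := gridq K h2 h3
    set r : ℝ := g * (1 + η) ^ k with hr
    have hrg : g ≤ r := by
      rw [hr]
      have := hpow k
      nlinarith
    have hη1 : A ≤ (1 - η) * r ∨ η < 0 ∨ 1 < η := by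
      by_cases h : η ≤ 1
      · left
        have : (1 - η) * g ≤ (1 - η) * r := mul_le_mul_of_nonneg_left hrg (by linarith)
        linarith
      · right; right; linarith
    have hηr : d x w ≤ r + η * r := by linarith
    by_cases hη1' : η ≤ 1
    · have hA' : A ≤ (1 - η) * r := by
        rcases hη1 with h | h | h
        · exact h
        · linarith
        · linarith
      have h7' : η * r ≤ r := by nlinarith
      obtain ⟨y, hy, hy'⟩ := (hS k).hit x w h4 (by linarith)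
      refine ⟨y, ?_, hy'.symm⟩
      rw [Finset.mem_biUnion]
      refine ⟨k, Finset.mem_range.mpr hk, ?_⟩
      rw [Finset.mem_filter]
      refine ⟨hy, ?_⟩
      have h6 := hd.tri v x y
      have h7 := hd.nonneg y w
      have h8 : (1 - η) * r = r - η * r := by ring
      linarith
    · exfalso
      have h8 := hd.nonneg v x
      have h9 : (1 - η) * g < 0 := mul_neg_of_neg_of_pos (by linarith) hg
      linarith

/-- The size needed for one stage. -/
def stageBound (h K N M : ℕ) : ℕ := h * K * N + h * N + h * K * K * (M + 2 * h)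

/-- One stage: from points close to a common centre jump to hubs and to points close to another
common centre. -/
theorem stage {ι : Type*} [DecidableEq ι] {h : ℕ} (hd : IsPM d)
    (hH : ∀ r, 0 < r → ∃ S, HubSetH h d T r S)
    (hP : CellPath d T s D z κ m n) (hs : 0 < s) {η ε ρ : ℝ} (hη : 0 < η) (hη1 : η ≤ 0.001)
    (hε : 0 ≤ ε) (hε1 : ε ≤ 0.01) (hρs : s / 2 ≤ ρ) {K : ℕ}
    (hDK : D ≤ 0.48 * s * (1 + η) ^ K) {N : ℕ}
    (hN : ∀ c, (cellsO d z κ m c ρ).card ≤ N) {S : Finset V} (hS : HubSetH h d T (0.95 * ρ) S)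
    (v : V) (I : Finset ι) (β : ι → ℕ) (W : ℕ) (a : ι → ℕ)
    (hwin : ∀ i ∈ I, ∀ j ∈ I, i ≠ j → β i + W < β j ∨ β j + W < β i)
    (ham : ∀ i ∈ I, a i ≤ m) (haβ : ∀ i ∈ I, β i ≤ κ (a i))
    (haw : ∀ i ∈ I, κ (a i) + ((h + 1) * N + 1) ≤ β i + W) (hβn : ∀ i ∈ I, β i + W ≤ n)
    (hv : ∀ i ∈ I, d v (z (a i)) ≤ (1 + ε) * ρ) (M : ℕ) (hI : stageBound h K N M < I.card) :
    ∃ J ⊆ I, M ≤ J.card ∧ ∃ (y : V) (b : ι → ℕ), ∀ i ∈ J, a i ≤ b i ∧ b i + 1 ≤ m ∧
      κ (b i + 1) ≤ κ (a i) + ((h + 1) * N + 1) ∧ z (b i) ∈ S ∧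
      d (z (a i)) (z (b i)) ≤ 1.03 * ρ ∧ d (z (b i)) (z (b i + 1)) ≤ 1.06 * ρ ∧
      d y (z (b i + 1)) ≤ (1 + (2 * ε + 7 * η)) * ρ := by
  classical
  have hρ : 0 < ρ := by linarith
  have hpowK : (1 : ℝ) ≤ (1 + η) ^ K := one_le_pow₀ (by linarith)
  have heρ : 0 ≤ ε * ρ := by positivity
  have heρ1 : ε * ρ ≤ 0.01 * ρ := mul_le_mul_of_nonneg_right hε1 hρ.le
  have hhρ : 0 < η * ρ := by positivity
  have hhρ1 : η * ρ ≤ 0.001 * ρ := mul_le_mul_of_nonneg_right hη1 hρ.le
  set g : ℝ := ρ + ε * ρ + 2 * (η * ρ) with hg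
  have hg0 : 0 < g := by linarith
  have hD1 : D ≤ 0.96 * ρ * (1 + η) ^ K := by
    have : 0.48 * s * (1 + η) ^ K ≤ 0.96 * ρ * (1 + η) ^ K := by
      apply mul_le_mul_of_nonneg_right _ (by positivity)
      linarith
    linarith
  have hD2 : D ≤ g * (1 + η) ^ K := by
    have : 0.96 * ρ * (1 + η) ^ K ≤ g * (1 + η) ^ K := by
      apply mul_le_mul_of_nonneg_right _ (by positivity)
      linarith
    linarith
  have hAg : (1 + ε) * ρ ≤ (1 - η) * g := by
    have h1 : (1 - η) * g = g - (η * ρ) * (1 + ε + 2 * η) := by rw [hg]; ring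
    have h2 : (η * ρ) * (1 + ε + 2 * η) ≤ (η * ρ) * 1.02 :=
      mul_le_mul_of_nonneg_left (by linarith) hhρ.le
    have h3 : (1 + ε) * ρ = ρ + ε * ρ := by ring
    linarith
  obtain ⟨Y, hYc, hY⟩ := separatorsH (T := T) hd hH hη hg0 hAg K v
  have hmono := fun {i j : ℕ} (h : i ≤ j) (h' : j ≤ m) => mono_of_steps hP.cell h h'
  -- positions of different windows carry different vertices
  have hdiff : ∀ i ∈ I, ∀ j ∈ I, i ≠ j → ∀ k ≤ m, ∀ l ≤ m, β i ≤ κ k → κ k ≤ β i + W →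
      β j ≤ κ l → κ l ≤ β j + W → z k ≠ z l := by
    intro i hi j hj hij k hk l hl h1 h2 h3 h4 hkl
    have h5 : κ k ≠ κ l := by
      rcases hwin i hi j hj hij with h | h <;> omega
    have h6 := hP.sep k hk l hl h5
    rw [hkl, hd.self] at h6
    linarith
  -- bad cells
  set Bad : Finset ℕ := Y.biUnion (fun y => cellsO d z κ m y ρ) with hBad
  have hBadc : Bad.card ≤ h * K * N := by
    refine le_trans Finset.card_biUnion_le ?_
    refine le_trans (Finset.sum_le_sum (fun y _ => hN y)) ?_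
    rw [Finset.sum_const, smul_eq_mul]
    exact Nat.mul_le_mul_right _ hYc
  have hnotbad : ∀ i ≤ m, κ i ∉ Bad → ∀ y ∈ Y, ρ ≤ d y (z i) := by
    intro i hi hb y hy
    by_contra h
    refine hb ?_
    rw [hBad, Finset.mem_biUnion]
    exact ⟨y, hy, mem_cellsO.mpr ⟨i, hi, not_le.mp h, rfl⟩⟩
  have hex1 : (I.filter (fun i => ∃ b ∈ Bad, β i ≤ b ∧ b ≤ β i + W)).card ≤ h * K * N := by
    refine le_trans ?_ hBadc
    have hch : ∀ i, ∃ b, i ∈ I.filter (fun i => ∃ b ∈ Bad, β i ≤ b ∧ b ≤ β i + W) →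
        b ∈ Bad ∧ β i ≤ b ∧ b ≤ β i + W := by
      intro i
      by_cases hi : i ∈ I.filter (fun i => ∃ b ∈ Bad, β i ≤ b ∧ b ≤ β i + W)
      · obtain ⟨b, hb, hb'⟩ := (Finset.mem_filter.mp hi).2
        exact ⟨b, fun _ => ⟨hb, hb'⟩⟩
      · exact ⟨0, fun h => absurd h hi⟩
    choose f hf using hch
    refine Finset.card_le_card_of_injOn f (fun i hi => (hf i (Finset.mem_coe.mp hi)).1) ?_
    intro i hi j hj hij
    by_contra hne
    have h1 := hf i (Finset.mem_coe.mp hi)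
    have h2 := hf j (Finset.mem_coe.mp hj)
    rw [hij] at h1
    rcases hwin i (Finset.mem_filter.mp (Finset.mem_coe.mp hi)).1 j
      (Finset.mem_filter.mp (Finset.mem_coe.mp hj)).1 hne with h | h <;> omega
  -- points close to a hub
  have hex2 : (I.filter (fun i => ∃ b ∈ S, d v b ≤ 2 * (0.95 * ρ) ∧ d b (z (a i)) < ρ)).card ≤
      h * N := by
    have hsub : (I.filter (fun i => ∃ b ∈ S, d v b ≤ 2 * (0.95 * ρ) ∧
        d b (z (a i)) < ρ)).card ≤ ((S.filter (fun c => d v c ≤ 2 * (0.95 * ρ))).biUnion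
          (fun b => cellsO d z κ m b ρ)).card := by
      refine Finset.card_le_card_of_injOn (fun i => κ (a i)) ?_ ?_
      · intro i hi
        obtain ⟨hi1, b, hb, hb1, hb2⟩ := Finset.mem_filter.mp (Finset.mem_coe.mp hi)
        rw [Finset.mem_coe, Finset.mem_biUnion]
        exact ⟨b, Finset.mem_filter.mpr ⟨hb, hb1⟩, mem_cellsO.mpr ⟨a i, ham i hi1, hb2, rfl⟩⟩
      · intro i hi j hj hij
        by_contra hne
        have hi1 := (Finset.mem_filter.mp (Finset.mem_coe.mp hi)).1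
        have hj1 := (Finset.mem_filter.mp (Finset.mem_coe.mp hj)).1
        have h1 := haβ i hi1
        have h2 := haw i hi1
        have h3 := haβ j hj1
        have h4 := haw j hj1
        simp only at hij
        rcases hwin i hi1 j hj1 hne with h | h <;> omega
    refine le_trans hsub (le_trans Finset.card_biUnion_le ?_)
    refine le_trans (Finset.sum_le_sum (fun y _ => hN y)) ?_
    rw [Finset.sum_const, smul_eq_mul]
    exact Nat.mul_le_mul_right _ (hS.sparse v)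
  set I0 := I.filter (fun i => ¬ (∃ b ∈ Bad, β i ≤ b ∧ b ≤ β i + W) ∧
    ¬ (∃ b ∈ S, d v b ≤ 2 * (0.95 * ρ) ∧ d b (z (a i)) < ρ)) with hI0
  have hcard0 : h * K * K * (M + 2 * h) < I0.card := by
    have hsub : I ⊆ I0 ∪ (I.filter (fun i => ∃ b ∈ Bad, β i ≤ b ∧ b ≤ β i + W) ∪
        I.filter (fun i => ∃ b ∈ S, d v b ≤ 2 * (0.95 * ρ) ∧ d b (z (a i)) < ρ)) := by
      intro i hi
      rw [Finset.mem_union, Finset.mem_union]
      by_cases h1 : ∃ b ∈ Bad, β i ≤ b ∧ b ≤ β i + W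
      · exact Or.inr (Or.inl (Finset.mem_filter.mpr ⟨hi, h1⟩))
      · by_cases h2 : ∃ b ∈ S, d v b ≤ 2 * (0.95 * ρ) ∧ d b (z (a i)) < ρ
        · exact Or.inr (Or.inr (Finset.mem_filter.mpr ⟨hi, h2⟩))
        · exact Or.inl (Finset.mem_filter.mpr ⟨hi, h1, h2⟩)
    have h1 := Finset.card_le_card hsub
    have h2 := Finset.card_union_le I0 (I.filter (fun i => ∃ b ∈ Bad, β i ≤ b ∧ b ≤ β i + W) ∪
        I.filter (fun i => ∃ b ∈ S, d v b ≤ 2 * (0.95 * ρ) ∧ d b (z (a i)) < ρ))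
    have h3 := Finset.card_union_le (I.filter (fun i => ∃ b ∈ Bad, β i ≤ b ∧ b ≤ β i + W))
        (I.filter (fun i => ∃ b ∈ S, d v b ≤ 2 * (0.95 * ρ) ∧ d b (z (a i)) < ρ))
    unfold stageBound at hI
    omega
  have hsub0 : ∀ i ∈ I0, i ∈ I := fun i hi => (Finset.mem_filter.mp hi).1
  -- the jumps
  have hfw : ∀ i, ∃ j, i ∈ I0 → a i ≤ j ∧ j + 1 ≤ m ∧ d (z (a i)) (z j) ≤ g ∧
      g < d (z (a i)) (z (j + 1)) ∧ κ (j + 1) ≤ κ (a i) + ((h + 1) * N + 1) := by
    intro i
    by_cases hi : i ∈ I0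
    · obtain ⟨hiI, hi1, hi2⟩ := Finset.mem_filter.mp hi
      have hcc : (cellsC d z κ m (z (a i)) g).card ≤ (h + 1) * N := by
        have hsub2 : cellsC d z κ m (z (a i)) g ⊆ cellsO d z κ m (z (a i)) ρ ∪
            (S.filter (fun c => d (z (a i)) c ≤ 2 * (0.95 * ρ))).biUnion
              (fun b => cellsO d z κ m b ρ) := by
          intro γ hγ
          obtain ⟨l, hl, hl1, rfl⟩ := mem_cellsC.mp hγ
          rw [Finset.mem_union]
          by_cases h : d (z (a i)) (z l) < ρ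
          · left
            exact mem_cellsO.mpr ⟨l, hl, h, rfl⟩
          · right
            push Not at h
            obtain ⟨b, hb, hb'⟩ := hS.hit (z (a i)) (z l) (by linarith) (by linarith)
            have h1 := hd.nonneg b (z l)
            have h2 : g - ρ < d (z (a i)) b := by
              by_contra hcon
              push Not at hcon
              refine hi2 ⟨b, hb, ?_, ?_⟩
              · have h3 := hd.tri v (z (a i)) b
                have h4 := hv i hiI
                have h5 : (1 + ε) * ρ = ρ + ε * ρ := by ring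
                linarith
              · rw [hd.symm]
                linarith
            rw [Finset.mem_biUnion]
            refine ⟨b, Finset.mem_filter.mpr ⟨hb, by linarith⟩, ?_⟩
            exact mem_cellsO.mpr ⟨l, hl, by linarith, rfl⟩
        have h3 := Finset.card_le_card hsub2
        have h4 := Finset.card_union_le (cellsO d z κ m (z (a i)) ρ)
          ((S.filter (fun c => d (z (a i)) c ≤ 2 * (0.95 * ρ))).biUnion
            (fun b => cellsO d z κ m b ρ))
        have h5 : ((S.filter (fun c => d (z (a i)) c ≤ 2 * (0.95 * ρ))).biUnion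
            (fun b => cellsO d z κ m b ρ)).card ≤ h * N := by
          refine le_trans Finset.card_biUnion_le ?_
          refine le_trans (Finset.sum_le_sum (fun y _ => hN y)) ?_
          rw [Finset.sum_const, smul_eq_mul]
          exact Nat.mul_le_mul_right _ (hS.sparse (z (a i)))
        have h6 := hN (z (a i))
        have h7 : (h + 1) * N = h * N + N := by ring
        omega
      obtain ⟨j, hj1, hj2, hj3, hj4, hj5⟩ := forward hd hP (g := g) hg0.le (ham i hiI) hcc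
        (le_trans (haw i hiI) (hβn i hiI))
      exact ⟨j, fun _ => ⟨hj1, hj2, hj3, hj4, hj5⟩⟩
    · exact ⟨0, fun h => absurd h hi⟩
  choose b hb using hfw
  -- cells of the jump
  have hbκ : ∀ i ∈ I0, (β i ≤ κ (b i) ∧ κ (b i) ≤ β i + W) ∧
      (β i ≤ κ (b i + 1) ∧ κ (b i + 1) ≤ β i + W) := by
    intro i hi
    obtain ⟨h4, h5, h6, h7, h8⟩ := hb i hi
    have h1 := haβ i (hsub0 i hi)
    have h2 := haw i (hsub0 i hi)
    have h9 := hmono (i := a i) (j := b i) h4 (by omega)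
    have h10 := hmono (i := b i) (j := b i + 1) (by omega) h5
    omega
  -- separators of the jumps
  have hyc : ∀ i, ∃ y, i ∈ I0 → y ∈ Y ∧
      d (z (a i)) (z (b i + 1)) = d (z (a i)) y + d y (z (b i + 1)) ∧ ρ ≤ d (z (a i)) y ∧
      ρ ≤ d y (z (b i + 1)) := by
    intro i
    by_cases hi : i ∈ I0
    · obtain ⟨hiI, hi1, hi2⟩ := Finset.mem_filter.mp hi
      obtain ⟨h4, h5, h6, h7, h8⟩ := hb i hi
      obtain ⟨y, hy, hy'⟩ := hY (z (a i)) (z (b i + 1)) (hv i hiI) h7
        (le_trans (hP.diam _ (ham i hiI) _ h5) hD2)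
      refine ⟨y, fun _ => ⟨hy, hy', ?_, ?_⟩⟩
      · rw [hd.symm]
        refine hnotbad (a i) (ham i hiI) ?_ y hy
        intro hbad
        have h1 := haβ i hiI
        have h2 := haw i hiI
        exact hi1 ⟨_, hbad, h1, by omega⟩
      · refine hnotbad (b i + 1) h5 ?_ y hy
        intro hbad
        exact hi1 ⟨_, hbad, (hbκ i hi).2.1, (hbκ i hi).2.2⟩
    · exact ⟨v, fun h => absurd h hi⟩
  choose yy hyy using hyc
  have hlc : ∀ i, ∃ l, i ∈ I0 → l < K ∧ 0.96 * ρ * (1 + η) ^ l < d (z (b i)) (z (b i + 1)) ∧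
      d (z (b i)) (z (b i + 1)) ≤ (1 + η) * (0.96 * ρ * (1 + η) ^ l) := by
    intro i
    by_cases hi : i ∈ I0
    · have h1 := hyy i hi
      have h2 := hd.tri (z (a i)) (z (b i)) (z (b i + 1))
      obtain ⟨h4, h5, h6, h7, h8⟩ := hb i hi
      obtain ⟨l, hl1, hl2, hl3⟩ := gridq (a := 0.96 * ρ) (q := 1 + η) K
        (t := d (z (b i)) (z (b i + 1)))
        (by linarith [h1.2.1, h1.2.2.1, h1.2.2.2])
        (le_trans (hP.diam _ (by omega) _ h5) hD1)
      exact ⟨l, fun _ => ⟨hl1, hl2, hl3⟩⟩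
    · exact ⟨0, fun h => absurd h hi⟩
  choose ll hll using hlc
  obtain ⟨⟨y, l⟩, hyl, hcard1⟩ := Finset.exists_lt_card_fiber_of_mul_lt_card_of_maps_to
    (s := I0) (t := Y ×ˢ Finset.range K) (f := fun i => (yy i, ll i))
    (n := M + 2 * h) (by
      intro i hi
      rw [Finset.mem_product, Finset.mem_range]
      exact ⟨(hyy i hi).1, (hll i hi).1⟩) (by
      rw [Finset.card_product, Finset.card_range]
      refine lt_of_le_of_lt ?_ hcard0
      exact Nat.mul_le_mul_right _ (Nat.mul_le_mul_right _ hYc))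
  set I1 := I0.filter (fun i => (yy i, ll i) = (y, l)) with hI1
  set τ : ℝ := 0.96 * ρ * (1 + η) ^ l with hτ
  have hτ1 : 0.96 * ρ ≤ τ := by
    rw [hτ]
    have h1 : (1 : ℝ) ≤ (1 + η) ^ l := one_le_pow₀ (by linarith)
    nlinarith
  have hτ0 : 0 < τ := by linarith
  have hhτ : 0 < η * τ := by positivity
  have hhτ1 : η * τ ≤ 0.001 * τ := mul_le_mul_of_nonneg_right hη1 hτ0.le
  have hsub1 : ∀ i ∈ I1, i ∈ I0 := fun i hi => (Finset.mem_filter.mp hi).1
  have hprop1 : ∀ i ∈ I1, d (z (a i)) (z (b i + 1)) = d (z (a i)) y + d y (z (b i + 1)) ∧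
      ρ ≤ d (z (a i)) y ∧ ρ ≤ d y (z (b i + 1)) ∧ τ < d (z (b i)) (z (b i + 1)) ∧
      d (z (b i)) (z (b i + 1)) ≤ τ + η * τ := by
    intro i hi
    have h1 := (Finset.mem_filter.mp hi).1
    have h2 := (Finset.mem_filter.mp hi).2
    rw [Prod.mk.injEq] at h2
    obtain ⟨h3, h4⟩ := h2
    have h5 := hyy i h1
    have h6 := hll i h1
    rw [h3] at h5
    rw [h4] at h6
    refine ⟨h5.2.1, h5.2.2.1, h5.2.2.2, h6.2.1, ?_⟩
    have h7 := h6.2.2
    have h8 : (1 + η) * (0.96 * ρ * (1 + η) ^ l) = τ + η * τ := by rw [hτ]; ring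
    linarith
  have hT : ∀ i ∈ I0, T (z (b i)) (z (b i + 1)) := fun i hi =>
    hP.step _ (by have := (hb i hi).2.1; omega)
  -- the hub set at scale τ
  obtain ⟨S1, hS1⟩ := hH τ hτ0
  have hyq1 : ∀ i ∈ I1, d y (z (b i + 1)) ≤ g - ρ + τ + η * τ := by
    intro i hi
    obtain ⟨h1, h2, h3, h4, h5⟩ := hprop1 i hi
    have h6 := hd.tri (z (a i)) (z (b i)) (z (b i + 1))
    have h7 := (hb i (hsub1 i hi)).2.2.1
    linarith
  have hexA : (I1.filter (fun i => z (b i + 1) ∈ S1 ∨ (z (b i) ∈ S1 ∧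
      d y (z (b i)) ≤ 2 * τ))).card ≤ h := by
    refine le_trans (Finset.card_le_card_of_injOn
      (fun i => if z (b i + 1) ∈ S1 then z (b i + 1) else z (b i)) ?_ ?_) (hS1.sparse y)
    · intro i hi
      have hi' := Finset.mem_filter.mp (Finset.mem_coe.mp hi)
      rw [Finset.mem_coe, Finset.mem_filter]
      by_cases h : z (b i + 1) ∈ S1
      · simp only [h, if_true]
        refine ⟨trivial, ?_⟩
        have := hyq1 i hi'.1
        linarith
      · simp only [h, if_false]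
        rcases hi'.2 with h' | h'
        · exact absurd h' h
        · exact h'
    · intro i hi j hj hij
      by_contra hne'
      have hi0 := hsub1 i (Finset.mem_filter.mp (Finset.mem_coe.mp hi)).1
      have hj0 := hsub1 j (Finset.mem_filter.mp (Finset.mem_coe.mp hj)).1
      have bi := (hb i hi0).2.1
      have bj := (hb j hj0).2.1
      simp only at hij
      split_ifs at hij
      · exact hdiff i (hsub0 i hi0) j (hsub0 j hj0) hne' _ bi _ bj (hbκ i hi0).2.1
          (hbκ i hi0).2.2 (hbκ j hj0).2.1 (hbκ j hj0).2.2 hij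
      · exact hdiff i (hsub0 i hi0) j (hsub0 j hj0) hne' _ bi _ (by omega) (hbκ i hi0).2.1
          (hbκ i hi0).2.2 (hbκ j hj0).1.1 (hbκ j hj0).1.2 hij
      · exact hdiff i (hsub0 i hi0) j (hsub0 j hj0) hne' _ (by omega) _ bj (hbκ i hi0).1.1
          (hbκ i hi0).1.2 (hbκ j hj0).2.1 (hbκ j hj0).2.2 hij
      · exact hdiff i (hsub0 i hi0) j (hsub0 j hj0) hne' _ (by omega) _ (by omega)
          (hbκ i hi0).1.1 (hbκ i hi0).1.2 (hbκ j hj0).1.1 (hbκ j hj0).1.2 hij
  set I2 := I1.filter (fun i => ¬ (z (b i + 1) ∈ S1 ∨ (z (b i) ∈ S1 ∧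
      d y (z (b i)) ≤ 2 * τ))) with hI2
  have hcard2 : M + h < I2.card := by
    have := Finset.card_filter_add_card_filter_not (s := I1)
      (fun i => z (b i + 1) ∈ S1 ∨ (z (b i) ∈ S1 ∧ d y (z (b i)) ≤ 2 * τ))
    rw [← hI2] at this
    omega
  have hsub2 : ∀ i ∈ I2, i ∈ I1 := fun i hi => (Finset.mem_filter.mp hi).1
  have hyp2 : ∀ i ∈ I2, 2 * τ < d y (z (b i)) := by
    intro i hi
    have h1 := (Finset.mem_filter.mp hi).2
    push Not at h1
    obtain ⟨h2, h3⟩ := h1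
    obtain ⟨-, -, -, h4, h5⟩ := hprop1 i (hsub2 i hi)
    rcases hS1.edge _ _ (hT i (hsub1 i (hsub2 i hi))) h4 (by linarith) with h6 | h6
    · exact h3 h6
    · exact absurd h6 h2
  have hbd : ∀ i ∈ I2, τ ≤ 1.05 * ρ ∧
      d y (z (b i + 1)) ≤ ρ + 2 * (ε * ρ) + 7 * (η * ρ) := by
    intro i hi
    obtain ⟨h1, h2, h3, h4, h5⟩ := hprop1 i (hsub2 i hi)
    have h6 := hyp2 i hi
    have h7 := (hb i (hsub1 i (hsub2 i hi))).2.2.1
    have h8 := hyq1 i (hsub2 i hi)
    have h9 := hd.tri y (z (b i + 1)) (z (b i))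
    rw [hd.symm (z (b i + 1)) (z (b i))] at h9
    have h10 := hd.tri (z (a i)) (z (b i)) (z (b i + 1))
    have h11 := hd.tri y (z (a i)) (z (b i))
    rw [hd.symm y (z (a i))] at h11
    have h12 : τ ≤ 1.05 * ρ := by linarith
    have h13 : η * τ ≤ 1.05 * (η * ρ) := by
      have := mul_le_mul_of_nonneg_left h12 hη.le
      linarith
    refine ⟨h12, ?_⟩
    linarith
  -- drop the indices whose far end is a hub
  have hexB : (I2.filter (fun i => z (b i + 1) ∈ S)).card ≤ h := by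
    refine le_trans (Finset.card_le_card_of_injOn (fun i => z (b i + 1)) ?_ ?_) (hS.sparse y)
    · intro i hi
      have hi' := Finset.mem_filter.mp (Finset.mem_coe.mp hi)
      rw [Finset.mem_coe, Finset.mem_filter]
      refine ⟨hi'.2, ?_⟩
      have := (hbd i hi'.1).2
      linarith
    · intro i hi j hj hij
      by_contra hne'
      have hi0 := hsub1 i (hsub2 i (Finset.mem_filter.mp (Finset.mem_coe.mp hi)).1)
      have hj0 := hsub1 j (hsub2 j (Finset.mem_filter.mp (Finset.mem_coe.mp hj)).1)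
      exact hdiff i (hsub0 i hi0) j (hsub0 j hj0) hne' _ (hb i hi0).2.1 _ (hb j hj0).2.1
        (hbκ i hi0).2.1 (hbκ i hi0).2.2 (hbκ j hj0).2.1 (hbκ j hj0).2.2 hij
  set J := I2.filter (fun i => ¬ z (b i + 1) ∈ S) with hJ
  have hcard4 : M ≤ J.card := by
    have := Finset.card_filter_add_card_filter_not (s := I2) (fun i => z (b i + 1) ∈ S)
    rw [← hJ] at this
    omega
  refine ⟨J, fun i hi => hsub0 i (hsub1 i (hsub2 i (Finset.mem_filter.mp hi).1)), hcard4, y, b, ?_⟩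
  intro i hi
  obtain ⟨hi2, hqS⟩ := Finset.mem_filter.mp hi
  have hi0 := hsub1 i (hsub2 i hi2)
  obtain ⟨h1, h2⟩ := hbd i hi2
  obtain ⟨h4, h5, h6, h7, h8⟩ := hb i hi0
  obtain ⟨k1, k2, k3, k4, k5⟩ := hprop1 i (hsub2 i hi2)
  refine ⟨h4, h5, h8, ?_, by linarith, by linarith, ?_⟩
  · rcases hS.edge _ _ (hT i hi0) (by linarith) (by linarith) with h | h
    · exact h
    · exact absurd h hqS
  · have h9 : (1 + (2 * ε + 7 * η)) * ρ = ρ + 2 * (ε * ρ) + 7 * (η * ρ) := by ring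
    linarith

end HD21
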