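import Mathlib
import Pool.Agent.HD21.StageH

/-!
Many stages, and the final contradiction: paths run through few cells, for every `h`.
-/

namespace HD21

/-- The size needed for `k` stages. -/
def stagesBound (h K N M : ℕ) : ℕ → ℕ
  | 0 => M
  | k + 1 => stageBound h K N (stagesBound h K N M k) + 1

variable {V : Type*} [DecidableEq V] {d : V → V → ℝ} {T : V → V → Prop} {s D : ℝ} {z : ℕ → V}
  {κ : ℕ → ℕ} {m n : ℕ}

/-- Many stages. -/
theorem stages {ι : Type*} [DecidableEq ι] {h : ℕ} (hd : IsPM d)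
    (hH : ∀ r, 0 < r → ∃ S, HubSetH h d T r S)
    (hP : CellPath d T s D z κ m n) (hs : 0 < s) {η ρ : ℝ} (hη : 0 < η) (hη1 : η ≤ 0.001)
    (hρs : s / 2 ≤ ρ) {K : ℕ}
    (hDK : D ≤ 0.48 * s * (1 + η) ^ K) {N : ℕ}
    (hN : ∀ c, (cellsO d z κ m c ρ).card ≤ N) {S : Finset V} (hS : HubSetH h d T (0.95 * ρ) S)
    (β : ι → ℕ) (W : ℕ) (M : ℕ) (k : ℕ) : ∀ (ε : ℝ) (v : V) (I : Finset ι) (a : ι → ℕ),
    0 ≤ ε → (ε + 7 * η) * 2 ^ k ≤ 0.01 →
    (∀ i ∈ I, ∀ j ∈ I, i ≠ j → β i + W < β j ∨ β j + W < β i) →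
    (∀ i ∈ I, a i ≤ m) → (∀ i ∈ I, β i ≤ κ (a i)) →
    (∀ i ∈ I, κ (a i) + k * ((h + 1) * N + 1) ≤ β i + W) → (∀ i ∈ I, β i + W ≤ n) →
    (∀ i ∈ I, d v (z (a i)) ≤ (1 + ε) * ρ) → stagesBound h K N M k ≤ I.card →
    ∃ J ⊆ I, M ≤ J.card ∧ ∃ (y : ℕ → V) (b : ℕ → ι → ℕ), ∀ i ∈ J,
      (∀ j < k, a i ≤ b j i ∧ b j i ≤ m ∧ z (b j i) ∈ S ∧ κ (b j i) ≤ β i + W ∧
        d (y j) (z (b j i)) ≤ 2.08 * ρ ∧ d (y (j + 1)) (z (b j i)) ≤ 2.08 * ρ) ∧
      (∀ j, j + 1 < k → b j i < b (j + 1) i ∧ d (z (b j i)) (z (b (j + 1) i)) ≤ 2.1 * ρ) ∧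
      (0 < k → d (z (a i)) (z (b 0 i)) ≤ 1.03 * ρ) ∧ y 0 = v := by
  have hρ : 0 < ρ := by linarith
  induction k with
  | zero =>
    intro ε v I a _ _ _ _ _ _ _ _ hI
    exact ⟨I, fun _ h => h, hI, fun _ => v, fun _ _ => 0, fun i _ =>
      ⟨fun j hj => by omega, fun j hj => by omega, fun h => by omega, rfl⟩⟩
  | succ k ih =>
    intro ε v I a hε hεk hwin ham haβ haw hβn hv hI
    have hpow : (1 : ℝ) ≤ 2 ^ k := one_le_pow₀ (by norm_num)
    have hε1 : ε ≤ 0.01 := by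
      rw [pow_succ] at hεk
      nlinarith
    have hmul : (k + 1) * ((h + 1) * N + 1) = k * ((h + 1) * N + 1) + ((h + 1) * N + 1) := by ring
    obtain ⟨J1, hJ1, hJ1c, y1, b1, hb1⟩ := stage hd hH hP hs hη hη1 hε hε1 hρs hDK hN hS v I β W a
      hwin ham haβ (fun i hi => by
        have := haw i hi
        rw [hmul] at this
        have h0 : 0 ≤ k * ((h + 1) * N + 1) := Nat.zero_le _
        omega) hβn hv (stagesBound h K N M k) (by
        have h1 : stagesBound h K N M (k + 1) =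
          stageBound h K N (stagesBound h K N M k) + 1 := rfl
        omega)
    have hmono := fun {i j : ℕ} (h : i ≤ j) (h' : j ≤ m) => mono_of_steps hP.cell h h'
    obtain ⟨J, hJ, hJc, y, b, hyb⟩ := ih (2 * ε + 7 * η) y1 J1 (fun i => b1 i + 1)
      (by linarith) (by
        have : (2 * ε + 7 * η + 7 * η) * 2 ^ k = (ε + 7 * η) * 2 ^ (k + 1) := by
          rw [pow_succ]; ring
        rw [this]; exact hεk)
      (fun i hi j hj hij => hwin i (hJ1 hi) j (hJ1 hj) hij)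
      (fun i hi => (hb1 i hi).2.1)
      (fun i hi => by
        obtain ⟨h1, h2, h3, -⟩ := hb1 i hi
        have h4 := haβ i (hJ1 hi)
        have h5 := hmono (i := a i) (j := b1 i + 1) (by omega) h2
        omega)
      (fun i hi => by
        obtain ⟨h1, h2, h3, -⟩ := hb1 i hi
        have h4 := haw i (hJ1 hi)
        rw [hmul] at h4
        omega)
      (fun i hi => hβn i (hJ1 hi))
      (fun i hi => (hb1 i hi).2.2.2.2.2.2) hJ1c
    refine ⟨J, fun i hi => hJ1 (hJ hi), hJc, fun j => if j = 0 then v else y (j - 1),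
      fun j => if j = 0 then b1 else b (j - 1), ?_⟩
    intro i hi
    obtain ⟨g1, g2, g3, g4⟩ := hyb i hi
    obtain ⟨h1, h2, h3, h4, h5, h6, h7⟩ := hb1 i (hJ hi)
    have hvi := hv i (hJ1 (hJ hi))
    have heρ1 : ε * ρ ≤ 0.01 * ρ := mul_le_mul_of_nonneg_right hε1 hρ.le
    have hsm : (1 + (2 * ε + 7 * η)) * ρ ≤ 1.01 * ρ := by
      apply mul_le_mul_of_nonneg_right _ hρ.le
      rw [pow_succ] at hεk
      nlinarith
    have hwb1 : κ (b1 i) ≤ β i + W := by
      have k1 := hmono (i := b1 i) (j := b1 i + 1) (by omega) h2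
      have k2 := haw i (hJ1 (hJ hi))
      rw [hmul] at k2
      have h0 : 0 ≤ k * ((h + 1) * N + 1) := Nat.zero_le _
      omega
    refine ⟨?_, ?_, ?_, by simp⟩
    · intro j hj
      cases j with
      | zero =>
        simp only [if_true, zero_add, Nat.sub_self]
        rw [if_neg (by omega)]
        refine ⟨h1, by omega, h4, hwb1, ?_, ?_⟩
        · have k1 := hd.tri v (z (a i)) (z (b1 i))
          have k2 : (1 + ε) * ρ = ρ + ε * ρ := by ring
          linarith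
        · rw [g4]
          have k1 := hd.tri y1 (z (b1 i + 1)) (z (b1 i))
          rw [hd.symm (z (b1 i + 1)) (z (b1 i))] at k1
          linarith
      | succ j =>
        obtain ⟨k1, k2, k3, k4, k5, k6⟩ := g1 j (by omega)
        simp only [Nat.add_eq_zero_iff, one_ne_zero, and_false, if_false, Nat.add_sub_cancel]
        exact ⟨by omega, k2, k3, k4, k5, k6⟩
    · intro j hj
      cases j with
      | zero =>
        simp only [if_true, zero_add, Nat.sub_self]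
        rw [if_neg (by omega)]
        have k1 := (g1 0 (by omega)).1
        have k2 := g3 (by omega)
        refine ⟨by omega, ?_⟩
        have k3 := hd.tri (z (b1 i)) (z (b1 i + 1)) (z (b 0 i))
        linarith
      | succ j =>
        simp only [Nat.add_eq_zero_iff, one_ne_zero, and_false, if_false, Nat.add_sub_cancel]
        exact g2 j (by omega)
    · intro _
      simp only [if_true]
      exact h5

/-- Few indices have far pairs of hubs near two centres. -/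
theorem far_pairs {ι : Type*} [DecidableEq ι] {h : ℕ} (hd : IsPM d)
    (hH : ∀ r, 0 < r → ∃ S, HubSetH h d T r S) {η ρ : ℝ} (hη : 0 < η) (hη1 : η ≤ 0.001)
    (hρ : 0 < ρ) {K : ℕ} (hK : 3.6 * ρ ≤ 1.5 * ρ * (1 + η) ^ K) {S : Finset V}
    (hS : HubSetH h d T (0.95 * ρ) S) (y y' : V) (P Q : ι → V) (I : Finset ι)
    (hPS : ∀ i ∈ I, P i ∈ S) (hQS : ∀ i ∈ I, Q i ∈ S)
    (hPi : ∀ i ∈ I, ∀ j ∈ I, P i = P j → i = j) (hQi : ∀ i ∈ I, ∀ j ∈ I, Q i = Q j → i = j)
    (hyP : ∀ i ∈ I, d y (P i) ≤ 2.08 * ρ) (hyQ : ∀ i ∈ I, d y' (Q i) ≤ 2.08 * ρ)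
    (hfar : ∀ i ∈ I, 1.5 * ρ < d (P i) (Q i)) (hnear : ∀ i ∈ I, d (P i) (Q i) ≤ 3.6 * ρ) :
    I.card ≤ K * (2 * h * (2 * h)) := by
  classical
  by_contra hcon
  push Not at hcon
  have hlc : ∀ i, ∃ l, i ∈ I → l < K ∧ 1.5 * ρ * (1 + η) ^ l < d (P i) (Q i) ∧
      d (P i) (Q i) ≤ (1 + η) * (1.5 * ρ * (1 + η) ^ l) := by
    intro i
    by_cases hi : i ∈ I
    · obtain ⟨l, hl1, hl2, hl3⟩ := gridq (a := 1.5 * ρ) (q := 1 + η) K (hfar i hi)
        (le_trans (hnear i hi) hK)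
      exact ⟨l, fun _ => ⟨hl1, hl2, hl3⟩⟩
    · exact ⟨0, fun h => absurd h hi⟩
  choose ll hll using hlc
  obtain ⟨l, hl, hcard1⟩ := Finset.exists_lt_card_fiber_of_mul_lt_card_of_maps_to
    (s := I) (t := Finset.range K) (f := ll) (n := 2 * h * (2 * h)) (by
      intro i hi
      rw [Finset.mem_range]
      exact (hll i hi).1) (by
      rw [Finset.card_range]
      exact hcon)
  set I1 := I.filter (fun i => ll i = l) with hI1
  set r : ℝ := 1.5 * ρ * (1 + η) ^ l with hr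
  have hr1 : 1.5 * ρ ≤ r := by
    rw [hr]
    have h1 : (1 : ℝ) ≤ (1 + η) ^ l := one_le_pow₀ (by linarith)
    nlinarith
  have hr0 : 0 < r := by linarith
  have hhr : η * r ≤ 0.001 * r := mul_le_mul_of_nonneg_right hη1 hr0.le
  obtain ⟨S1, hS1⟩ := hH r hr0
  have hsub1 : ∀ i ∈ I1, i ∈ I := fun i hi => (Finset.mem_filter.mp hi).1
  have hprop : ∀ i ∈ I1, r < d (P i) (Q i) ∧ d (P i) (Q i) ≤ r + η * r := by
    intro i hi
    have h1 := hll i (hsub1 i hi)
    rw [(Finset.mem_filter.mp hi).2] at h1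
    refine ⟨h1.2.1, ?_⟩
    have h7 := h1.2.2
    have h8 : (1 + η) * (1.5 * ρ * (1 + η) ^ l) = r + η * r := by rw [hr]; ring
    linarith
  have huc : ∀ i, ∃ u, i ∈ I1 → u ∈ S1 ∧ d (P i) u + d u (Q i) = d (P i) (Q i) := by
    intro i
    by_cases hi : i ∈ I1
    · obtain ⟨h1, h2⟩ := hprop i hi
      obtain ⟨u, hu, hu'⟩ := hS1.hit (P i) (Q i) h1 (by linarith)
      exact ⟨u, fun _ => ⟨hu, hu'⟩⟩
    · exact ⟨P i, fun h => absurd h hi⟩
  choose u hu using huc
  obtain ⟨c, hc, hcard2⟩ := Finset.exists_lt_card_fiber_of_mul_lt_card_of_maps_to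
    (s := I1) (t := S1.filter (fun c => d y c ≤ 2 * r) ∪ S1.filter (fun c => d y' c ≤ 2 * r))
    (f := u) (n := 2 * h) (by
      intro i hi
      obtain ⟨h1, h2⟩ := hu i hi
      obtain ⟨h3, h4⟩ := hprop i hi
      rw [Finset.mem_union, Finset.mem_filter, Finset.mem_filter]
      rcases le_total (d (P i) (u i)) (d (u i) (Q i)) with h5 | h5
      · left
        refine ⟨h1, ?_⟩
        have h6 := hd.tri y (P i) (u i)
        have h7 := hyP i (hsub1 i hi)
        linarith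
      · right
        refine ⟨h1, ?_⟩
        have h6 := hd.tri y' (Q i) (u i)
        rw [hd.symm (Q i) (u i)] at h6
        have h7 := hyQ i (hsub1 i hi)
        linarith) (by
      have h1 := hS1.sparse y
      have h2 := hS1.sparse y'
      have h3 := Finset.card_union_le (S1.filter (fun c => d y c ≤ 2 * r))
        (S1.filter (fun c => d y' c ≤ 2 * r))
      calc _ ≤ 2 * h * (2 * h) := Nat.mul_le_mul_right _ (by omega)
        _ < _ := hcard1)
  set I2 := I1.filter (fun i => u i = c) with hI2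
  have hsub2 : ∀ i ∈ I2, i ∈ I1 := fun i hi => (Finset.mem_filter.mp hi).1
  have hsum : ∀ i ∈ I2, d (P i) c + d c (Q i) ≤ 3.6 * ρ := by
    intro i hi
    have h1 := (hu i (hsub2 i hi)).2
    rw [(Finset.mem_filter.mp hi).2] at h1
    rw [h1]
    exact hnear i (hsub1 i (hsub2 i hi))
  have hA : (I2.filter (fun i => d c (P i) ≤ 2 * (0.95 * ρ))).card ≤ h := by
    refine le_trans (Finset.card_le_card_of_injOn P ?_ ?_) (hS.sparse c)
    · intro i hi
      have hi' := Finset.mem_filter.mp (Finset.mem_coe.mp hi)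
      rw [Finset.mem_coe, Finset.mem_filter]
      exact ⟨hPS i (hsub1 i (hsub2 i hi'.1)), hi'.2⟩
    · intro i hi j hj hij
      exact hPi i (hsub1 i (hsub2 i (Finset.mem_filter.mp (Finset.mem_coe.mp hi)).1)) j
        (hsub1 j (hsub2 j (Finset.mem_filter.mp (Finset.mem_coe.mp hj)).1)) hij
  have hB : (I2.filter (fun i => d c (Q i) ≤ 2 * (0.95 * ρ))).card ≤ h := by
    refine le_trans (Finset.card_le_card_of_injOn Q ?_ ?_) (hS.sparse c)
    · intro i hi
      have hi' := Finset.mem_filter.mp (Finset.mem_coe.mp hi)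
      rw [Finset.mem_coe, Finset.mem_filter]
      exact ⟨hQS i (hsub1 i (hsub2 i hi'.1)), hi'.2⟩
    · intro i hi j hj hij
      exact hQi i (hsub1 i (hsub2 i (Finset.mem_filter.mp (Finset.mem_coe.mp hi)).1)) j
        (hsub1 j (hsub2 j (Finset.mem_filter.mp (Finset.mem_coe.mp hj)).1)) hij
  have hsub : I2 ⊆ I2.filter (fun i => d c (P i) ≤ 2 * (0.95 * ρ)) ∪
      I2.filter (fun i => d c (Q i) ≤ 2 * (0.95 * ρ)) := by
    intro i hi
    rw [Finset.mem_union]
    by_cases h1 : d c (P i) ≤ 2 * (0.95 * ρ)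
    · exact Or.inl (Finset.mem_filter.mpr ⟨hi, h1⟩)
    · by_cases h2 : d c (Q i) ≤ 2 * (0.95 * ρ)
      · exact Or.inr (Finset.mem_filter.mpr ⟨hi, h2⟩)
      · have h3 := hsum i hi
        rw [hd.symm (P i) c] at h3
        push Not at h1 h2
        linarith
  have h1 := Finset.card_le_card hsub
  have h2 := Finset.card_union_le (I2.filter (fun i => d c (P i) ≤ 2 * (0.95 * ρ)))
    (I2.filter (fun i => d c (Q i) ≤ 2 * (0.95 * ρ)))
  omega

end HD21
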