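import Mathlib
import Pool.Agent.HD21.ManyH

/-!
Paths run through few cells: general `h`.
-/

namespace HD21

variable {V : Type*} [DecidableEq V] {d : V → V → ℝ} {T : V → V → Prop} {s D : ℝ} {z : ℕ → V}
  {κ : ℕ → ℕ} {m n : ℕ}

/-- There is no large family of sequences of `h + 1` hubs. -/
theorem no_family {ι : Type*} [DecidableEq ι] {h : ℕ} (hd : IsPM d)
    (hH : ∀ r, 0 < r → ∃ S, HubSetH h d T r S) (hP : CellPath d T s D z κ m n)
    {η ρ : ℝ} (hη : 0 < η) (hη1 : η ≤ 0.001)
    (hρ : 0 < ρ) {K : ℕ} (hK : 2.4 ≤ (1 + η) ^ K) {S : Finset V}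
    (hS : HubSetH h d T (0.95 * ρ) S) (y : ℕ → V) (b : ℕ → ι → ℕ) (J : Finset ι)
    (hb : ∀ i ∈ J, ∀ j < h + 1, b j i ≤ m ∧ z (b j i) ∈ S ∧ d (y j) (z (b j i)) ≤ 2.08 * ρ ∧
      d (y (j + 1)) (z (b j i)) ≤ 2.08 * ρ)
    (hstep : ∀ i ∈ J, ∀ j, j + 1 < h + 1 → b j i < b (j + 1) i ∧
      d (z (b j i)) (z (b (j + 1) i)) ≤ 2.1 * ρ)
    (hinj : ∀ j < h + 1, ∀ i ∈ J, ∀ i' ∈ J, z (b j i) = z (b j i') → i = i') :
    J.card ≤ 2 * (h * (K * (2 * h * (2 * h)))) := by
  classical
  have hK' : 3.6 * ρ ≤ 1.5 * ρ * (1 + η) ^ K := by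
    have := mul_le_mul_of_nonneg_left hK (show (0 : ℝ) ≤ 1.5 * ρ by positivity)
    linarith
  set E : ℕ → Finset ι := fun j => J.filter (fun i =>
    1.5 * ρ < d (z (b j i)) (z (b (j + 1) i))) with hE
  set F : ℕ → Finset ι := fun j => J.filter (fun i =>
    1.5 * ρ < d (z (b 0 i)) (z (b (j + 1) i)) ∧ d (z (b 0 i)) (z (b (j + 1) i)) ≤ 3.6 * ρ) with hF
  have hEc : ∀ j < h, (E j).card ≤ K * (2 * h * (2 * h)) := by
    intro j hj
    have hsub : ∀ i ∈ E j, i ∈ J := fun i hi => (Finset.mem_filter.mp hi).1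
    refine far_pairs hd hH hη hη1 hρ hK' hS (y (j + 1)) (y (j + 1)) (fun i => z (b j i))
      (fun i => z (b (j + 1) i)) (E j) ?_ ?_ ?_ ?_ ?_ ?_ ?_ ?_
    · exact fun i hi => (hb i (hsub i hi) j (by omega)).2.1
    · exact fun i hi => (hb i (hsub i hi) (j + 1) (by omega)).2.1
    · exact fun i hi i' hi' h => hinj j (by omega) i (hsub i hi) i' (hsub i' hi') h
    · exact fun i hi i' hi' h => hinj (j + 1) (by omega) i (hsub i hi) i' (hsub i' hi') h
    · exact fun i hi => (hb i (hsub i hi) j (by omega)).2.2.2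
    · exact fun i hi => (hb i (hsub i hi) (j + 1) (by omega)).2.2.1
    · exact fun i hi => (Finset.mem_filter.mp hi).2
    · intro i hi
      have := (hstep i (hsub i hi) j (by omega)).2
      linarith
  have hFc : ∀ j < h, (F j).card ≤ K * (2 * h * (2 * h)) := by
    intro j hj
    have hsub : ∀ i ∈ F j, i ∈ J := fun i hi => (Finset.mem_filter.mp hi).1
    refine far_pairs hd hH hη hη1 hρ hK' hS (y 0) (y (j + 1)) (fun i => z (b 0 i))
      (fun i => z (b (j + 1) i)) (F j) ?_ ?_ ?_ ?_ ?_ ?_ ?_ ?_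
    · exact fun i hi => (hb i (hsub i hi) 0 (by omega)).2.1
    · exact fun i hi => (hb i (hsub i hi) (j + 1) (by omega)).2.1
    · exact fun i hi i' hi' h => hinj 0 (by omega) i (hsub i hi) i' (hsub i' hi') h
    · exact fun i hi i' hi' h => hinj (j + 1) (by omega) i (hsub i hi) i' (hsub i' hi') h
    · exact fun i hi => (hb i (hsub i hi) 0 (by omega)).2.2.1
    · exact fun i hi => (hb i (hsub i hi) (j + 1) (by omega)).2.2.1
    · exact fun i hi => (Finset.mem_filter.mp hi).2.1
    · exact fun i hi => (Finset.mem_filter.mp hi).2.2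
  have hcov : J ⊆ (Finset.range h).biUnion (fun j => E j ∪ F j) := by
    intro i hi
    by_contra hno
    rw [Finset.mem_biUnion] at hno
    push Not at hno
    have hno' : ∀ j < h, i ∉ E j ∧ i ∉ F j := by
      intro j hj
      have := hno j (Finset.mem_range.mpr hj)
      rw [Finset.mem_union, not_or] at this
      exact this
    have hclose : ∀ j, j < h + 1 → d (z (b 0 i)) (z (b j i)) ≤ 1.5 * ρ := by
      intro j
      induction j with
      | zero => intro _; rw [hd.self]; positivity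
      | succ j ih =>
        intro hj
        have h1 := ih (by omega)
        obtain ⟨h2, h3⟩ := hno' j (by omega)
        have h4 : d (z (b j i)) (z (b (j + 1) i)) ≤ 1.5 * ρ := by
          by_contra hcon
          exact h2 (Finset.mem_filter.mpr ⟨hi, not_le.mp hcon⟩)
        have h5 := hd.tri (z (b 0 i)) (z (b j i)) (z (b (j + 1) i))
        by_contra hcon
        exact h3 (Finset.mem_filter.mpr ⟨hi, not_le.mp hcon, by linarith⟩)
    have hlt : ∀ j j', j < j' → j' < h + 1 → b j i < b j' i := by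
      intro j j' hjj'
      induction j' with
      | zero => omega
      | succ j' ih =>
        intro hj'
        have h1 := (hstep i hi j' hj').1
        rcases Nat.lt_or_ge j j' with h2 | h2
        · have := ih h2 (by omega)
          omega
        · have : j = j' := by omega
          rw [this]
          exact h1
    have hcard : h + 1 ≤ (S.filter (fun c => d (z (b 0 i)) c ≤ 2 * (0.95 * ρ))).card := by
      rw [← Finset.card_range (h + 1)]
      refine Finset.card_le_card_of_injOn (fun j => z (b j i)) ?_ ?_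
      · intro j hj
        have hj' := Finset.mem_range.mp (Finset.mem_coe.mp hj)
        rw [Finset.mem_coe, Finset.mem_filter]
        refine ⟨(hb i hi j hj').2.1, ?_⟩
        have := hclose j hj'
        linarith
      · intro j hj j' hj' hjj'
        have h1 := Finset.mem_range.mp (Finset.mem_coe.mp hj)
        have h2 := Finset.mem_range.mp (Finset.mem_coe.mp hj')
        have h3 := hP.inj (b j i) (hb i hi j h1).1 (b j' i) (hb i hi j' h2).1 hjj'
        rcases Nat.lt_trichotomy j j' with h4 | h4 | h4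
        · have := hlt j j' h4 h2
          omega
        · exact h4
        · have := hlt j' j h4 h1
          omega
    have := hS.sparse (z (b 0 i))
    omega
  refine le_trans (Finset.card_le_card hcov) (le_trans Finset.card_biUnion_le ?_)
  refine le_trans (Finset.sum_le_sum (g := fun _ => 2 * (K * (2 * h * (2 * h)))) ?_) ?_
  · intro j hj
    have h1 := hEc j (Finset.mem_range.mp hj)
    have h2 := hFc j (Finset.mem_range.mp hj)
    have h3 := Finset.card_union_le (E j) (F j)
    omega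
  · rw [Finset.sum_const, Finset.card_range, smul_eq_mul]
    exact le_of_eq (by ring)

/-- The number of cells after one step, general `h`. -/
def stepBoundH (h K N : ℕ) : ℕ :=
  ((h + 1) * ((h + 1) * N + 1) + 1) *
      stagesBound h K N (2 * (h * (K * (2 * h * (2 * h)))) + 1) (h + 1) +
    (h + 1) * ((h + 1) * N + 1)

/-- The induction step for general `h`. -/
theorem stepH {h : ℕ} (hd : IsPM d) (hH : ∀ r, 0 < r → ∃ S, HubSetH h d T r S)
    (hP : CellPath d T s D z κ m n) (hs : 0 < s) {η ρ : ℝ} (hη : 0 < η)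
    (hη2 : 8 * η * 2 ^ (h + 1) ≤ 0.01) (hρs : s / 2 ≤ ρ) {K : ℕ}
    (hK : 2.4 ≤ (1 + η) ^ K) (hDK : D ≤ 0.48 * s * (1 + η) ^ K) {N : ℕ}
    (hN : ∀ c, (cellsO d z κ m c ρ).card ≤ N) (v : V) :
    (cellsO d z κ m v ((1 + η) * ρ)).card ≤ stepBoundH h K N := by
  classical
  have hρ : 0 < ρ := by linarith
  have hη1 : η ≤ 0.001 := by
    have h1 : (1 : ℝ) ≤ 2 ^ h := one_le_pow₀ (by norm_num)
    rw [pow_succ] at hη2
    nlinarith
  obtain ⟨S, hS⟩ := hH (0.95 * ρ) (by positivity)
  by_contra hcon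
  push Not at hcon
  set W : ℕ := (h + 1) * ((h + 1) * N + 1) with hW
  have hκn : ∀ i ≤ m, κ i ≤ n := by
    intro i hi
    rw [← hP.last]
    exact mono_of_steps hP.cell hi le_rfl
  set G : Finset ℕ := (cellsO d z κ m v ((1 + η) * ρ)).filter (fun β => β + W ≤ n) with hG
  have hGc : (W + 1) * stagesBound h K N (2 * (h * (K * (2 * h * (2 * h)))) + 1) (h + 1) <
      G.card := by
    have hsub : cellsO d z κ m v ((1 + η) * ρ) ⊆ G ∪ Finset.Ico (n + 1 - W) (n + 1) := by
      intro β hβ
      rw [Finset.mem_union]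
      obtain ⟨i, hi, hi1, hi2⟩ := mem_cellsO.mp hβ
      have h6 := hκn i hi
      by_cases h1 : β + W ≤ n
      · exact Or.inl (Finset.mem_filter.mpr ⟨hβ, h1⟩)
      · right
        rw [Finset.mem_Ico]
        omega
    have h1 := Finset.card_le_card hsub
    have h2 := Finset.card_union_le G (Finset.Ico (n + 1 - W) (n + 1))
    have h7 : (Finset.Ico (n + 1 - W) (n + 1)).card ≤ W := by
      rw [Nat.card_Ico]
      omega
    unfold stepBoundH at hcon
    rw [← hW] at hcon
    omega
  obtain ⟨ρ', -, hIc⟩ := Finset.exists_lt_card_fiber_of_mul_lt_card_of_maps_to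
    (s := G) (t := Finset.range (W + 1)) (f := fun β => β % (W + 1))
    (n := stagesBound h K N (2 * (h * (K * (2 * h * (2 * h)))) + 1) (h + 1)) (by
      intro β _
      rw [Finset.mem_range]
      exact Nat.mod_lt _ (by omega)) (by
      rw [Finset.card_range]
      exact hGc)
  set I : Finset ℕ := G.filter (fun β => β % (W + 1) = ρ') with hI
  have hIG : ∀ β ∈ I, β ∈ G := fun β hβ => (Finset.mem_filter.mp hβ).1
  have hIsep : ∀ β ∈ I, ∀ γ ∈ I, β ≠ γ → β + W < γ ∨ γ + W < β := by
    intro β hβ γ hγ hne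
    have h1 := (Finset.mem_filter.mp hβ).2
    have h2 := (Finset.mem_filter.mp hγ).2
    rcases Nat.lt_or_ge β γ with h | h
    · left
      have h3 : (W + 1) ∣ γ - β := (Nat.modEq_iff_dvd' h.le).mp (by
        unfold Nat.ModEq
        rw [h1, h2])
      have := Nat.le_of_dvd (by omega) h3
      omega
    · right
      have h3 : (W + 1) ∣ β - γ := (Nat.modEq_iff_dvd' h).mp (by
        unfold Nat.ModEq
        rw [h1, h2])
      have := Nat.le_of_dvd (by omega) h3
      omega
  have hpos : ∀ β, ∃ i, β ∈ I → i ≤ m ∧ d v (z i) < (1 + η) * ρ ∧ κ i = β := by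
    intro β
    by_cases hβ : β ∈ I
    · obtain ⟨i, h1, h2, h3⟩ := mem_cellsO.mp (Finset.mem_filter.mp (hIG β hβ)).1
      exact ⟨i, fun _ => ⟨h1, h2, h3⟩⟩
    · exact ⟨0, fun h => absurd h hβ⟩
  choose pos hpos using hpos
  obtain ⟨J, hJ, hJc, y, b, hyb⟩ := stages hd hH hP hs hη hη1 hρs hDK hN hS (fun β => β) W
    (2 * (h * (K * (2 * h * (2 * h)))) + 1) (h + 1) η v I pos hη.le
    (by have : η + 7 * η = 8 * η := by ring
        rw [this]; exact hη2)
    hIsep (fun β hβ => (hpos β hβ).1) (fun β hβ => (hpos β hβ).2.2.ge)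
    (fun β hβ => by rw [(hpos β hβ).2.2])
    (fun β hβ => (Finset.mem_filter.mp (hIG β hβ)).2)
    (fun β hβ => (hpos β hβ).2.1.le) hIc.le
  have hfin := no_family hd hH hP hη hη1 hρ hK hS y b J
    (fun i hi j hj => by
      obtain ⟨k1, k2, k3, k4, k5, k6⟩ := (hyb i hi).1 j hj
      exact ⟨k2, k3, k5, k6⟩)
    (fun i hi j hj => (hyb i hi).2.1 j hj)
    (fun j hj i hi i' hi' hzz => by
      by_contra hne
      obtain ⟨k1, k2, k3, k4, k5, k6⟩ := (hyb i hi).1 j hj
      obtain ⟨l1, l2, l3, l4, l5, l6⟩ := (hyb i' hi').1 j hj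
      have h1 := hP.inj _ k2 _ l2 hzz
      have h2 := mono_of_steps hP.cell k1 k2
      have h3 := mono_of_steps hP.cell l1 l2
      rw [(hpos i (hJ hi)).2.2] at h2
      rw [(hpos i' (hJ hi')).2.2] at h3
      rw [h1] at h2 k4
      rcases hIsep i (hJ hi) i' (hJ hi') hne with h | h <;> omega)
  omega

/-- The bound for the number of cells, general `h`. -/
def cellBoundH (h K : ℕ) : ℕ → ℕ
  | 0 => 1
  | q + 1 => stepBoundH h K (cellBoundH h K q)

/-- A path runs through few cells, general `h`. -/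
theorem path_boundH {h : ℕ} (hd : IsPM d) (hH : ∀ r, 0 < r → ∃ S, HubSetH h d T r S)
    (hP : CellPath d T s D z κ m n) (hs : 0 < s) {η : ℝ} (hη : 0 < η)
    (hη2 : 8 * η * 2 ^ (h + 1) ≤ 0.01) {K : ℕ}
    (hK : 2.4 ≤ (1 + η) ^ K) (hDK : D ≤ 0.48 * s * (1 + η) ^ K) : n + 1 ≤ cellBoundH h K K := by
  classical
  have key : ∀ q, ∀ c, (cellsO d z κ m c (s / 2 * (1 + η) ^ q)).card ≤ cellBoundH h K q := by
    intro q
    induction q with
    | zero =>
      intro c
      refine Finset.card_le_one.mpr ?_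
      intro β hβ γ hγ
      obtain ⟨i, hi, hi1, rfl⟩ := mem_cellsO.mp hβ
      obtain ⟨j, hj, hj1, rfl⟩ := mem_cellsO.mp hγ
      by_contra h
      have h1 := hP.sep i hi j hj h
      have h2 := hd.tri (z i) c (z j)
      rw [hd.symm (z i) c] at h2
      simp only [pow_zero, mul_one] at hi1 hj1
      linarith
    | succ q ih =>
      intro c
      have h1 : (1 : ℝ) ≤ (1 + η) ^ q := one_le_pow₀ (by linarith)
      have h2 := stepH hd hH hP hs hη hη2 (ρ := s / 2 * (1 + η) ^ q) (by nlinarith) hK hDK ih c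
      have h3 : (1 + η) * (s / 2 * (1 + η) ^ q) = s / 2 * (1 + η) ^ (q + 1) := by
        rw [pow_succ]
        ring
      rw [h3] at h2
      exact h2
  refine le_trans ?_ (key K (z 0))
  have hsub : Finset.range (n + 1) ⊆ cellsO d z κ m (z 0) (s / 2 * (1 + η) ^ K) := by
    intro β hβ
    rw [Finset.mem_range] at hβ
    obtain ⟨l, hl, hl'⟩ := ivt hP.cell (t := β) (by rw [hP.zero]; omega) (by rw [hP.last]; omega)
    refine mem_cellsO.mpr ⟨l, hl, ?_, hl'⟩
    have h1 := hP.diam 0 (Nat.zero_le _) l hl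
    have h2 : (0 : ℝ) < (1 + η) ^ K := by positivity
    nlinarith
  have := Finset.card_le_card hsub
  rwa [Finset.card_range] at this

end HD21
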