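import Mathlib
import Pool.Agent.HD21.PathH
import Pool.Agent.HD21.Final

/-!
Host graphs of bounded treewidth for every highway dimension, for graphs whose single-linkage
clusters have bounded relative diameter.
-/

namespace HD21

open SimpleGraph

/-- Highway dimension at most `h` provides hub sets. -/
theorem hubSetH_of_hd {V : Type*} [Fintype V] [DecidableEq V] {G : SimpleGraph V}
    {wt : Sym2 V → ℝ} {h : ℕ} (h0 : ∀ e, 0 ≤ wt e) (hc : G.Connected)
    (hh : HighwayDimLE G wt h) :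
    ∀ r, 0 < r → ∃ S, HubSetH h (gdist G wt) (Tight G wt) r S := by
  classical
  intro r hr
  obtain ⟨S, hS, hsp⟩ := hh r hr
  refine ⟨S.toFinset, ?_, ?_, ?_⟩
  · intro u v h1 h2
    obtain ⟨c, hcS, hcc⟩ := hub_split h0 hc hS u v h1 h2
    exact ⟨c, by simpa using hcS, hcc⟩
  · intro u v hT h1 h2
    have hw : wlen wt (Walk.cons hT.1 Walk.nil) = gdist G wt u v := by
      rw [wlen_cons, wlen_nil, add_zero, hT.2]
    obtain ⟨x, hx, hx'⟩ := hS u v (Walk.cons hT.1 Walk.nil)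
      ⟨by simp [hT.1.ne], hw⟩ (by rw [hw]; exact h1) (by rw [hw]; exact h2)
    simp only [Walk.support_cons, Walk.support_nil, List.mem_cons, List.not_mem_nil,
      or_false] at hx'
    rcases hx' with rfl | rfl
    · exact Or.inl (by simpa using hx)
    · exact Or.inr (by simpa using hx)
  · intro v
    have h3 := hsp v
    rw [Set.ncard_eq_toFinset_card'] at h3
    refine le_trans (Finset.card_le_card ?_) h3
    intro c hc'
    simp only [Finset.mem_filter, Set.mem_toFinset] at hc'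
    simp only [Set.mem_toFinset, Set.mem_inter_iff, Set.mem_setOf_eq]
    exact ⟨hc'.1, hc'.2⟩

section

variable {V : Type*} [Fintype V] [LinearOrder V] {G : SimpleGraph V} {wt : Sym2 V → ℝ}

/-- The graphs of subclusters have no long paths, general `h`. -/
theorem cellGraph_pathH {h : ℕ} (h0 : ∀ e, 0 ≤ wt e) (hc : G.Connected)
    (hh : HighwayDimLE G wt h) {C : ℝ} (hU : UD C (gdist G wt))
    {s : ℕ → ℝ} (hs : Monotone s) (hs0 : ∀ i, 0 < s i) {η : ℝ} (hη : 0 < η)
    (hη2 : 8 * η * 2 ^ (h + 1) ≤ 0.01) {K : ℕ} (hK1 : 2.4 ≤ (1 + η) ^ K)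
    (hK : ∀ i, C * s (i + 1) ≤ 0.48 * s i * (1 + η) ^ K) (i : ℕ) (hi : 1 ≤ i) (c : V)
    (a b : {a : V // lev (gdist G wt) s i a = a ∧ lev (gdist G wt) s (i + 1) a = c ∧ a ≠ c})
    (p : (cellGraph (lev (gdist G wt) s) (Tight G wt) i c).Walk a b) (hp : p.IsPath) :
    p.length + 1 ≤ cellBoundH h K K := by
  classical
  have hd := isPM_gdist (G := G) (wt := wt) h0 hc
  have hL := hier_lev (d := gdist G wt) hd hs
  obtain ⟨i, rfl⟩ : ∃ i', i = i' + 1 := ⟨i - 1, by omega⟩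
  obtain ⟨z, κ, m, hz1, hz2, hz3, hz4, hz5, hz6, hz7⟩ := lift_path (Tight G wt)
    (lev (gdist G wt) s (i + 1)) (fun u v huv => tight_inside h0 hc (s i) u v huv) p.length
    (fun j => (p.getVert j).1)
    (by
      intro j hj l hl hjl
      exact hp.getVert_injOn hj hl (Subtype.ext hjl))
    ⟨(p.getVert 0).1, (p.getVert 0).2.1⟩
    (by
      intro j hj
      obtain ⟨-, u, v, h1, h2, h3⟩ := p.adj_getVert_succ hj
      refine ⟨u, v, ?_, h2, h3⟩
      rcases h1 with h1 | h1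
      · exact h1
      · exact h1.symm' h0 hc)
  refine path_boundH hd (hubSetH_of_hd h0 hc hh)
    (s := s i) (D := C * s (i + 1)) (z := z) (κ := κ) (m := m) ?_ (hs0 i) hη hη2 hK1 (hK i)
  refine ⟨hz1, hz2, hz5, hz6, hz7, ?_, ?_⟩
  · intro j hj l hl hjl
    by_contra h
    push Not at h
    have h1 : lev (gdist G wt) s (i + 1) (z j) = lev (gdist G wt) s (i + 1) (z l) :=
      (rep_eq_iff hd).mpr (Chained.single h)
    rw [hz3 j hj, hz3 l hl] at h1
    exact hjl (hp.getVert_injOn (hz4 j hj) (hz4 l hl) (Subtype.ext h1))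
  · intro j hj l hl
    refine hU (s (i + 1)) (hs0 _).le _ _ ?_
    refine (rep_eq_iff hd).mp ?_
    have h1 : ∀ j ≤ m, rep (gdist G wt) (s (i + 1)) (z j) = c := by
      intro j hj
      have h2 : lev (gdist G wt) s (i + 1 + 1) (lev (gdist G wt) s (i + 1) (z j)) =
        lev (gdist G wt) s (i + 1 + 1) (z j) := hL.up (i + 1) (z j)
      rw [hz3 j hj] at h2
      have h3 := (p.getVert (κ j)).2.2.1
      change lev (gdist G wt) s (i + 1 + 1) (z j) = c
      rw [← h2]
      exact h3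
    rw [h1 j hj, h1 l hl]

/-- The treewidth of the host graphs, general `h`. -/
theorem host_twH {h : ℕ} (h0 : ∀ e, 0 ≤ wt e) (hc : G.Connected) (hh : HighwayDimLE G wt h)
    {C : ℝ} (hU : UD C (gdist G wt)) {k : ℕ} {σ : ℝ} {N : ℕ} (hA : Adm (gdist G wt) k σ N)
    {η : ℝ} (hη : 0 < η) (hη2 : 8 * η * 2 ^ (h + 1) ≤ 0.01) {K : ℕ}
    (hK1 : 2.4 ≤ (1 + η) ^ K) (hK : C * (2 : ℝ) ^ k ≤ 0.48 * (1 + η) ^ K) (j : Fin k) :
    TreewidthLE (hostGraph G wt k σ N j) (cellBoundH h K K + 1) := by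
  have hd := isPM_gdist (G := G) (wt := wt) h0 hc
  refine host_treewidth (hier_lev hd (scale_mono hA.1 k j)) _ _ _ (host_top h0 hc hA j) ?_
  intro i c hi _ a b p hp
  refine cellGraph_pathH h0 hc hh hU (scale_mono hA.1 k j) (scale_pos hA.1 k j) hη hη2 hK1 ?_
    i hi c a b p hp
  intro i
  rw [scale_succ]
  have h1 := scale_pos hA.1 k j i
  have h2 := mul_le_mul_of_nonneg_right hK h1.le
  linarith

end

/-- **Bounded treewidth for every highway dimension**, for graphs whose single-linkage clusters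
have relative diameter at most `C`. -/
theorem bounded_treewidthH (h k : ℕ) (hk : 0 < k) (C : ℝ) (hC : 0 ≤ C) : ∃ t : ℕ,
    ∀ (V : Type) [Fintype V] [LinearOrder V] (G : SimpleGraph V) (wt : Sym2 V → ℝ),
    (∀ e, 0 ≤ wt e) → G.Connected → HighwayDimLE G wt h → UD C (gdist G wt) →
    (∃ σ N, Adm (gdist G wt) k σ N) ∧
    ∀ σ N, Adm (gdist G wt) k σ N →
      (∀ j, (hostGraph G wt k σ N j).Connected) ∧
      (∀ j, TreewidthLE (hostGraph G wt k σ N j) t) ∧
      (∀ j u v, gdist G wt u v ≤ gdist (hostGraph G wt k σ N j) (dwt (gdist G wt)) u v) ∧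
      (∀ u v, ∑ j, gdist (hostGraph G wt k σ N j) (dwt (gdist G wt)) u v ≤
        (k + 8 * C) * gdist G wt u v) ∧
      (∀ j, tsp G wt ≤ tsp (hostGraph G wt k σ N j) (dwt (gdist G wt))) ∧
      (∃ j, tsp (hostGraph G wt k σ N j) (dwt (gdist G wt)) ≤ (1 + 8 * C / k) * tsp G wt) ∧
      (∀ R : Set V, R.Nonempty →
        (∀ j, stp G wt R ≤ stp (hostGraph G wt k σ N j) (dwt (gdist G wt)) R) ∧
        ∃ j, stp (hostGraph G wt k σ N j) (dwt (gdist G wt)) R ≤
          (1 + 8 * C / k) * stp G wt R) := by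
  set η : ℝ := 0.01 / (8 * 2 ^ (h + 1)) with hη
  have hη0 : 0 < η := by positivity
  have hη2 : 8 * η * 2 ^ (h + 1) ≤ 0.01 := by
    rw [hη]
    refine le_of_eq ?_
    field_simp
  obtain ⟨K, hK⟩ := pow_unbounded_of_one_lt (max 2.4 (C * 2 ^ k / 0.48))
    (show (1 : ℝ) < 1 + η by linarith)
  have hK1 : 2.4 ≤ (1 + η) ^ K := le_trans (le_max_left _ _) hK.le
  have hK2 : C * (2 : ℝ) ^ k ≤ 0.48 * (1 + η) ^ K := by
    have := lt_of_le_of_lt (le_max_right _ _) hK
    rw [div_lt_iff₀ (by norm_num)] at this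
    linarith
  refine ⟨cellBoundH h K K + 1, ?_⟩
  intro V _ _ G wt h0 hc hh hU
  refine ⟨exists_adm _ hk, ?_⟩
  intro σ N hA
  exact hosts_main k hk hC h0 hc hU hA (host_twH h0 hc hh hU hA hη0 hη2 hK1 hK2)

end HD21
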