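import Mathlib

/-!
A Sperner type lemma for the square grid.
-/

namespace HD21

/-- the edge value of two labels -/
def eV (a b : Fin 3) : ZMod 2 := if (a = 1 ∧ b = 2) ∨ (a = 2 ∧ b = 1) then 1 else 0

theorem eV_tri : ∀ a b c : Fin 3, eV a b + eV b c + eV a c = 0 ∨
    (a = 0 ∧ b = 1 ∧ c = 2) ∨ (a = 0 ∧ b = 2 ∧ c = 1) ∨ (a = 1 ∧ b = 0 ∧ c = 2) ∨
    (a = 1 ∧ b = 2 ∧ c = 0) ∨ (a = 2 ∧ b = 0 ∧ c = 1) ∨ (a = 2 ∧ b = 1 ∧ c = 0) := by
  decide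

/-- A Sperner type lemma: on the grid `{0, ..., n}²` every cell is low, or high with property `P`,
or high without `P`. If the right and bottom sides are low, all high cells of the left side have
`P`, no high cell of the top side other than the corner has `P`, and the corner `(0, n)` and its
right neighbour `(1, n)` are high, then there are three mutually adjacent cells of the three
kinds. -/
theorem grid_crossing (n : ℕ) (hn : 0 < n) (low P : ℕ → ℕ → Prop)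
    (hright : ∀ t ≤ n, low n t) (hbot : ∀ s ≤ n, low s 0)
    (hleft : ∀ t ≤ n, ¬ low 0 t → P 0 t)
    (htop : ∀ s ≤ n, 1 ≤ s → ¬ low s n → ¬ P s n)
    (hc0 : ¬ low 0 n) (hc1 : ¬ low 1 n) :
    ∃ s1 t1 s2 t2 s3 t3 : ℕ, s1 ≤ n ∧ t1 ≤ n ∧ s2 ≤ n ∧ t2 ≤ n ∧ s3 ≤ n ∧ t3 ≤ n ∧
      (s1 ≤ s2 + 1 ∧ s2 ≤ s1 + 1 ∧ t1 ≤ t2 + 1 ∧ t2 ≤ t1 + 1) ∧
      (s1 ≤ s3 + 1 ∧ s3 ≤ s1 + 1 ∧ t1 ≤ t3 + 1 ∧ t3 ≤ t1 + 1) ∧
      (s2 ≤ s3 + 1 ∧ s3 ≤ s2 + 1 ∧ t2 ≤ t3 + 1 ∧ t3 ≤ t2 + 1) ∧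
      low s1 t1 ∧ (¬ low s2 t2 ∧ P s2 t2) ∧ (¬ low s3 t3 ∧ ¬ P s3 t3) := by
  classical
  by_contra hcon
  obtain ⟨lab, hlab⟩ : ∃ lab : ℕ → ℕ → Fin 3, lab = fun s t =>
    if low s t then 0 else if P s t then 1 else 2 := ⟨_, rfl⟩
  have l0 : ∀ s t, lab s t = 0 → low s t := by
    intro s t h
    rw [hlab] at h
    simp only at h
    by_contra h1
    rw [if_neg h1] at h
    split_ifs at h <;> simp at h
  have l1 : ∀ s t, lab s t = 1 → ¬ low s t ∧ P s t := by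
    intro s t h
    rw [hlab] at h
    simp only at h
    split_ifs at h with h1 h2
    · simp at h
    · exact ⟨h1, h2⟩
    · simp at h
  have l2 : ∀ s t, lab s t = 2 → ¬ low s t ∧ ¬ P s t := by
    intro s t h
    rw [hlab] at h
    simp only at h
    split_ifs at h with h1 h2
    · simp at h
    · simp at h
    · exact ⟨h1, h2⟩
  have low0 : ∀ s t, low s t → lab s t = 0 := by
    intro s t h
    rw [hlab]
    simp only
    rw [if_pos h]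
  -- no tricoloured triple
  have tri : ∀ s1 t1 s2 t2 s3 t3 : ℕ, s1 ≤ n → t1 ≤ n → s2 ≤ n → t2 ≤ n → s3 ≤ n → t3 ≤ n →
      (s1 ≤ s2 + 1 ∧ s2 ≤ s1 + 1 ∧ t1 ≤ t2 + 1 ∧ t2 ≤ t1 + 1) →
      (s1 ≤ s3 + 1 ∧ s3 ≤ s1 + 1 ∧ t1 ≤ t3 + 1 ∧ t3 ≤ t1 + 1) →
      (s2 ≤ s3 + 1 ∧ s3 ≤ s2 + 1 ∧ t2 ≤ t3 + 1 ∧ t3 ≤ t2 + 1) →
      eV (lab s1 t1) (lab s2 t2) + eV (lab s2 t2) (lab s3 t3) + eV (lab s1 t1) (lab s3 t3) = 0 := by
    intro s1 t1 s2 t2 s3 t3 b1 b2 b3 b4 b5 b6 a1 a2 a3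
    rcases eV_tri (lab s1 t1) (lab s2 t2) (lab s3 t3) with h | h | h | h | h | h | h
    · exact h
    · exact absurd ⟨s1, t1, s2, t2, s3, t3, b1, b2, b3, b4, b5, b6, a1, a2, a3, l0 _ _ h.1,
        l1 _ _ h.2.1, l2 _ _ h.2.2⟩ hcon
    · exact absurd ⟨s1, t1, s3, t3, s2, t2, b1, b2, b5, b6, b3, b4, a2, a1,
        ⟨a3.2.1, a3.1, a3.2.2.2, a3.2.2.1⟩, l0 _ _ h.1, l1 _ _ h.2.2, l2 _ _ h.2.1⟩ hcon
    · exact absurd ⟨s2, t2, s1, t1, s3, t3, b3, b4, b1, b2, b5, b6,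
        ⟨a1.2.1, a1.1, a1.2.2.2, a1.2.2.1⟩, a3, a2, l0 _ _ h.2.1, l1 _ _ h.1, l2 _ _ h.2.2⟩ hcon
    · exact absurd ⟨s3, t3, s1, t1, s2, t2, b5, b6, b1, b2, b3, b4,
        ⟨a2.2.1, a2.1, a2.2.2.2, a2.2.2.1⟩, ⟨a3.2.1, a3.1, a3.2.2.2, a3.2.2.1⟩, a1,
        l0 _ _ h.2.2, l1 _ _ h.1, l2 _ _ h.2.1⟩ hcon
    · exact absurd ⟨s2, t2, s3, t3, s1, t1, b3, b4, b5, b6, b1, b2, a3,
        ⟨a1.2.1, a1.1, a1.2.2.2, a1.2.2.1⟩, ⟨a2.2.1, a2.1, a2.2.2.2, a2.2.2.1⟩,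
        l0 _ _ h.2.1, l1 _ _ h.2.2, l2 _ _ h.1⟩ hcon
    · exact absurd ⟨s3, t3, s2, t2, s1, t1, b5, b6, b3, b4, b1, b2,
        ⟨a3.2.1, a3.1, a3.2.2.2, a3.2.2.1⟩, ⟨a2.2.1, a2.1, a2.2.2.2, a2.2.2.1⟩,
        ⟨a1.2.1, a1.1, a1.2.2.2, a1.2.2.1⟩, l0 _ _ h.2.2, l1 _ _ h.2.1, l2 _ _ h.1⟩ hcon
  obtain ⟨hh, hhh⟩ : ∃ hh : ℕ → ℕ → ZMod 2, hh = fun s t => eV (lab s t) (lab (s + 1) t) :=
    ⟨_, rfl⟩
  obtain ⟨vv, hvv⟩ : ∃ vv : ℕ → ℕ → ZMod 2, vv = fun s t => eV (lab s t) (lab s (t + 1)) :=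
    ⟨_, rfl⟩
  have hsq : ∀ s < n, ∀ t < n, hh s (t + 1) - hh s t = vv (s + 1) t - vv s t := by
    intro s hs t ht
    have h1 := tri s t (s + 1) t (s + 1) (t + 1) (by omega) (by omega) (by omega) (by omega)
      (by omega) (by omega) (by omega) (by omega) (by omega)
    have h2 := tri s t s (t + 1) (s + 1) (t + 1) (by omega) (by omega) (by omega) (by omega)
      (by omega) (by omega) (by omega) (by omega) (by omega)
    rw [hhh, hvv]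
    simp only
    linear_combination h2 - h1
  have hrow : ∀ t ≤ n, ∑ s ∈ Finset.range n, hh s t = 0 := by
    intro t
    induction t with
    | zero =>
      intro _
      refine Finset.sum_eq_zero fun s hs => ?_
      rw [Finset.mem_range] at hs
      rw [hhh]
      simp only
      rw [low0 s 0 (hbot s hs.le), low0 (s + 1) 0 (hbot (s + 1) hs)]
      rfl
    | succ t ih =>
      intro ht
      have h1 : ∑ s ∈ Finset.range n, (hh s (t + 1) - hh s t) =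
          ∑ s ∈ Finset.range n, (vv (s + 1) t - vv s t) :=
        Finset.sum_congr rfl fun s hs => hsq s (Finset.mem_range.1 hs) t (by omega)
      rw [Finset.sum_range_sub (fun s => vv s t), Finset.sum_sub_distrib, ih (by omega)] at h1
      have h2 : vv n t = 0 := by
        rw [hvv]
        simp only
        rw [low0 n t (hright t (by omega))]
        have : ∀ a : Fin 3, eV 0 a = 0 := by decide
        exact this _
      have h3 : vv 0 t = 0 := by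
        rw [hvv]
        simp only
        have h4 : ∀ u ≤ n, lab 0 u ≠ 2 := by
          intro u hu h
          obtain ⟨g1, g2⟩ := l2 _ _ h
          exact g2 (hleft u hu g1)
        have h5 : ∀ a b : Fin 3, a ≠ 2 → b ≠ 2 → eV a b = 0 := by decide
        exact h5 _ _ (h4 t (by omega)) (h4 (t + 1) ht)
      rw [h2, h3] at h1
      linear_combination h1
  have htopn := hrow n le_rfl
  obtain ⟨m, rfl⟩ : ∃ m, n = m + 1 := ⟨n - 1, by omega⟩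
  rw [Finset.sum_range_succ'] at htopn
  have h1 : ∑ s ∈ Finset.range m, hh (s + 1) (m + 1) = 0 := by
    refine Finset.sum_eq_zero fun s hs => ?_
    rw [Finset.mem_range] at hs
    rw [hhh]
    simp only
    have h4 : ∀ u ≤ m + 1, 1 ≤ u → lab u (m + 1) ≠ 1 := by
      intro u hu hu1 h
      obtain ⟨g1, g2⟩ := l1 _ _ h
      exact htop u hu hu1 g1 g2
    have h5 : ∀ a b : Fin 3, a ≠ 1 → b ≠ 1 → eV a b = 0 := by decide
    exact h5 _ _ (h4 (s + 1) (by omega) (by omega)) (h4 (s + 1 + 1) (by omega) (by omega))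
  rw [h1, zero_add, hhh] at htopn
  simp only at htopn
  have e0 : lab 0 (m + 1) = 1 := by
    rw [hlab]
    simp only
    rw [if_neg hc0, if_pos (hleft _ le_rfl hc0)]
  have e1 : lab (0 + 1) (m + 1) = 2 := by
    rw [hlab]
    simp only
    rw [if_neg hc1, if_neg (htop 1 (by omega) le_rfl hc1)]
  rw [e0, e1] at htopn
  exact absurd htopn (by decide)

end HD21
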