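import Mathlib
import Pool.Agent.HD21.Chain
import Pool.Agent.HD21.Sperner
import Pool.Agent.HD21.DegTwo

/-!
Linked hubs along a chain, for highway dimension 3.
-/

namespace HD21

open SimpleGraph

/-- `S` separates all pairs at distance in `(ρ, 2ρ]`, and every ball of radius `2ρ` contains at
most three of its points. -/
structure Hub3 {V : Type*} [DecidableEq V] (d : V → V → ℝ) (ρ : ℝ) (S : Finset V) : Prop where
  hit : ∀ u v, ρ < d u v → d u v ≤ 2 * ρ → ∃ c ∈ S, d u c + d c v = d u v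
  sparse : ∀ v, (S.filter (fun c => d v c ≤ 2 * ρ)).card ≤ 3

variable {V : Type*} [DecidableEq V]

/-- `c` separates `x s` and `x t` up to an error `δ`. -/
def Med (d : V → V → ℝ) (x : ℕ → V) (δ : ℝ) (s t : ℕ) (c : V) : Prop :=
  d (x s) c + d c (x t) ≤ d (x s) (x t) + δ

/-- The distance of `x s` and `x t` is just above `ρ`. -/
def Band (d : V → V → ℝ) (x : ℕ → V) (ρ w : ℝ) (m s t : ℕ) : Prop :=
  s ≤ m ∧ t ≤ m ∧ ρ < d (x s) (x t) ∧ d (x s) (x t) ≤ ρ + 3 * w

/-- Two hubs are linked if they separate neighbouring pairs of the band. -/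
def Lk (d : V → V → ℝ) (x : ℕ → V) (ρ w δ : ℝ) (m : ℕ) (S : Finset V) (c e : V) : Prop :=
  c ≠ e ∧ c ∈ S ∧ e ∈ S ∧ ∃ s t s' t', Band d x ρ w m s t ∧ Band d x ρ w m s' t' ∧
    (s ≤ s' + 1 ∧ s' ≤ s + 1) ∧ (t ≤ t' + 1 ∧ t' ≤ t + 1) ∧ Med d x δ s t c ∧ Med d x δ s' t' e

/-- The graph of linked hubs. -/
def LG (d : V → V → ℝ) (x : ℕ → V) (ρ w δ : ℝ) (m : ℕ) (S : Finset V) : SimpleGraph V where
  Adj c e := Lk d x ρ w δ m S c e
  symm := ⟨fun c e h => by
    obtain ⟨h1, h2, h3, s, t, s', t', h4, h5, h6, h7, h8, h9⟩ := h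
    exact ⟨h1.symm, h3, h2, s', t', s, t, h5, h4, ⟨h6.2, h6.1⟩, ⟨h7.2, h7.1⟩, h9, h8⟩⟩
  loopless := ⟨fun c h => h.1 rfl⟩

section

variable {d : V → V → ℝ} {x : ℕ → V} {ρ w δ : ℝ} {m : ℕ} {S : Finset V}

theorem near_le (hd : IsPM d) (hw : 0 ≤ w) (hx : ∀ i < m, d (x i) (x (i + 1)) ≤ w) {s s' : ℕ}
    (h1 : s ≤ s' + 1) (h2 : s' ≤ s + 1) (hs : s ≤ m) (hs' : s' ≤ m) : d (x s) (x s') ≤ w := by
  rcases Nat.lt_trichotomy s s' with h | h | h
  · have h3 : s' = s + 1 := by omega
    rw [h3]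
    exact hx s (by omega)
  · rw [h, hd.self]
    exact hw
  · have h3 : s = s' + 1 := by omega
    rw [h3, hd.symm]
    exact hx s' (by omega)

theorem link_le (hd : IsPM d) (hw : 0 ≤ w) (hx : ∀ i < m, d (x i) (x (i + 1)) ≤ w) {c e : V}
    (h : Lk d x ρ w δ m S c e) : d c e ≤ ρ + (4 * w + δ) := by
  obtain ⟨h1, h2, h3, s, t, s', t', h4, h5, h6, h7, h8, h9⟩ := h
  have k1 := near_le hd hw hx h6.1 h6.2 h4.1 h5.1
  have k2 := near_le hd hw hx h7.1 h7.2 h4.2.1 h5.2.1
  have k3 := hd.tri c (x s) (x s')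
  have k4 := hd.tri c (x s') e
  have k5 := hd.tri c (x t) (x t')
  have k6 := hd.tri c (x t') e
  have k7 := h4.2.2.2
  have k8 := h5.2.2.2
  unfold Med at h8 h9
  rw [hd.symm c (x s)] at k3
  rw [hd.symm (x t') e] at k6
  linarith

theorem deg_two (hd : IsPM d) (hw : 0 ≤ w) (hx : ∀ i < m, d (x i) (x (i + 1)) ≤ w)
    (hS : Hub3 d ρ S) (hρ : 4 * w + δ ≤ ρ) (hρ0 : 0 ≤ ρ) : DegLETwo (LG d x ρ w δ m S) := by
  intro v a b c ha hb hc
  by_contra hno
  push Not at hno
  obtain ⟨hab, hac, hbc⟩ := hno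
  have h1 := link_le hd hw hx ha
  have h2 := link_le hd hw hx hb
  have h3 := link_le hd hw hx hc
  have hsub : ({v, a, b, c} : Finset V) ⊆ S.filter (fun c => d v c ≤ 2 * ρ) := by
    intro y hy
    simp only [Finset.mem_insert, Finset.mem_singleton] at hy
    rw [Finset.mem_filter]
    rcases hy with rfl | rfl | rfl | rfl
    · exact ⟨ha.2.1, by rw [hd.self]; linarith⟩
    · exact ⟨ha.2.2.1, by linarith⟩
    · exact ⟨hb.2.2.1, by linarith⟩
    · exact ⟨hc.2.2.1, by linarith⟩
  have h4 : ({v, a, b, c} : Finset V).card = 4 := by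
    rw [Finset.card_insert_of_notMem, Finset.card_insert_of_notMem, Finset.card_insert_of_notMem,
      Finset.card_singleton]
    · simpa using hbc
    · simp only [Finset.mem_insert, Finset.mem_singleton, not_or]
      exact ⟨hab, hac⟩
    · simp only [Finset.mem_insert, Finset.mem_singleton, not_or]
      exact ⟨ha.1, hb.1, hc.1⟩
  have h5 := Finset.card_le_card hsub
  have h6 := hS.sparse v
  omega

/-- From the time `T` on the linked hubs reach the end of the chain. -/
theorem reach_end (hd : IsPM d) (hw : 0 < w) (hδ : 0 ≤ δ)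
    (hx : ∀ i < m, d (x i) (x (i + 1)) ≤ w) (hS : Hub3 d ρ S) (hρ : 3 * w ≤ ρ) (T : ℕ)
    (hT : T ≤ m) (A : V → Prop)
    (hA : ∀ t, T ≤ t → Band d x ρ w m T t → ∃ c, A c ∧ c ∈ S ∧ Med d x δ T t c)
    (hfar : ρ + w < d (x T) (x m)) :
    ∃ a f, A a ∧ f ∈ S ∧ (LG d x ρ w δ m S).Reachable a f ∧
      ∃ s, T ≤ s ∧ Band d x ρ w m s m ∧ Med d x δ s m f := by
  classical
  by_contra hcon
  push Not at hcon
  have hn : 1 < m - T := by
    by_contra h
    have h1 : m = T ∨ m = T + 1 := by omega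
    rcases h1 with h1 | h1
    · rw [h1, hd.self] at hfar
      linarith
    · have := hx T (by omega)
      rw [← h1] at this
      linarith
  obtain ⟨s1, t1, s2, t2, s3, t3, a1, a2, a3, a4, a5, a6, n12, n13, n23, hlow, hPc, hQc⟩ :=
    grid_crossing (m - T) (by omega)
    (fun a b => b ≤ a ∨ d (x (T + a)) (x (T + b)) ≤ ρ)
    (fun a b => a = 0 ∨ ∃ p c, A p ∧ c ∈ S ∧ (LG d x ρ w δ m S).Reachable p c ∧
      Band d x ρ w m (T + a) (T + b) ∧ Med d x δ (T + a) (T + b) c)
    (fun t ht => Or.inl ht) (fun s _ => Or.inl (Nat.zero_le _))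
    (fun t _ _ => Or.inl rfl)
    (fun s hs hs1 _ => by
      rintro (h | ⟨p, c, hp, hc, hpc, hB, hM⟩)
      · omega
      · have e1 : T + (m - T) = m := by omega
        rw [e1] at hB hM
        exact hcon p c hp hc hpc (T + s) (by omega) hB hM)
    (by
      rintro (h | h)
      · omega
      · have e1 : T + (m - T) = m := by omega
        rw [e1, Nat.add_zero] at h
        linarith)
    (by
      rintro (h | h)
      · omega
      · have e1 : T + (m - T) = m := by omega
        rw [e1] at h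
        have h1 := hx T (by omega)
        have h2 := hd.tri (x T) (x (T + 1)) (x m)
        linarith)

  -- the two high cells are in the band
  have hband : ∀ a b, a ≤ m - T → b ≤ m - T → s1 ≤ a + 1 → a ≤ s1 + 1 → t1 ≤ b + 1 →
      b ≤ t1 + 1 → ¬ (b ≤ a ∨ d (x (T + a)) (x (T + b)) ≤ ρ) →
      Band d x ρ w m (T + a) (T + b) := by
    intro a b ha hb h1 h2 h3 h4 hno
    push Not at hno
    have k1 := near_le hd hw.le hx (s := T + s1) (s' := T + a) (by omega) (by omega) (by omega)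
      (by omega)
    have k2 := near_le hd hw.le hx (s := T + t1) (s' := T + b) (by omega) (by omega) (by omega)
      (by omega)
    refine ⟨by omega, by omega, hno.2, ?_⟩
    rcases hlow with hl | hl
    · -- near the diagonal: impossible
      have h5 : b ≤ a + 2 := by omega
      have h6 : d (x (T + a)) (x (T + b)) ≤ w + w := by
        have k3 := near_le hd hw.le hx (s := T + a) (s' := T + (a + 1)) (by omega) (by omega)
          (by omega) (by omega)
        have k4 := near_le hd hw.le hx (s := T + (a + 1)) (s' := T + b) (by omega) (by omega)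
          (by omega) (by omega)
        have k5 := hd.tri (x (T + a)) (x (T + (a + 1))) (x (T + b))
        linarith
      linarith
    · have k3 := hd.tri (x (T + a)) (x (T + s1)) (x (T + b))
      have k4 := hd.tri (x (T + s1)) (x (T + t1)) (x (T + b))
      rw [hd.symm (x (T + a)) (x (T + s1))] at k3
      linarith
  have hB2 := hband s2 t2 a3 a4 n12.1 n12.2.1 n12.2.2.1 n12.2.2.2 hPc.1
  have hB3 := hband s3 t3 a5 a6 n13.1 n13.2.1 n13.2.2.1 n13.2.2.2 hQc.1
  -- the good hub of the first cell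
  obtain ⟨p, c, hp, hc, hpc, hMc⟩ : ∃ p c, A p ∧ c ∈ S ∧ (LG d x ρ w δ m S).Reachable p c ∧
      Med d x δ (T + s2) (T + t2) c := by
    rcases hPc.2 with h | ⟨p, c, hp, hc, hpc, -, hM⟩
    · subst h
      obtain ⟨c, hc1, hc2, hc3⟩ := hA (T + t2) (by omega) (by simpa using hB2)
      exact ⟨c, c, hc1, hc2, Reachable.refl _, by simpa using hc3⟩
    · exact ⟨p, c, hp, hc, hpc, hM⟩
  obtain ⟨e, he, he'⟩ := hS.hit (x (T + s3)) (x (T + t3)) hB3.2.2.1 (by
    have := hB3.2.2.2
    linarith)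
  have hMe : Med d x δ (T + s3) (T + t3) e := by
    unfold Med
    linarith
  refine hQc.2 (Or.inr ⟨p, e, hp, he, ?_, hB3, hMe⟩)
  by_cases hce : c = e
  · rw [← hce]
    exact hpc
  · refine hpc.trans (SimpleGraph.Adj.reachable ?_)
    exact ⟨hce, hc, he, T + s2, T + t2, T + s3, T + t3, hB2, hB3, ⟨by omega, by omega⟩,
      ⟨by omega, by omega⟩, hMc, hMe⟩

/-- The graph of linked hubs of the reversed chain. -/
theorem LG_reverse (hd : IsPM d) :
    LG d (fun i => x (m - i)) ρ w δ m S = LG d x ρ w δ m S := by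
  ext c e
  constructor
  · rintro ⟨h1, h2, h3, s, t, s', t', h4, h5, h6, h7, h8, h9⟩
    refine ⟨h1, h2, h3, m - s, m - t, m - s', m - t', ?_, ?_, ?_, ?_, h8, h9⟩
    · exact ⟨by omega, by omega, h4.2.2⟩
    · exact ⟨by omega, by omega, h5.2.2⟩
    · have := h4.1; have := h5.1; omega
    · have := h4.2.1; have := h5.2.1; omega
  · rintro ⟨h1, h2, h3, s, t, s', t', h4, h5, h6, h7, h8, h9⟩
    have e1 : m - (m - s) = s := by have := h4.1; omega
    have e2 : m - (m - t) = t := by have := h4.2.1; omega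
    have e3 : m - (m - s') = s' := by have := h5.1; omega
    have e4 : m - (m - t') = t' := by have := h5.2.1; omega
    refine ⟨h1, h2, h3, m - s, m - t, m - s', m - t', ?_, ?_, ?_, ?_, ?_, ?_⟩
    · refine ⟨by omega, by omega, ?_⟩
      simp only [e1, e2]
      exact h4.2.2
    · refine ⟨by omega, by omega, ?_⟩
      simp only [e3, e4]
      exact h5.2.2
    · have := h4.1; have := h5.1; omega
    · have := h4.2.1; have := h5.2.1; omega
    · unfold Med
      simp only [e1, e2]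
      exact h8
    · unfold Med
      simp only [e3, e4]
      exact h9

/-- Back from the time `T` the linked hubs reach the start of the chain. -/
theorem reach_start (hd : IsPM d) (hw : 0 < w) (hδ : 0 ≤ δ)
    (hx : ∀ i < m, d (x i) (x (i + 1)) ≤ w) (hS : Hub3 d ρ S) (hρ : 3 * w ≤ ρ) (T : ℕ)
    (hT : T ≤ m) (A : V → Prop)
    (hA : ∀ t, t ≤ T → Band d x ρ w m T t → ∃ c, A c ∧ c ∈ S ∧ Med d x δ T t c)
    (hfar : ρ + w < d (x T) (x 0)) :
    ∃ a f, A a ∧ f ∈ S ∧ (LG d x ρ w δ m S).Reachable a f ∧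
      ∃ s, s ≤ T ∧ Band d x ρ w m s 0 ∧ Med d x δ s 0 f := by
  obtain ⟨a, f, h1, h2, h3, s, h4, h5, h6⟩ := reach_end (x := fun i => x (m - i)) (m := m)
    (T := m - T) hd hw hδ (by
      intro i hi
      have e1 : m - i = (m - (i + 1)) + 1 := by omega
      simp only [e1]
      rw [hd.symm]
      exact hx _ (by omega)) hS hρ (by omega) A (by
      intro t ht hB
      have e1 : m - (m - T) = T := by omega
      obtain ⟨c, hc1, hc2, hc3⟩ := hA (m - t) (by omega) (by
        refine ⟨hT, by omega, ?_⟩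
        have := hB.2.2
        simp only [e1] at this
        exact this)
      refine ⟨c, hc1, hc2, ?_⟩
      unfold Med
      simp only [e1]
      exact hc3) (by
      have e1 : m - (m - T) = T := by omega
      simp only [e1, Nat.sub_self]
      exact hfar)
  rw [LG_reverse hd] at h3
  refine ⟨a, f, h1, h2, h3, m - s, by omega, ?_, ?_⟩
  · refine ⟨by omega, by omega, ?_⟩
    have := h5.2.2
    simp only [Nat.sub_self] at this
    exact this
  · unfold Med at h6 ⊢
    simp only [Nat.sub_self] at h6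
    exact h6

end

end HD21
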