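import Mathlib
import Pool.Agent.HD21.Link

/-!
Local structure along a path of linked hubs.
-/

namespace HD21

open SimpleGraph

section

variable {V : Type*} [DecidableEq V] {d : V → V → ℝ} {x : ℕ → V} {ρ w δ : ℝ} {m : ℕ}
  {S : Finset V}

theorem four_hubs (hS : Hub3 d ρ S) (v a b c e : V) (ha : a ∈ S) (hb : b ∈ S) (hc : c ∈ S)
    (he : e ∈ S) (hab : a ≠ b) (hac : a ≠ c) (hae : a ≠ e) (hbc : b ≠ c) (hbe : b ≠ e)
    (hce : c ≠ e) (ha' : d v a ≤ 2 * ρ) (hb' : d v b ≤ 2 * ρ) (hc' : d v c ≤ 2 * ρ)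
    (he' : d v e ≤ 2 * ρ) : False := by
  have hsub : ({a, b, c, e} : Finset V) ⊆ S.filter (fun c => d v c ≤ 2 * ρ) := by
    intro y hy
    simp only [Finset.mem_insert, Finset.mem_singleton] at hy
    rw [Finset.mem_filter]
    rcases hy with rfl | rfl | rfl | rfl
    · exact ⟨ha, ha'⟩
    · exact ⟨hb, hb'⟩
    · exact ⟨hc, hc'⟩
    · exact ⟨he, he'⟩
  have h4 : ({a, b, c, e} : Finset V).card = 4 := by
    rw [Finset.card_insert_of_notMem, Finset.card_insert_of_notMem, Finset.card_insert_of_notMem,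
      Finset.card_singleton]
    · simpa using hce
    · simp only [Finset.mem_insert, Finset.mem_singleton, not_or]
      exact ⟨hbc, hbe⟩
    · simp only [Finset.mem_insert, Finset.mem_singleton, not_or]
      exact ⟨hab, hac, hae⟩
  have h5 := Finset.card_le_card hsub
  have h6 := hS.sparse v
  omega

variable {u v : V} (p : (LG d x ρ w δ m S).Walk u v)

theorem pv_ne (hp : p.IsPath) {i j : ℕ} (hi : i ≤ p.length) (hj : j ≤ p.length) (hij : i ≠ j) :
    p.getVert i ≠ p.getVert j := fun h => hij (hp.getVert_injOn hi hj h)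

theorem pv_adj {i : ℕ} (hi : i < p.length) :
    Lk d x ρ w δ m S (p.getVert i) (p.getVert (i + 1)) := p.adj_getVert_succ hi

theorem pv_mem {i : ℕ} (hi : i ≤ p.length) (hL : 0 < p.length) : p.getVert i ∈ S := by
  rcases Nat.lt_or_ge i p.length with h | h
  · exact (pv_adj p h).2.1
  · have h1 : i = (p.length - 1) + 1 := by omega
    rw [h1]
    exact (pv_adj p (by omega)).2.2.1

theorem pv_nbhd (hd : IsPM d) (hw : 0 ≤ w) (hx : ∀ i < m, d (x i) (x (i + 1)) ≤ w)
    (hS : Hub3 d ρ S) (hρ : 4 * w + δ ≤ ρ) (hρ0 : 0 ≤ ρ) (hp : p.IsPath) {i : ℕ} (hi : 1 ≤ i)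
    (hi' : i < p.length) {c : V} (hc : c ∈ S) (hdc : d (p.getVert i) c ≤ 2 * ρ) :
    c = p.getVert (i - 1) ∨ c = p.getVert i ∨ c = p.getVert (i + 1) := by
  by_contra hno
  push Not at hno
  obtain ⟨h1, h2, h3⟩ := hno
  have l1 := link_le hd hw hx (pv_adj p (show i - 1 < p.length by omega))
  rw [Nat.sub_add_cancel hi, hd.symm] at l1
  have l2 := link_le hd hw hx (pv_adj p hi')
  exact four_hubs hS (p.getVert i) (p.getVert (i - 1)) (p.getVert i) (p.getVert (i + 1)) c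
    (pv_mem p (by omega) (by omega)) (pv_mem p (by omega) (by omega))
    (pv_mem p (by omega) (by omega)) hc
    (pv_ne p hp (by omega) (by omega) (by omega)) (pv_ne p hp (by omega) (by omega) (by omega))
    (Ne.symm h1) (pv_ne p hp (by omega) (by omega) (by omega)) (Ne.symm h2) (Ne.symm h3)
    (by linarith) (by rw [hd.self]; linarith) (by linarith) hdc

theorem pv_far (hd : IsPM d) (hw : 0 ≤ w) (hx : ∀ i < m, d (x i) (x (i + 1)) ≤ w)
    (hS : Hub3 d ρ S) (hρ : 4 * w + δ ≤ ρ) (hρ0 : 0 ≤ ρ) (hp : p.IsPath) {i j : ℕ}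
    (hij : i + 2 ≤ j) (hj : j ≤ p.length) (h : 1 ≤ i ∨ j < p.length) :
    2 * ρ < d (p.getVert i) (p.getVert j) := by
  by_contra hcon
  push Not at hcon
  rcases h with h | h
  · rcases pv_nbhd p hd hw hx hS hρ hρ0 hp h (by omega) (pv_mem p hj (by omega)) hcon with
      h1 | h1 | h1
    · exact pv_ne p hp (by omega) (by omega) (by omega) h1
    · exact pv_ne p hp (by omega) (by omega) (by omega) h1
    · exact pv_ne p hp (by omega) (by omega) (by omega) h1
  · rw [hd.symm] at hcon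
    rcases pv_nbhd p hd hw hx hS hρ hρ0 hp (show 1 ≤ j by omega) h
      (pv_mem p (show i ≤ p.length by omega) (by omega)) hcon with h1 | h1 | h1
    · exact pv_ne p hp (by omega) (by omega) (by omega) h1
    · exact pv_ne p hp (by omega) (by omega) (by omega) h1
    · exact pv_ne p hp (by omega) (by omega) (by omega) h1

theorem pv_upper (hd : IsPM d) (hw : 0 ≤ w) (hx : ∀ i < m, d (x i) (x (i + 1)) ≤ w) {i : ℕ}
    (hi : i < p.length) : d (p.getVert i) (p.getVert (i + 1)) ≤ ρ + (4 * w + δ) :=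
  link_le hd hw hx (pv_adj p hi)

theorem pv_lower (hd : IsPM d) (hw : 0 ≤ w) (hx : ∀ i < m, d (x i) (x (i + 1)) ≤ w)
    (hS : Hub3 d ρ S) (hρ : 4 * w + δ ≤ ρ) (hρ0 : 0 ≤ ρ) (hp : p.IsPath) {i : ℕ}
    (hi : i + 2 ≤ p.length) (h : 1 ≤ i ∨ i + 2 < p.length) :
    ρ - (4 * w + δ) < d (p.getVert i) (p.getVert (i + 1)) := by
  have h1 := pv_far p hd hw hx hS hρ hρ0 hp (le_refl (i + 2)) hi h
  have h2 := pv_upper p hd hw hx (show i + 1 < p.length by omega)
  have h3 := hd.tri (p.getVert i) (p.getVert (i + 1)) (p.getVert (i + 2))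
  have h4 : i + 1 + 1 = i + 2 := rfl
  rw [h4] at h2
  linarith

theorem pv_zone (hd : IsPM d) (hw : 0 ≤ w) (hx : ∀ i < m, d (x i) (x (i + 1)) ≤ w)
    (hS : Hub3 d ρ S) (hδ : 0 ≤ δ) (hp : p.IsPath) {i : ℕ} (hi : 1 ≤ i)
    (hi' : i + 2 ≤ p.length) (y : V) :
    ¬ (d y (p.getVert i) ≤ ρ - (4 * w + δ) ∧ d y (p.getVert (i + 1)) ≤ ρ - (4 * w + δ)) := by
  rintro ⟨h1, h2⟩
  have l1 := link_le hd hw hx (pv_adj p (show i - 1 < p.length by omega))
  rw [Nat.sub_add_cancel hi, hd.symm] at l1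
  have l2 := link_le hd hw hx (pv_adj p (show i + 1 < p.length by omega))
  have t1 := hd.tri y (p.getVert i) (p.getVert (i - 1))
  have t2 := hd.tri y (p.getVert (i + 1)) (p.getVert (i + 1 + 1))
  have n1 := hd.nonneg y (p.getVert i)
  exact four_hubs hS y (p.getVert (i - 1)) (p.getVert i) (p.getVert (i + 1))
    (p.getVert (i + 1 + 1))
    (pv_mem p (by omega) (by omega)) (pv_mem p (by omega) (by omega))
    (pv_mem p (by omega) (by omega)) (pv_mem p (by omega) (by omega))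
    (pv_ne p hp (by omega) (by omega) (by omega)) (pv_ne p hp (by omega) (by omega) (by omega))
    (pv_ne p hp (by omega) (by omega) (by omega)) (pv_ne p hp (by omega) (by omega) (by omega))
    (pv_ne p hp (by omega) (by omega) (by omega)) (pv_ne p hp (by omega) (by omega) (by omega))
    (by linarith) (by linarith) (by linarith) (by linarith)

theorem pv_curve (hd : IsPM d) (hw : 0 ≤ w) (hx : ∀ i < m, d (x i) (x (i + 1)) ≤ w)
    (hS : Hub3 d ρ S) (hδ : 0 ≤ δ) (hρ : 4 * w + δ ≤ ρ) (hρ0 : 0 ≤ ρ) (hp : p.IsPath) {i : ℕ}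
    (hi : 1 ≤ i) (hi' : i + 2 ≤ p.length) :
    ∃ s ≤ m, d (x s) (p.getVert i) ≤ 16 * w + 4 * δ := by
  obtain ⟨h1, h2, h3, s, t, s', t', h4, h5, h6, h7, h8, h9⟩ :=
    pv_adj p (show i < p.length by omega)
  have k1 := near_le hd hw hx h6.1 h6.2 h4.1 h5.1
  have k2 := near_le hd hw hx h7.1 h7.2 h4.2.1 h5.2.1
  have k7 := h4.2.2.2
  have k8 := h5.2.2.2
  unfold Med at h8 h9
  have hlow := pv_lower p hd hw hx hS hρ hρ0 hp hi' (Or.inl hi)
  have hz := pv_zone p hd hw hx hS hδ hp hi hi' (x s)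
  set E := p.getVert i with hE
  set e1 := p.getVert (i + 1) with he1
  have t1 := hd.tri (x s) (x s') e1
  have t2 := hd.tri E (x t) e1
  have t3 := hd.tri (x t) (x t') e1
  have n1 := hd.nonneg (x s) E
  have n2 := hd.nonneg E (x t)
  have n3 := hd.nonneg (x s') e1
  have n4 := hd.nonneg e1 (x t')
  have c1 := hd.symm e1 (x t')
  by_cases ha : d (x s) E ≤ ρ - (4 * w + δ)
  · have hb : ρ - (4 * w + δ) < d (x s) e1 := by
      by_contra hcon
      exact hz ⟨ha, not_lt.mp hcon⟩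
    refine ⟨s, h4.1, ?_⟩
    linarith
  · push Not at ha
    refine ⟨t, h4.2.1, ?_⟩
    rw [hd.symm]
    linarith

end

end HD21
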