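import Mathlib
import Pool.Agent.HD21.Chain

/-!
The final contradiction for highway dimension 3: three scales do not fit together.
-/

namespace HD21

/-- Three scales `100000 w`, `90000 w` and `51000 w` do not fit together.
Proof. A hub `a ∈ S1` separates `c1, c3` (distance in `(102000 w, 102104 w]`). Since `d c1 a0 ≤
51060 w`, either `d c1 a ≤ 99996 w`, then `a = a0` by `hN1` and the zones, and `d c0 c3` is too
small; or `d a c3 < 2108 w` and `a ∈ {am, ap}` by `hN1`; call it `b`. A hub `E' ∈ SB` separates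
`a0, b`; by the zone it is within `8 w` of `a0` or of `b`. If it is near `a0`, a hub `E2 ∈ SB`
separates `c1, c3`; if `99996 w < d E2 a0` then `d E2 a0 ≤ 155280 w`, contradiction to `hB`; if
`99996 w < d E2 b` then `46716 w ≤ d E2 E' ≤ 55284 w`, contradiction to `hB`. If it is near `b`,
use a hub `E2 ∈ SB` that separates `c0, c2` in the same way. -/
theorem numeric3 {V : Type*} {d : V → V → ℝ} (hd : IsPM d) {w : ℝ} (hw : 0 < w)
    (S1 SB : Set V)
    (hit1 : ∀ u v, 100000 * w < d u v → d u v ≤ 200000 * w → ∃ c ∈ S1, d u c + d c v = d u v)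
    (hitB : ∀ u v, 90000 * w < d u v → d u v ≤ 180000 * w → ∃ c ∈ SB, d u c + d c v = d u v)
    (a0 am ap : V)
    (hN1 : ∀ c ∈ S1, d a0 c ≤ 200000 * w → c = am ∨ c = a0 ∨ c = ap)
    (hm : 99996 * w < d a0 am ∧ d a0 am ≤ 100004 * w)
    (hp : 99996 * w < d a0 ap ∧ d a0 ap ≤ 100004 * w)
    (zm : ∀ x, ¬ (d x a0 ≤ 99996 * w ∧ d x am ≤ 99996 * w))
    (zp : ∀ x, ¬ (d x a0 ≤ 99996 * w ∧ d x ap ≤ 99996 * w))
    (c0 c1 c2 c3 : V) (h00 : d c0 a0 ≤ 8 * w)
    (h01 : 50948 * w < d c0 c1 ∧ d c0 c1 ≤ 51052 * w)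
    (h12 : 50948 * w < d c1 c2 ∧ d c1 c2 ≤ 51052 * w)
    (h23 : 50948 * w < d c2 c3 ∧ d c2 c3 ≤ 51052 * w)
    (h02 : 102000 * w < d c0 c2) (h13 : 102000 * w < d c1 c3) (h03 : 102000 * w < d c0 c3)
    (hB : ∀ b, b = am ∨ b = a0 ∨ b = ap → ∀ E ∈ SB, d E b ≤ 8 * w → ∀ c ∈ SB,
      d E c ≤ 180000 * w → c = E ∨ (89948 * w ≤ d E c ∧ d E c ≤ 90052 * w)) : False := by
  obtain ⟨h01l, h01u⟩ := h01
  obtain ⟨h12l, h12u⟩ := h12
  obtain ⟨h23l, h23u⟩ := h23
  -- distances of `c1` to `a0`
  have e1 : d c1 a0 ≤ 51060 * w := by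
    have := hd.tri c1 c0 a0
    rw [hd.symm c1 c0] at this
    linarith
  have e1' : 50940 * w < d c1 a0 := by
    have := hd.tri c0 a0 c1
    rw [hd.symm a0 c1] at this
    linarith
  have h13u : d c1 c3 ≤ 102104 * w := by
    have := hd.tri c1 c2 c3
    linarith
  have h02u : d c0 c2 ≤ 102104 * w := by
    have := hd.tri c0 c1 c2
    linarith
  obtain ⟨a, ha, hac⟩ := hit1 c1 c3 (by linarith) (by linarith)
  have na1 := hd.nonneg c1 a
  have na3 := hd.nonneg a c3
  have ha0 : d a0 a ≤ 200000 * w := by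
    have := hd.tri a0 c1 a
    rw [hd.symm a0 c1] at this
    linarith
  -- the hub is not `a0`
  have hne : a ≠ a0 := by
    rintro rfl
    have := hd.tri c0 a c3
    linarith
  -- the main case, for either neighbour
  have key : ∀ b, (b = am ∨ b = a0 ∨ b = ap) → a = b →
      (99996 * w < d a0 b ∧ d a0 b ≤ 100004 * w) →
      (∀ x, ¬ (d x a0 ≤ 99996 * w ∧ d x b ≤ 99996 * w)) → False := by
    intro b hb hab hbd zb
    obtain ⟨hbl, hbu⟩ := hbd
    subst hab
    have hfar : 99996 * w < d c1 a := by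
      by_contra hc
      exact zb c1 ⟨by linarith, not_lt.mp hc⟩
    have hc3 : d a c3 < 2108 * w := by linarith
    have hsp : ∀ x, 99996 * w < d x a0 ∨ 99996 * w < d x a := by
      intro x
      by_contra hc
      push Not at hc
      exact zb x hc
    obtain ⟨E', hE', hEc⟩ := hitB a0 a (by linarith) (by linarith)
    have sE := hd.symm a0 E'
    have sEa := hd.symm a E'
    have s0 := hd.symm a0 a
    have s3 := hd.symm a c3
    rcases hsp E' with h | h
    · -- `E'` is near `a`
      have hEa : d E' a ≤ 8 * w := by linarith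
      have hBE := hB a hb E' hE' hEa
      obtain ⟨E2, hE2, hE2c⟩ := hitB c0 c2 (by linarith) (by linarith)
      have t1 := hd.tri c2 c3 a
      have t2 := hd.tri c2 a c3
      have t3 := hd.tri E' a E2
      have t4 := hd.tri E2 E' a
      have t5 := hd.tri E2 c2 a
      have t6 := hd.tri c2 E2 a
      have t7 := hd.tri E2 c0 a0
      have s1 := hd.symm E2 a
      have s2 := hd.symm E2 E'
      have s4 := hd.symm E2 c2
      have s5 := hd.symm E2 c0
      have n1 := hd.nonneg c0 E2
      have n2 := hd.nonneg E2 c2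
      rcases hsp E2 with h' | h'
      · rcases hBE E2 hE2 (by linarith) with h'' | ⟨h1, h2⟩
        · subst h''
          have := hd.self E2
          linarith
        · linarith
      · rcases hBE E2 hE2 (by linarith) with h'' | ⟨h1, h2⟩
        · subst h''
          have := hd.self E2
          linarith
        · linarith
    · -- `E'` is near `a0`
      have hEa : d E' a0 ≤ 8 * w := by linarith
      have hBE := hB a0 (Or.inr (Or.inl rfl)) E' hE' hEa
      obtain ⟨E2, hE2, hE2c⟩ := hitB c1 c3 (by linarith) (by linarith)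
      have t3 := hd.tri E' a0 E2
      have t4 := hd.tri E2 E' a0
      have t5 := hd.tri E2 c1 a0
      have t6 := hd.tri c1 E2 a0
      have t7 := hd.tri E2 c3 a
      have s1 := hd.symm E2 a0
      have s2 := hd.symm E2 E'
      have s4 := hd.symm E2 c1
      have n1 := hd.nonneg c1 E2
      have n2 := hd.nonneg E2 c3
      rcases hsp E2 with h' | h'
      · rcases hBE E2 hE2 (by linarith) with h'' | ⟨h1, h2⟩
        · subst h''
          have := hd.self E2
          linarith
        · linarith
      · rcases hBE E2 hE2 (by linarith) with h'' | ⟨h1, h2⟩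
        · subst h''
          have := hd.self E2
          linarith
        · linarith
  rcases hN1 a ha ha0 with h | h | h
  · exact key am (Or.inl rfl) h hm zm
  · exact hne h
  · exact key ap (Or.inr (Or.inr rfl)) h hp zp

end HD21
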