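import Mathlib
import Pool.Agent.HD21.Local3
import Pool.Agent.HD21.BadCount
import Pool.Agent.HD21.Numeric3

/-!
Chains are short in highway dimension 3.
-/

namespace HD21

open SimpleGraph

section

variable {V : Type*} [DecidableEq V] {d : V → V → ℝ} {x : ℕ → V} {ρ w δ : ℝ} {m : ℕ}
  {S : Finset V}

theorem walk_dist_le (hd : IsPM d) (hw : 0 ≤ w) (hx : ∀ i < m, d (x i) (x (i + 1)) ≤ w) {u v : V}
    (p : (LG d x ρ w δ m S).Walk u v) : d u v ≤ p.length * (ρ + (4 * w + δ)) := by
  induction p with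
  | nil => simp [hd.self]
  | @cons a b c h p ih =>
    have h1 := link_le hd hw hx h
    have h2 := hd.tri a b c
    rw [Walk.length_cons]
    push_cast
    have h3 : ((p.length : ℝ) + 1) * (ρ + (4 * w + δ)) =
      p.length * (ρ + (4 * w + δ)) + (ρ + (4 * w + δ)) := by ring
    linarith

omit [DecidableEq V] in
theorem triangle_closed {G : SimpleGraph V} (hG : DegLETwo G) {E e1 e2 : V} (h1 : G.Adj E e1)
    (h2 : G.Adj E e2) (h12 : G.Adj e1 e2) {y : V} (hy : G.Reachable E y) :
    y = E ∨ y = e1 ∨ y = e2 := by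
  have key : ∀ a b, (a = E ∨ a = e1 ∨ a = e2) → G.Adj a b → (b = E ∨ b = e1 ∨ b = e2) := by
    intro a b ha hab
    rcases ha with rfl | rfl | rfl
    · rcases hG a e1 e2 b h1 h2 hab with h | h | h
      · exact absurd h h12.ne
      · exact Or.inr (Or.inl h.symm)
      · exact Or.inr (Or.inr h.symm)
    · rcases hG a E e2 b h1.symm h12 hab with h | h | h
      · exact absurd h h2.ne
      · exact Or.inl h.symm
      · exact Or.inr (Or.inr h.symm)
    · rcases hG a E e1 b h2.symm h12.symm hab with h | h | h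
      · exact absurd h h1.ne
      · exact Or.inl h.symm
      · exact Or.inr (Or.inl h.symm)
  obtain ⟨p⟩ := hy
  have key2 : ∀ {a y : V} (p : G.Walk a y), (a = E ∨ a = e1 ∨ a = e2) →
      (y = E ∨ y = e1 ∨ y = e2) := by
    intro a y p
    induction p with
    | nil => intro h; exact h
    | cons h p ih => intro ha; exact ih (key _ _ ha h)
  exact key2 p (Or.inl rfl)

/-- A hub near the chain reaches hubs near both ends. -/
theorem hub_reach (hd : IsPM d) (hw : 0 < w) (hx : ∀ i < m, d (x i) (x (i + 1)) ≤ w)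
    (hS : Hub3 d ρ S) (hρ : 51000 * w ≤ ρ) (hδ : δ = 48 * w) {E : V} (hE : E ∈ S) {s : ℕ}
    (hs : s ≤ m) (hsE : d (x s) E ≤ 24 * w) :
    (ρ + w < d (x s) (x m) → ∃ f ∈ S, (LG d x ρ w δ m S).Reachable E f ∧
      d f (x m) ≤ ρ + 51 * w) ∧
    (ρ + w < d (x s) (x 0) → ∃ f ∈ S, (LG d x ρ w δ m S).Reachable E f ∧
      d f (x 0) ≤ ρ + 51 * w) := by
  constructor
  · intro hfar
    obtain ⟨a, f, h1, h2, h3, s', h4, h5, h6⟩ := reach_end (δ := δ) hd hw
      (by rw [hδ]; positivity) hx hS
      (by linarith) s hs (fun c => c = E) (by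
        intro t _ _
        refine ⟨E, rfl, hE, ?_⟩
        unfold Med
        have h1 := hd.tri E (x s) (x t)
        rw [hd.symm E (x s)] at h1
        rw [hδ]
        linarith) hfar
    subst h1
    refine ⟨f, h2, h3, ?_⟩
    unfold Med at h6
    have h7 := h5.2.2.2
    have h8 := hd.nonneg (x s') f
    rw [hδ] at h6
    linarith
  · intro hfar
    obtain ⟨a, f, h1, h2, h3, s', h4, h5, h6⟩ := reach_start (δ := δ) hd hw
      (by rw [hδ]; positivity) hx hS
      (by linarith) s hs (fun c => c = E) (by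
        intro t _ _
        refine ⟨E, rfl, hE, ?_⟩
        unfold Med
        have h1 := hd.tri E (x s) (x t)
        rw [hd.symm E (x s)] at h1
        rw [hδ]
        linarith) hfar
    subst h1
    refine ⟨f, h2, h3, ?_⟩
    unfold Med at h6
    have h7 := h5.2.2.2
    have h8 := hd.nonneg (x s') f
    rw [hδ] at h6
    linarith

/-- The neighbourhood of a good hub. -/
theorem good_nbhd (hd : IsPM d) (hw : 0 < w) (hx : ∀ i < m, d (x i) (x (i + 1)) ≤ w)
    (hS : Hub3 d ρ S) (hρ : 51000 * w ≤ ρ) (hδ : δ = 48 * w) {E : V}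
    (hg : GoodV (LG d x ρ w δ m S) E) {f0 : V} (hf0 : (LG d x ρ w δ m S).Reachable E f0)
    (hfar : ρ + 52 * w < d E f0) {c : V} (hc : c ∈ S) (hdc : d E c ≤ 2 * ρ) :
    c = E ∨ (ρ - 52 * w ≤ d E c ∧ d E c ≤ ρ + 52 * w) := by
  have hdeg : DegLETwo (LG d x ρ w δ m S) :=
    deg_two hd hw.le hx hS (by rw [hδ]; linarith) (by linarith)
  obtain ⟨⟨e1, e2, hne, h1, h2⟩, hnb⟩ := hg
  have hE : E ∈ S := h1.2.1
  have u1 := link_le hd hw.le hx h1
  have u2 := link_le hd hw.le hx h2
  rw [hδ] at u1 u2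
  -- the lower bound for a neighbour
  have key : ∀ a b, a ≠ b → (LG d x ρ w δ m S).Adj E a → (LG d x ρ w δ m S).Adj E b →
      ρ - 52 * w ≤ d E a ∧ d E a ≤ ρ + 52 * w := by
    intro a b hab ha hb
    have v1 := link_le hd hw.le hx ha
    have v2 := link_le hd hw.le hx hb
    rw [hδ] at v1 v2
    obtain ⟨f, hfE, hf⟩ := hnb a ha
    have v3 := link_le hd hw.le hx hf
    rw [hδ] at v3
    have hfb : f ≠ b := by
      intro h
      subst h
      rcases triangle_closed hdeg ha hb hf hf0 with h | h | h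
      · rw [h, hd.self] at hfar
        linarith
      · rw [h] at hfar
        linarith
      · rw [h] at hfar
        linarith
    have hEf : 2 * ρ < d E f := by
      by_contra hcon
      push Not at hcon
      exact four_hubs hS E E a b f hE ha.2.2.1 hb.2.2.1 hf.2.2.1 ha.1 hb.1 (Ne.symm hfE) hab
        hf.1 (Ne.symm hfb) (by rw [hd.self]; linarith) (by linarith) (by linarith) hcon
    have v4 := hd.tri E a f
    exact ⟨by linarith, by linarith⟩
  by_cases hcE : c = E
  · exact Or.inl hcE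
  · right
    by_cases hc1 : c = e1
    · rw [hc1]
      exact key e1 e2 hne h1 h2
    · by_cases hc2 : c = e2
      · rw [hc2]
        exact key e2 e1 (Ne.symm hne) h2 h1
      · exact absurd (four_hubs hS E E e1 e2 c hE h1.2.2.1 h2.2.2.1 hc h1.1 h2.1 (Ne.symm hcE)
          hne (Ne.symm hc1) (Ne.symm hc2) (by rw [hd.self]; linarith) (by linarith)
          (by linarith) hdc) id

end

/-- **Chains are short in highway dimension 3.** -/
theorem chain3 {V : Type*} [DecidableEq V] {d : V → V → ℝ} (hd : IsPM d) {w : ℝ} (hw : 0 < w)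
    (hH : ∀ ρ, 0 < ρ → ∃ S, Hub3 d ρ S) (x : ℕ → V) (m : ℕ)
    (hx : ∀ i < m, d (x i) (x (i + 1)) ≤ w) : d (x 0) (x m) ≤ 100000000 * w := by
  classical
  by_contra hD
  push Not at hD
  obtain ⟨S1, hS1⟩ := hH (100000 * w) (by positivity)
  obtain ⟨SB, hSB⟩ := hH (90000 * w) (by positivity)
  obtain ⟨SC, hSC⟩ := hH (51000 * w) (by positivity)
  -- a path of linked hubs at scale 100000 w
  obtain ⟨a, f, ha, hf, haf, s0, -, hb0, hm0⟩ := reach_end (δ := 0) hd hw le_rfl hx hS1
    (by linarith) 0 (Nat.zero_le _) (fun c => d (x 0) c ≤ 200000 * w) (by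
      intro t _ hB
      obtain ⟨c, hc, hc'⟩ := hS1.hit (x 0) (x t) hB.2.2.1 (by
        have := hB.2.2.2
        linarith)
      refine ⟨c, ?_, hc, ?_⟩
      · have h1 := hB.2.2.2
        have h2 := hd.nonneg c (x t)
        linarith
      · unfold Med
        linarith) (by linarith)
  have hfm : d f (x m) ≤ 200000 * w := by
    unfold Med at hm0
    have h1 := hb0.2.2.2
    have h2 := hd.nonneg (x s0) f
    linarith
  obtain ⟨p, hp⟩ := haf.exists_isPath
  have hstep : ∀ i < p.length, d (p.getVert i) (p.getVert (i + 1)) ≤ 100004 * w := by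
    intro i hi
    have := pv_upper p hd hw.le hx hi
    linarith
  -- the last hub close to the start
  obtain ⟨i0, hi0L, -, hi0, hlast⟩ := exists_last p.length
    (fun i => d (x 0) (p.getVert i) ≤ 30000000 * w) 0 (Nat.zero_le _) (by
      simp only [Walk.getVert_zero]
      linarith)
  have hgrow : ∀ j : ℕ, j ≤ 100 → i0 + j < p.length ∧
      d (x 0) (p.getVert (i0 + j)) ≤ 30000000 * w + 100004 * w * j := by
    intro j
    have hend : ∀ i, i ≤ p.length → d (x 0) (p.getVert i) ≤ 99000000 * w → i < p.length := by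
      intro i hi hi'
      rcases Nat.lt_or_ge i p.length with h | h
      · exact h
      · have : i = p.length := le_antisymm hi h
        rw [this, Walk.getVert_length] at hi'
        have := hd.tri (x 0) f (x m)
        linarith
    induction j with
    | zero =>
      intro _
      refine ⟨hend _ hi0L (by simpa using le_trans hi0 (by linarith)), ?_⟩
      simpa using hi0
    | succ j ih =>
      intro hj
      obtain ⟨h1, h2⟩ := ih (by omega)
      have h3 := hstep (i0 + j) h1
      have h4 := hd.tri (x 0) (p.getVert (i0 + j)) (p.getVert (i0 + j + 1))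
      have h5 : (j : ℝ) ≤ 100 := by
        have : j ≤ 100 := by omega
        exact_mod_cast this
      have h6 : d (x 0) (p.getVert (i0 + (j + 1))) ≤
          30000000 * w + 100004 * w * ((j + 1 : ℕ) : ℝ) := by
        push_cast
        have : i0 + (j + 1) = i0 + j + 1 := rfl
        rw [this]
        linarith
      refine ⟨hend _ (by omega) (le_trans h6 ?_), h6⟩
      push_cast
      have h7 : w * (j : ℝ) ≤ w * 100 := mul_le_mul_of_nonneg_left h5 hw.le
      linarith
  obtain ⟨A, hAdef⟩ : ∃ A : ℕ → V, ∀ j, A j = p.getVert (i0 + 1 + j) := ⟨_, fun _ => rfl⟩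
  have hL : ∀ k, k ≤ 66 → i0 + 1 + k + 2 ≤ p.length := by
    intro k hk
    have := (hgrow 70 (by omega)).1
    omega
  have hA0 : ∀ k, k ≤ 66 → 30000000 * w < d (x 0) (A k) ∧ d (x 0) (A k) ≤ 41000000 * w := by
    intro k hk
    have h1 := hL k hk
    rw [hAdef k]
    refine ⟨not_le.mp (hlast (i0 + 1 + k) (by omega) (by omega)), ?_⟩
    obtain ⟨-, h2⟩ := hgrow (1 + k) (by omega)
    have h3 : i0 + (1 + k) = i0 + 1 + k := by omega
    rw [h3] at h2
    refine le_trans h2 ?_
    have h5 : ((1 + k : ℕ) : ℝ) ≤ 100 := by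
      have : 1 + k ≤ 100 := by omega
      exact_mod_cast this
    have h7 : w * ((1 + k : ℕ) : ℝ) ≤ w * 100 := mul_le_mul_of_nonneg_left h5 hw.le
    linarith
  have hAm : ∀ k, k ≤ 66 → 59000000 * w < d (A k) (x m) := by
    intro k hk
    have h1 := (hA0 k hk).2
    have h2 := hd.tri (x 0) (A k) (x m)
    linarith
  have hAd : ∀ k, k ≤ 65 → 99996 * w < d (A k) (A (k + 1)) ∧ d (A k) (A (k + 1)) ≤ 100004 * w := by
    intro k hk
    have h1 := hL k (by omega)
    have h2 := pv_lower p hd hw.le hx hS1 (by linarith) (by positivity) hp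
      (i := i0 + 1 + k) (by omega) (Or.inl (by omega))
    have h3 := pv_upper p hd hw.le hx (i := i0 + 1 + k) (by omega)
    rw [hAdef k, hAdef (k + 1)]
    have h4 : i0 + 1 + (k + 1) = i0 + 1 + k + 1 := rfl
    rw [h4]
    exact ⟨by linarith [h2], by linarith [h3]⟩
  have hAz : ∀ k, k ≤ 65 → ∀ y, ¬ (d y (A k) ≤ 99996 * w ∧ d y (A (k + 1)) ≤ 99996 * w) := by
    intro k hk y hy
    have h1 := hL k (by omega)
    rw [hAdef k, hAdef (k + 1)] at hy
    have h4 : i0 + 1 + (k + 1) = i0 + 1 + k + 1 := rfl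
    rw [h4] at hy
    refine pv_zone p hd hw.le hx hS1 le_rfl hp (i := i0 + 1 + k) (by omega) (by omega) y
      ⟨by linarith [hy.1], by linarith [hy.2]⟩
  have hAc : ∀ k, k ≤ 65 → ∃ s ≤ m, d (x s) (A k) ≤ 16 * w := by
    intro k hk
    have h1 := hL k (by omega)
    obtain ⟨s, hs, hs'⟩ := pv_curve p hd hw.le hx hS1 le_rfl (by linarith) (by positivity) hp
      (i := i0 + 1 + k) (by omega) (by omega)
    rw [hAdef k]
    exact ⟨s, hs, by linarith [hs']⟩
  -- a hub within 8 w of `A k` lies near the chain and far from both ends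
  have hnear : ∀ k, k ≤ 65 → ∀ E, d E (A k) ≤ 8 * w → ∃ s ≤ m, d (x s) E ≤ 24 * w ∧
      20000000 * w < d (x s) (x 0) ∧ 50000000 * w < d (x s) (x m) := by
    intro k hk E hE
    obtain ⟨s, hs, hs'⟩ := hAc k hk
    have h1 := hd.tri (x s) (A k) E
    rw [hd.symm (A k) E] at h1
    have h2 := (hA0 k (by omega)).1
    have h3 := hAm k (by omega)
    have h4 := hd.tri (x 0) (x s) (A k)
    have h5 := hd.tri (A k) (x s) (x m)
    rw [hd.symm (x 0) (x s)] at h4
    rw [hd.symm (A k) (x s)] at h5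
    exact ⟨s, hs, by linarith, by linarith, by linarith⟩
  -- the graph of linked hubs at scale 90000 w
  set GB := LG d x (90000 * w) w (48 * w) m SB with hGB
  have hdegB : DegLETwo GB := deg_two hd hw.le hx hSB (by linarith) (by positivity)
  obtain ⟨t, ht, hgood⟩ : ∃ t < 13, ∀ k, 5 * t ≤ k → k ≤ 5 * t + 3 → ∀ E ∈ SB,
      d E (A k) ≤ 8 * w → GoodV GB E := by
    by_contra hcon
    push Not at hcon
    have hcon' : ∀ t, ∃ k, ∃ E, t < 13 → (5 * t ≤ k ∧ k ≤ 5 * t + 3 ∧ E ∈ SB ∧
        d E (A k) ≤ 8 * w ∧ ¬ GoodV GB E) := by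
      intro t
      by_cases ht : t < 13
      · obtain ⟨k, h1, h2, E, h3, h4, h5⟩ := hcon t ht
        exact ⟨k, E, fun _ => ⟨h1, h2, h3, h4, h5⟩⟩
      · exact ⟨0, x 0, fun h => absurd h ht⟩
    choose kk E hkE using hcon'
    have hk1 : ∀ t, t < 13 → 5 * t ≤ kk t := fun t ht => (hkE t ht).1
    have hk2 : ∀ t, t < 13 → kk t ≤ 5 * t + 3 := fun t ht => (hkE t ht).2.1
    have hE1 : ∀ t, t < 13 → E t ∈ SB := fun t ht => (hkE t ht).2.2.1
    have hE2 : ∀ t, t < 13 → d (E t) (A (kk t)) ≤ 8 * w := fun t ht => (hkE t ht).2.2.2.1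
    have hE3 : ∀ t, t < 13 → ¬ GoodV GB (E t) := fun t ht => (hkE t ht).2.2.2.2
    obtain ⟨t, ht, hg⟩ := bad_count hdegB (SB.filter (fun c => d (x 0) c ≤ 2 * (90000 * w)))
      (hSB.sparse (x 0)) E (by
        intro t ht t' ht' hne hEE
        have a1 := hk1 t ht
        have a2 := hk2 t ht
        have a3 := hk1 t' ht'
        have a4 := hk2 t' ht'
        have b1 := hE2 t ht
        have b2 := hE2 t' ht'
        rw [← hEE] at b2
        have b3 := hd.tri (A (kk t)) (E t) (A (kk t'))
        rw [hd.symm (A (kk t)) (E t)] at b3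
        have b4 : 200000 * w < d (A (kk t)) (A (kk t')) := by
          rcases Nat.lt_or_ge (kk t) (kk t') with h | h
          · have c1 := hL (kk t') (by omega)
            have c2 := pv_far p hd hw.le hx hS1 (by linarith) (by positivity) hp
              (i := i0 + 1 + kk t) (j := i0 + 1 + kk t') (by omega) (by omega) (Or.inl (by omega))
            rw [hAdef (kk t), hAdef (kk t')]
            linarith [c2]
          · have c1 := hL (kk t) (by omega)
            have c2 := pv_far p hd hw.le hx hS1 (by linarith) (by positivity) hp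
              (i := i0 + 1 + kk t') (j := i0 + 1 + kk t) (by omega) (by omega) (Or.inl (by omega))
            rw [hd.symm, hAdef (kk t), hAdef (kk t')]
            linarith [c2]
        linarith) (by
        intro t ht
        obtain ⟨s, hs, h1, h2, h3⟩ := hnear (kk t) (by have := hk2 t ht; omega) (E t) (hE2 t ht)
        obtain ⟨f, hf, hf1, hf2⟩ := (hub_reach hd hw hx hSB (by linarith) rfl (hE1 t ht) hs h1).2
          (by linarith)
        refine ⟨f, ?_, hf1⟩
        rw [Finset.mem_filter]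
        exact ⟨hf, by rw [hd.symm]; linarith⟩)
    exact hE3 t ht hg
  -- a hub at scale 51000 w
  have hi : 5 * t + 1 ≤ 61 := by omega
  obtain ⟨E, hE, hEs⟩ := hSC.hit (A (5 * t + 1)) (A (5 * t + 1 + 1))
    (by linarith [(hAd (5 * t + 1) (by omega)).1]) (by linarith [(hAd (5 * t + 1) (by omega)).2])
  obtain ⟨k, hk1, hk2, hEk⟩ : ∃ k, 5 * t + 1 ≤ k ∧ k ≤ 5 * t + 2 ∧ d E (A k) ≤ 8 * w := by
    have h1 := hAz (5 * t + 1) (by omega) E
    have h2 := (hAd (5 * t + 1) (by omega)).2
    rw [← hEs, hd.symm (A (5 * t + 1)) E] at h2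
    by_cases h3 : d E (A (5 * t + 1)) ≤ 99996 * w
    · have h4 : ¬ d E (A (5 * t + 1 + 1)) ≤ 99996 * w := fun h => h1 ⟨h3, h⟩
      push Not at h4
      exact ⟨5 * t + 1, le_rfl, by omega, by linarith⟩
    · push Not at h3
      exact ⟨5 * t + 2, by omega, le_rfl, by linarith⟩
  obtain ⟨s, hs, hsE, hs0, hsm⟩ := hnear k (by omega) E hEk
  obtain ⟨f2, hf2, hEf2, hf2m⟩ := (hub_reach hd hw hx hSC le_rfl rfl hE hs hsE).1 (by linarith)
  obtain ⟨p2, hp2⟩ := hEf2.exists_isPath
  have hlen : 5 ≤ p2.length := by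
    by_contra hcon
    push Not at hcon
    have h1 := walk_dist_le hd hw.le hx p2
    have h2 : (p2.length : ℝ) ≤ 4 := by
      have : p2.length ≤ 4 := by omega
      exact_mod_cast this
    have h3 : (p2.length : ℝ) * (51000 * w + (4 * w + 48 * w)) ≤
        4 * (51000 * w + (4 * w + 48 * w)) := mul_le_mul_of_nonneg_right h2 (by positivity)
    have h4 := hd.tri (x s) E (x m)
    have h5 := hd.tri E f2 (x m)
    linarith
  have hc0 : p2.getVert 0 = E := Walk.getVert_zero p2
  have hlow : ∀ i, i ≤ 2 → 50948 * w < d (p2.getVert i) (p2.getVert (i + 1)) ∧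
      d (p2.getVert i) (p2.getVert (i + 1)) ≤ 51052 * w := by
    intro i hi
    have h1 := pv_lower p2 hd hw.le hx hSC (by linarith) (by positivity) hp2
      (i := i) (by omega) (Or.inr (by omega))
    have h2 := pv_upper p2 hd hw.le hx (i := i) (by omega)
    exact ⟨by linarith, by linarith⟩
  have hfar2 : ∀ i j, i + 2 ≤ j → j ≤ 3 → 102000 * w < d (p2.getVert i) (p2.getVert j) := by
    intro i j hij hj
    have h1 := pv_far p2 hd hw.le hx hSC (by linarith) (by positivity) hp2 hij (by omega)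
      (Or.inr (by omega))
    linarith
  have hk3 : k - 1 + 1 = k := by omega
  have hAk1 := hAd (k - 1) (by omega)
  rw [hk3] at hAk1
  have hzk1 := hAz (k - 1) (by omega)
  rw [hk3] at hzk1
  refine numeric3 hd hw (S1 : Set V) (SB : Set V) ?_ ?_ (A k) (A (k - 1)) (A (k + 1)) ?_ ?_ ?_ ?_
    ?_ (p2.getVert 0) (p2.getVert 1) (p2.getVert 2) (p2.getVert 3) ?_ (hlow 0 (by omega))
    (hlow 1 (by omega)) (hlow 2 (by omega)) (hfar2 0 2 (by omega) (by omega))
    (hfar2 1 3 (by omega) (by omega)) (hfar2 0 3 (by omega) (by omega)) ?_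
  · intro u v h1 h2
    obtain ⟨c, hc, hc'⟩ := hS1.hit u v h1 (by linarith)
    exact ⟨c, by simpa using hc, hc'⟩
  · intro u v h1 h2
    obtain ⟨c, hc, hc'⟩ := hSB.hit u v h1 (by linarith)
    exact ⟨c, by simpa using hc, hc'⟩
  · intro c hc hdc
    have h1 := hL k (by omega)
    rw [hAdef k] at hdc
    rw [hAdef k, hAdef (k - 1), hAdef (k + 1)]
    have h2 := pv_nbhd p hd hw.le hx hS1 (by linarith) (by positivity) hp
      (i := i0 + 1 + k) (by omega) (by omega) (c := c) (by simpa using hc) (by linarith [hdc])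
    have h3 : i0 + 1 + k - 1 = i0 + 1 + (k - 1) := by omega
    rw [h3] at h2
    exact h2
  · rw [hd.symm]
    exact hAk1
  · exact hAd k (by omega)
  · intro y hy
    exact hzk1 y ⟨hy.2, hy.1⟩
  · exact hAz k (by omega)
  · rw [hc0]
    exact hEk
  · intro b hb E' hE' hE'b c hc hdc
    obtain ⟨kb, hkb1, hkb2, hkb3⟩ : ∃ kb, 5 * t ≤ kb ∧ kb ≤ 5 * t + 3 ∧ b = A kb := by
      rcases hb with rfl | rfl | rfl
      · exact ⟨k - 1, by omega, by omega, rfl⟩
      · exact ⟨k, by omega, by omega, rfl⟩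
      · exact ⟨k + 1, by omega, by omega, rfl⟩
    rw [hkb3] at hE'b
    have hg := hgood kb hkb1 hkb2 E' (by simpa using hE') hE'b
    obtain ⟨s', hs', hs'E, hs'0, hs'm⟩ := hnear kb (by omega) E' hE'b
    obtain ⟨f3, hf3, hEf3, hf3m⟩ := (hub_reach hd hw hx hSB (by linarith) rfl
      (by simpa using hE') hs' hs'E).1 (by linarith)
    have h1 := good_nbhd hd hw hx hSB (by linarith) rfl hg hEf3 (by
      have h4 := hd.tri (x s') E' (x m)
      have h5 := hd.tri E' f3 (x m)
      linarith) (c := c) (by simpa using hc) (by linarith [hdc])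
    rcases h1 with h1 | h1
    · exact Or.inl h1
    · exact Or.inr ⟨by linarith [h1.1], by linarith [h1.2]⟩

end HD21
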