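import Mathlib
import Pool.Agent.HD21.FinalH
import Pool.Agent.HD21.Three

/-!
Highway dimension 3: single-linkage clusters have bounded relative diameter, hence host graphs of
bounded treewidth.
-/

namespace HD21

open SimpleGraph

/-- Highway dimension at most `3` provides hub sets. -/
theorem hub3_of_hd {V : Type*} [Fintype V] [DecidableEq V] {G : SimpleGraph V}
    {wt : Sym2 V → ℝ} (h0 : ∀ e, 0 ≤ wt e) (hc : G.Connected) (hh : HighwayDimLE G wt 3) :
    ∀ r, 0 < r → ∃ S, Hub3 (gdist G wt) r S := by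
  intro r hr
  obtain ⟨S, hS⟩ := hubSetH_of_hd h0 hc hh r hr
  exact ⟨S, hS.hit, hS.sparse⟩

/-- Highway dimension at most `3` implies the cluster property with constant `100000000`. -/
theorem ud_of_hd3 {V : Type*} [Fintype V] {G : SimpleGraph V} {wt : Sym2 V → ℝ}
    (h0 : ∀ e, 0 ≤ wt e) (hc : G.Connected) (hh : HighwayDimLE G wt 3) :
    UD 100000000 (gdist G wt) := by
  classical
  have hd := isPM_gdist (G := G) (wt := wt) h0 hc
  have key : ∀ s, 0 < s → ∀ u v, Chained (gdist G wt) s u v →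
      gdist G wt u v ≤ 100000000 * s := by
    intro s hs u v h
    obtain ⟨x, m, hx0, hxm, hx⟩ := h.exists_seq
    rw [← hx0, ← hxm]
    exact chain3 hd hs (hub3_of_hd h0 hc hh) x m hx
  intro s hs u v h
  rcases hs.lt_or_eq with h1 | h1
  · exact key s h1 u v h
  · subst h1
    refine le_of_forall_pos_le_add ?_
    intro ε hε
    have := key (ε / 100000000) (by positivity) u v (h.mono (by positivity))
    linarith

/-- **Bounded treewidth at highway dimension 3.** -/
theorem bounded_treewidth3 (k : ℕ) (hk : 0 < k) : ∃ t : ℕ,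
    ∀ (V : Type) [Fintype V] [LinearOrder V] (G : SimpleGraph V) (wt : Sym2 V → ℝ),
    (∀ e, 0 ≤ wt e) → G.Connected → HighwayDimLE G wt 3 →
    UD 100000000 (gdist G wt) ∧
    (∃ σ N, Adm (gdist G wt) k σ N) ∧
    ∀ σ N, Adm (gdist G wt) k σ N →
      (∀ j, (hostGraph G wt k σ N j).Connected) ∧
      (∀ j, TreewidthLE (hostGraph G wt k σ N j) t) ∧
      (∀ j u v, gdist G wt u v ≤ gdist (hostGraph G wt k σ N j) (dwt (gdist G wt)) u v) ∧
      (∀ u v, ∑ j, gdist (hostGraph G wt k σ N j) (dwt (gdist G wt)) u v ≤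
        (k + 800000000) * gdist G wt u v) ∧
      (∀ j, tsp G wt ≤ tsp (hostGraph G wt k σ N j) (dwt (gdist G wt))) ∧
      (∃ j, tsp (hostGraph G wt k σ N j) (dwt (gdist G wt)) ≤
        (1 + 800000000 / k) * tsp G wt) ∧
      (∀ R : Set V, R.Nonempty →
        (∀ j, stp G wt R ≤ stp (hostGraph G wt k σ N j) (dwt (gdist G wt)) R) ∧
        ∃ j, stp (hostGraph G wt k σ N j) (dwt (gdist G wt)) R ≤
          (1 + 800000000 / k) * stp G wt R) := by
  obtain ⟨t, ht⟩ := bounded_treewidthH 3 k hk 100000000 (by norm_num)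
  refine ⟨t, ?_⟩
  intro V _ _ G wt h0 hc hh
  have hU := ud_of_hd3 h0 hc hh
  obtain ⟨h1, h2⟩ := ht V G wt h0 hc hh hU
  have h8 : (8 : ℝ) * 100000000 = 800000000 := by norm_num
  rw [h8] at h2
  exact ⟨hU, h1, h2⟩

end HD21
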