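import Mathlib
import Pool.Agent.HD21.Transfer

/-!
Comparing tour and Steiner tree values under a small additive error of the distances.
-/

namespace HD21

open SimpleGraph

variable {V : Type*}

/-- Following a walk of `G` in `H`, jumping from each new vertex to the next new one. -/
theorem jump_walk [Fintype V] [DecidableEq V] {G H : SimpleGraph V} {wt wh : Sym2 V → ℝ}
    (h0 : ∀ e, 0 ≤ wt e) (h0' : ∀ e, 0 ≤ wh e) (hcG : G.Connected) (hcH : H.Connected) {A : ℝ}
    (hA : 0 ≤ A) (hle : ∀ a b, gdist H wh a b ≤ gdist G wt a b + A) {u v : V} (p : G.Walk u v) :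
    ∀ (a : V) (X : Finset V), u ∈ X → ∃ q : H.Walk a v,
      (∀ x ∈ p.support, x ∈ X ∨ x ∈ q.support) ∧
      wlen wh q ≤ gdist G wt a u + wlen wt p + A * ((p.support.toFinset \ X).card + 1) := by
  have hd := isPM_gdist (G := G) (wt := wt) h0 hcG
  induction p with
  | nil =>
    rename_i u
    intro a X hu
    obtain ⟨r, -, hr, -⟩ := exists_shortest (wt := wh) h0' (hcH.preconnected a u)
    refine ⟨r, fun x hx => Or.inl ?_, ?_⟩
    · rw [Walk.support_nil, List.mem_singleton] at hx
      rw [hx]
      exact hu
    · rw [hr]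
      have h1 := hle a u
      have h2 : (0 : ℝ) ≤ A * (((Walk.nil : G.Walk u u).support.toFinset \ X).card : ℝ) :=
        mul_nonneg hA (Nat.cast_nonneg _)
      have h3 : wlen wt (Walk.nil : G.Walk u u) = 0 := by simp [wlen]
      rw [h3]
      linarith
  | @cons u b v h p ih =>
    intro a X hu
    have hub : gdist G wt u b ≤ wt s(u, b) := gdist_adj_le h0 h
    have h3 : wlen wt (Walk.cons h p) = wt s(u, b) + wlen wt p := by simp [wlen]
    have htri := hd.tri a u b
    by_cases hb : b ∈ X
    · obtain ⟨q, hq1, hq2⟩ := ih a X hb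
      refine ⟨q, fun x hx => ?_, ?_⟩
      · rw [Walk.support_cons, List.mem_cons] at hx
        rcases hx with rfl | hx
        · exact Or.inl hu
        · exact hq1 x hx
      · have hsub : p.support.toFinset \ X ⊆ (Walk.cons h p).support.toFinset \ X := by
          refine Finset.sdiff_subset_sdiff ?_ (le_refl X)
          intro x hx
          rw [List.mem_toFinset] at hx ⊢
          rw [Walk.support_cons]
          exact List.mem_cons_of_mem _ hx
        have hc : ((p.support.toFinset \ X).card : ℝ) ≤
            ((Walk.cons h p).support.toFinset \ X).card := by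
          exact_mod_cast Finset.card_le_card hsub
        have h5 := mul_le_mul_of_nonneg_left hc hA
        rw [h3]
        linarith
    · obtain ⟨r, -, hr, -⟩ := exists_shortest (wt := wh) h0' (hcH.preconnected a b)
      obtain ⟨q, hq1, hq2⟩ := ih b (insert b X) (Finset.mem_insert_self b X)
      refine ⟨r.append q, fun x hx => ?_, ?_⟩
      · rw [Walk.support_cons, List.mem_cons] at hx
        rcases hx with rfl | hx
        · exact Or.inl hu
        · rcases hq1 x hx with h5 | h5
          · rcases Finset.mem_insert.1 h5 with rfl | h5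
            · right
              rw [Walk.mem_support_append_iff]
              exact Or.inl r.end_mem_support
            · exact Or.inl h5
          · right
            rw [Walk.mem_support_append_iff]
            exact Or.inr h5
      · have hsub : insert b (p.support.toFinset \ insert b X) ⊆
            (Walk.cons h p).support.toFinset \ X := by
          intro x hx
          rw [Finset.mem_sdiff, List.mem_toFinset, Walk.support_cons, List.mem_cons]
          rcases Finset.mem_insert.1 hx with rfl | hx
          · exact ⟨Or.inr p.start_mem_support, hb⟩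
          · rw [Finset.mem_sdiff, List.mem_toFinset] at hx
            exact ⟨Or.inr hx.1, fun h6 => hx.2 (Finset.mem_insert_of_mem h6)⟩
        have hnot : b ∉ p.support.toFinset \ insert b X := by
          rw [Finset.mem_sdiff]
          exact fun h6 => h6.2 (Finset.mem_insert_self b X)
        have hc : ((p.support.toFinset \ insert b X).card : ℝ) + 1 ≤
            ((Walk.cons h p).support.toFinset \ X).card := by
          have := Finset.card_le_card hsub
          rw [Finset.card_insert_of_notMem hnot] at this
          exact_mod_cast this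
        have h5 := mul_le_mul_of_nonneg_left hc hA
        have h6 := hle a b
        have h7 := hd.self b
        rw [wlen_append, hr, h3]
        rw [h7] at hq2
        rw [mul_add] at h5
        linarith

theorem tsp_additive [Fintype V] {G H : SimpleGraph V} {wt wh : Sym2 V → ℝ}
    (h0 : ∀ e, 0 ≤ wt e) (h0' : ∀ e, 0 ≤ wh e) (hcG : G.Connected) (hcH : H.Connected) {A : ℝ}
    (hA : 0 ≤ A) (hle : ∀ a b, gdist H wh a b ≤ gdist G wt a b + A) :
    tsp H wh ≤ tsp G wt + Fintype.card V * A := by
  classical
  have hd := isPM_gdist (G := G) (wt := wt) h0 hcG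
  rw [← sub_le_iff_le_add]
  refine le_csInf (tourWeights_nonempty hcG wt) ?_
  rintro x ⟨v, p, hp, rfl⟩
  obtain ⟨q, hq1, hq2⟩ := jump_walk h0 h0' hcG hcH hA hle p v {v} (Finset.mem_singleton_self v)
  have h1 : tsp H wh ≤ wlen wh q := by
    refine tsp_le h0' q fun y => ?_
    rcases hq1 y (hp y) with h2 | h2
    · rw [Finset.mem_singleton] at h2
      rw [h2]
      exact q.start_mem_support
    · exact h2
  have h2 : ((p.support.toFinset \ {v}).card : ℝ) + 1 ≤ Fintype.card V := by
    have hnot : v ∉ p.support.toFinset \ {v} := by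
      rw [Finset.mem_sdiff]
      exact fun h6 => h6.2 (Finset.mem_singleton_self v)
    have := Finset.card_le_univ (insert v (p.support.toFinset \ {v}))
    rw [Finset.card_insert_of_notMem hnot] at this
    exact_mod_cast this
  have h3 := mul_le_mul_of_nonneg_left h2 hA
  rw [hd.self v] at hq2
  rw [mul_comm A (Fintype.card V : ℝ)] at h3
  linarith

theorem stp_attained [Finite V] {G : SimpleGraph V} (wt : Sym2 V → ℝ) (hcG : G.Connected)
    (R : Set V) : ∃ K : G.Subgraph, K.Connected ∧ R ⊆ K.verts ∧
      stp G wt R = ∑ᶠ e ∈ K.edgeSet, wt e := by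
  have hfin : (steinerWeights G wt R).Finite := by
    refine (Set.finite_range (fun E : Set (Sym2 V) => ∑ᶠ e ∈ E, wt e)).subset ?_
    rintro x ⟨K, -, -, rfl⟩
    exact ⟨K.edgeSet, rfl⟩
  obtain ⟨K, h1, h2, h3⟩ := (subgraph_exists hcG wt R).csInf_mem hfin
  exact ⟨K, h1, h2, h3⟩

theorem stp_additive [Fintype V] {G H : SimpleGraph V} {wt wh : Sym2 V → ℝ}
    (h0 : ∀ e, 0 ≤ wt e) (h0' : ∀ e, 0 ≤ wh e) (hcG : G.Connected) (hcH : H.Connected) {A τ : ℝ}
    (hA : 0 ≤ A) {R : Set V} (hR : R.Nonempty) (hτ : stp G wt R ≤ τ)
    (hle : ∀ a b, gdist G wt a b ≤ τ → gdist H wh a b ≤ gdist G wt a b + A) :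
    stp H wh R ≤ stp G wt R + (Fintype.card V : ℝ) ^ 2 * A := by
  classical
  obtain ⟨K, hK, hKR, hKs⟩ := stp_attained (G := G) wt hcG R
  obtain ⟨F, hFs, hF, hFw⟩ := conn_of_subgraph (wt := wt) K hK hKR
  rw [← hKs] at hFw
  refine (stp_transfer h0' hcH hR F hF).trans ?_
  have h1 : ∀ e ∈ F, gd H wh e ≤ wt e + A := by
    intro e he
    have h2 : e ∈ G.edgeSet := hFs he
    have h3 : wt e ≤ τ := by
      refine le_trans ?_ hτ
      rw [← hFw]
      exact Finset.single_le_sum (fun e _ => h0 e) he
    induction e using Sym2.ind with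
    | _ a b =>
      have h4 : gdist G wt a b ≤ wt s(a, b) := gdist_adj_le h0 h2
      rw [gd_mk h0' hcH]
      have h5 := hle a b (h4.trans h3)
      linarith
  refine (Finset.sum_le_sum h1).trans ?_
  rw [Finset.sum_add_distrib, Finset.sum_const, nsmul_eq_mul, hFw]
  have h6 : (F.card : ℝ) ≤ (Fintype.card V : ℝ) ^ 2 := by
    have h7 : F.card ≤ Fintype.card (Sym2 V) := Finset.card_le_univ F
    have h8 : Fintype.card (Sym2 V) ≤ Fintype.card (V × V) :=
      Fintype.card_le_of_surjective (fun p : V × V => s(p.1, p.2)) (by
        intro e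
        induction e using Sym2.ind with
        | _ a b => exact ⟨(a, b), rfl⟩)
    rw [Fintype.card_prod] at h8
    have h9 : F.card ≤ Fintype.card V * Fintype.card V := h7.trans h8
    have h10 : (F.card : ℝ) ≤ (Fintype.card V : ℝ) * Fintype.card V := by exact_mod_cast h9
    rw [sq]
    exact h10
  have := mul_le_mul_of_nonneg_right h6 hA
  linarith

end HD21
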