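import Mathlib
import Pool.Agent.HD21.Defs
import Pool.Agent.HD21.Levels

/-!
Definitions for the exact treewidth bound: quotient graphs, closures of a vertex under the shortest
path covers, and the sets which separate a cluster from the outside of a slightly larger cluster.
-/

namespace HD21

open SimpleGraph

variable {V : Type*}

/-- The quotient graph: its vertices are the representatives of the clusters at threshold `s` (all
other elements of `V` are isolated), and two of them are adjacent if a `T`-edge inside a cluster
at threshold `t` joins their clusters. -/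
def qg [Fintype V] [LinearOrder V] (d : V → V → ℝ) (T : V → V → Prop) (s t : ℝ) :
    SimpleGraph V where
  Adj a b := a ≠ b ∧ ∃ u v, (T u v ∨ T v u) ∧ rep d s u = a ∧ rep d s v = b ∧
    rep d t u = rep d t v
  symm := ⟨fun _ _ h => by
    obtain ⟨h1, u, v, h2, h3, h4, h5⟩ := h
    exact ⟨h1.symm, v, u, h2.symm, h4, h3, h5.symm⟩⟩
  loopless := ⟨fun _ h => h.1 rfl⟩

/-- The edges of `H` inside `U`. -/
def resG (H : SimpleGraph V) (U : Finset V) : SimpleGraph V where
  Adj a b := H.Adj a b ∧ a ∈ U ∧ b ∈ U
  symm := ⟨fun _ _ h => ⟨h.1.symm, h.2.2, h.2.1⟩⟩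
  loopless := ⟨fun _ h => h.1.ne rfl⟩

open Classical in
/-- The points of the cover for scale `r` in the ball of radius `2r` around `c`. -/
noncomputable def near (d : V → V → ℝ) (S : ℝ → Finset V) (r : ℝ) (c : V) : Finset V :=
  (S r).filter (fun x => d c x ≤ 2 * r)

open Classical in
/-- The closure of `c` after `j` steps, using the scales in `R`. -/
noncomputable def clo (d : V → V → ℝ) (S : ℝ → Finset V) (R : Finset ℝ) (c : V) : ℕ → Finset V
  | 0 => {c}
  | j + 1 => clo d S R c j ∪ (clo d S R c j).biUnion (fun x => R.biUnion (fun r => near d S r x))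

/-- The scales `t, tq, ..., tq^n`. -/
noncomputable def gridR (t q : ℝ) (n : ℕ) : Finset ℝ :=
  (Finset.range (n + 1)).image (fun k => t * q ^ k)

/-- A family of shortest path covers, one for each scale, locally `h`-sparse. -/
structure Covers (G : SimpleGraph V) (wt : Sym2 V → ℝ) (h : ℕ) (S : ℝ → Finset V) : Prop where
  spc : ∀ r, 0 < r → IsSPC G wt r (S r : Set V)
  sparse : ∀ r, 0 < r → ∀ v, (near (gdist G wt) S r v).card ≤ h

open Classical in
/-- The union of the closures of `c` at the thresholds `s, sQ, ..., sQ^(M-1)`. -/
noncomputable def sepX (d : V → V → ℝ) (S : ℝ → Finset V) (q Q : ℝ) (n J M : ℕ) (s : ℝ) (c : V) :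
    Finset V :=
  (Finset.range M).biUnion (fun k => clo d S (gridR (s * Q ^ k) q n) c (J + 1))

open Classical in
/-- The cover points near the cluster of `c` at threshold `s` which meet the edges of length
between `2Cs` and `4Cs` at this cluster. -/
noncomputable def farN [Fintype V] [LinearOrder V] (d : V → V → ℝ) (S : ℝ → Finset V) (C s : ℝ)
    (c : V) : Finset V :=
  near d S (2 * C * s) (rep d s c) ∪ near d S (3 * C * s) (rep d s c)

end HD21
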