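import Mathlib
import Pool.Agent.HD21.QDefs

/-!
Basic facts on the closures and the grid of scales.
-/

namespace HD21

open SimpleGraph

variable {V : Type*}

theorem mem_near {d : V → V → ℝ} {S : ℝ → Finset V} {r : ℝ} {c x : V} :
    x ∈ near d S r c ↔ x ∈ S r ∧ d c x ≤ 2 * r := by
  classical
  unfold near
  rw [Finset.mem_filter]

theorem self_mem_clo (d : V → V → ℝ) (S : ℝ → Finset V) (R : Finset ℝ) (c : V) (j : ℕ) :
    c ∈ clo d S R c j := by
  classical
  induction j with
  | zero => exact Finset.mem_singleton_self c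
  | succ j ih =>
    unfold clo
    exact Finset.mem_union_left _ ih

theorem clo_succ_sub (d : V → V → ℝ) (S : ℝ → Finset V) (R : Finset ℝ) (c : V) (j : ℕ) :
    clo d S R c j ⊆ clo d S R c (j + 1) := by
  classical
  intro x hx
  rw [clo]
  exact Finset.mem_union_left _ hx

theorem clo_mono (d : V → V → ℝ) (S : ℝ → Finset V) (R : Finset ℝ) (c : V) {i j : ℕ}
    (hij : i ≤ j) : clo d S R c i ⊆ clo d S R c j := by
  induction j, hij using Nat.le_induction with
  | base => exact fun _ h => h
  | succ j _ ih => exact ih.trans (clo_succ_sub d S R c j)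

theorem mem_clo_succ {d : V → V → ℝ} {S : ℝ → Finset V} {R : Finset ℝ} {c x z : V} {j : ℕ}
    {r : ℝ} (hx : x ∈ clo d S R c j) (hr : r ∈ R) (hz : z ∈ S r) (hxz : d x z ≤ 2 * r) :
    z ∈ clo d S R c (j + 1) := by
  classical
  rw [clo]
  apply Finset.mem_union_right
  rw [Finset.mem_biUnion]
  refine ⟨x, hx, ?_⟩
  rw [Finset.mem_biUnion]
  exact ⟨r, hr, mem_near.2 ⟨hz, hxz⟩⟩

theorem clo_card {d : V → V → ℝ} {S : ℝ → Finset V} {R : Finset ℝ} {h : ℕ}
    (hs : ∀ r ∈ R, ∀ v, (near d S r v).card ≤ h) (c : V) (j : ℕ) :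
    (clo d S R c j).card ≤ (1 + R.card * h) ^ j := by
  classical
  induction j with
  | zero => simp [clo]
  | succ j ih =>
    rw [clo]
    refine (Finset.card_union_le _ _).trans ?_
    refine (Nat.add_le_add_left (Finset.card_biUnion_le_card_mul (clo d S R c j) _ (R.card * h)
      fun x _ => Finset.card_biUnion_le_card_mul R _ h fun r hr => hs r hr x) _).trans ?_
    calc (clo d S R c j).card + (clo d S R c j).card * (R.card * h)
        = (clo d S R c j).card * (1 + R.card * h) := by ring
      _ ≤ (1 + R.card * h) ^ j * (1 + R.card * h) := Nat.mul_le_mul_right _ ih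
      _ = (1 + R.card * h) ^ (j + 1) := (pow_succ _ _).symm

theorem gridR_card (t q : ℝ) (n : ℕ) : (gridR t q n).card ≤ n + 1 := by
  unfold gridR
  exact Finset.card_image_le.trans (by rw [Finset.card_range])

theorem gridR_pos {t q : ℝ} {n : ℕ} (ht : 0 < t) (hq : 0 < q) : ∀ r ∈ gridR t q n, 0 < r := by
  intro r hr
  unfold gridR at hr
  obtain ⟨k, -, rfl⟩ := Finset.mem_image.1 hr
  positivity

/-- The grid meets every interval `[x, qx)`. -/
theorem gridR_mem {t q x : ℝ} {n : ℕ} (ht : 0 < t) (hq : 1 < q) (h1 : t ≤ x)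
    (h2 : x ≤ t * q ^ n) : ∃ r ∈ gridR t q n, x ≤ r ∧ r < q * x := by
  classical
  have hex : ∃ k, x ≤ t * q ^ k := ⟨n, h2⟩
  have hx : 0 < x := ht.trans_le h1
  have hk := Nat.find_spec hex
  have hkn : Nat.find hex ≤ n := Nat.find_min' hex h2
  refine ⟨t * q ^ Nat.find hex, ?_, hk, ?_⟩
  · unfold gridR
    exact Finset.mem_image.2 ⟨Nat.find hex, Finset.mem_range.2 (by omega), rfl⟩
  · rcases Nat.eq_zero_or_pos (Nat.find hex) with h0 | h0
    · rw [h0, pow_zero, mul_one]
      nlinarith
    · have h3 := Nat.find_min hex (m := Nat.find hex - 1) (by omega)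
      push Not at h3
      have h4 : q ^ Nat.find hex = q ^ (Nat.find hex - 1) * q := by
        rw [← pow_succ]
        congr 1
        omega
      rw [h4]
      calc t * (q ^ (Nat.find hex - 1) * q) = q * (t * q ^ (Nat.find hex - 1)) := by ring
        _ < q * x := mul_lt_mul_of_pos_left h3 (by linarith)

/-- The size of the separators. -/
theorem sepX_card {G : SimpleGraph V} {wt : Sym2 V → ℝ} {h : ℕ} {S : ℝ → Finset V}
    (hS : Covers G wt h S) {q Q s : ℝ} (hq : 0 < q) (hQ : 0 < Q) (hs : 0 < s) (n J M : ℕ)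
    (c : V) :
    (sepX (gdist G wt) S q Q n J M s c).card ≤ M * (1 + (n + 1) * h) ^ (J + 1) := by
  classical
  unfold sepX
  refine (Finset.card_biUnion_le_card_mul (Finset.range M) _ ((1 + (n + 1) * h) ^ (J + 1))
    fun k _ => ?_).trans (by rw [Finset.card_range])
  refine (clo_card (h := h) (fun r hr v => hS.sparse r
    (gridR_pos (t := s * Q ^ k) (q := q) (n := n) (by positivity) hq r hr) v) c (J + 1)).trans ?_
  exact Nat.pow_le_pow_left (Nat.add_le_add_left (Nat.mul_le_mul_right h (gridR_card _ _ _)) 1) _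

theorem farN_card [Fintype V] [LinearOrder V] {G : SimpleGraph V} {wt : Sym2 V → ℝ} {h : ℕ}
    {S : ℝ → Finset V} (hS : Covers G wt h S) {C s : ℝ} (hC : 0 < C) (hs : 0 < s) (c : V) :
    (farN (gdist G wt) S C s c).card ≤ 2 * h := by
  classical
  unfold farN
  refine (Finset.card_union_le _ _).trans ?_
  have h1 := hS.sparse (2 * C * s) (by positivity) (rep (gdist G wt) s c)
  have h2 := hS.sparse (3 * C * s) (by positivity) (rep (gdist G wt) s c)
  omega

end HD21
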