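import Mathlib
import Pool.Agent.HD21.QClo
import Pool.Agent.HD21.Graph

/-!
The closure of a vertex meets the shortest paths from the end of a short chain to a far point, and
hence the long edges at the end of a short chain.
-/

namespace HD21

open SimpleGraph

variable {V : Type*} [Finite V] {G : SimpleGraph V} {wt : Sym2 V → ℝ}

/-- A vertex on a shortest path splits its length. -/
theorem shortest_split (h0 : ∀ e, 0 ≤ wt e) (hc : G.Connected) {u v c : V} {p : G.Walk u v}
    (hp : IsShortest G wt p) (hcp : c ∈ p.support) :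
    gdist G wt u c + gdist G wt c v = gdist G wt u v := by
  classical
  refine le_antisymm ?_ ((isPM_gdist h0 hc).tri u c v)
  have h3 := gdist_le_wlen (wt := wt) h0 (p.takeUntil c hcp)
  have h4 := gdist_le_wlen (wt := wt) h0 (p.dropUntil c hcp)
  have h5 : wlen wt p = wlen wt (p.takeUntil c hcp) + wlen wt (p.dropUntil c hcp) := by
    rw [← wlen_append, Walk.take_spec]
  have h6 := hp.2
  linarith

/-- Along a chain `x 0, x 1, ...` with steps at most `t`, either the closure of `x 0` comes close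
to the target `y`, or it meets all shortest paths from `x i` to `y`. -/
theorem closure_hit (h0 : ∀ e, 0 ≤ wt e) (hc : G.Connected) {h : ℕ} {S : ℝ → Finset V}
    (hS : Covers G wt h S) {t q κ D : ℝ} {n : ℕ} (ht : 0 < t) (hq : 1 < q) (hq2 : q < 2)
    (hκ : 1 ≤ κ * (2 - q)) (hD : D ≤ t * q ^ n) (x : ℕ → V) (m : ℕ)
    (hx : ∀ i < m, gdist G wt (x i) (x (i + 1)) ≤ t) (y : V)
    (hy : ∀ i ≤ m, gdist G wt (x i) y ≤ D) (i : ℕ) (hi : i ≤ m) :
    (∃ c ∈ clo (gdist G wt) S (gridR t q n) (x 0) i, gdist G wt c y ≤ 2 * κ * t) ∨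
    (∀ p : G.Walk (x i) y, IsShortest G wt p →
      ∃ c ∈ clo (gdist G wt) S (gridR t q n) (x 0) i, c ∈ p.support) := by
  have hpm := isPM_gdist h0 hc
  induction i with
  | zero =>
    right
    intro p _
    exact ⟨x 0, self_mem_clo _ _ _ _ _, p.start_mem_support⟩
  | succ i ih =>
    rcases ih (by omega) with ⟨c, hc1, hc2⟩ | hA
    · left
      exact ⟨c, clo_succ_sub _ _ _ _ _ hc1, hc2⟩
    · obtain ⟨p0, hp0, hp1, -⟩ := exists_shortest h0 (hc.preconnected (x i) y)
      obtain ⟨c, hc1, hc2⟩ := hA p0 ⟨hp0, hp1⟩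
      have hsplit := shortest_split h0 hc ⟨hp0, hp1⟩ hc2
      have hxi := hx i (by omega)
      by_cases hsm : gdist G wt (x i) y ≤ 2 * κ * t
      · left
        refine ⟨c, clo_succ_sub _ _ _ _ _ hc1, ?_⟩
        have := hpm.nonneg (x i) c
        linarith
      · right
        rw [not_le] at hsm
        intro p hp
        set Dy := gdist G wt (x i) y with hDy
        set L := gdist G wt (x (i + 1)) y with hL
        have hq3 : 0 < 2 - q := by linarith
        have e1 : 2 * t < Dy * (2 - q) := by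
          have e2 : 2 * κ * t * (2 - q) < Dy * (2 - q) := mul_lt_mul_of_pos_right hsm hq3
          have e3 : t * 1 ≤ t * (κ * (2 - q)) := mul_le_mul_of_nonneg_left hκ ht.le
          nlinarith
        have hDyn : 0 ≤ Dy := hpm.nonneg _ _
        have e4 : 2 * t < Dy := by nlinarith
        have t1 : L ≤ t + Dy := by
          have e5 := hpm.tri (x (i + 1)) (x i) y
          rw [hpm.symm (x (i + 1)) (x i)] at e5
          linarith
        have t2 : Dy ≤ t + L := by
          have e5 := hpm.tri (x i) (x (i + 1)) y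
          linarith
        have hLD : L ≤ D := hy (i + 1) hi
        set X := (Dy + t + L) / 4 with hX
        have hXt : t ≤ X := by
          rw [hX]
          linarith
        have hqX : q * X ≤ L := by
          have e6 : X * 4 = Dy + t + L := by rw [hX]; ring
          have e7 : q * (Dy + t + L) ≤ q * (2 * L + 2 * t) :=
            mul_le_mul_of_nonneg_left (by linarith) (by linarith)
          have e8 : (2 - q) * (Dy - t) ≤ (2 - q) * L :=
            mul_le_mul_of_nonneg_left (by linarith) hq3.le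
          nlinarith
        have hXL : X ≤ L := by nlinarith
        have h2X : L ≤ 2 * X := by
          rw [hX]
          linarith
        obtain ⟨r, hr, hr1, hr2⟩ := gridR_mem ht hq hXt (hXL.trans (hLD.trans hD))
        have hr0 : 0 < r := by linarith
        have hlen : wlen wt p = L := hp.2
        obtain ⟨z, hz1, hz2⟩ := hS.spc r hr0 (x (i + 1)) y p hp (by rw [hlen]; linarith)
          (by rw [hlen]; linarith)
        have hzs := shortest_split h0 hc hp hz2
        refine ⟨z, mem_clo_succ hc1 hr (by exact_mod_cast hz1) ?_, hz2⟩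
        have b1 : gdist G wt c z ≤ gdist G wt (x i) c + t + gdist G wt (x (i + 1)) z := by
          have f1 := hpm.tri c (x i) z
          have f2 := hpm.tri (x i) (x (i + 1)) z
          rw [hpm.symm c (x i)] at f1
          linarith
        have b2 : gdist G wt c z ≤ gdist G wt c y + gdist G wt z y := by
          have f1 := hpm.tri c y z
          rw [hpm.symm y z] at f1
          exact f1
        have e9 : X * 4 = Dy + t + L := by rw [hX]; ring
        linarith

/-- The closure comes close to the end of the chain. -/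
theorem closure_near (h0 : ∀ e, 0 ≤ wt e) (hc : G.Connected) {h : ℕ} {S : ℝ → Finset V}
    (hS : Covers G wt h S) {t q κ D : ℝ} {n : ℕ} (ht : 0 < t) (hq : 1 < q) (hq2 : q < 2)
    (hκ : 1 ≤ κ * (2 - q)) (hD : D ≤ t * q ^ n) (x : ℕ → V) (m : ℕ)
    (hx : ∀ i < m, gdist G wt (x i) (x (i + 1)) ≤ t)
    (hxm : ∀ i ≤ m, gdist G wt (x i) (x m) ≤ D) :
    ∃ c ∈ clo (gdist G wt) S (gridR t q n) (x 0) m, gdist G wt c (x m) ≤ 2 * κ * t := by
  rcases closure_hit h0 hc hS ht hq hq2 hκ hD x m hx (x m) hxm m le_rfl with h1 | h1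
  · exact h1
  · obtain ⟨c, hc1, hc2⟩ := h1 Walk.nil ⟨Walk.IsPath.nil, by
      rw [wlen_nil, (isPM_gdist h0 hc).self]⟩
    rw [Walk.support_nil, List.mem_singleton] at hc2
    refine ⟨c, hc1, ?_⟩
    rw [hc2, (isPM_gdist h0 hc).self]
    have hκ0 : 0 < κ := by
      by_contra hn
      rw [not_lt] at hn
      nlinarith
    positivity

/-- A tight edge at the end of the chain which is not met by the closure is short. -/
theorem closure_edge (h0 : ∀ e, 0 ≤ wt e) (hc : G.Connected) {h : ℕ} {S : ℝ → Finset V}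
    (hS : Covers G wt h S) {t q κ D : ℝ} {n : ℕ} (ht : 0 < t) (hq : 1 < q) (hq2 : q < 2)
    (hκ : 1 ≤ κ * (2 - q)) (hD : D ≤ t * q ^ n) (x : ℕ → V) (m : ℕ)
    (hx : ∀ i < m, gdist G wt (x i) (x (i + 1)) ≤ t)
    (hxm : ∀ i ≤ m, gdist G wt (x i) (x m) ≤ D) (y : V)
    (hy : ∀ i ≤ m, gdist G wt (x i) y ≤ D) (hT : Tight G wt (x m) y)
    (hn1 : x m ∉ clo (gdist G wt) S (gridR t q n) (x 0) (m + 1))
    (hn2 : y ∉ clo (gdist G wt) S (gridR t q n) (x 0) (m + 1)) :
    gdist G wt (x m) y ≤ κ * q * t := by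
  have hpm := isPM_gdist h0 hc
  have hκ0 : 0 < κ := by
    by_contra hn
    rw [not_lt] at hn
    nlinarith
  have hκ1 : 1 ≤ κ := by nlinarith
  by_contra hlt
  rw [not_le] at hlt
  set L := gdist G wt (x m) y with hL
  have hedge : IsShortest G wt (Walk.cons hT.1 Walk.nil : G.Walk (x m) y) := by
    refine ⟨?_, ?_⟩
    · rw [Walk.cons_isPath_iff]
      refine ⟨Walk.IsPath.nil, ?_⟩
      rw [Walk.support_nil, List.mem_singleton]
      exact hT.1.ne
    · rw [wlen_cons, wlen_nil, add_zero]
      exact hT.2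
  obtain ⟨c', hc'1, hc'2⟩ := closure_near h0 hc hS ht hq hq2 hκ hD x m hx hxm
  rcases closure_hit h0 hc hS ht hq hq2 hκ hD x m hx y hy m le_rfl with ⟨c, hc1, hc2⟩ | h1
  · have key : ∃ X : ℝ, κ * t ≤ X ∧ L ≤ 2 * X ∧ q * X ≤ L := by
      rcases le_total (L / 2) (κ * t) with h2 | h2
      · exact ⟨κ * t, le_rfl, by linarith, by nlinarith⟩
      · refine ⟨L / 2, h2, by linarith, ?_⟩
        have : 0 < L := lt_trans (by positivity) hlt
        nlinarith
    obtain ⟨X, hX1, hX2, hX3⟩ := key
    have hXt : t ≤ X := by nlinarith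
    have hXL : X ≤ L := by nlinarith
    have hLD : L ≤ D := hy m le_rfl
    obtain ⟨r, hr, hr1, hr2⟩ := gridR_mem ht hq hXt (hXL.trans (hLD.trans hD))
    have hr0 : 0 < r := by linarith
    have hlen : wlen wt (Walk.cons hT.1 Walk.nil : G.Walk (x m) y) = L := hedge.2
    obtain ⟨z, hz1, hz2⟩ := hS.spc r hr0 (x m) y _ hedge (by rw [hlen]; linarith)
      (by rw [hlen]; linarith)
    rw [Walk.support_cons, Walk.support_nil, List.mem_cons, List.mem_singleton] at hz2
    rcases hz2 with rfl | rfl
    · exact hn1 (mem_clo_succ hc'1 hr (by exact_mod_cast hz1) (by nlinarith))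
    · exact hn2 (mem_clo_succ hc1 hr (by exact_mod_cast hz1) (by nlinarith))
  · obtain ⟨c, hc1, hc2⟩ := h1 _ hedge
    rw [Walk.support_cons, Walk.support_nil, List.mem_cons, List.mem_singleton] at hc2
    rcases hc2 with rfl | rfl
    · exact hn1 (clo_succ_sub _ _ _ _ _ hc1)
    · exact hn2 (clo_succ_sub _ _ _ _ _ hc1)

end HD21
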