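import Mathlib
import Pool.Agent.HD21.QDefs

/-!
A single host graph.
-/

namespace HD21

open SimpleGraph

/-- The host graph at the thresholds `σ ≤ τ` with root `r`: the quotient graph on the
representatives of the clusters at threshold `σ` (two of them are adjacent if a tight edge inside
a cluster at threshold `τ` joins their clusters), every vertex is also adjacent to the
representative of its cluster at threshold `σ`, and to the root `r`. -/
def hostE {V : Type*} [Fintype V] [LinearOrder V] (G : SimpleGraph V) (wt : Sym2 V → ℝ)
    (σ τ : ℝ) (r : V) : SimpleGraph V where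
  Adj a b := a ≠ b ∧ ((qg (gdist G wt) (Tight G wt) σ τ).Adj a b ∨ rep (gdist G wt) σ a = b ∨
    rep (gdist G wt) σ b = a ∨ a = r ∨ b = r)
  symm := ⟨fun _ _ h => by
    refine ⟨h.1.symm, ?_⟩
    rcases h.2 with h | h | h | h | h
    · exact Or.inl h.symm
    · exact Or.inr (Or.inr (Or.inl h))
    · exact Or.inr (Or.inl h)
    · exact Or.inr (Or.inr (Or.inr (Or.inr h)))
    · exact Or.inr (Or.inr (Or.inr (Or.inl h)))⟩
  loopless := ⟨fun _ h => h.1 rfl⟩

end HD21
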