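import Mathlib
import Pool.Agent.HD21.QDefs

/-!
Treewidth: deleting vertices, and disjoint unions.
-/

namespace HD21

open SimpleGraph

variable {V : Type*}

theorem tw_mono {H H' : SimpleGraph V} {t t' : ℕ} (h : TreewidthLE H' t')
    (hH : ∀ a b, H.Adj a b → H'.Adj a b) (ht : t' ≤ t) : TreewidthLE H t := by
  obtain ⟨pos, A, h1, h2, h3, h4, h5⟩ := h
  exact ⟨pos, A, h1, fun v => (h2 v).trans ht, h3, h4, fun u v huv hlt => h5 u v (hH u v huv) hlt⟩

/-- Adding the vertices of `Z` (and all their edges) costs `Z.card`. -/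
theorem tw_del [Finite V] {H H' : SimpleGraph V} {t : ℕ} (Z : Finset V)
    (h : TreewidthLE H' t) (hH : ∀ a b, H.Adj a b → a ∉ Z → b ∉ Z → H'.Adj a b) :
    TreewidthLE H (t + Z.card) := by
  classical
  haveI := Fintype.ofFinite V
  obtain ⟨pos, A, h1, h2, h3, h4, h5⟩ := h
  obtain ⟨N, hN⟩ : ∃ N : ℕ, ∀ v, pos v < N := by
    refine ⟨Finset.univ.sup pos + 1, fun v => ?_⟩
    have := Finset.le_sup (f := pos) (Finset.mem_univ v)
    omega
  refine ⟨fun v => if v ∈ Z then N + pos v else pos v,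
    fun v => if v ∈ Z then Z.filter (fun u => pos v < pos u) else (A v \ Z) ∪ Z, ?_, ?_, ?_, ?_, ?_⟩
  · intro u v huv
    simp only at huv
    have hu := hN u
    have hv := hN v
    split_ifs at huv with ha hb hb
    · exact h1 (by omega)
    · omega
    · omega
    · exact h1 huv
  · intro v
    simp only
    split_ifs with ha
    · exact (Finset.card_filter_le _ _).trans (Nat.le_add_left _ _)
    · exact (Finset.card_union_le _ _).trans
        (Nat.add_le_add_right ((Finset.card_le_card Finset.sdiff_subset).trans (h2 v)) _)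
  · intro v u hu
    have hv' := hN v
    simp only at hu ⊢
    split_ifs at hu ⊢ with ha hb hb
    · have := (Finset.mem_filter.1 hu).2
      omega
    · exact absurd (Finset.mem_filter.1 hu).1 hb
    · omega
    · rcases Finset.mem_union.1 hu with hu | hu
      · exact h3 v u (Finset.mem_sdiff.1 hu).1
      · exact absurd hu hb
  · intro v a ha b hb hab
    have ha' := hN a
    have hb' := hN b
    simp only at ha hb hab ⊢
    by_cases hv : v ∈ Z
    · rw [if_pos hv] at ha hb
      have haZ := (Finset.mem_filter.1 ha).1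
      have hbZ := (Finset.mem_filter.1 hb).1
      rw [if_pos haZ, if_pos hbZ] at hab
      rw [if_pos haZ]
      exact Finset.mem_filter.2 ⟨hbZ, by omega⟩
    · rw [if_neg hv] at ha hb
      by_cases haZ : a ∈ Z
      · rw [if_pos haZ] at hab ⊢
        by_cases hbZ : b ∈ Z
        · rw [if_pos hbZ] at hab
          exact Finset.mem_filter.2 ⟨hbZ, by omega⟩
        · rw [if_neg hbZ] at hab
          omega
      · rw [if_neg haZ] at hab ⊢
        by_cases hbZ : b ∈ Z
        · exact Finset.mem_union_right _ hbZ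
        · rw [if_neg hbZ] at hab
          have haA : a ∈ A v := by
            rcases Finset.mem_union.1 ha with h | h
            · exact (Finset.mem_sdiff.1 h).1
            · exact absurd h haZ
          have hbA : b ∈ A v := by
            rcases Finset.mem_union.1 hb with h | h
            · exact (Finset.mem_sdiff.1 h).1
            · exact absurd h hbZ
          exact Finset.mem_union_left _ (Finset.mem_sdiff.2 ⟨h4 v a haA b hbA hab, hbZ⟩)
  · intro u v huv hlt
    have hu' := hN u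
    have hv' := hN v
    simp only at hlt ⊢
    by_cases hu : u ∈ Z
    · rw [if_pos hu] at hlt ⊢
      by_cases hv : v ∈ Z
      · rw [if_pos hv] at hlt
        exact Finset.mem_filter.2 ⟨hv, by omega⟩
      · rw [if_neg hv] at hlt
        omega
    · rw [if_neg hu] at hlt ⊢
      by_cases hv : v ∈ Z
      · exact Finset.mem_union_right _ hv
      · rw [if_neg hv] at hlt
        exact Finset.mem_union_left _ (Finset.mem_sdiff.2 ⟨h5 u v (hH u v huv hu hv) hlt, hv⟩)

/-- Disjoint unions. -/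
theorem tw_union [Finite V] {H : SimpleGraph V} {t : ℕ} (f : V → ℕ)
    (K : ℕ → SimpleGraph V) (hK : ∀ i, TreewidthLE (K i) t)
    (hH : ∀ a b, H.Adj a b → f a = f b ∧ (K (f a)).Adj a b) : TreewidthLE H t := by
  classical
  choose p A h1 h2 h3 h4 h5 using hK
  have hlt : ∀ i a b, p i a < p i b → Nat.pair i (p i a) < Nat.pair i (p i b) :=
    fun i a b h => Nat.pair_lt_pair_right i h
  have hlt' : ∀ i a b, Nat.pair i (p i a) < Nat.pair i (p i b) → p i a < p i b := by
    intro i a b h
    by_contra hc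
    rcases Nat.eq_or_lt_of_le (not_lt.1 hc) with h6 | h6
    · rw [h6] at h
      exact lt_irrefl _ h
    · exact lt_asymm h (hlt i b a h6)
  refine ⟨fun v => Nat.pair (f v) (p (f v) v), fun v => (A (f v) v).filter (fun u => f u = f v), ?_, ?_, ?_, ?_, ?_⟩
  · intro v w hvw
    beta_reduce at hvw
    rw [Nat.pair_eq_pair] at hvw
    obtain ⟨e1, e2⟩ := hvw
    rw [e1] at e2
    exact h1 _ e2
  · intro v
    exact (Finset.card_filter_le _ _).trans (h2 _ v)
  · intro v u hu
    rw [Finset.mem_filter] at hu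
    beta_reduce
    rw [hu.2]
    exact hlt _ _ _ (h3 _ v u hu.1)
  · intro v a ha b hb hab
    rw [Finset.mem_filter] at ha hb
    beta_reduce at hab
    rw [ha.2, hb.2] at hab
    rw [Finset.mem_filter, ha.2]
    exact ⟨h4 _ v a ha.1 b hb.1 (hlt' _ _ _ hab), hb.2⟩
  · intro u v huv hpos
    obtain ⟨e1, e2⟩ := hH u v huv
    beta_reduce at hpos
    rw [← e1] at hpos
    rw [Finset.mem_filter]
    exact ⟨h5 _ u v e2 (hlt' _ _ _ hpos), e1.symm⟩

theorem tw_bot [Finite V] {H : SimpleGraph V} (hH : ∀ a b, ¬ H.Adj a b) : TreewidthLE H 0 := by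
  obtain ⟨n, ⟨e⟩⟩ := Finite.exists_equiv_fin V
  refine ⟨fun v => (e v : ℕ), fun _ => ∅, ?_, ?_, ?_, ?_, ?_⟩
  · intro u v huv
    exact e.injective (Fin.ext huv)
  · intro v
    simp
  · intro v u hu
    simp at hu
  · intro v a ha
    simp at ha
  · intro u v huv
    exact absurd huv (hH u v)

/-- Two parts. -/
theorem tw_split [Finite V] {H H1 H2 : SimpleGraph V} {t : ℕ} (P : V → Prop)
    (h1 : TreewidthLE H1 t) (h2 : TreewidthLE H2 t)
    (hH : ∀ a b, H.Adj a b → (P a ∧ P b ∧ H1.Adj a b) ∨ (¬ P a ∧ ¬ P b ∧ H2.Adj a b)) :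
    TreewidthLE H t := by
  classical
  refine tw_union (fun v => if P v then 0 else 1) (fun i => if i = 0 then H1 else H2) ?_ ?_
  · intro i
    beta_reduce
    split_ifs
    · exact h1
    · exact h2
  · intro a b hab
    beta_reduce
    rcases hH a b hab with ⟨ha, hb, h⟩ | ⟨ha, hb, h⟩
    · rw [if_pos ha, if_pos hb, if_pos rfl]
      exact ⟨rfl, h⟩
    · rw [if_neg ha, if_neg hb, if_neg one_ne_zero]
      exact ⟨rfl, h⟩

/-- Pendant vertices: the vertices outside `U` have at most one neighbour, `f v ∈ U`. -/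
theorem tw_pendant [Finite V] {H H' : SimpleGraph V} {t : ℕ} (U : Finset V) (f : V → V)
    (hf : ∀ v, f v ∈ U) (h : TreewidthLE H' t)
    (hH : ∀ a b, H.Adj a b → (a ∈ U ∧ b ∈ U ∧ H'.Adj a b) ∨ (a ∉ U ∧ b = f a) ∨
      (b ∉ U ∧ a = f b)) : TreewidthLE H (t + 1) := by
  classical
  obtain ⟨p, A, h1, h2, h3, h4, h5⟩ := h
  obtain ⟨n, ⟨e⟩⟩ := Finite.exists_equiv_fin V
  obtain ⟨q, hq⟩ : ∃ q : V → ℕ, ∀ v, q v = if v ∈ U then n + p v else (e v : ℕ) := ⟨_, fun _ => rfl⟩
  obtain ⟨B, hB⟩ : ∃ B : V → Finset V, ∀ v, B v = if v ∈ U then (A v).filter (fun u => u ∈ U) else {f v} :=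
    ⟨_, fun _ => rfl⟩
  have q1 : ∀ v, v ∈ U → q v = n + p v := fun v hv => by rw [hq, if_pos hv]
  have q2 : ∀ v, v ∉ U → q v = (e v : ℕ) := fun v hv => by rw [hq, if_neg hv]
  have q3 : ∀ v, v ∉ U → q v < n := fun v hv => by
    rw [q2 v hv]
    exact (e v).2
  have b1 : ∀ v, v ∈ U → ∀ u, u ∈ B v ↔ u ∈ A v ∧ u ∈ U := fun v hv u => by
    rw [hB, if_pos hv, Finset.mem_filter]
  have b2 : ∀ v, v ∉ U → ∀ u, u ∈ B v ↔ u = f v := fun v hv u => by
    rw [hB, if_neg hv, Finset.mem_singleton]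
  refine ⟨q, B, ?_, ?_, ?_, ?_, ?_⟩
  · intro v w hvw
    by_cases hv : v ∈ U
    · by_cases hw : w ∈ U
      · rw [q1 v hv, q1 w hw] at hvw
        exact h1 (Nat.add_left_cancel hvw)
      · have := q3 w hw
        rw [q1 v hv] at hvw
        omega
    · by_cases hw : w ∈ U
      · have := q3 v hv
        rw [q1 w hw] at hvw
        omega
      · rw [q2 v hv, q2 w hw] at hvw
        exact e.injective (Fin.ext hvw)
  · intro v
    by_cases hv : v ∈ U
    · rw [hB, if_pos hv]
      exact (Finset.card_filter_le _ _).trans ((h2 v).trans (Nat.le_succ t))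
    · rw [hB, if_neg hv, Finset.card_singleton]
      exact Nat.le_add_left 1 t
  · intro v u hu
    by_cases hv : v ∈ U
    · rw [b1 v hv] at hu
      rw [q1 v hv, q1 u hu.2]
      exact Nat.add_lt_add_left (h3 v u hu.1) n
    · rw [b2 v hv] at hu
      have h6 := q3 v hv
      have h7 := q1 (f v) (hf v)
      rw [hu]
      omega
  · intro v a ha b hb hab
    by_cases hv : v ∈ U
    · rw [b1 v hv] at ha hb
      rw [q1 a ha.2, q1 b hb.2] at hab
      rw [b1 a ha.2]
      exact ⟨h4 v a ha.1 b hb.1 (Nat.lt_of_add_lt_add_left hab), hb.2⟩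
    · rw [b2 v hv] at ha hb
      rw [ha, hb] at hab
      exact (lt_irrefl _ hab).elim
  · intro u v huv hpos
    rcases hH u v huv with ⟨hu, hv, h6⟩ | ⟨hu, h6⟩ | ⟨hv, h6⟩
    · rw [q1 u hu, q1 v hv] at hpos
      rw [b1 u hu]
      exact ⟨h5 u v h6 (Nat.lt_of_add_lt_add_left hpos), hv⟩
    · rw [b2 u hu]
      exact h6
    · have h7 := q3 v hv
      have h8 := q1 u (h6 ▸ hf v)
      omega

end HD21
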