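import Mathlib
import Pool.Agent.HD21.QHostDef
import Pool.Agent.HD21.QTree
import Pool.Agent.HD21.Final

/-!
Properties of the host graph.
-/

namespace HD21

open SimpleGraph

variable {V : Type*} [Fintype V] [LinearOrder V] {G : SimpleGraph V} {wt : Sym2 V → ℝ}

theorem hostE_connected (σ τ : ℝ) (r : V) : (hostE G wt σ τ r).Connected := by
  have key : ∀ u, (hostE G wt σ τ r).Reachable u r := by
    intro u
    by_cases h : u = r
    · rw [h]
    · refine Adj.reachable ?_
      exact ⟨h, Or.inr (Or.inr (Or.inr (Or.inr rfl)))⟩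
  have : Nonempty V := ⟨r⟩
  exact Connected.mk fun u v => (key u).trans (key v).symm

/-- The host graph without the root: the quotient graph with pendant vertices. -/
def hostP {V : Type*} [Fintype V] [LinearOrder V] (G : SimpleGraph V) (wt : Sym2 V → ℝ)
    (σ τ : ℝ) : SimpleGraph V where
  Adj a b := a ≠ b ∧ ((qg (gdist G wt) (Tight G wt) σ τ).Adj a b ∨ rep (gdist G wt) σ a = b ∨
    rep (gdist G wt) σ b = a)
  symm := ⟨fun _ _ h => by
    refine ⟨h.1.symm, ?_⟩
    rcases h.2 with h | h | h
    · exact Or.inl h.symm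
    · exact Or.inr (Or.inr h)
    · exact Or.inr (Or.inl h)⟩
  loopless := ⟨fun _ h => h.1 rfl⟩

theorem hostE_tw (h0 : ∀ e, 0 ≤ wt e) (hc : G.Connected) {σ τ : ℝ} (r : V) {t : ℕ}
    (ht : TreewidthLE (qg (gdist G wt) (Tight G wt) σ τ) t) :
    TreewidthLE (hostE G wt σ τ r) (t + 2) := by
  classical
  have hpm := isPM_gdist h0 hc
  have hrr : ∀ v, rep (gdist G wt) σ (rep (gdist G wt) σ v) = rep (gdist G wt) σ v := by
    intro v
    exact (rep_eq_iff hpm).2 ((rep_chained (gdist G wt) σ v).symm hpm)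
  have h1 : TreewidthLE (hostP G wt σ τ) (t + 1) := by
    refine tw_pendant (Finset.univ.filter fun v => rep (gdist G wt) σ v = v) (rep (gdist G wt) σ)
      (fun v => by simpa using hrr v) ht ?_
    intro a b hab
    obtain ⟨hne, h | h | h⟩ := hab
    · left
      obtain ⟨-, u, v, -, h3, h4, -⟩ := id h
      refine ⟨?_, ?_, h⟩
      · rw [← h3]
        simpa using hrr u
      · rw [← h4]
        simpa using hrr v
    · right
      left
      refine ⟨?_, h.symm⟩
      intro ha
      have ha' : rep (gdist G wt) σ a = a := by simpa using ha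
      exact hne (ha'.symm.trans h)
    · right
      right
      refine ⟨?_, h.symm⟩
      intro hb
      have hb' : rep (gdist G wt) σ b = b := by simpa using hb
      exact hne (h.symm.trans hb')
  have h2 := tw_del (H := hostE G wt σ τ r) ({r} : Finset V) h1 (by
    intro a b hab ha hb
    rw [Finset.mem_singleton] at ha hb
    obtain ⟨hne, h | h | h | h | h⟩ := hab
    · exact ⟨hne, Or.inl h⟩
    · exact ⟨hne, Or.inr (Or.inl h)⟩
    · exact ⟨hne, Or.inr (Or.inr h)⟩
    · exact absurd h ha
    · exact absurd h hb)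
  rw [Finset.card_singleton] at h2
  exact h2

theorem hostE_step (h0 : ∀ e, 0 ≤ wt e) (hc : G.Connected) {C : ℝ} (hC : 0 ≤ C)
    (hU : UD C (gdist G wt)) {σ τ : ℝ} (hσ : 0 < σ) (r : V) {u v : V} (p : G.Walk u v)
    (hp : wlen wt p = gdist G wt u v) (huv : gdist G wt u v ≤ τ) :
    ∃ W : (hostE G wt σ τ r).Walk (rep (gdist G wt) σ u) (rep (gdist G wt) σ v),
      wlen (dwt (gdist G wt)) W ≤ gdist G wt u v + 2 * C * σ * p.length := by
  have hd := isPM_gdist (G := G) (wt := wt) h0 hc
  induction p with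
  | nil =>
    refine ⟨Walk.nil, ?_⟩
    rw [wlen_nil, hd.self]
    simp
  | @cons a b c h q ih =>
    rw [wlen_cons] at hp
    have e1 := hd.tri a b c
    have e2 := gdist_adj_le (wt := wt) h0 h
    have e3 := gdist_le_wlen (wt := wt) h0 q
    have e4 : wt s(a, b) = gdist G wt a b := by linarith
    have e5 : wlen wt q = gdist G wt b c := by linarith
    have e6 := hd.nonneg a b
    have e7 := hd.nonneg b c
    obtain ⟨W, hW⟩ := ih e5 (by linarith)
    have e8 : (0 : ℝ) ≤ 2 * C * σ := by positivity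
    have hlen : ((Walk.cons h q).length : ℝ) = q.length + 1 := by
      rw [Walk.length_cons]
      push_cast
      rfl
    rw [hlen]
    by_cases hr : rep (gdist G wt) σ a = rep (gdist G wt) σ b
    · rw [hr]
      refine ⟨W, ?_⟩
      linarith
    · have hadj : (hostE G wt σ τ r).Adj (rep (gdist G wt) σ a) (rep (gdist G wt) σ b) := by
        refine ⟨hr, Or.inl ⟨hr, a, b, Or.inl ⟨h, e4⟩, rfl, rfl, ?_⟩⟩
        exact (rep_eq_iff hd).mpr (Chained.single (by linarith))
      refine ⟨Walk.cons hadj W, ?_⟩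
      rw [wlen_cons, dwt_mk hd]
      have f1 := hU σ hσ.le a _ (rep_chained (gdist G wt) σ a)
      have f2 := hU σ hσ.le b _ (rep_chained (gdist G wt) σ b)
      have f3 := hd.tri (rep (gdist G wt) σ a) a (rep (gdist G wt) σ b)
      have f4 := hd.tri a b (rep (gdist G wt) σ b)
      rw [hd.symm (rep (gdist G wt) σ a) a] at f3
      linarith

/-- Host distances exceed the distances by a small additive error, for pairs at distance at
most `τ`. -/
theorem hostE_upper (h0 : ∀ e, 0 ≤ wt e) (hc : G.Connected) {C : ℝ} (hC : 0 ≤ C)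
    (hU : UD C (gdist G wt)) {σ τ : ℝ} (hσ : 0 < σ) (hστ : σ ≤ τ) (r : V) (u v : V)
    (huv : gdist G wt u v ≤ τ) :
    gdist (hostE G wt σ τ r) (dwt (gdist G wt)) u v ≤
      gdist G wt u v + 2 * C * σ * Fintype.card V := by
  have hd := isPM_gdist (G := G) (wt := wt) h0 hc
  obtain ⟨p, hp, hpd, -⟩ := exists_shortest h0 (hc.preconnected u v)
  obtain ⟨W, hW⟩ := hostE_step h0 hc hC hU (τ := τ) hσ r p hpd huv
  have hcard : (p.length : ℝ) + 1 ≤ Fintype.card V := by
    exact_mod_cast hp.length_lt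
  have e8 : (0 : ℝ) ≤ 2 * C * σ := by positivity
  have end1 : ∃ W1 : (hostE G wt σ τ r).Walk u (rep (gdist G wt) σ u),
      wlen (dwt (gdist G wt)) W1 ≤ C * σ := by
    by_cases hr : u = rep (gdist G wt) σ u
    · refine ⟨Walk.nil.copy rfl hr, ?_⟩
      rw [show wlen (dwt (gdist G wt))
        ((Walk.nil : (hostE G wt σ τ r).Walk u u).copy rfl hr) = 0 by
          unfold wlen
          rw [Walk.edges_copy]
          simp]
      positivity
    · have hadj : (hostE G wt σ τ r).Adj u (rep (gdist G wt) σ u) :=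
        ⟨hr, Or.inr (Or.inl rfl)⟩
      refine ⟨Walk.cons hadj Walk.nil, ?_⟩
      rw [wlen_cons, wlen_nil, add_zero, dwt_mk hd]
      exact hU σ hσ.le u _ (rep_chained (gdist G wt) σ u)
  have end2 : ∃ W2 : (hostE G wt σ τ r).Walk (rep (gdist G wt) σ v) v,
      wlen (dwt (gdist G wt)) W2 ≤ C * σ := by
    by_cases hr : rep (gdist G wt) σ v = v
    · refine ⟨Walk.nil.copy rfl hr, ?_⟩
      rw [show wlen (dwt (gdist G wt))
        ((Walk.nil : (hostE G wt σ τ r).Walk (rep (gdist G wt) σ v) _).copy rfl hr) = 0 by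
          unfold wlen
          rw [Walk.edges_copy]
          simp]
      positivity
    · have hadj : (hostE G wt σ τ r).Adj (rep (gdist G wt) σ v) v :=
        ⟨hr, Or.inr (Or.inr (Or.inl rfl))⟩
      refine ⟨Walk.cons hadj Walk.nil, ?_⟩
      rw [wlen_cons, wlen_nil, add_zero, dwt_mk hd, hd.symm]
      exact hU σ hσ.le v _ (rep_chained (gdist G wt) σ v)
  obtain ⟨W1, hW1⟩ := end1
  obtain ⟨W2, hW2⟩ := end2
  have key := gdist_le_wlen (wt := dwt (gdist G wt)) (dwt_nonneg hd) ((W1.append W).append W2)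
  rw [wlen_append, wlen_append] at key
  have e9 := mul_le_mul_of_nonneg_left hcard e8
  linarith

end HD21
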