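import Mathlib

/-!
The number of levels for accuracy `ε`.
-/

namespace HD21

/-- The number of levels for accuracy `ε`. -/
noncomputable def levels (C : ℝ) (n : ℕ) (ε : ℝ) : ℕ := Nat.clog 2 ⌈4 * C * n ^ 3 / ε⌉₊

/-- The bottom threshold for accuracy `ε` and the estimate `B` of the optimum. -/
noncomputable def bottom (C : ℝ) (n : ℕ) (ε B : ℝ) : ℝ := ε * B / (2 * C * n ^ 3)

theorem levels_spec (C : ℝ) (n : ℕ) (ε : ℝ) : 4 * C * n ^ 3 / ε ≤ 2 ^ levels C n ε := by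
  unfold levels
  have h1 : (⌈4 * C * n ^ 3 / ε⌉₊ : ℝ) ≤ ((2 ^ Nat.clog 2 ⌈4 * C * n ^ 3 / ε⌉₊ : ℕ) : ℝ) := by
    exact_mod_cast Nat.le_pow_clog (by norm_num) _
  push_cast at h1
  exact (Nat.le_ceil _).trans h1

/-- The number of levels is logarithmic. -/
theorem levels_le {C : ℝ} (hC : 1 ≤ C) {n : ℕ} (hn : 1 ≤ n) {ε : ℝ} (hε : 0 < ε)
    (hε1 : ε ≤ 1) :
    (levels C n ε : ℝ) ≤ (Real.log (4 * C) / Real.log 2 + 3 / Real.log 2 + 2) *
      (1 + Real.log (n / ε)) := by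
  have hn1 : (1 : ℝ) ≤ n := by exact_mod_cast hn
  have hC0 : 0 < C := by linarith
  obtain ⟨x, hx⟩ : ∃ x : ℝ, x = 4 * C * n ^ 3 / ε := ⟨_, rfl⟩
  have hn3 : (1 : ℝ) ≤ (n : ℝ) ^ 3 := one_le_pow₀ hn1
  have hx4 : 4 ≤ x := by
    rw [hx, le_div_iff₀ hε]
    have h1 : 1 ≤ C * (n : ℝ) ^ 3 := by nlinarith
    linarith
  have hlog2 : 0 < Real.log 2 := Real.log_pos (by norm_num)
  obtain ⟨L, hL⟩ : ∃ L, L = levels C n ε := ⟨_, rfl⟩
  have hN : 1 < ⌈x⌉₊ := by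
    have h1 : (4 : ℝ) ≤ ⌈x⌉₊ := hx4.trans (Nat.le_ceil _)
    have h2 : 4 ≤ ⌈x⌉₊ := by exact_mod_cast h1
    omega
  have hL' : L = Nat.clog 2 ⌈x⌉₊ := by rw [hL, hx]; rfl
  have h1 : 2 ^ (L - 1) < ⌈x⌉₊ := by
    rw [hL']
    exact Nat.pow_pred_clog_lt_self (by norm_num) hN
  have h2 : ((2 : ℝ)) ^ (L - 1) ≤ 2 * x := by
    have h3 : ((2 : ℝ)) ^ (L - 1) ≤ ⌈x⌉₊ := by exact_mod_cast h1.le
    have h4 : (⌈x⌉₊ : ℝ) < x + 1 := Nat.ceil_lt_add_one (by linarith)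
    linarith
  have h3 : (((L - 1 : ℕ) : ℝ)) * Real.log 2 ≤ Real.log 2 + Real.log x := by
    rw [← Real.log_pow, ← Real.log_mul (by norm_num) (by linarith)]
    exact Real.log_le_log (by positivity) h2
  have h4 : (L : ℝ) ≤ ((L - 1 : ℕ) : ℝ) + 1 := by
    have : L ≤ (L - 1) + 1 := by omega
    exact_mod_cast this
  have h5 : Real.log x = Real.log (4 * C) + 3 * Real.log n - Real.log ε := by
    rw [hx, Real.log_div (by positivity) hε.ne', Real.log_mul (by positivity) (by positivity), Real.log_pow]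
    push_cast
    ring
  have h6 : Real.log (n / ε) = Real.log n - Real.log ε := Real.log_div (by positivity) hε.ne'
  have h7 : Real.log ε ≤ 0 := Real.log_nonpos hε.le hε1
  have h8 : 0 ≤ Real.log n := Real.log_nonneg hn1
  have h9 : 0 ≤ Real.log (4 * C) := Real.log_nonneg (by linarith)
  obtain ⟨l, hl⟩ : ∃ l : ℝ, l = Real.log (n / ε) := ⟨_, rfl⟩
  rw [← hl] at h6 ⊢
  have hl0 : 0 ≤ l := by linarith
  have h10 : Real.log x ≤ Real.log (4 * C) + 3 * l := by linarith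
  have h11 : (L : ℝ) * Real.log 2 ≤ 2 * Real.log 2 + Real.log (4 * C) + 3 * l := by
    have h12 : (L : ℝ) * Real.log 2 ≤ (((L - 1 : ℕ) : ℝ) + 1) * Real.log 2 := mul_le_mul_of_nonneg_right h4 hlog2.le
    linarith
  rw [← hL]
  have h13 : (L : ℝ) ≤ 2 + Real.log (4 * C) / Real.log 2 + 3 / Real.log 2 * l := by
    have h14 : (L : ℝ) ≤ (2 * Real.log 2 + Real.log (4 * C) + 3 * l) / Real.log 2 := by
      rwa [le_div_iff₀ hlog2]
    refine h14.trans (le_of_eq ?_)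
    field_simp
  have h15 : 0 ≤ Real.log (4 * C) / Real.log 2 := div_nonneg h9 hlog2.le
  have h16 : 0 ≤ 3 / Real.log 2 := by positivity
  have h17 : 0 ≤ Real.log (4 * C) / Real.log 2 * l := mul_nonneg h15 hl0
  have h18 : (Real.log (4 * C) / Real.log 2 + 3 / Real.log 2 + 2) * (1 + l) =
      Real.log (4 * C) / Real.log 2 + 3 / Real.log 2 + 2 + Real.log (4 * C) / Real.log 2 * l + 3 / Real.log 2 * l +
        2 * l := by ring
  rw [h18]
  linarith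

end HD21
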