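import Mathlib
import Pool.Agent.HD21.QDefs
import Pool.Agent.HD21.FinalH

/-!
Paths in quotient graphs are short, and clusters are reached by few steps.
-/

namespace HD21

open SimpleGraph

variable {V : Type*} [Fintype V] [LinearOrder V] {G : SimpleGraph V} {wt : Sym2 V → ℝ}

theorem rep_rep_of_le {d : V → V → ℝ} (hd : IsPM d) {s t : ℝ} (hst : s ≤ t) (x : V) :
    rep d t (rep d s x) = rep d t x :=
  (rep_eq_iff hd).mpr (((rep_chained d s x).symm hd).mono hst)

/-- Paths of the quotient graphs are short. -/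
theorem qg_path {h : ℕ} (h0 : ∀ e, 0 ≤ wt e) (hc : G.Connected) (hh : HighwayDimLE G wt h)
    {C : ℝ} (hU : UD C (gdist G wt)) {T : V → V → Prop} (hT : ∀ u v, T u v → Tight G wt u v)
    {s t : ℝ} (hs : 0 < s) (hst : s ≤ t) {η : ℝ} (hη : 0 < η)
    (hη2 : 8 * η * 2 ^ (h + 1) ≤ 0.01) {K : ℕ} (hK1 : 2.4 ≤ (1 + η) ^ K)
    (hC : 0 ≤ C) (hK : C * t ≤ 0.48 * s * (1 + η) ^ K) {a b : V}
    (p : (qg (gdist G wt) T s t).Walk a b) (hp : p.IsPath) :
    p.length + 1 ≤ cellBoundH h K K := by
  classical
  have hd := isPM_gdist (G := G) (wt := wt) h0 hc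
  rcases Nat.eq_zero_or_pos p.length with hlen | hlen
  · rw [hlen]
    refine path_boundH (T := Tight G wt) hd (hubSetH_of_hd h0 hc hh)
      (s := s) (D := C * t) (z := fun _ => a) (κ := fun _ => 0) (m := 0) (n := 0)
      ?_ hs hη hη2 hK1 hK
    refine ⟨fun i hi => absurd hi (by omega), fun i hi j hj _ => by omega, rfl, rfl,
      fun i hi => absurd hi (by omega), fun i _ j _ hij => absurd rfl hij, fun i _ j _ => ?_⟩
    have h1 : gdist G wt a a ≤ C * t := hU t (hs.le.trans hst) a a (Chained.refl _ _ _)
    exact h1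
  · have hadj : ∀ i < p.length, ∃ u v, Tight G wt u v ∧ rep (gdist G wt) s u = p.getVert i ∧
        rep (gdist G wt) s v = p.getVert (i + 1) := by
      intro i hi
      obtain ⟨-, u, v, h1, h2, h3, -⟩ := p.adj_getVert_succ hi
      refine ⟨u, v, ?_, h2, h3⟩
      rcases h1 with h1 | h1
      · exact hT _ _ h1
      · exact (hT _ _ h1).symm' h0 hc
    have htop : ∀ i, i ≤ p.length → rep (gdist G wt) t (p.getVert i) =
        rep (gdist G wt) t (p.getVert 0) := by
      intro i
      induction i with
      | zero => intro _; rfl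
      | succ i ih =>
        intro hi
        obtain ⟨-, u, v, -, h2, h3, h4⟩ := p.adj_getVert_succ (show i < p.length by omega)
        rw [← ih (by omega), ← h2, ← h3, rep_rep_of_le hd hst, rep_rep_of_le hd hst, h4]
    obtain ⟨z, κ, m, hz1, hz2, hz3, hz4, hz5, hz6, hz7⟩ := lift_path (Tight G wt)
      (rep (gdist G wt) s) (fun u v huv => tight_inside h0 hc s u v huv) p.length
      (fun j => p.getVert j)
      (by
        intro j hj l hl hjl
        exact hp.getVert_injOn hj hl hjl)
      (by
        obtain ⟨u, v, -, h2, -⟩ := hadj 0 hlen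
        exact ⟨u, h2⟩)
      hadj
    refine path_boundH hd (hubSetH_of_hd h0 hc hh)
      (s := s) (D := C * t) (z := z) (κ := κ) (m := m) ?_ hs hη hη2 hK1 hK
    refine ⟨hz1, hz2, hz5, hz6, hz7, ?_, ?_⟩
    · intro j hj l hl hjl
      by_contra h
      push Not at h
      have h1 : rep (gdist G wt) s (z j) = rep (gdist G wt) s (z l) :=
        (rep_eq_iff hd).mpr (Chained.single h)
      rw [hz3 j hj, hz3 l hl] at h1
      exact hjl (hp.getVert_injOn (hz4 j hj) (hz4 l hl) h1)
    · intro j hj l hl
      refine hU t (hs.le.trans hst) _ _ ?_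
      refine (rep_eq_iff hd).mp ?_
      have h1 : ∀ j ≤ m, rep (gdist G wt) t (z j) = rep (gdist G wt) t (p.getVert 0) := by
        intro j hj
        rw [← rep_rep_of_le hd hst (z j), hz3 j hj]
        exact htop _ (hz4 j hj)
      rw [h1 j hj, h1 l hl]

theorem tight_chain_aux (h0 : ∀ e, 0 ≤ wt e) (hc : G.Connected) {x y : V} (p : G.Walk x y)
    (hp : wlen wt p = gdist G wt x y) (D : ℝ) (hD : gdist G wt x y ≤ D) :
    Relation.ReflTransGen (fun a b => Tight G wt a b ∧ gdist G wt a b ≤ D) x y := by
  have hd := isPM_gdist (G := G) (wt := wt) h0 hc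
  induction p with
  | nil => exact Relation.ReflTransGen.refl
  | @cons a b c h q ih =>
    rw [wlen_cons] at hp
    have h1 := gdist_le_wlen (wt := wt) h0 q
    have h2 := gdist_adj_le (wt := wt) h0 h
    have h3 := hd.tri a b c
    have h4 := hd.nonneg a b
    have h4' := hd.nonneg b c
    have h5 : wlen wt q = gdist G wt b c := by linarith
    have h6 : gdist G wt b c ≤ D := by linarith
    refine Relation.ReflTransGen.head ⟨⟨h, by linarith⟩, by linarith⟩ (ih h5 h6)

/-- A shortest path of length at most `D` is a chain of tight edges of length at most `D`. -/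
theorem tight_chain_short (h0 : ∀ e, 0 ≤ wt e) (hc : G.Connected) {x y : V} {D : ℝ}
    (hD : gdist G wt x y ≤ D) :
    Relation.ReflTransGen (fun a b => Tight G wt a b ∧ gdist G wt a b ≤ D) x y := by
  obtain ⟨p, -, hp, -⟩ := exists_shortest (wt := wt) h0 (hc.preconnected x y)
  exact tight_chain_aux h0 hc p hp D hD

/-- A walk of the quotient graph with short edges gives a short chain of vertices. -/
theorem walk_steps (h0 : ∀ e, 0 ≤ wt e) (hc : G.Connected) {C : ℝ} (hC : 1 ≤ C)
    (hU : UD C (gdist G wt)) {t : ℝ} (ht : 0 < t) {a b : V}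
    (p : (qg (gdist G wt) (fun u v => Tight G wt u v ∧ gdist G wt u v ≤ t) (t / C) t).Walk a b) :
    ∀ c u : V, rep (gdist G wt) (t / C) c = a → rep (gdist G wt) (t / C) u = b →
    ∃ x : ℕ → V, x 0 = c ∧ x (2 * p.length + 1) = u ∧
      ∀ i < 2 * p.length + 1, gdist G wt (x i) (x (i + 1)) ≤ t := by
  have hd : IsPM (gdist G wt) := isPM_gdist h0 hc
  have hC0 : (0 : ℝ) < C := by linarith
  have hin : ∀ c u : V, rep (gdist G wt) (t / C) c = rep (gdist G wt) (t / C) u → gdist G wt c u ≤ t := by
    intro c u h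
    have h1 := hU (t / C) (div_nonneg ht.le hC0.le) c u ((rep_eq_iff hd).1 h)
    have h2 : C * (t / C) = t := by field_simp
    linarith
  induction p with
  | nil =>
    intro c u h1 h2
    refine ⟨fun i => if i = 0 then c else u, if_pos rfl, ?_, ?_⟩
    · beta_reduce
      rw [SimpleGraph.Walk.length_nil, if_neg (by omega)]
    · intro i hi
      rw [SimpleGraph.Walk.length_nil] at hi
      have hi0 : i = 0 := by omega
      subst hi0
      beta_reduce
      rw [if_pos rfl, if_neg (by omega)]
      exact hin c u (h1.trans h2.symm)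
  | cons hadj p ih =>
    intro c u h1 h2
    have hadj' := hadj
    obtain ⟨-, u', v', hT, hu', hv', -⟩ := hadj'
    have hstep : gdist G wt u' v' ≤ t := by
      rcases hT with hT | hT
      · exact hT.2
      · rw [hd.symm]
        exact hT.2
    obtain ⟨x, hx0, hx1, hx2⟩ := ih v' u hv' h2
    refine ⟨fun i => if i = 0 then c else if i = 1 then u' else x (i - 2), if_pos rfl, ?_, ?_⟩
    · beta_reduce
      rw [SimpleGraph.Walk.length_cons, if_neg (by omega), if_neg (by omega)]
      have e : 2 * (p.length + 1) + 1 - 2 = 2 * p.length + 1 := by omega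
      rw [e]
      exact hx1
    · intro i hi
      rw [SimpleGraph.Walk.length_cons] at hi
      beta_reduce
      by_cases hi0 : i = 0
      · subst hi0
        rw [if_pos rfl, if_neg (by omega), if_pos rfl]
        exact hin c u' (h1.trans hu'.symm)
      · by_cases hi1 : i = 1
        · subst hi1
          rw [if_neg (by omega), if_pos rfl, if_neg (by omega), if_neg (by omega)]
          have e : 1 + 1 - 2 = 0 := rfl
          rw [e, hx0]
          exact hstep
        · rw [if_neg hi0, if_neg hi1, if_neg (by omega), if_neg (by omega)]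
          have e : i + 1 - 2 = (i - 2) + 1 := by omega
          rw [e]
          exact hx2 (i - 2) (by omega)

/-- Every vertex of a cluster is reached from every other by few steps. -/
theorem reach_few {h : ℕ} (h0 : ∀ e, 0 ≤ wt e) (hc : G.Connected) (hh : HighwayDimLE G wt h)
    {C : ℝ} (hC : 1 ≤ C) (hU : UD C (gdist G wt)) {η : ℝ} (hη : 0 < η)
    (hη2 : 8 * η * 2 ^ (h + 1) ≤ 0.01) {K : ℕ} (hK1 : 2.4 ≤ (1 + η) ^ K)
    (hK : C * C ≤ 0.48 * (1 + η) ^ K) {t : ℝ} (ht : 0 < t) {c u : V}
    (hcu : Chained (gdist G wt) t c u) :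
    ∃ (x : ℕ → V) (m : ℕ), m ≤ 2 * cellBoundH h K K ∧ x 0 = c ∧ x m = u ∧
      ∀ i < m, gdist G wt (x i) (x (i + 1)) ≤ t := by
  classical
  have hd := isPM_gdist (G := G) (wt := wt) h0 hc
  obtain ⟨T, hT⟩ : ∃ T : V → V → Prop, T = fun u v => Tight G wt u v ∧ gdist G wt u v ≤ t :=
    ⟨_, rfl⟩
  have hreach : ∀ w, Chained (gdist G wt) t c w →
      (qg (gdist G wt) T (t / C) t).Reachable (rep (gdist G wt) (t / C) c)
        (rep (gdist G wt) (t / C) w) := by
    intro w hw
    unfold Chained at hw
    induction hw with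
    | refl => exact Reachable.refl _
    | @tail a b _ hab ih =>
      refine ih.trans ?_
      have h1 := tight_chain_short (wt := wt) h0 hc hab
      clear ih hab
      induction h1 with
      | refl => exact Reachable.refl _
      | @tail x y _ hxy ih =>
        refine ih.trans ?_
        by_cases hne : rep (gdist G wt) (t / C) x = rep (gdist G wt) (t / C) y
        · rw [hne]
        · refine Adj.reachable ⟨hne, x, y, Or.inl ?_, rfl, rfl, ?_⟩
          · rw [hT]
            exact hxy
          · exact (rep_eq_iff hd).mpr (Chained.single hxy.2)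
  obtain ⟨p⟩ := hreach u hcu
  have hp := p.bypass_isPath
  have h1 : p.bypass.length + 1 ≤ cellBoundH h K K := by
    refine qg_path h0 hc hh hU (T := T) (fun u v h => by rw [hT] at h; exact h.1)
      (s := t / C) (t := t) (by positivity) ?_ hη hη2 hK1 (by linarith) ?_ p.bypass hp
    · exact div_le_self ht.le hC
    · have h2 : C * (t / C) = t := by field_simp
      have h3 : 0 < t / C := by positivity
      have h4 : C * t = C * C * (t / C) := by rw [mul_assoc, h2]
      rw [h4]
      have h5 := mul_le_mul_of_nonneg_right hK h3.le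
      linarith
  obtain ⟨q, hq⟩ : ∃ q : (qg (gdist G wt) T (t / C) t).Walk (rep (gdist G wt) (t / C) c)
      (rep (gdist G wt) (t / C) u), q.length + 1 ≤ cellBoundH h K K := ⟨p.bypass, h1⟩
  subst hT
  obtain ⟨x, hx0, hxm, hx⟩ := walk_steps h0 hc hC hU ht q c u rfl rfl
  exact ⟨x, 2 * q.length + 1, by omega, hx0, hxm, hx⟩

end HD21
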