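import Mathlib
import Pool.Agent.HD21.Forest

/-!
Induction along an elimination forest: a property of vertex sets of a graph without long paths.
-/

namespace HD21

open SimpleGraph

theorem td_aux {P : Type*} [DecidableEq P] (Γ : SimpleGraph P)
    (Q : Finset P → ℕ → Prop) (h0 : Q ∅ 0) (hmono : ∀ S n n', n ≤ n' → Q S n → Q S n')
    (hdel : ∀ S x n, x ∈ S → Q (S.erase x) n → Q S (n + 1))
    (hsplit : ∀ S₁ S₂ n, Disjoint S₁ S₂ → (∀ a ∈ S₁, ∀ b ∈ S₂, ¬ Γ.Adj a b) →
      Q S₁ n → Q S₂ n → Q (S₁ ∪ S₂) n) : ∀ (n : ℕ) (S : Finset P), S.card = n → ∀ M : ℕ,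
    (∀ v ∈ S, ∃ u, RchIn Γ S u v ∧ ShortAt Γ S M u) → Q S M := by
  classical
  intro n
  induction n using Nat.strong_induction_on with
  | _ n ih =>
    intro S hS M hM
    rcases S.eq_empty_or_nonempty with rfl | ⟨v, hv⟩
    · exact hmono _ 0 M (Nat.zero_le _) h0
    obtain ⟨u, hu1, hu2⟩ := hM v hv
    have huS : u ∈ S := hu1.left
    have hM1 : 1 ≤ M := by
      have := hu2 u Walk.nil Walk.IsPath.nil (fun x hx => by
        simp only [Walk.support_nil, List.mem_cons, List.not_mem_nil, or_false] at hx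
        rw [hx]
        exact huS)
      simpa using this
    obtain ⟨K, hK⟩ : ∃ K : Finset P, K = S.filter (fun x => RchIn Γ S u x) := ⟨_, rfl⟩
    have hKS : K ⊆ S := by rw [hK]; exact Finset.filter_subset _ _
    have hmK : ∀ x, x ∈ K ↔ RchIn Γ S u x := by
      intro x
      rw [hK, Finset.mem_filter]
      exact ⟨fun h => h.2, fun h => ⟨h.right, h⟩⟩
    have huK : u ∈ K := (hmK u).2 ⟨Walk.nil, fun x hx => by
        simp only [Walk.support_nil, List.mem_cons, List.not_mem_nil, or_false] at hx
        rw [hx]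
        exact huS⟩
    have hcl : ∀ x ∈ K, ∀ y ∈ S, Γ.Adj x y → y ∈ K := fun x hx y hy hxy =>
      (hmK y).2 (((hmK x).1 hx).trans (RchIn.edge (hKS hx) hy hxy))
    have hcl' : ∀ x ∈ S \ K, ∀ y ∈ S, Γ.Adj x y → y ∈ S \ K := by
      intro x hx y hy hxy
      rw [Finset.mem_sdiff] at hx ⊢
      exact ⟨hy, fun h => hx.2 (hcl y h x hx.1 hxy.symm)⟩
    by_cases hKe : K = S
    · obtain ⟨M', rfl⟩ : ∃ M', M = M' + 1 := ⟨M - 1, by omega⟩
      have hstep : ∀ w ∈ S.erase u, ∃ u', RchIn Γ (S.erase u) u' w ∧ ShortAt Γ (S.erase u) M' u' := by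
        intro w hw
        rw [Finset.mem_erase] at hw
        obtain ⟨q, hq⟩ := (hmK w).1 (by rw [hKe]; exact hw.2)
        have hpath := q.bypass_isPath
        have hsup : ∀ x ∈ q.bypass.support, x ∈ S := fun x hx => hq x (q.support_bypass_subset_support hx)
        rcases hb : q.bypass with _ | ⟨hadj, p⟩
        · exact absurd rfl hw.1
        · rename_i b
          rw [hb] at hpath hsup
          rw [Walk.cons_isPath_iff] at hpath
          refine ⟨b, ⟨p, fun x hx => ?_⟩, ?_⟩
          · rw [Finset.mem_erase]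
            refine ⟨fun h => hpath.2 (h ▸ hx), hsup x (by simp [hx])⟩
          · intro z p' hp' hp'S
            have h1 := hu2 z (Walk.cons hadj p') (by
              rw [Walk.cons_isPath_iff]
              exact ⟨hp', fun h => (Finset.mem_erase.1 (hp'S u h)).1 rfl⟩) (fun x hx => by
              rw [Walk.support_cons, List.mem_cons] at hx
              rcases hx with rfl | hx
              · exact huS
              · exact (Finset.mem_erase.1 (hp'S x hx)).2)
            rw [Walk.length_cons] at h1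
            omega
      exact hdel S u M' huS (ih _ (by rw [← hS]; exact Finset.card_erase_lt_of_mem huS)
        (S.erase u) rfl M' hstep)
    · have hlt : K.card < n := by
        rw [← hS]
        exact Finset.card_lt_card (lt_of_le_of_ne hKS hKe)
      have hlt' : (S \ K).card < n := by
        rw [← hS]
        refine Finset.card_lt_card (Finset.ssubset_iff_subset_ne.2 ⟨Finset.sdiff_subset, fun h => ?_⟩)
        have : u ∈ S \ K := by rw [h]; exact huS
        exact (Finset.mem_sdiff.1 this).2 huK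
      have H₁ := ih _ hlt K rfl M (by
        intro w hw
        obtain ⟨u', h1, h2⟩ := hM w (hKS hw)
        refine ⟨u', (h1.symm.stay hcl hw).symm, fun z p hp hpS => h2 z p hp fun x hx => hKS (hpS x hx)⟩)
      have H₂ := ih _ hlt' (S \ K) rfl M (by
        intro w hw
        obtain ⟨u', h1, h2⟩ := hM w (Finset.mem_sdiff.1 hw).1
        refine ⟨u', (h1.symm.stay hcl' hw).symm, fun z p hp hpS =>
          h2 z p hp fun x hx => (Finset.mem_sdiff.1 (hpS x hx)).1⟩)
      have H := hsplit K (S \ K) M Finset.disjoint_sdiff (fun x hx y hy hxy =>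
        (Finset.mem_sdiff.1 hy).2 (hcl x hx y (Finset.mem_sdiff.1 hy).1 hxy)) H₁ H₂
      rwa [Finset.union_sdiff_of_subset hKS] at H

/-- A property `Q S n` of finite vertex sets `S` and numbers `n` which holds for the empty set,
is monotone in `n`, survives adding a vertex at the cost of increasing `n` by one, and survives
disjoint unions without edges between the parts, holds for the set of all vertices and the
maximal number of vertices of a path. -/
theorem td_induction {P : Type*} [Fintype P] [DecidableEq P] (Γ : SimpleGraph P) (M : ℕ)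
    (hM : ∀ (u v : P) (p : Γ.Walk u v), p.IsPath → p.length + 1 ≤ M)
    (Q : Finset P → ℕ → Prop) (h0 : Q ∅ 0) (hmono : ∀ S n n', n ≤ n' → Q S n → Q S n')
    (hdel : ∀ S x n, x ∈ S → Q (S.erase x) n → Q S (n + 1))
    (hsplit : ∀ S₁ S₂ n, Disjoint S₁ S₂ → (∀ a ∈ S₁, ∀ b ∈ S₂, ¬ Γ.Adj a b) →
      Q S₁ n → Q S₂ n → Q (S₁ ∪ S₂) n) : Q Finset.univ M :=
  td_aux Γ Q h0 hmono hdel hsplit _ Finset.univ rfl M (fun v _ =>
    ⟨v, ⟨Walk.nil, fun x _ => Finset.mem_univ x⟩, fun w p hp _ => hM v w p hp⟩)

end HD21
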