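import Mathlib
import Pool.Agent.HD21.QTree
import Pool.Agent.HD21.QTd

/-!
The recursion: treewidth of a quotient graph of a hierarchy with separators.
-/

namespace HD21

open SimpleGraph

variable {V : Type*} [Fintype V] [DecidableEq V]

/-- The quotient graph of a hierarchy between the levels `i` and `j`. -/
def aqg (L : ℕ → V → V) (T : V → V → Prop) (i j : ℕ) : SimpleGraph V where
  Adj a b := a ≠ b ∧ ∃ u v, (T u v ∨ T v u) ∧ L i u = a ∧ L i v = b ∧ L j u = L j v
  symm := ⟨fun _ _ h => by
    obtain ⟨h1, u, v, h2, h3, h4, h5⟩ := h
    exact ⟨h1.symm, v, u, h2.symm, h4, h3, h5.symm⟩⟩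
  loopless := ⟨fun _ h => h.1 rfl⟩

/-- The recursion. -/
theorem rec_tw (L : ℕ → V → V) (T : V → V → Prop) (m D z : ℕ) (hz : 1 ≤ z)
    (hL1 : ∀ i u, L i (L i u) = L i u)
    (hL2 : ∀ i j u v, i ≤ j → L i u = L i v → L j u = L j v)
    (hT : ∀ u v, T u v → T v u) (Z N : ℕ → V → Finset V)
    (hZ : ∀ i c, (Z i c).card ≤ z) (hN : ∀ i c c', L i c = L i c' → N i c = N i c')
    (hN2 : ∀ i c, N (i + 2) c ⊆ Z i c)
    (hpath : ∀ i, ∀ (a b : V) (p : (aqg L T i (i + 2)).Walk a b), p.IsPath →
      p.length + 1 ≤ D)
    (hsep : ∀ i, i + 2 ≤ m → ∀ (c : V) (F : Finset V), Z i c ⊆ F →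
      (∀ j, i + 2 < j → j ≤ m → N j c ⊆ F) → ∀ v,
      Relation.ReflTransGen (fun u v => L i u = L i v ∨
        (T u v ∧ L m u = L m v ∧ u ∉ F ∧ v ∉ F)) c v → L (i + 1) v = L (i + 1) c) :
    TreewidthLE (aqg L T 0 m) (m * (D * z)) := by
  classical
  obtain ⟨QG, hQG⟩ : ∃ QG : SimpleGraph V, QG = aqg L T 0 m := ⟨_, rfl⟩
  have hedge : ∀ a b, QG.Adj a b → a ≠ b ∧ ∃ u v, T u v ∧ L 0 u = a ∧ L 0 v = b ∧
      L m u = L m v := by
    intro a b hab
    rw [hQG] at hab
    obtain ⟨h1, u, v, h2, h3, h4, h5⟩ := hab
    refine ⟨h1, u, v, ?_, h3, h4, h5⟩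
    rcases h2 with h2 | h2
    · exact h2
    · exact hT _ _ h2
  have hup : ∀ i a u, L 0 u = a → L i u = L i a := by
    intro i a u h
    refine hL2 0 i u a (Nat.zero_le _) ?_
    rw [← h, hL1]
  -- splitting along a partition of cells
  have claim : ∀ i, i ≤ m → ∀ (c : V) (U : Finset V), (∀ u ∈ U, L 0 u = u) →
      (∀ u ∈ U, L i u = L i c) → (∀ j, i < j → j ≤ m → ∀ x ∈ N j c, L 0 x ∉ U) →
      TreewidthLE (resG QG U) (i * (D * z)) := by
    intro i
    induction i using Nat.strong_induction_on with
    | _ i ih =>
      rcases i with _ | _ | i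
      · -- level 0
        intro _ c U hU1 hU2 _
        refine tw_mono (tw_bot (H := resG QG U) ?_) (fun _ _ h => h) (Nat.zero_le _)
        rintro a b ⟨hab, ha, hb⟩
        refine hab.ne ?_
        rw [← hU1 a ha, ← hU1 b hb, hU2 a ha, hU2 b hb]
      · -- level 1
        intro hm c U hU1 hU2 _
        have key := td_induction (aqg L T 0 2) D (hpath 0)
          (fun K n => ∀ U : Finset V, U ⊆ K → (∀ u ∈ U, L 0 u = u) →
            (∀ u ∈ U, L 1 u = L 1 c) → TreewidthLE (resG QG U) n) ?_ ?_ ?_ ?_
        · refine tw_mono (key U (Finset.subset_univ _) hU1 hU2) (fun _ _ h => h) ?_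
          have : D * 1 ≤ D * z := Nat.mul_le_mul_left _ hz
          omega
        · intro U hU _ _
          refine tw_bot ?_
          rintro a b ⟨_, ha, _⟩
          exact absurd (hU ha) (Finset.notMem_empty _)
        · intro S n n' hn hS U h1 h2 h3
          exact tw_mono (hS U h1 h2 h3) (fun _ _ h => h) hn
        · intro S x n hx hS U h1 h2 h3
          have h4 := hS (U.erase x) (Finset.erase_subset_erase _ h1)
            (fun u hu => h2 u (Finset.mem_of_mem_erase hu))
            (fun u hu => h3 u (Finset.mem_of_mem_erase hu))
          have h5 := tw_del (H := resG QG U) {x} h4 ?_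
          · simpa using h5
          · rintro a b ⟨hab, ha, hb⟩ ha' hb'
            rw [Finset.mem_singleton] at ha' hb'
            exact ⟨hab, Finset.mem_erase.mpr ⟨ha', ha⟩, Finset.mem_erase.mpr ⟨hb', hb⟩⟩
        · intro S₁ S₂ n hdis hno h1 h2 U hU hU1 hU2
          have g1 := h1 (U.filter (fun u => u ∈ S₁))
            (fun u hu => (Finset.mem_filter.mp hu).2)
            (fun u hu => hU1 u (Finset.mem_filter.mp hu).1)
            (fun u hu => hU2 u (Finset.mem_filter.mp hu).1)
          have g2 := h2 (U.filter (fun u => u ∉ S₁))
            (fun u hu => by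
              obtain ⟨hu1, hu2⟩ := Finset.mem_filter.mp hu
              rcases Finset.mem_union.mp (hU hu1) with h | h
              · exact absurd h hu2
              · exact h)
            (fun u hu => hU1 u (Finset.mem_filter.mp hu).1)
            (fun u hu => hU2 u (Finset.mem_filter.mp hu).1)
          have hmix : ∀ a b, QG.Adj a b → a ∈ U → b ∈ U → a ∈ S₁ → b ∈ S₁ := by
            intro a b hab ha hb haS
            by_contra hbS
            have hbS2 : b ∈ S₂ := by
              rcases Finset.mem_union.mp (hU hb) with h | h
              · exact absurd h hbS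
              · exact h
            refine hno a haS b hbS2 ?_
            obtain ⟨hne, u, v, huv, hu, hv, _⟩ := hedge a b hab
            refine ⟨hne, u, v, Or.inl huv, hu, hv, ?_⟩
            refine hL2 1 2 u v (by omega) ?_
            rw [hup 1 a u hu, hup 1 b v hv, hU2 a ha, hU2 b hb]
          refine tw_split (fun a => a ∈ S₁) g1 g2 ?_
          rintro a b ⟨hab, ha, hb⟩
          by_cases haS : a ∈ S₁
          · have hbS := hmix a b hab ha hb haS
            exact Or.inl ⟨haS, hbS, hab, Finset.mem_filter.mpr ⟨ha, haS⟩,
              Finset.mem_filter.mpr ⟨hb, hbS⟩⟩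
          · have hbS : b ∉ S₁ := fun h => haS (hmix b a hab.symm hb ha h)
            exact Or.inr ⟨haS, hbS, hab, Finset.mem_filter.mpr ⟨ha, haS⟩,
              Finset.mem_filter.mpr ⟨hb, hbS⟩⟩
      · -- level i + 2
        intro hm c U hU1 hU2 hU3
        have ih1 := ih (i + 1) (by omega) (by omega)
        have key := td_induction (aqg L T i (i + 2)) D (hpath i)
          (fun K n => ∀ U : Finset V, (∀ u ∈ U, L i u ∈ K) → (∀ u ∈ U, L 0 u = u) →
            (∀ u ∈ U, L (i + 2) u = L (i + 2) c) →
            (∀ j, i + 2 < j → j ≤ m → ∀ x ∈ N j c, L 0 x ∉ U) →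
            TreewidthLE (resG QG U) ((i + 1) * (D * z) + n * z)) ?_ ?_ ?_ ?_
        · refine tw_mono (key U (fun _ _ => Finset.mem_univ _) hU1 hU2 hU3)
            (fun _ _ h => h) (le_of_eq ?_)
          ring
        · intro U hU _ _ _
          refine tw_mono (tw_bot (H := resG QG U) ?_) (fun _ _ h => h) (Nat.zero_le _)
          rintro a b ⟨_, ha, _⟩
          exact absurd (hU a ha) (Finset.notMem_empty _)
        · intro S n n' hn hS U h1 h2 h3 h4
          refine tw_mono (hS U h1 h2 h3 h4) (fun _ _ h => h) ?_
          have := Nat.mul_le_mul_right z hn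
          omega
        · -- removing a cell
          intro S x n hx hS U h1 h2 h3 h4
          by_cases hex : ∃ u ∈ U, L i u = x
          · obtain ⟨u₀, hu₀, hu₀x⟩ := hex
            have hxx : L i x = x := by rw [← hu₀x, hL1]
            have hxc : L (i + 2) x = L (i + 2) c := by
              rw [← h3 u₀ hu₀]
              refine hL2 i (i + 2) x u₀ (by omega) ?_
              rw [hxx, hu₀x]
            obtain ⟨U', hU'⟩ : ∃ U' : Finset V, U' = U \ (Z i x).image (L 0) := ⟨_, rfl⟩
            have hU'U : U' ⊆ U := by
              rw [hU']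
              exact Finset.sdiff_subset
            obtain ⟨F, hF⟩ : ∃ F : Finset V, F = Finset.univ.filter (fun v => L 0 v ∉ U') :=
              ⟨_, rfl⟩
            have hmF : ∀ v, v ∈ F ↔ L 0 v ∉ U' := by
              intro v
              rw [hF]
              simp
            have hZF : Z i x ⊆ F := by
              intro v hv
              rw [hmF, hU']
              intro h
              exact (Finset.mem_sdiff.mp h).2 (Finset.mem_image_of_mem _ hv)
            have hNF : ∀ j, i + 2 < j → j ≤ m → N j x ⊆ F := by
              intro j hj hjm v hv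
              rw [hmF]
              intro h
              have hjc : N j x = N j c := hN j x c (hL2 (i + 2) j x c (by omega) hxc)
              rw [hjc] at hv
              exact h4 j hj hjm v hv (hU'U h)
            have hsepx := hsep i hm x F hZF hNF
            -- the part reachable from the cell
            obtain ⟨Rx, hRx⟩ : ∃ Rx : V → Prop, Rx = fun u => ∃ w ∈ U', L i w = x ∧
                (resG QG U').Reachable w u := ⟨_, rfl⟩
            have hR1 : ∀ u, Rx u → L (i + 1) u = L (i + 1) x := by
              intro u hu
              rw [hRx] at hu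
              obtain ⟨w, hw, hwx, ⟨p⟩⟩ := hu
              refine hsepx u ?_
              have hstart : Relation.ReflTransGen (fun u v => L i u = L i v ∨
                  (T u v ∧ L m u = L m v ∧ u ∉ F ∧ v ∉ F)) x w :=
                Relation.ReflTransGen.single (Or.inl (by rw [hxx, hwx]))
              refine hstart.trans ?_
              clear hstart hwx hw
              induction p with
              | nil => exact Relation.ReflTransGen.refl
              | @cons a b d hab p ihp =>
                refine Relation.ReflTransGen.trans ?_ ihp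
                obtain ⟨hab1, ha, hb⟩ := hab
                obtain ⟨_, y, y', hT', hy, hy', hmm⟩ := hedge a b hab1
                have hyF : y ∉ F := by
                  rw [hmF, hy]
                  exact fun h => h ha
                have hy'F : y' ∉ F := by
                  rw [hmF, hy']
                  exact fun h => h hb
                refine Relation.ReflTransGen.head (b := y) (Or.inl (hup i a y hy).symm) ?_
                refine Relation.ReflTransGen.head (b := y')
                  (Or.inr ⟨hT', hmm, hyF, hy'F⟩) ?_
                exact Relation.ReflTransGen.single (Or.inl (hup i b y' hy'))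
            have hR2 : ∀ a b, (resG QG U').Adj a b → Rx a → Rx b := by
              intro a b hab ha
              rw [hRx] at ha ⊢
              obtain ⟨w, hw, hwx, hr⟩ := ha
              exact ⟨w, hw, hwx, hr.trans hab.reachable⟩
            have hR3 : ∀ u ∈ U', L i u = x → Rx u := by
              intro u hu hux
              rw [hRx]
              exact ⟨u, hu, hux, Reachable.refl _⟩
            -- first part
            have g1 := ih1 x (U'.filter Rx)
              (fun u hu => h2 u (hU'U (Finset.mem_filter.mp hu).1))
              (fun u hu => hR1 u (Finset.mem_filter.mp hu).2)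
              (by
                intro j hj hjm y hy hyU
                have hyU' := (Finset.mem_filter.mp hyU).1
                have hyF : y ∈ F := by
                  rcases Nat.lt_or_ge (i + 2) j with h | h
                  · exact hNF j h hjm hy
                  · have : j = i + 2 := by omega
                    subst this
                    exact hZF (hN2 i x hy)
                exact (hmF y).mp hyF hyU')
            -- second part
            have g2 := hS (U'.filter (fun u => ¬ Rx u))
              (fun u hu => by
                obtain ⟨hu1, hu2⟩ := Finset.mem_filter.mp hu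
                exact Finset.mem_erase.mpr ⟨fun h => hu2 (hR3 u hu1 h), h1 u (hU'U hu1)⟩)
              (fun u hu => h2 u (hU'U (Finset.mem_filter.mp hu).1))
              (fun u hu => h3 u (hU'U (Finset.mem_filter.mp hu).1))
              (fun j hj hjm y hy hyU => h4 j hj hjm y hy (hU'U (Finset.mem_filter.mp hyU).1))
            have g3 : TreewidthLE (resG QG U') ((i + 1) * (D * z) + n * z) := by
              refine tw_split Rx (tw_mono g1 (fun _ _ h => h) (Nat.le_add_right _ _)) g2 ?_
              intro a b hab
              by_cases ha : Rx a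
              · have hb := hR2 a b hab ha
                exact Or.inl ⟨ha, hb, hab.1, Finset.mem_filter.mpr ⟨hab.2.1, ha⟩,
                  Finset.mem_filter.mpr ⟨hab.2.2, hb⟩⟩
              · have hb : ¬ Rx b := fun h => ha (hR2 b a hab.symm h)
                exact Or.inr ⟨ha, hb, hab.1, Finset.mem_filter.mpr ⟨hab.2.1, ha⟩,
                  Finset.mem_filter.mpr ⟨hab.2.2, hb⟩⟩
            have g4 := tw_del (H := resG QG U) ((Z i x).image (L 0)) g3 ?_
            · refine tw_mono g4 (fun _ _ h => h) ?_
              have h5 : ((Z i x).image (L 0)).card ≤ z := Finset.card_image_le.trans (hZ i x)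
              have h6 : (n + 1) * z = n * z + z := by ring
              omega
            · rintro a b ⟨hab, ha, hb⟩ ha' hb'
              rw [hU']
              exact ⟨hab, Finset.mem_sdiff.mpr ⟨ha, ha'⟩, Finset.mem_sdiff.mpr ⟨hb, hb'⟩⟩
          · push Not at hex
            have g2 := hS U (fun u hu => Finset.mem_erase.mpr ⟨hex u hu, h1 u hu⟩) h2 h3 h4
            refine tw_mono g2 (fun _ _ h => h) ?_
            have h6 : (n + 1) * z = n * z + z := by ring
            omega
        · -- splitting
          intro S₁ S₂ n hdis hno h1 h2 U hU hU1 hU2 hU3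
          have g1 := h1 (U.filter (fun u => L i u ∈ S₁))
            (fun u hu => (Finset.mem_filter.mp hu).2)
            (fun u hu => hU1 u (Finset.mem_filter.mp hu).1)
            (fun u hu => hU2 u (Finset.mem_filter.mp hu).1)
            (fun j hj hjm y hy hyU => hU3 j hj hjm y hy (Finset.mem_filter.mp hyU).1)
          have g2 := h2 (U.filter (fun u => L i u ∉ S₁))
            (fun u hu => by
              obtain ⟨hu1, hu2⟩ := Finset.mem_filter.mp hu
              rcases Finset.mem_union.mp (hU u hu1) with h | h
              · exact absurd h hu2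
              · exact h)
            (fun u hu => hU1 u (Finset.mem_filter.mp hu).1)
            (fun u hu => hU2 u (Finset.mem_filter.mp hu).1)
            (fun j hj hjm y hy hyU => hU3 j hj hjm y hy (Finset.mem_filter.mp hyU).1)
          have hmix : ∀ a b, QG.Adj a b → a ∈ U → b ∈ U → L i a ∈ S₁ → L i b ∈ S₁ := by
            intro a b hab ha hb haS
            by_contra hbS
            have hbS2 : L i b ∈ S₂ := by
              rcases Finset.mem_union.mp (hU b hb) with h | h
              · exact absurd h hbS
              · exact h
            obtain ⟨hne, u, v, huv, hu, hv, _⟩ := hedge a b hab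
            refine hno _ haS _ hbS2 ⟨?_, u, v, Or.inl huv, hup i a u hu, hup i b v hv, ?_⟩
            · intro h
              rw [h] at haS
              exact hbS haS
            · rw [hup (i + 2) a u hu, hup (i + 2) b v hv, hU2 a ha, hU2 b hb]
          refine tw_split (fun a => L i a ∈ S₁) g1 g2 ?_
          rintro a b ⟨hab, ha, hb⟩
          by_cases haS : L i a ∈ S₁
          · have hbS := hmix a b hab ha hb haS
            exact Or.inl ⟨haS, hbS, hab, Finset.mem_filter.mpr ⟨ha, haS⟩,
              Finset.mem_filter.mpr ⟨hb, hbS⟩⟩
          · have hbS : L i b ∉ S₁ := fun h => haS (hmix b a hab.symm hb ha h)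
            exact Or.inr ⟨haS, hbS, hab, Finset.mem_filter.mpr ⟨ha, haS⟩,
              Finset.mem_filter.mpr ⟨hb, hbS⟩⟩
  -- union over the clusters of level `m`
  obtain ⟨n, ⟨e⟩⟩ := Finite.exists_equiv_fin V
  rw [← hQG]
  refine tw_union (fun v => (e (L m v) : ℕ))
    (fun k => resG QG (Finset.univ.filter (fun u => L 0 u = u ∧ (e (L m u) : ℕ) = k))) ?_ ?_
  · intro k
    by_cases hk : ∃ c, (e (L m c) : ℕ) = k
    · obtain ⟨c, hck⟩ := hk
      refine claim m le_rfl c _ ?_ ?_ ?_
      · intro u hu
        exact (Finset.mem_filter.mp hu).2.1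
      · intro u hu
        have h1 := (Finset.mem_filter.mp hu).2.2
        rw [← hck] at h1
        exact e.injective (Fin.ext h1)
      · intro j hj hjm
        omega
    · refine tw_mono (tw_bot ?_) (fun _ _ h => h) (Nat.zero_le _)
      rintro a b ⟨_, ha, _⟩
      exact hk ⟨a, (Finset.mem_filter.mp ha).2.2⟩
  · intro a b hab
    obtain ⟨hne, u, v, huv, hu, hv, hmm⟩ := hedge a b hab
    have h1 : L m a = L m b := by
      rw [← hup m a u hu, ← hup m b v hv, hmm]
    have ha : L 0 a = a := by rw [← hu, hL1]
    have hb : L 0 b = b := by rw [← hv, hL1]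
    refine ⟨by rw [h1], hab, ?_, ?_⟩
    · exact Finset.mem_filter.mpr ⟨Finset.mem_univ _, ha, rfl⟩
    · exact Finset.mem_filter.mpr ⟨Finset.mem_univ _, hb, by rw [h1]⟩

end HD21
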