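import Mathlib
import Pool.Agent.HD21.QClosure

/-!
The separators.
-/

namespace HD21

open SimpleGraph

variable {V : Type*} [Fintype V] [LinearOrder V] {G : SimpleGraph V} {wt : Sym2 V → ℝ}

/-- Long edges at a cluster are met by the two sets of cover points near the cluster. -/
theorem far_edge (h0 : ∀ e, 0 ≤ wt e) (hc : G.Connected) {h : ℕ} {S : ℝ → Finset V}
    (hS : Covers G wt h S) {C : ℝ} (hC : 1 ≤ C) (hU : UD C (gdist G wt)) {s : ℝ} (hs : 0 < s)
    {c u y : V} (hcu : rep (gdist G wt) s u = rep (gdist G wt) s c) (hT : Tight G wt u y)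
    (h1 : 2 * C * s < gdist G wt u y) (h2 : gdist G wt u y ≤ 4 * C * s) :
    u ∈ farN (gdist G wt) S C s c ∨ y ∈ farN (gdist G wt) S C s c := by
  classical
  have hd : IsPM (gdist G wt) := isPM_gdist h0 hc
  have hCs : 0 < C * s := mul_pos (by linarith) hs
  have hru : gdist G wt (rep (gdist G wt) s c) u ≤ C * s := by
    rw [← hcu]
    exact hU s hs.le _ _ ((rep_chained (gdist G wt) s u).symm hd)
  have hry : gdist G wt (rep (gdist G wt) s c) y ≤ C * s + gdist G wt u y := by
    have := hd.tri (rep (gdist G wt) s c) u y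
    linarith
  have hpath : IsShortest G wt (Walk.cons hT.1 Walk.nil) := by
    refine ⟨?_, ?_⟩
    · simp [Walk.cons_isPath_iff, hT.1.ne]
    · simp [hT.2]
  have hlen : wlen wt (Walk.cons hT.1 Walk.nil) = gdist G wt u y := hpath.2
  by_cases h3 : gdist G wt u y ≤ 3 * C * s
  · obtain ⟨x, hxS, hx⟩ := hS.spc (2 * C * s) (by linarith) u y _ hpath
      (by rw [hlen]; exact h1) (by rw [hlen]; linarith)
    have hx' : x = u ∨ x = y := by simpa using hx
    rcases hx' with rfl | rfl
    · left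
      refine Finset.mem_union_left _ (Finset.mem_filter.mpr ⟨by simpa using hxS, ?_⟩)
      linarith
    · right
      refine Finset.mem_union_left _ (Finset.mem_filter.mpr ⟨by simpa using hxS, ?_⟩)
      linarith
  · push Not at h3
    obtain ⟨x, hxS, hx⟩ := hS.spc (3 * C * s) (by linarith) u y _ hpath
      (by rw [hlen]; exact h3) (by rw [hlen]; linarith)
    have hx' : x = u ∨ x = y := by simpa using hx
    rcases hx' with rfl | rfl
    · left
      refine Finset.mem_union_right _ (Finset.mem_filter.mpr ⟨by simpa using hxS, ?_⟩)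
      linarith
    · right
      refine Finset.mem_union_right _ (Finset.mem_filter.mpr ⟨by simpa using hxS, ?_⟩)
      linarith

/-- All long edges at a cluster inside a cluster at threshold `2 ^ e * s` are met by the sets of
cover points near the larger clusters. -/
theorem far_edges (h0 : ∀ e, 0 ≤ wt e) (hc : G.Connected) {h : ℕ} {S : ℝ → Finset V}
    (hS : Covers G wt h S) {C : ℝ} (hC : 1 ≤ C) (hU : UD C (gdist G wt)) {s : ℝ} (hs : 0 < s)
    {c u y : V} (hcu : rep (gdist G wt) s u = rep (gdist G wt) s c) (hT : Tight G wt u y)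
    (h1 : 2 * C * s < gdist G wt u y) (e : ℕ)
    (h2 : rep (gdist G wt) (2 ^ e * s) u = rep (gdist G wt) (2 ^ e * s) y) :
    ∃ j ≤ e, u ∈ farN (gdist G wt) S C (2 ^ j * s) c ∨ y ∈ farN (gdist G wt) S C (2 ^ j * s) c := by
  classical
  have hd : IsPM (gdist G wt) := isPM_gdist h0 hc
  have hCs : 0 < C * s := mul_pos (by linarith) hs
  have hse : 0 < 2 ^ e * s := by positivity
  have hde : gdist G wt u y ≤ C * (2 ^ e * s) :=
    hU _ hse.le _ _ ((rep_eq_iff hd).mp h2)
  -- the least `j` with `d ≤ 2 C 2^(j+1) s`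
  have hex : ∃ j, gdist G wt u y ≤ 4 * C * (2 ^ j * s) := by
    refine ⟨e, ?_⟩
    have : 0 < C * (2 ^ e * s) := mul_pos (by linarith) hse
    linarith
  have hj2 : gdist G wt u y ≤ 4 * C * (2 ^ (Nat.find hex) * s) := Nat.find_spec hex
  have hje : Nat.find hex ≤ e := by
    refine Nat.find_min' hex ?_
    have : 0 < C * (2 ^ e * s) := mul_pos (by linarith) hse
    linarith
  have hj1 : 2 * C * (2 ^ (Nat.find hex) * s) < gdist G wt u y := by
    rcases Nat.eq_zero_or_pos (Nat.find hex) with h | h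
    · rw [h]; simpa using h1
    · obtain ⟨k, hk⟩ := Nat.exists_eq_succ_of_ne_zero h.ne'
      have h3 : ¬ gdist G wt u y ≤ 4 * C * (2 ^ k * s) :=
        Nat.find_min hex (by omega)
      rw [hk, Nat.succ_eq_add_one, pow_succ]
      push Not at h3
      calc 2 * C * (2 ^ k * 2 * s) = 4 * C * (2 ^ k * s) := by ring
        _ < _ := h3
  refine ⟨Nat.find hex, hje, far_edge h0 hc hS hC hU (by positivity) ?_ hT hj1 hj2⟩
  refine (rep_eq_iff hd).mpr (Chained.mono ?_ ((rep_eq_iff hd).mp hcu))
  have : (1 : ℝ) ≤ 2 ^ (Nat.find hex) := one_le_pow₀ (by norm_num)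
  nlinarith

private theorem mem_sepX_aux {V : Type*} {d : V → V → ℝ} {S : ℝ → Finset V} {q Q s : ℝ} {n J M k : ℕ} {c z : V}
    (hk : k < M) (hz : z ∈ clo d S (gridR (s * Q ^ k) q n) c (J + 1)) : z ∈ sepX d S q Q n J M s c := by
  classical
  unfold sepX
  rw [Finset.mem_biUnion]
  exact ⟨k, Finset.mem_range.2 hk, hz⟩

/-- Edges at the cluster of `c` at threshold `s Q ^ k` which are not met by the separator are
short. -/
theorem edge_short (h0 : ∀ e, 0 ≤ wt e) (hc : G.Connected) {h : ℕ} {S : ℝ → Finset V}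
    (hS : Covers G wt h S) {C : ℝ} (hC : 1 ≤ C) (hU : UD C (gdist G wt)) {q κ : ℝ}
    {n J M : ℕ} (hq : 1 < q) (hq2 : q < 2) (hκ : 1 ≤ κ * (2 - q)) (hn : 5 * C ≤ q ^ n)
    (hJ : ∀ t, 0 < t → ∀ c u, Chained (gdist G wt) t c u → ∃ (x : ℕ → V) (m : ℕ), m ≤ J ∧
      x 0 = c ∧ x m = u ∧ ∀ i < m, gdist G wt (x i) (x (i + 1)) ≤ t)
    {s : ℝ} (hs : 0 < s) {c : V} {k : ℕ} (hk : k < M) {u y : V}
    (hcu : Chained (gdist G wt) (s * (κ * q) ^ k) c u) (hT : Tight G wt u y)
    (hlen : gdist G wt u y ≤ 4 * C * s)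
    (hu : u ∉ sepX (gdist G wt) S q (κ * q) n J M s c)
    (hy : y ∉ sepX (gdist G wt) S q (κ * q) n J M s c) :
    gdist G wt u y ≤ s * (κ * q) ^ (k + 1) := by
  have h2q : 0 < 2 - q := by linarith
  have hκ1 : 1 ≤ κ := by
    by_contra h
    push Not at h
    have h3 : κ * (2 - q) < 1 * (2 - q) := mul_lt_mul_of_pos_right h h2q
    linarith
  have hκq : 1 ≤ κ * q := by nlinarith
  obtain ⟨t, ht⟩ : ∃ t, t = s * (κ * q) ^ k := ⟨_, rfl⟩
  have hst : s ≤ t := by
    rw [ht]
    exact le_mul_of_one_le_right hs.le (one_le_pow₀ hκq)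
  have ht0 : 0 < t := hs.trans_le hst
  rw [← ht] at hcu
  obtain ⟨x, m, hm, hx0, hxm, hx⟩ := hJ t ht0 c u hcu
  have hch : ∀ i, ∀ l, i + l ≤ m → Chained (gdist G wt) t (x i) (x (i + l)) := by
    intro i l
    induction l with
    | zero => intro _; exact Chained.refl _ _ _
    | succ l ih =>
      intro h
      exact (ih (by omega)).trans (Chained.single (hx (i + l) (by omega)))
  have hCt : C * t ≤ 5 * C * t := by nlinarith
  have hd1 : ∀ i ≤ m, gdist G wt (x i) (x m) ≤ C * t := by
    intro i hi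
    have h3 := hch i (m - i) (by omega)
    rw [Nat.add_sub_cancel' hi] at h3
    exact hU t ht0.le _ _ h3
  have hpm := isPM_gdist h0 hc
  have hsub : ∀ z, z ∈ clo (gdist G wt) S (gridR t q n) (x 0) (m + 1) →
      z ∈ sepX (gdist G wt) S q (κ * q) n J M s c := by
    intro z hz
    rw [hx0] at hz
    have h3 := clo_mono (gdist G wt) S (gridR t q n) c (show m + 1 ≤ J + 1 by omega) hz
    exact mem_sepX_aux hk (by rw [← ht]; exact h3)
  have key := closure_edge h0 hc hS (t := t) (q := q) (κ := κ) (D := 5 * C * t) (n := n) ht0 hq hq2 hκ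
    (by
      have h3 := mul_le_mul_of_nonneg_right hn ht0.le
      linarith) x m hx (fun i hi => (hd1 i hi).trans hCt) y
    (by
      intro i hi
      have h3 := hpm.tri (x i) (x m) y
      have h4 := hd1 i hi
      rw [hxm] at h3 h4
      have h5 : C * s ≤ C * t := mul_le_mul_of_nonneg_left hst (by linarith)
      linarith) (by rw [hxm]; exact hT)
    (fun h => hu (by rw [← hxm]; exact hsub _ h)) (fun h => hy (hsub _ h))
  rw [hxm] at key
  refine key.trans (le_of_eq ?_)
  rw [ht, pow_succ]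
  ring

/-- The separation property: from the cluster of `c` at threshold `s` one cannot leave the
cluster at threshold `2s` by steps inside clusters at threshold `s` and edges avoiding `F`. -/
theorem separation (h0 : ∀ e, 0 ≤ wt e) (hc : G.Connected) {h : ℕ} {S : ℝ → Finset V}
    (hS : Covers G wt h S) {C : ℝ} (hC : 1 ≤ C) (hU : UD C (gdist G wt)) {q κ : ℝ}
    {n J M : ℕ} (hq : 1 < q) (hq2 : q < 2) (hκ : 1 ≤ κ * (2 - q)) (hn : 5 * C ≤ q ^ n)
    (hJ : ∀ t, 0 < t → ∀ c u, Chained (gdist G wt) t c u → ∃ (x : ℕ → V) (m : ℕ), m ≤ J ∧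
      x 0 = c ∧ x m = u ∧ ∀ i < m, gdist G wt (x i) (x (i + 1)) ≤ t)
    {s : ℝ} (hs : 0 < s) (hQM : (κ * q) ^ M ≤ 2) {c : V} {F : Finset V}
    (hF : sepX (gdist G wt) S q (κ * q) n J M s c ⊆ F) {T : V → V → Prop}
    (hTs : ∀ u v, T u v → T v u) (hT : ∀ u v, T u v → Tight G wt u v ∧ u ∉ F ∧ v ∉ F)
    (hfar : ∀ u v, T u v → rep (gdist G wt) (2 * s) u = rep (gdist G wt) (2 * s) c →
      gdist G wt u v ≤ 4 * C * s)
    (hM : ∀ (a b : V) (p : (qg (gdist G wt) T s (2 * s)).Walk a b), p.IsPath →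
      p.length + 1 ≤ M) (v : V)
    (hv : Relation.ReflTransGen (fun u v => rep (gdist G wt) s u = rep (gdist G wt) s v ∨ T u v)
      c v) : rep (gdist G wt) (2 * s) v = rep (gdist G wt) (2 * s) c := by
  classical
  have hd : IsPM (gdist G wt) := isPM_gdist h0 hc
  have hκ1 : 1 ≤ κ := by
    by_contra hcon
    push Not at hcon
    have h2 : κ * (2 - q) ≤ 1 * (2 - q) := mul_le_mul_of_nonneg_right hcon.le (by linarith)
    linarith
  have hQ1 : 1 ≤ κ * q := by
    calc (1 : ℝ) = 1 * 1 := (mul_one 1).symm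
      _ ≤ κ * q := mul_le_mul hκ1 hq.le zero_le_one (by linarith)
  have hM1 : 1 ≤ M := by
    have := hM c c SimpleGraph.Walk.nil SimpleGraph.Walk.IsPath.nil
    simpa using this
  have hpow : ∀ j, j ≤ M → s * (κ * q) ^ j ≤ 2 * s := by
    intro j hj
    have h1 : (κ * q) ^ j ≤ 2 := (pow_le_pow_right₀ hQ1 hj).trans hQM
    nlinarith
  have hpow1 : ∀ j, s ≤ s * (κ * q) ^ j := by
    intro j
    have h1 : 1 ≤ (κ * q) ^ j := one_le_pow₀ hQ1
    nlinarith
  have hrep : ∀ {t : ℝ} {x y : V}, Chained (gdist G wt) t x y → t ≤ 2 * s →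
      rep (gdist G wt) (2 * s) y = rep (gdist G wt) (2 * s) x := by
    intro t x y hxy ht
    exact ((rep_eq_iff hd).2 (hxy.mono ht)).symm
  have hss : s ≤ 2 * s := by linarith
  -- short edges
  have hedge : ∀ j, j < M → ∀ u w, Chained (gdist G wt) (s * (κ * q) ^ j) c u → T u w →
      gdist G wt u w ≤ s * (κ * q) ^ (j + 1) := by
    intro j hj u w hcu hTuw
    obtain ⟨h1, h2, h3⟩ := hT u w hTuw
    exact edge_short h0 hc hS hC hU hq hq2 hκ hn hJ hs hj hcu h1
      (hfar u w hTuw (hrep hcu (hpow j hj.le))) (fun h => h2 (hF h)) (fun h => h3 (hF h))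
  -- (A)
  have hA : ∀ x, (qg (gdist G wt) T s (2 * s)).Reachable (rep (gdist G wt) s c)
      (rep (gdist G wt) s x) → Chained (gdist G wt) (s * (κ * q) ^ (M - 1)) c x := by
    intro x hx
    obtain ⟨p, hp⟩ := hx.exists_isPath
    have hpM := hM _ _ p hp
    have hind : ∀ j, j ≤ p.length → Chained (gdist G wt) (s * (κ * q) ^ j) c (p.getVert j) := by
      intro j
      induction j with
      | zero =>
        intro _
        rw [SimpleGraph.Walk.getVert_zero, pow_zero, mul_one]
        exact rep_chained _ _ _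
      | succ j ih =>
        intro hj
        have h1 := ih (by omega)
        have hadj := p.adj_getVert_succ (show j < p.length by omega)
        obtain ⟨-, u, w, hTuw, hu, hw, -⟩ := hadj
        have hT' : T u w := hTuw.elim id (hTs w u)
        have h2 : Chained (gdist G wt) (s * (κ * q) ^ j) c u := by
          refine h1.trans ?_
          rw [← hu]
          exact ((rep_chained (gdist G wt) s u).symm hd).mono (hpow1 j)
        have h3 := hedge j (by omega) u w h2 hT'
        have h4 : s * (κ * q) ^ j ≤ s * (κ * q) ^ (j + 1) :=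
          mul_le_mul_of_nonneg_left (pow_le_pow_right₀ hQ1 (Nat.le_succ j)) hs.le
        have h5 : Chained (gdist G wt) (s * (κ * q) ^ (j + 1)) c w :=
          (h2.mono h4).trans (Chained.single h3)
        refine h5.trans ?_
        rw [← hw]
        exact (rep_chained (gdist G wt) s w).mono (hpow1 (j + 1))
    have h1 := hind p.length le_rfl
    rw [SimpleGraph.Walk.getVert_length] at h1
    have h2 : s * (κ * q) ^ p.length ≤ s * (κ * q) ^ (M - 1) :=
      mul_le_mul_of_nonneg_left (pow_le_pow_right₀ hQ1 (by omega)) hs.le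
    exact (h1.mono h2).trans (((rep_chained (gdist G wt) s x).symm hd).mono (hpow1 _))
  -- (B)
  have hB : (qg (gdist G wt) T s (2 * s)).Reachable (rep (gdist G wt) s c)
      (rep (gdist G wt) s v) ∧ rep (gdist G wt) (2 * s) v = rep (gdist G wt) (2 * s) c := by
    induction hv with
    | refl => exact ⟨SimpleGraph.Reachable.refl _, rfl⟩
    | @tail x y _ hxy ih =>
      obtain ⟨h1, h2⟩ := ih
      rcases hxy with hxy | hxy
      · refine ⟨hxy ▸ h1, ?_⟩
        rw [← h2]
        exact hrep ((rep_eq_iff hd).1 hxy) hss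
      · have h3 := hedge (M - 1) (by omega) x y (hA x h1) hxy
        have h4 : M - 1 + 1 = M := by omega
        rw [h4] at h3
        have h5 : rep (gdist G wt) (2 * s) y = rep (gdist G wt) (2 * s) x :=
          hrep (Chained.single (h3.trans (hpow M le_rfl))) le_rfl
        refine ⟨?_, h5.trans h2⟩
        by_cases h6 : rep (gdist G wt) s x = rep (gdist G wt) s y
        · exact h6 ▸ h1
        · exact h1.trans (SimpleGraph.Adj.reachable ⟨h6, x, y, Or.inl hxy, rfl, rfl, h5.symm⟩)
  exact hB.2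

end HD21
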