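import Mathlib
import Pool.Agent.HD21.QPath
import Pool.Agent.HD21.QSep
import Pool.Agent.HD21.QRec

/-!
The treewidth of the quotient graphs.
-/

namespace HD21

open SimpleGraph

/-- Covers as a family. -/
theorem exists_covers {V : Type*} [Fintype V] {G : SimpleGraph V} {wt : Sym2 V → ℝ} {h : ℕ}
    (hh : HighwayDimLE G wt h) : ∃ S : ℝ → Finset V, Covers G wt h S := by
  classical
  choose! S hS using hh
  refine ⟨fun r => (S r).toFinset, ?_, ?_⟩
  · intro r hr
    have h1 := (hS r hr).1
    simpa using h1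
  · intro r hr v
    have h1 := (hS r hr).2 v
    rw [Set.ncard_eq_toFinset_card'] at h1
    refine le_trans (Finset.card_le_card ?_) h1
    intro x hx
    simp only [near, Finset.mem_filter, Set.mem_toFinset] at hx
    simp only [Set.mem_toFinset, Set.mem_inter_iff, Set.mem_setOf_eq]
    exact hx

/-- The numerical parameters. -/
theorem exists_qκ (M : ℕ) : ∃ q κ : ℝ, 1 < q ∧ q < 2 ∧ 1 ≤ κ * (2 - q) ∧ 0 < κ ∧
    (κ * q) ^ M ≤ 2 := by
  set ε : ℝ := 1 / (8 * (M + 1)) with hε
  have hM : (0 : ℝ) ≤ M := Nat.cast_nonneg M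
  have hε0 : 0 < ε := by positivity
  have hε1 : ε ≤ 1 / 8 := by
    rw [hε]
    apply one_div_le_one_div_of_le (by norm_num)
    linarith
  refine ⟨1 + ε, 1 / (1 - ε), by linarith, by linarith, ?_, ?_, ?_⟩
  · have : (2 : ℝ) - (1 + ε) = 1 - ε := by ring
    rw [this, one_div, inv_mul_cancel₀ (by linarith)]
  · apply one_div_pos.mpr
    linarith
  · have h1 : 1 / (1 - ε) * (1 + ε) ≤ 1 + 4 * ε := by
      rw [one_div, inv_mul_le_iff₀ (by linarith)]
      nlinarith
    have h2 : 0 ≤ 1 / (1 - ε) * (1 + ε) := by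
      apply mul_nonneg
      · apply one_div_nonneg.mpr
        linarith
      · linarith
    have h3 : 1 + 4 * ε ≤ Real.exp (4 * ε) := by
      have := Real.add_one_le_exp (4 * ε)
      linarith
    have h4 : (1 / (1 - ε) * (1 + ε)) ^ M ≤ Real.exp (4 * ε) ^ M :=
      pow_le_pow_left₀ h2 (h1.trans h3) M
    refine h4.trans ?_
    rw [← Real.exp_nat_mul]
    have h5 : (M : ℝ) * (4 * ε) ≤ 1 / 2 := by
      rw [hε]
      rw [show (M : ℝ) * (4 * (1 / (8 * (M + 1)))) = M / (2 * (M + 1)) by field_simp; ring]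
      rw [div_le_div_iff₀ (by positivity) (by norm_num)]
      linarith
    refine (Real.exp_le_exp.mpr h5).trans ?_
    have h6 : Real.exp (1 / 2) ≤ 2 := by
      have h7 : Real.exp (1 / 2) ^ 2 = Real.exp 1 := by
        rw [← Real.exp_nat_mul]
        norm_num
      have h8 := Real.exp_one_lt_d9
      have h9 := Real.exp_pos (1 / 2)
      nlinarith
    exact h6

/-- **The treewidth of the quotient graphs.** -/
theorem qg_treewidth (h : ℕ) (C : ℝ) : ∃ K : ℕ,
    ∀ (V : Type) [Fintype V] [LinearOrder V] (G : SimpleGraph V) (wt : Sym2 V → ℝ),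
    (∀ e, 0 ≤ wt e) → G.Connected → HighwayDimLE G wt h → UD C (gdist G wt) →
    ∀ (σ : ℝ) (m : ℕ), 0 < σ →
      TreewidthLE (qg (gdist G wt) (Tight G wt) σ (2 ^ m * σ)) (m * K) := by
  classical
  -- the constants
  obtain ⟨C', hC', hCC'⟩ : ∃ C' : ℝ, 1 ≤ C' ∧ C ≤ C' := ⟨max C 1, le_max_right _ _, le_max_left _ _⟩
  set η : ℝ := 0.01 / (8 * 2 ^ (h + 1)) with hη
  have hη0 : 0 < η := by positivity
  have hη2 : 8 * η * 2 ^ (h + 1) ≤ 0.01 := by
    rw [hη]
    refine le_of_eq ?_
    field_simp
  obtain ⟨K, hK⟩ := pow_unbounded_of_one_lt (max 2.4 (max (4 * C' / 0.48) (C' * C' / 0.48)))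
    (show (1 : ℝ) < 1 + η by linarith)
  have hK1 : 2.4 ≤ (1 + η) ^ K := le_trans (le_max_left _ _) hK.le
  have hK2 : 4 * C' ≤ 0.48 * (1 + η) ^ K := by
    have := lt_of_le_of_lt ((le_max_left _ _).trans (le_max_right _ _)) hK
    rw [div_lt_iff₀ (by norm_num)] at this
    linarith
  have hK3 : C' * C' ≤ 0.48 * (1 + η) ^ K := by
    have := lt_of_le_of_lt ((le_max_right _ _).trans (le_max_right _ _)) hK
    rw [div_lt_iff₀ (by norm_num)] at this
    linarith
  set M := cellBoundH h K K with hMdef
  set J := 2 * M with hJdef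
  obtain ⟨q, κ, hq, hq2, hκ, hκ0, hQM⟩ := exists_qκ M
  obtain ⟨n, hn⟩ := pow_unbounded_of_one_lt (5 * C') hq
  set z : ℕ := M * (1 + (n + 1) * h) ^ (J + 1) + 2 * h + 2 * h + 1 with hz
  refine ⟨M * z, ?_⟩
  intro V _ _ G wt h0 hc hh hU σ m hσ
  have hU' : UD C' (gdist G wt) := fun s hs u v huv =>
    (hU s hs u v huv).trans (mul_le_mul_of_nonneg_right hCC' hs)
  have hd := isPM_gdist (G := G) (wt := wt) h0 hc
  obtain ⟨S, hS⟩ := exists_covers hh
  set d := gdist G wt with hdd
  set s : ℕ → ℝ := fun i => 2 ^ i * σ with hs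
  have hs0 : ∀ i, 0 < s i := fun i => by
    simp only [hs]
    positivity
  have hs1 : ∀ i, s (i + 1) = 2 * s i := fun i => by
    simp only [hs]
    rw [pow_succ]
    ring
  have hsm : ∀ i j, i ≤ j → s i ≤ s j := fun i j hij => by
    simp only [hs]
    exact mul_le_mul_of_nonneg_right (pow_le_pow_right₀ (by norm_num) hij) hσ.le
  set L : ℕ → V → V := fun i => rep d (s i) with hL
  set N : ℕ → V → Finset V := fun i c => farN d S C' (s i) c with hN
  set Z : ℕ → V → Finset V := fun i c =>
    (sepX d S q (κ * q) n J M (s i) c ∪ N (i + 1) c) ∪ N (i + 2) c with hZ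
  have hJ : ∀ t, 0 < t → ∀ c u, Chained d t c u → ∃ (x : ℕ → V) (m : ℕ), m ≤ J ∧
      x 0 = c ∧ x m = u ∧ ∀ i < m, d (x i) (x (i + 1)) ≤ t := by
    intro t ht c u hcu
    exact reach_few h0 hc hh hC' hU' hη0 hη2 hK1 hK3 ht hcu
  have hLm : ∀ i j u v, i ≤ j → L i u = L i v → L j u = L j v := by
    intro i j u v hij huv
    exact (rep_eq_iff hd).mpr (((rep_eq_iff hd).mp huv).mono (hsm i j hij))
  have hmain : TreewidthLE (aqg L (Tight G wt) 0 m) (m * (M * z)) := by
    refine rec_tw L (Tight G wt) m M z (by omega) ?_ hLm (fun _ _ h => h.symm' h0 hc) Z N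
      ?_ ?_ ?_ ?_ ?_
    · intro i u
      exact (rep_eq_iff hd).mpr ((rep_chained d (s i) u).symm hd)
    · intro i c
      simp only [hZ, hN]
      have h1 : (sepX d S q (κ * q) n J M (s i) c).card ≤ M * (1 + (n + 1) * h) ^ (J + 1) :=
        sepX_card hS (by linarith) (by positivity) (hs0 i) n J M c
      have h2 : (farN d S C' (s (i + 1)) c).card ≤ 2 * h :=
        farN_card hS (by linarith) (hs0 _) c
      have h3 : (farN d S C' (s (i + 2)) c).card ≤ 2 * h :=
        farN_card hS (by linarith) (hs0 _) c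
      refine le_trans (Finset.card_union_le _ _) ?_
      refine le_trans (Nat.add_le_add_right (Finset.card_union_le _ _) _) ?_
      omega
    · intro i c c' hcc
      simp only [hN, farN]
      have h1 : rep d (s i) c = rep d (s i) c' := hcc
      rw [h1]
    · intro i c
      simp only [hZ]
      exact Finset.subset_union_right
    · intro i a b p hp
      refine qg_path h0 hc hh hU' (T := Tight G wt) (fun _ _ h => h) (hs0 i)
        (hsm i (i + 2) (by omega)) hη0 hη2 hK1 (by linarith) ?_ (a := a) (b := b) p hp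
      rw [hs1, hs1]
      nlinarith [hs0 i]
    · intro i hi c F hF1 hF2 v hv
      have h2s : s (i + 1) = 2 * s i := hs1 i
      have key := separation h0 hc hS hC' hU' hq hq2 hκ hn.le hJ (hs0 i) hQM (c := c) (F := F)
        (T := fun u v => Tight G wt u v ∧ L m u = L m v ∧ u ∉ F ∧ v ∉ F)
        (fun x hx => hF1 (by simp only [hZ, Finset.mem_union]; exact Or.inl (Or.inl hx)))
        (fun u v h => ⟨h.1.symm' h0 hc, h.2.1.symm, h.2.2.2, h.2.2.1⟩)
        (fun u v h => ⟨h.1, h.2.2.1, h.2.2.2⟩) ?_ ?_ v ?_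
      · rw [← h2s] at key
        exact key
      · intro u w huw hu
        by_contra hlong
        push Not at hlong
        have h1 : 2 * C' * s (i + 1) < d u w := by
          rw [h2s]
          linarith
        have h2 : ∀ e, 2 ^ e * s (i + 1) = s (i + 1 + e) := by
          intro e
          simp only [hs]
          rw [pow_add]
          ring
        rw [← h2s] at hu
        obtain ⟨j, hj, hj'⟩ := far_edges h0 hc hS hC' hU' (hs0 (i + 1)) hu huw.1 h1
          (m - (i + 1)) (by
            rw [h2]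
            have : i + 1 + (m - (i + 1)) = m := by omega
            rw [this]
            exact huw.2.1)
        rw [h2] at hj'
        have h3 : farN d S C' (s (i + 1 + j)) c ⊆ F := by
          rcases Nat.lt_or_ge j 2 with hj2 | hj2
          · intro x hx
            apply hF1
            simp only [hZ, Finset.mem_union]
            rcases Nat.lt_or_ge j 1 with hj1 | hj1
            · have : j = 0 := by omega
              subst this
              exact Or.inl (Or.inr hx)
            · have : j = 1 := by omega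
              subst this
              exact Or.inr hx
          · exact hF2 (i + 1 + j) (by omega) (by omega)
        rcases hj' with h4 | h4
        · exact huw.2.2.1 (h3 h4)
        · exact huw.2.2.2 (h3 h4)
      · intro a b p hp
        refine qg_path h0 hc hh hU' (T := fun u v => Tight G wt u v ∧ L m u = L m v ∧
          u ∉ F ∧ v ∉ F) (fun _ _ h => h.1) (hs0 i)
          (by linarith [hs0 i]) hη0 hη2 hK1 (by linarith) ?_ (a := a) (b := b) p hp
        nlinarith [hs0 i]
      · exact hv
  have hfin : qg d (Tight G wt) σ (2 ^ m * σ) = aqg L (Tight G wt) 0 m := by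
    have h1 : σ = s 0 := by simp [hs]
    have h2 : 2 ^ m * σ = s m := by simp [hs]
    rw [h2]
    conv_lhs => rw [h1]
    rfl
  rw [hfin]
  exact hmain

end HD21
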