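import Mathlib
import Pool.Agent.HD21.QMain
import Pool.Agent.HD21.QHost
import Pool.Agent.HD21.QAdd
import Pool.Agent.HD21.QLev
import Pool.Agent.HD21.FinalThree

/-!
The exact treewidth bound and the host graph with small additive error.
-/

namespace HD21

open SimpleGraph

section

variable {V : Type*} [Fintype V] [LinearOrder V] {G : SimpleGraph V} {wt : Sym2 V → ℝ}

/-- The exact graph is a quotient graph. -/
theorem exact_tw (h0 : ∀ e, 0 ≤ wt e) (hc : G.Connected) {δ : ℝ} {m : ℕ} (hδ : 0 < δ)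
    (h1 : ∀ u v, u ≠ v → δ ≤ gdist G wt u v) (h2 : ∀ u v, gdist G wt u v ≤ 2 ^ m * δ) {t : ℕ}
    (ht : TreewidthLE (qg (gdist G wt) (Tight G wt) (δ / 2) (2 ^ (m + 1) * (δ / 2))) t)
    (H : SimpleGraph V) (hH : ∀ u v, H.Adj u v → Tight G wt u v) : TreewidthLE H t := by
  have hd := isPM_gdist (G := G) (wt := wt) h0 hc
  have hrep : ∀ u, rep (gdist G wt) (δ / 2) u = u := by
    intro u
    have h3 : ∀ x, Chained (gdist G wt) (δ / 2) u x → u = x := by
      intro x hx
      unfold Chained at hx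
      induction hx with
      | refl => rfl
      | @tail b c _ hbc ih =>
        by_contra hne
        subst ih
        have := h1 u c hne
        linarith
    exact (h3 _ (rep_chained (gdist G wt) (δ / 2) u)).symm
  refine tw_mono ht ?_ le_rfl
  intro a b hab
  refine ⟨hab.ne, a, b, Or.inl (hH a b hab), hrep a, hrep b, ?_⟩
  refine (rep_eq_iff hd).mpr (Chained.single ?_)
  refine (h2 a b).trans (le_of_eq ?_)
  rw [pow_succ]
  ring

/-- Distances are at most the length of a tour. -/
theorem gdist_le_tsp (h0 : ∀ e, 0 ≤ wt e) (hc : G.Connected) (u v : V) :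
    gdist G wt u v ≤ tsp G wt := by
  classical
  have hd := isPM_gdist (G := G) (wt := wt) h0 hc
  refine le_csInf (tourWeights_nonempty hc wt) ?_
  rintro x ⟨w, p, hp, rfl⟩
  have hu := hp u
  have hv := hp v
  have key : ∀ {a b : V} (q : G.Walk a b), ∀ y ∈ q.support, gdist G wt a y ≤ wlen wt q := by
    intro a b q y hy
    have h3 := gdist_le_wlen (wt := wt) h0 (q.takeUntil y hy)
    have h4 : wlen wt q = wlen wt (q.takeUntil y hy) + wlen wt (q.dropUntil y hy) := by
      rw [← wlen_append, Walk.take_spec]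
    have h5 := wlen_nonneg (wt := wt) h0 (q.dropUntil y hy)
    linarith
  -- rotate the closed walk to start at `u`
  obtain ⟨q, hq⟩ : ∃ q : G.Walk u u, q = (p.dropUntil u hu).append (p.takeUntil u hu) := ⟨_, rfl⟩
  have hrot : wlen wt q = wlen wt p := by
    rw [hq, wlen_append, add_comm, ← wlen_append, Walk.take_spec]
  have hv' : v ∈ q.support := by
    rw [hq, Walk.mem_support_append_iff]
    have h6 : v ∈ ((p.takeUntil u hu).append (p.dropUntil u hu)).support := by
      rw [Walk.take_spec]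
      exact hv
    rw [Walk.mem_support_append_iff] at h6
    exact h6.symm
  have h7 := key q v hv'
  rw [hrot] at h7
  exact h7

end

/-- The properties of the host graph at the thresholds `σ ≤ τ`. -/
theorem host_props {V : Type*} [Fintype V] [LinearOrder V] {G : SimpleGraph V}
    {wt : Sym2 V → ℝ} (h0 : ∀ e, 0 ≤ wt e) (hc : G.Connected) {C : ℝ} (hC : 0 ≤ C)
    (hU : UD C (gdist G wt)) {σ τ : ℝ} (hσ : 0 < σ) (hστ : σ ≤ τ) (r : V) :
    (hostE G wt σ τ r).Connected ∧
    (∀ u v, gdist G wt u v ≤ gdist (hostE G wt σ τ r) (dwt (gdist G wt)) u v) ∧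
    (∀ u v, gdist G wt u v ≤ τ → gdist (hostE G wt σ τ r) (dwt (gdist G wt)) u v ≤
      gdist G wt u v + 2 * C * σ * Fintype.card V) ∧
    tsp G wt ≤ tsp (hostE G wt σ τ r) (dwt (gdist G wt)) ∧
    (tsp G wt ≤ τ → tsp (hostE G wt σ τ r) (dwt (gdist G wt)) ≤
      tsp G wt + 2 * C * σ * (Fintype.card V) ^ 2) ∧
    (∀ R : Set V, R.Nonempty →
      stp G wt R ≤ stp (hostE G wt σ τ r) (dwt (gdist G wt)) R ∧
      (stp G wt R ≤ τ → stp (hostE G wt σ τ r) (dwt (gdist G wt)) R ≤
        stp G wt R + 2 * C * σ * (Fintype.card V) ^ 3)) := by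
  have hd := isPM_gdist (G := G) (wt := wt) h0 hc
  have hw0 := dwt_nonneg hd
  have hcH := hostE_connected (G := G) (wt := wt) σ τ r
  have hle : ∀ a b, (hostE G wt σ τ r).Adj a b →
      gdist G wt a b ≤ dwt (gdist G wt) s(a, b) := by
    intro a b _
    rw [dwt_mk hd]
  have hup := hostE_upper h0 hc hC hU hσ hστ r
  have hA : 0 ≤ 2 * C * σ * (Fintype.card V : ℝ) := by positivity
  refine ⟨hcH, fun u v => dist_mono h0 hc hcH u v, hup, tsp_mono h0 hw0 hc hcH hle, ?_, ?_⟩
  · intro ht
    have h1 := tsp_additive h0 hw0 hc hcH hA (fun a b => hup a b ((gdist_le_tsp h0 hc a b).trans ht))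
    refine h1.trans (le_of_eq ?_)
    ring
  · intro R hR
    refine ⟨stp_mono h0 hw0 hc hcH hle hR, ?_⟩
    intro ht
    have h1 := stp_additive h0 hw0 hc hcH hA hR ht hup
    refine h1.trans (le_of_eq ?_)
    ring

end HD21
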