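import Mathlib
import Pool.Agent.HD21.QFinal
import Pool.Agent.HD21.QLev

/-!
The main theorems: the exact treewidth bound, and a single host graph of treewidth `O(log (n/ε))`.
-/

namespace HD21

open SimpleGraph

theorem host_scheme {V : Type*} [Fintype V] [LinearOrder V] {G : SimpleGraph V}
    {wt : Sym2 V → ℝ} (h0 : ∀ e, 0 ≤ wt e) (hc : G.Connected) {C : ℝ} (hC : 1 ≤ C)
    (hU : UD C (gdist G wt)) {ε B : ℝ} (hε : 0 < ε) (hB : 0 < B) {m : ℕ}
    (hm : 4 * C * (Fintype.card V : ℝ) ^ 3 / ε ≤ 2 ^ m) (r : V) :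
    (hostE G wt (bottom C (Fintype.card V) ε B) (2 ^ m * bottom C (Fintype.card V) ε B)
      r).Connected ∧
    (∀ u v, gdist G wt u v ≤ gdist (hostE G wt (bottom C (Fintype.card V) ε B)
      (2 ^ m * bottom C (Fintype.card V) ε B) r) (dwt (gdist G wt)) u v) ∧
    tsp G wt ≤ tsp (hostE G wt (bottom C (Fintype.card V) ε B)
      (2 ^ m * bottom C (Fintype.card V) ε B) r) (dwt (gdist G wt)) ∧
    (B ≤ tsp G wt → tsp G wt ≤ 2 * B → tsp (hostE G wt (bottom C (Fintype.card V) ε B)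
      (2 ^ m * bottom C (Fintype.card V) ε B) r) (dwt (gdist G wt)) ≤ (1 + ε) * tsp G wt) ∧
    (∀ R : Set V, R.Nonempty →
      stp G wt R ≤ stp (hostE G wt (bottom C (Fintype.card V) ε B)
        (2 ^ m * bottom C (Fintype.card V) ε B) r) (dwt (gdist G wt)) R ∧
      (B ≤ stp G wt R → stp G wt R ≤ 2 * B →
        stp (hostE G wt (bottom C (Fintype.card V) ε B)
          (2 ^ m * bottom C (Fintype.card V) ε B) r) (dwt (gdist G wt)) R ≤
        (1 + ε) * stp G wt R)) := by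
  haveI : Nonempty V := ⟨r⟩
  have hn1 : 1 ≤ Fintype.card V := Fintype.card_pos
  have hn : (1 : ℝ) ≤ (Fintype.card V : ℝ) := by exact_mod_cast hn1
  set n : ℝ := (Fintype.card V : ℝ) with hndef
  set σ : ℝ := bottom C (Fintype.card V) ε B with hσdef
  have hσ : σ = ε * B / (2 * C * n ^ 3) := rfl
  have hn3 : (0 : ℝ) < n ^ 3 := by positivity
  have hC0 : 0 < C := by linarith
  have hσ0 : 0 < σ := by
    rw [hσ]
    positivity
  have hστ : σ ≤ 2 ^ m * σ := by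
    have h1 : (1 : ℝ) ≤ 2 ^ m := one_le_pow₀ (by norm_num)
    nlinarith
  have hτ : 2 * B ≤ 2 ^ m * σ := by
    have h1 : 4 * C * n ^ 3 / ε * σ ≤ 2 ^ m * σ := mul_le_mul_of_nonneg_right hm hσ0.le
    have h2 : 4 * C * n ^ 3 / ε * σ = 2 * B := by
      rw [hσ]
      field_simp
      ring
    linarith
  have herr : 2 * C * σ * n ^ 3 = ε * B := by
    rw [hσ]
    field_simp
  have herr2 : 2 * C * σ * n ^ 2 ≤ ε * B := by
    rw [← herr]
    have h1 : n ^ 2 ≤ n ^ 3 := pow_le_pow_right₀ hn (by norm_num)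
    exact mul_le_mul_of_nonneg_left h1 (by positivity)
  obtain ⟨h1, h2, h3, h4, h5, h6⟩ := host_props h0 hc (by linarith : (0 : ℝ) ≤ C) hU hσ0 hστ r
  refine ⟨h1, h2, h4, ?_, ?_⟩
  · intro hB1 hB2
    have h7 := h5 (hB2.trans hτ)
    have h8 : ε * B ≤ ε * tsp G wt := mul_le_mul_of_nonneg_left hB1 hε.le
    have h9 : (1 + ε) * tsp G wt = tsp G wt + ε * tsp G wt := by ring
    rw [h9]
    linarith
  · intro R hR
    refine ⟨(h6 R hR).1, ?_⟩
    intro hB1 hB2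
    have h7 := (h6 R hR).2 (hB2.trans hτ)
    have h8 : ε * B ≤ ε * stp G wt R := mul_le_mul_of_nonneg_left hB1 hε.le
    have h9 : (1 + ε) * stp G wt R = stp G wt R + ε * stp G wt R := by ring
    rw [h9]
    linarith

/-- **Exact treewidth bound and host graph**, general form. -/
theorem log_treewidth (h : ℕ) (C : ℝ) (hC : 1 ≤ C) : ∃ K : ℕ,
    ∀ (V : Type) [Fintype V] [LinearOrder V] (G : SimpleGraph V) (wt : Sym2 V → ℝ),
    (∀ e, 0 ≤ wt e) → G.Connected → HighwayDimLE G wt h → UD C (gdist G wt) →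
    (∀ (δ : ℝ) (m : ℕ), 0 < δ → (∀ u v, u ≠ v → δ ≤ gdist G wt u v) →
      (∀ u v, gdist G wt u v ≤ 2 ^ m * δ) →
      ∀ H : SimpleGraph V, (∀ u v, H.Adj u v → Tight G wt u v) →
      TreewidthLE H (K * (m + 1))) ∧
    (∀ ε B : ℝ, 0 < ε → ε ≤ 1 → 0 < B → ∀ (r : V) (Γ : SimpleGraph V),
      Γ = hostE G wt (bottom C (Fintype.card V) ε B)
        (2 ^ levels C (Fintype.card V) ε * bottom C (Fintype.card V) ε B) r →
      Γ.Connected ∧
      (∃ t : ℕ, (t : ℝ) ≤ K * (1 + Real.log (Fintype.card V / ε)) ∧ TreewidthLE Γ t) ∧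
      (∀ u v, gdist G wt u v ≤ gdist Γ (dwt (gdist G wt)) u v) ∧
      tsp G wt ≤ tsp Γ (dwt (gdist G wt)) ∧
      (B ≤ tsp G wt → tsp G wt ≤ 2 * B →
        tsp Γ (dwt (gdist G wt)) ≤ (1 + ε) * tsp G wt) ∧
      (∀ R : Set V, R.Nonempty →
        stp G wt R ≤ stp Γ (dwt (gdist G wt)) R ∧
        (B ≤ stp G wt R → stp G wt R ≤ 2 * B →
          stp Γ (dwt (gdist G wt)) R ≤ (1 + ε) * stp G wt R))) := by
  obtain ⟨K₀, hK₀⟩ := qg_treewidth h C
  set c : ℝ := Real.log (4 * C) / Real.log 2 + 3 / Real.log 2 + 2 with hc'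
  obtain ⟨K, hK⟩ := exists_nat_ge (K₀ * c + 2 + K₀)
  have hlog2 : 0 < Real.log 2 := Real.log_pos (by norm_num)
  have hc0 : 0 ≤ c := by
    have h1 : 0 ≤ Real.log (4 * C) := Real.log_nonneg (by linarith)
    rw [hc']
    positivity
  have hKK : K₀ ≤ K := by
    have h1 : (K₀ : ℝ) ≤ K := by
      have h2 : (0 : ℝ) ≤ K₀ * c := by positivity
      linarith
    exact_mod_cast h1
  refine ⟨K, ?_⟩
  intro V _ _ G wt h0 hc hh hU
  refine ⟨?_, ?_⟩
  · intro δ m hδ h1 h2 H hH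
    have h3 := hK₀ V G wt h0 hc hh hU (δ / 2) (m + 1) (by linarith)
    have h4 := exact_tw h0 hc hδ h1 h2 h3 H hH
    refine tw_mono h4 (fun _ _ h => h) ?_
    rw [mul_comm]
    exact Nat.mul_le_mul_right _ hKK
  · intro ε B hε hε1 hB r Γ hΓ
    haveI : Nonempty V := ⟨r⟩
    have hn1 : 1 ≤ Fintype.card V := Fintype.card_pos
    have hn : (1 : ℝ) ≤ (Fintype.card V : ℝ) := by exact_mod_cast hn1
    obtain ⟨h1, h2, h3, h4, h5⟩ := host_scheme h0 hc hC hU hε hB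
      (levels_spec C (Fintype.card V) ε) r
    rw [← hΓ] at h1 h2 h3 h4 h5
    refine ⟨h1, ?_, h2, h3, h4, h5⟩
    have hσ0 : 0 < bottom C (Fintype.card V) ε B := by
      unfold bottom
      positivity
    have h6 := hK₀ V G wt h0 hc hh hU (bottom C (Fintype.card V) ε B)
      (levels C (Fintype.card V) ε) hσ0
    have h7 := hostE_tw h0 hc r h6
    rw [← hΓ] at h7
    refine ⟨_, ?_, h7⟩
    have h8 := levels_le hC hn1 hε hε1
    rw [← hc'] at h8
    have h9 : 0 ≤ Real.log (Fintype.card V / ε) := by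
      apply Real.log_nonneg
      rw [le_div_iff₀ hε]
      linarith
    push_cast
    have h10 : (levels C (Fintype.card V) ε : ℝ) * K₀ ≤
        c * (1 + Real.log (Fintype.card V / ε)) * K₀ :=
      mul_le_mul_of_nonneg_right h8 (Nat.cast_nonneg _)
    have h11 : (K₀ * c + 2 + K₀) * (1 + Real.log (Fintype.card V / ε)) ≤
        K * (1 + Real.log (Fintype.card V / ε)) :=
      mul_le_mul_of_nonneg_right hK (by linarith)
    have h12 : (0 : ℝ) ≤ K₀ := Nat.cast_nonneg _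
    nlinarith

/-- **Exact treewidth bound and host graph** at highway dimension at most `3`. -/
theorem log_treewidth3 : ∃ K : ℕ,
    ∀ (V : Type) [Fintype V] [LinearOrder V] (G : SimpleGraph V) (wt : Sym2 V → ℝ),
    (∀ e, 0 ≤ wt e) → G.Connected → HighwayDimLE G wt 3 →
    (∀ (δ : ℝ) (m : ℕ), 0 < δ → (∀ u v, u ≠ v → δ ≤ gdist G wt u v) →
      (∀ u v, gdist G wt u v ≤ 2 ^ m * δ) →
      ∀ H : SimpleGraph V, (∀ u v, H.Adj u v → Tight G wt u v) →
      TreewidthLE H (K * (m + 1))) ∧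
    (∀ ε B : ℝ, 0 < ε → ε ≤ 1 → 0 < B → ∀ (r : V) (Γ : SimpleGraph V),
      Γ = hostE G wt (bottom 100000000 (Fintype.card V) ε B)
        (2 ^ levels 100000000 (Fintype.card V) ε * bottom 100000000 (Fintype.card V) ε B) r →
      Γ.Connected ∧
      (∃ t : ℕ, (t : ℝ) ≤ K * (1 + Real.log (Fintype.card V / ε)) ∧ TreewidthLE Γ t) ∧
      (∀ u v, gdist G wt u v ≤ gdist Γ (dwt (gdist G wt)) u v) ∧
      tsp G wt ≤ tsp Γ (dwt (gdist G wt)) ∧
      (B ≤ tsp G wt → tsp G wt ≤ 2 * B →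
        tsp Γ (dwt (gdist G wt)) ≤ (1 + ε) * tsp G wt) ∧
      (∀ R : Set V, R.Nonempty →
        stp G wt R ≤ stp Γ (dwt (gdist G wt)) R ∧
        (B ≤ stp G wt R → stp G wt R ≤ 2 * B →
          stp Γ (dwt (gdist G wt)) R ≤ (1 + ε) * stp G wt R))) := by
  obtain ⟨K, hK⟩ := log_treewidth 3 100000000 (by norm_num)
  refine ⟨K, ?_⟩
  intro V _ _ G wt h0 hc hh
  exact hK V G wt h0 hc hh (ud_of_hd3 h0 hc hh)

end HD21
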