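import Mathlib
import Pool.Agent.HD21.QResult

/-!
The exact treewidth bound and the host graph, for highway dimension at most `3` or clusters of
bounded relative diameter.
-/

namespace HD21

open SimpleGraph

theorem HighwayDimLE.mono {V : Type*} {G : SimpleGraph V} {wt : Sym2 V → ℝ} {h h' : ℕ}
    (hh : HighwayDimLE G wt h) (hle : h ≤ h') : HighwayDimLE G wt h' := by
  intro r hr
  obtain ⟨S, h1, h2⟩ := hh r hr
  exact ⟨S, h1, fun v => (h2 v).trans hle⟩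

theorem UD.mono {V : Type*} {d : V → V → ℝ} {C C' : ℝ} (hU : UD C d) (hC : C ≤ C') :
    UD C' d := fun s hs u v huv =>
  (hU s hs u v huv).trans (mul_le_mul_of_nonneg_right hC hs)

/-- The cluster condition, for `h ≤ 3` or by hypothesis. -/
theorem ud_of_or {V : Type*} [Fintype V] {G : SimpleGraph V} {wt : Sym2 V → ℝ} {h : ℕ} {C C' : ℝ}
    (h0 : ∀ e, 0 ≤ wt e) (hc : G.Connected) (hh : HighwayDimLE G wt h)
    (hor : h ≤ 3 ∨ UD C (gdist G wt)) (h1 : 100000000 ≤ C') (h2 : C ≤ C') :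
    UD C' (gdist G wt) := by
  rcases hor with h3 | h3
  · exact (ud_of_hd3 h0 hc (hh.mono h3)).mono h1
  · exact h3.mono h2

/-- **Exact treewidth bound.** -/
theorem log_tw_main (h : ℕ) (C : ℝ) : ∃ K : ℕ,
    ∀ (V : Type) [Fintype V] (G : SimpleGraph V) (wt : Sym2 V → ℝ),
    (∀ e, 0 ≤ wt e) → G.Connected → HighwayDimLE G wt h → (h ≤ 3 ∨ UD C (gdist G wt)) →
    ∀ (δ : ℝ) (m : ℕ), 0 < δ → (∀ u v, u ≠ v → δ ≤ gdist G wt u v) →
      (∀ u v, gdist G wt u v ≤ 2 ^ m * δ) →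
      ∀ H : SimpleGraph V, (∀ u v, H.Adj u v → Tight G wt u v) →
      TreewidthLE H (K * (m + 1)) := by
  obtain ⟨K, hK⟩ := log_treewidth h (max C 100000000)
    (le_trans (by norm_num) (le_max_right C 100000000))
  refine ⟨K, ?_⟩
  intro V _ G wt h0 hc hh hor δ m hδ h1 h2 H hH
  classical
  letI : LinearOrder V := LinearOrder.lift' (Fintype.equivFin V) (Equiv.injective _)
  exact (hK V G wt h0 hc hh (ud_of_or h0 hc hh hor (le_max_right _ _) (le_max_left _ _))).1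
    δ m hδ h1 h2 H hH

/-- **The host graph.** -/
theorem log_hosts_main (h : ℕ) (C : ℝ) (hC : 100000000 ≤ C) : ∃ K : ℕ,
    ∀ (V : Type) [Fintype V] [LinearOrder V] (G : SimpleGraph V) (wt : Sym2 V → ℝ),
    (∀ e, 0 ≤ wt e) → G.Connected → HighwayDimLE G wt h → (h ≤ 3 ∨ UD C (gdist G wt)) →
    ∀ ε B : ℝ, 0 < ε → ε ≤ 1 → 0 < B → ∀ (r : V) (Γ : SimpleGraph V),
      Γ = hostE G wt (bottom C (Fintype.card V) ε B)
        (2 ^ levels C (Fintype.card V) ε * bottom C (Fintype.card V) ε B) r →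
      Γ.Connected ∧
      (∃ t : ℕ, (t : ℝ) ≤ K * (1 + Real.log (Fintype.card V / ε)) ∧ TreewidthLE Γ t) ∧
      (∀ u v, gdist G wt u v ≤ gdist Γ (dwt (gdist G wt)) u v) ∧
      tsp G wt ≤ tsp Γ (dwt (gdist G wt)) ∧
      (B ≤ tsp G wt → tsp G wt ≤ 2 * B →
        tsp Γ (dwt (gdist G wt)) ≤ (1 + ε) * tsp G wt) ∧
      (∀ R : Set V, R.Nonempty →
        stp G wt R ≤ stp Γ (dwt (gdist G wt)) R ∧
        (B ≤ stp G wt R → stp G wt R ≤ 2 * B →
          stp Γ (dwt (gdist G wt)) R ≤ (1 + ε) * stp G wt R)) := by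
  obtain ⟨K, hK⟩ := log_treewidth h C (le_trans (by norm_num) hC)
  refine ⟨K, ?_⟩
  intro V _ _ G wt h0 hc hh hor
  exact (hK V G wt h0 hc hh (ud_of_or h0 hc hh hor hC le_rfl)).2

end HD21
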