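import Mathlib
import Pool.Agent.HD21.Defs

/-!
The subdivision of a graph with geometrically growing weights.
-/

namespace HD21

open SimpleGraph

/-- The subdivision of `F`: every edge `e` of `F` is replaced by a new vertex, adjacent to the two
ends of `e`. -/
def subdiv {A : Type*} (F : SimpleGraph A) : SimpleGraph (A ⊕ F.edgeSet) where
  Adj a b := (∃ x e, a = Sum.inl x ∧ b = Sum.inr e ∧ x ∈ e.1) ∨
    (∃ x e, b = Sum.inl x ∧ a = Sum.inr e ∧ x ∈ e.1)
  symm := ⟨fun _ _ h => h.symm⟩
  loopless := ⟨fun a h => by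
    rcases h with ⟨x, e, h1, h2, _⟩ | ⟨x, e, h1, h2, _⟩
    · rw [h1] at h2; cases h2
    · rw [h1] at h2; cases h2⟩

/-- The exponent of a vertex of the subdivision: `num e` for the new vertex of the edge `e`, and
`0` for the old vertices. -/
def expo {A : Type*} {F : SimpleGraph A} (num : F.edgeSet → ℕ) : A ⊕ F.edgeSet → ℕ :=
  Sum.elim (fun _ => 0) num

/-- The weights of the subdivision: both halves of the edge `e` weigh `8 ^ num e`. -/
noncomputable def subWt {A : Type*} {F : SimpleGraph A} (num : F.edgeSet → ℕ) :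
    Sym2 (A ⊕ F.edgeSet) → ℝ :=
  Sym2.lift ⟨fun a b => 8 ^ (expo num a + expo num b), fun a b => by
    show (8 : ℝ) ^ (expo num a + expo num b) = 8 ^ (expo num b + expo num a)
    rw [add_comm]⟩

end HD21
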