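import Mathlib
import Pool.Agent.HD21.RDefs

/-!
The subdivision with geometrically growing weights has highway dimension at most one.
-/

namespace HD21

open SimpleGraph

variable {A : Type*} {F : SimpleGraph A}

theorem subdiv_adj_inl {x : A} {b : A ⊕ F.edgeSet} (h : (subdiv F).Adj (Sum.inl x) b) :
    ∃ e, b = Sum.inr e ∧ x ∈ e.1 := by
  rcases h with ⟨y, e, h1, h2, h3⟩ | ⟨y, e, _, h2, _⟩
  · cases h1; exact ⟨e, h2, h3⟩
  · cases h2

theorem subdiv_adj_inr {e : F.edgeSet} {b : A ⊕ F.edgeSet} (h : (subdiv F).Adj (Sum.inr e) b) :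
    ∃ x, b = Sum.inl x ∧ x ∈ e.1 := by
  rcases h with ⟨y, e', h1, _, _⟩ | ⟨y, e', h1, h2, h3⟩
  · cases h1
  · cases h2; exact ⟨y, h1, h3⟩

theorem subdiv_adj {x : A} {e : F.edgeSet} (h : x ∈ e.1) :
    (subdiv F).Adj (Sum.inl x) (Sum.inr e) := Or.inl ⟨x, e, rfl, rfl, h⟩

/-- The weight of a vertex of the subdivision. -/
noncomputable def gw (num : F.edgeSet → ℕ) : A ⊕ F.edgeSet → ℝ :=
  Sum.elim (fun _ => 0) (fun e => 8 ^ num e)

theorem gw_nonneg (num : F.edgeSet → ℕ) (a : A ⊕ F.edgeSet) : 0 ≤ gw num a := by
  cases a with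
  | inl x => simp [gw]
  | inr e => simp [gw]

theorem subWt_eq (num : F.edgeSet → ℕ) {a b : A ⊕ F.edgeSet} (h : (subdiv F).Adj a b) :
    subWt num s(a, b) = gw num a + gw num b := by
  rcases h with ⟨x, e, rfl, rfl, _⟩ | ⟨x, e, rfl, rfl, _⟩ <;> simp [subWt, gw, expo]

theorem subWt_nonneg (num : F.edgeSet → ℕ) (e : Sym2 (A ⊕ F.edgeSet)) : 0 ≤ subWt num e := by
  induction e using Sym2.ind with
  | _ a b => simp only [subWt, Sym2.lift_mk]; positivity

theorem wlen_subdiv (num : F.edgeSet → ℕ) {u v : A ⊕ F.edgeSet} (p : (subdiv F).Walk u v) :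
    wlen (subWt num) p + gw num u + gw num v = 2 * (p.support.map (gw num)).sum := by
  induction p with
  | nil => simp [wlen]; ring
  | @cons u w v h p ih =>
    have h1 : wlen (subWt num) (Walk.cons h p) = gw num u + gw num w + wlen (subWt num) p := by
      simp only [wlen, Walk.edges_cons, List.map_cons, List.sum_cons]
      rw [subWt_eq num h]
    rw [h1]
    simp only [Walk.support_cons, List.map_cons, List.sum_cons]
    linarith

theorem gw_le_wlen (num : F.edgeSet → ℕ) {u v : A ⊕ F.edgeSet} (p : (subdiv F).Walk u v)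
    (x : A ⊕ F.edgeSet) (hx : x ∈ p.support) (hp : 0 < p.length) :
    gw num x ≤ wlen (subWt num) p := by
  induction p with
  | nil => simp at hp
  | @cons u w v h p ih =>
    have h1 : wlen (subWt num) (Walk.cons h p) = gw num u + gw num w + wlen (subWt num) p := by
      simp only [wlen, Walk.edges_cons, List.map_cons, List.sum_cons]
      rw [subWt_eq num h]
    have h2 : 0 ≤ wlen (subWt num) p := by
      unfold wlen
      refine List.sum_nonneg ?_
      intro y hy
      obtain ⟨e, _, rfl⟩ := List.mem_map.1 hy
      exact subWt_nonneg num e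
    have h3 := gw_nonneg num u
    have h4 := gw_nonneg num w
    rw [h1]
    rw [Walk.support_cons, List.mem_cons] at hx
    rcases hx with rfl | hx
    · linarith
    · rcases Nat.eq_zero_or_pos p.length with h5 | h5
      · cases p with
        | nil =>
          simp only [Walk.support_nil, List.mem_singleton] at hx
          subst hx
          linarith
        | cons _ _ => simp at h5
      · have := ih hx h5
        linarith

theorem geom_lt (k : ℕ) : 7 * ∑ j ∈ Finset.range (k + 1), (8 : ℝ) ^ j < 8 ^ (k + 1) := by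
  induction k with
  | zero => norm_num
  | succ k ih =>
    rw [Finset.sum_range_succ, pow_succ (8 : ℝ) (k + 1)]
    linarith

theorem hd_subdiv [Fintype A] (num : F.edgeSet → ℕ) (hnum : Function.Injective num) :
    HighwayDimLE (subdiv F) (subWt num) 1 := by
  classical
  intro r hr
  refine ⟨{x | ∃ e : F.edgeSet, x = Sum.inr e ∧ (8 : ℝ) ^ num e ≤ 2 * r ∧
    7 * r < 16 * 8 ^ num e}, ?_, ?_⟩
  · intro u v p hp h1 h2
    have hpath := hp.1
    have hsum := wlen_subdiv num p
    have hnd : p.support.Nodup := hpath.support_nodup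
    have hlen : 0 < p.length := by
      rcases Nat.eq_zero_or_pos p.length with h5 | h5
      · exfalso
        cases p with
        | nil => simp [wlen] at h1; linarith
        | cons _ _ => simp at h5
      · exact h5
    set Es : Finset F.edgeSet := Finset.univ.filter (fun e => Sum.inr e ∈ p.support) with hEs
    have hsum2 : (p.support.map (gw num)).sum = ∑ e ∈ Es, (8 : ℝ) ^ num e := by
      have h3 : (p.support.map (gw num)).sum = ∑ x ∈ p.support.toFinset, gw num x :=
        (List.sum_toFinset (gw num) hnd).symm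
      rw [h3]
      have h4 : ∑ x ∈ p.support.toFinset, gw num x =
          ∑ x ∈ Es.map ⟨Sum.inr, Sum.inr_injective⟩, gw num x := by
        symm
        refine Finset.sum_subset ?_ ?_
        · intro x hx
          obtain ⟨e, he, rfl⟩ := Finset.mem_map.1 hx
          rw [List.mem_toFinset]
          exact (Finset.mem_filter.1 he).2
        · intro x hx hx2
          cases x with
          | inl y => simp [gw]
          | inr e =>
            exfalso
            apply hx2
            rw [Finset.mem_map]
            refine ⟨e, ?_, rfl⟩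
            rw [List.mem_toFinset] at hx
            exact Finset.mem_filter.2 ⟨Finset.mem_univ _, hx⟩
      rw [h4, Finset.sum_map]
      rfl
    have hgu := gw_nonneg num u
    have hgv := gw_nonneg num v
    have hne : Es.Nonempty := by
      by_contra hcon
      rw [Finset.not_nonempty_iff_eq_empty] at hcon
      rw [hsum2, hcon] at hsum
      simp at hsum
      linarith
    obtain ⟨e, he, hmax⟩ := Finset.exists_max_image Es num hne
    have hes : Sum.inr e ∈ p.support := (Finset.mem_filter.1 he).2
    refine ⟨Sum.inr e, ⟨e, rfl, ?_, ?_⟩, hes⟩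
    · have := gw_le_wlen num p (Sum.inr e) hes hlen
      have h5 : gw num (Sum.inr e) = 8 ^ num e := rfl
      rw [h5] at this
      linarith
    · have h6 : ∑ e ∈ Es, (8 : ℝ) ^ num e ≤ ∑ j ∈ Finset.range (num e + 1), (8 : ℝ) ^ j := by
        rw [← Finset.sum_image (f := fun j => (8 : ℝ) ^ j) (s := Es) (g := num)
          (fun a _ b _ h => hnum h)]
        refine Finset.sum_le_sum_of_subset_of_nonneg ?_ (fun _ _ _ => by positivity)
        intro j hj
        obtain ⟨e', he', rfl⟩ := Finset.mem_image.1 hj
        rw [Finset.mem_range]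
        have := hmax e' he'
        omega
      have h7 := geom_lt (num e)
      rw [pow_succ] at h7
      rw [hsum2] at hsum
      linarith
  · intro v
    refine le_trans (Set.ncard_le_ncard Set.inter_subset_left (Set.toFinite _)) ?_
    rw [Set.ncard_le_one (Set.toFinite _)]
    rintro a ⟨e, rfl, h1, h2⟩ b ⟨e', rfl, h3, h4⟩
    congr 1
    by_contra hne
    have hnn : num e ≠ num e' := fun h => hne (hnum h)
    rcases lt_or_gt_of_ne hnn with h | h
    · have h5 : (8 : ℝ) ^ (num e + 1) ≤ 8 ^ num e' := pow_le_pow_right₀ (by norm_num) h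
      rw [pow_succ] at h5
      have : (0 : ℝ) < 8 ^ num e := by positivity
      linarith
    · have h5 : (8 : ℝ) ^ (num e' + 1) ≤ 8 ^ num e := pow_le_pow_right₀ (by norm_num) h
      rw [pow_succ] at h5
      have : (0 : ℝ) < 8 ^ num e' := by positivity
      linarith

end HD21
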