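import Mathlib
import Pool.Agent.HD21.QCut
import Pool.Agent.HD21.FinalH

/-!
The hosts of bounded treewidth, for highway dimension at most `3` or clusters of bounded relative
diameter.
-/

namespace HD21

open SimpleGraph

theorem bounded_hosts (h k : ℕ) (hk : 0 < k) (C : ℝ) (hC : 0 ≤ C) : ∃ t : ℕ,
    ∀ (V : Type) [Fintype V] [LinearOrder V] (G : SimpleGraph V) (wt : Sym2 V → ℝ),
    (∀ e, 0 ≤ wt e) → G.Connected → HighwayDimLE G wt h →
    ((h ≤ 3 ∧ 100000000 ≤ C) ∨ UD C (gdist G wt)) →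
    UD C (gdist G wt) ∧
    (∃ σ N, Adm (gdist G wt) k σ N) ∧
    ∀ σ N, Adm (gdist G wt) k σ N →
      (∀ j, (hostGraph G wt k σ N j).Connected) ∧
      (∀ j, TreewidthLE (hostGraph G wt k σ N j) t) ∧
      (∀ j u v, gdist G wt u v ≤ gdist (hostGraph G wt k σ N j) (dwt (gdist G wt)) u v) ∧
      (∀ u v, ∑ j, gdist (hostGraph G wt k σ N j) (dwt (gdist G wt)) u v ≤
        (k + 8 * C) * gdist G wt u v) ∧
      (∀ j, tsp G wt ≤ tsp (hostGraph G wt k σ N j) (dwt (gdist G wt))) ∧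
      (∃ j, tsp (hostGraph G wt k σ N j) (dwt (gdist G wt)) ≤ (1 + 8 * C / k) * tsp G wt) ∧
      (∀ R : Set V, R.Nonempty →
        (∀ j, stp G wt R ≤ stp (hostGraph G wt k σ N j) (dwt (gdist G wt)) R) ∧
        ∃ j, stp (hostGraph G wt k σ N j) (dwt (gdist G wt)) R ≤
          (1 + 8 * C / k) * stp G wt R) := by
  obtain ⟨t, ht⟩ := bounded_treewidthH h k hk C hC
  refine ⟨t, ?_⟩
  intro V _ _ G wt h0 hc hh hor
  have hU : UD C (gdist G wt) := by
    rcases hor with ⟨h1, h2⟩ | h1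
    · exact (ud_of_hd3 h0 hc (hh.mono h1)).mono h2
    · exact h1
  exact ⟨hU, ht V G wt h0 hc hh hU⟩

end HD21
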