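import Mathlib
import Pool.Agent.HD21.RHd
import Pool.Agent.HD21.Tsp

/-!
Tours of the subdivision and closed trails of the graph.
-/

namespace HD21

open SimpleGraph

variable {A : Type*} {F : SimpleGraph A}

theorem list_sum_count {B : Type*} [Fintype B] [DecidableEq B] (f : B → ℝ) (l : List B) :
    (l.map f).sum = ∑ x, (l.count x : ℝ) * f x := by
  induction l with
  | nil => simp
  | cons a l ih =>
    have h1 : ∀ x, ((List.count x (a :: l) : ℕ) : ℝ) * f x =
        (if a = x then f x else 0) + (l.count x : ℝ) * f x := by
      intro x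
      rw [List.count_cons]
      by_cases h : a = x
      · subst h; simp; ring
      · simp [h]
    rw [List.map_cons, List.sum_cons, ih, Finset.sum_congr rfl (fun x _ => h1 x),
      Finset.sum_add_distrib]
    simp

theorem wlen_closed [Fintype A] [Fintype F.edgeSet] [DecidableEq (A ⊕ F.edgeSet)] (num : F.edgeSet → ℕ) {x y : A}
    (p : (subdiv F).Walk (Sum.inl x) (Sum.inl y)) :
    wlen (subWt num) p =
      2 * ∑ e : F.edgeSet, (p.support.count (Sum.inr e) : ℝ) * 8 ^ num e := by
  have h := wlen_subdiv num p
  rw [list_sum_count, Fintype.sum_sum_type] at h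
  simp only [gw, Sum.elim_inl, Sum.elim_inr, mul_zero, Finset.sum_const_zero, zero_add,
    add_zero] at h
  exact h

theorem proj_walk [DecidableEq (Sym2 A)] [DecidableEq (A ⊕ F.edgeSet)] (n : ℕ) : ∀ {x y : A} (p : (subdiv F).Walk (Sum.inl x) (Sum.inl y)),
    p.length ≤ n → ∃ q : F.Walk x y, (∀ z, Sum.inl z ∈ p.support → z ∈ q.support) ∧
      ∀ e : F.edgeSet, q.edges.count e.1 ≤ p.support.count (Sum.inr e) := by
  induction n using Nat.strong_induction_on with
  | _ n ih =>
    intro x y p hn
    cases p with
    | nil => exact ⟨Walk.nil, by simp, by simp⟩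
    | @cons _ w _ h p =>
      obtain ⟨e, rfl, hxe⟩ := subdiv_adj_inl h
      cases p with
      | @cons _ w' _ h' p =>
        obtain ⟨x', rfl, hxe'⟩ := subdiv_adj_inr h'
        have hlen : p.length + 2 ≤ n := by
          simp only [Walk.length_cons] at hn
          omega
        obtain ⟨q, hq1, hq2⟩ := ih p.length (by omega) p le_rfl
        by_cases hx : x = x'
        · subst hx
          refine ⟨q, ?_, ?_⟩
          · intro z hz
            simp only [Walk.support_cons, List.mem_cons, reduceCtorEq, false_or] at hz
            rcases hz with hz | hz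
            · cases hz; exact q.start_mem_support
            · exact hq1 z hz
          · intro e'
            refine (hq2 e').trans ?_
            simp only [Walk.support_cons]
            exact (List.count_le_count_cons).trans List.count_le_count_cons
        · have he : e.1 = s(x, x') := (Sym2.mem_and_mem_iff hx).1 ⟨hxe, hxe'⟩
          have hadj : F.Adj x x' := by
            rw [← SimpleGraph.mem_edgeSet, ← he]
            exact e.2
          refine ⟨Walk.cons hadj q, ?_, ?_⟩
          · intro z hz
            simp only [Walk.support_cons, List.mem_cons, reduceCtorEq, false_or] at hz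
            rw [Walk.support_cons, List.mem_cons]
            rcases hz with hz | hz
            · cases hz; exact Or.inl rfl
            · exact Or.inr (hq1 z hz)
          · intro e'
            have h2 := hq2 e'
            rw [Walk.edges_cons, Walk.support_cons, Walk.support_cons, List.count_cons,
              List.count_cons, List.count_cons]
            by_cases hee : e = e'
            · subst hee
              rw [he] at h2
              simp [he]
              omega
            · have h3 : ¬ s(x, x') = e'.1 := by
                intro h4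
                apply hee
                exact Subtype.ext (he.trans h4)
              simp [h3, hee]
              exact h2

theorem exists_rotate {V : Type*} {G : SimpleGraph V} (wt : Sym2 V → ℝ) {v : V}
    (p : G.Walk v v) (hp : ∀ u, u ∈ p.support) (u : V) :
    ∃ p' : G.Walk u u, (∀ x, x ∈ p'.support) ∧ wlen wt p' = wlen wt p := by
  classical
  refine ⟨(p.dropUntil u (hp u)).append (p.takeUntil u (hp u)), ?_, ?_⟩
  · intro x
    have h1 := hp x
    rw [← p.take_spec (hp u), Walk.mem_support_append_iff] at h1
    rw [Walk.mem_support_append_iff]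
    exact h1.symm
  · rw [wlen_append]
    have h1 : wlen wt p = wlen wt (p.takeUntil u (hp u)) + wlen wt (p.dropUntil u (hp u)) := by
      rw [← wlen_append, p.take_spec]
    rw [h1, add_comm]

/-- Lifting a walk of `F` to the subdivision. -/
theorem exists_lift [DecidableEq (Sym2 A)] [DecidableEq (A ⊕ F.edgeSet)] {x y : A} (q : F.Walk x y) :
    ∃ p : (subdiv F).Walk (Sum.inl x) (Sum.inl y), (∀ z ∈ q.support, Sum.inl z ∈ p.support) ∧
      (∀ e : F.edgeSet, e.1 ∈ q.edges → Sum.inr e ∈ p.support) ∧
      ∀ e : F.edgeSet, p.support.count (Sum.inr e) = q.edges.count e.1 := by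
  induction q with
  | nil => exact ⟨Walk.nil, by simp, by simp, by simp⟩
  | @cons x z y h q ih =>
    obtain ⟨p, hp1, hp2, hp3⟩ := ih
    have he : s(x, z) ∈ F.edgeSet := h
    have h1 : (subdiv F).Adj (Sum.inl x) (Sum.inr ⟨s(x, z), he⟩) :=
      subdiv_adj (Sym2.mem_mk_left x z)
    have h2 : (subdiv F).Adj (Sum.inr ⟨s(x, z), he⟩) (Sum.inl z) :=
      (subdiv_adj (Sym2.mem_mk_right x z)).symm
    refine ⟨Walk.cons h1 (Walk.cons h2 p), ?_, ?_, ?_⟩
    · intro w hw
      rw [Walk.support_cons, List.mem_cons] at hw
      simp only [Walk.support_cons, List.mem_cons, reduceCtorEq, false_or]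
      rcases hw with rfl | hw
      · exact Or.inl rfl
      · exact Or.inr (hp1 w hw)
    · intro e hee
      rw [Walk.edges_cons, List.mem_cons] at hee
      simp only [Walk.support_cons, List.mem_cons, reduceCtorEq, false_or]
      rcases hee with hee | hee
      · left; congr 1; exact Subtype.ext hee
      · exact Or.inr (hp2 e hee)
    · intro e
      have h3 := hp3 e
      rw [Walk.edges_cons, Walk.support_cons, Walk.support_cons, List.count_cons,
        List.count_cons, List.count_cons, h3]
      by_cases hee : e = ⟨s(x, z), he⟩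
      · subst hee; simp
      · have h4 : ¬ s(x, z) = e.1 := by
          intro h5; apply hee; exact Subtype.ext h5.symm
        have h5 : ¬ (⟨s(x, z), he⟩ : F.edgeSet) = e := fun h6 => hee h6.symm
        simp [h4, h5]

theorem exists_lift_wlen [Fintype A] [Fintype F.edgeSet] [DecidableEq (Sym2 A)]
    [DecidableEq (A ⊕ F.edgeSet)] (num : F.edgeSet → ℕ) {x y : A} (q : F.Walk x y) :
    ∃ p : (subdiv F).Walk (Sum.inl x) (Sum.inl y), (∀ z ∈ q.support, Sum.inl z ∈ p.support) ∧
      (∀ e : F.edgeSet, e.1 ∈ q.edges → Sum.inr e ∈ p.support) ∧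
      wlen (subWt num) p = 2 * ∑ e : F.edgeSet, (q.edges.count e.1 : ℝ) * 8 ^ num e := by
  obtain ⟨p, h1, h2, h3⟩ := exists_lift q
  refine ⟨p, h1, h2, ?_⟩
  rw [wlen_closed num p]
  congr 1
  refine Finset.sum_congr rfl (fun e _ => ?_)
  rw [h3 e]

theorem exists_detours (num : F.edgeSet → ℕ) {x : A}
    (p : (subdiv F).Walk (Sum.inl x) (Sum.inl x)) (hp : ∀ z : A, Sum.inl z ∈ p.support)
    (T : Finset F.edgeSet) :
    ∃ p' : (subdiv F).Walk (Sum.inl x) (Sum.inl x), (∀ z ∈ p.support, z ∈ p'.support) ∧
      (∀ e ∈ T, Sum.inr e ∈ p'.support) ∧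
      wlen (subWt num) p' = wlen (subWt num) p + 2 * ∑ e ∈ T, (8 : ℝ) ^ num e := by
  classical
  induction T using Finset.induction_on with
  | empty => exact ⟨p, by simp, by simp, by simp⟩
  | insert e T heT ih =>
    obtain ⟨p', h1, h2, h3⟩ := ih
    obtain ⟨z, hz⟩ : ∃ z, z ∈ e.1 := by
      obtain ⟨e, he⟩ := e
      induction e using Sym2.ind with
      | _ a b => exact ⟨a, Sym2.mem_mk_left a b⟩
    have hzp : Sum.inl z ∈ p'.support := h1 _ (hp z)
    have ha : (subdiv F).Adj (Sum.inl z) (Sum.inr e) := subdiv_adj hz
    refine ⟨(p'.takeUntil _ hzp).append (Walk.cons ha (Walk.cons ha.symm (p'.dropUntil _ hzp))),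
      ?_, ?_, ?_⟩
    · intro w hw
      have hw' := h1 w hw
      rw [← p'.take_spec hzp, Walk.mem_support_append_iff] at hw'
      rw [Walk.mem_support_append_iff, Walk.support_cons, Walk.support_cons, List.mem_cons,
        List.mem_cons]
      rcases hw' with hw' | hw'
      · exact Or.inl hw'
      · exact Or.inr (Or.inr (Or.inr hw'))
    · intro e' he'
      rw [Walk.mem_support_append_iff, Walk.support_cons, Walk.support_cons, List.mem_cons,
        List.mem_cons]
      rcases Finset.mem_insert.1 he' with rfl | he'
      · exact Or.inr (Or.inr (Or.inl rfl))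
      · have hw' := h2 e' he'
        rw [← p'.take_spec hzp, Walk.mem_support_append_iff] at hw'
        rcases hw' with hw' | hw'
        · exact Or.inl hw'
        · exact Or.inr (Or.inr (Or.inr hw'))
    · have h4 : wlen (subWt num) p' = wlen (subWt num) (p'.takeUntil _ hzp) +
          wlen (subWt num) (p'.dropUntil _ hzp) := by
        rw [← wlen_append, p'.take_spec]
      rw [wlen_append, wlen_cons, wlen_cons, Finset.sum_insert heT, subWt_eq num ha,
        subWt_eq num ha.symm]
      have h5 : gw num (Sum.inl z : A ⊕ F.edgeSet) = 0 := rfl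
      have h6 : gw num (Sum.inr e : A ⊕ F.edgeSet) = 8 ^ num e := rfl
      rw [h5, h6]
      linarith

theorem connected_subdiv (hF : F.Connected) : (subdiv F).Connected := by
  classical
  obtain ⟨x0⟩ := hF.nonempty
  have key : ∀ a : A ⊕ F.edgeSet, (subdiv F).Reachable (Sum.inl x0) a := by
    have h1 : ∀ x : A, (subdiv F).Reachable (Sum.inl x0) (Sum.inl x) := by
      intro x
      obtain ⟨q⟩ := hF.preconnected x0 x
      obtain ⟨p, _⟩ := exists_lift q
      exact ⟨p⟩
    intro a
    cases a with
    | inl x => exact h1 x
    | inr e =>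
      obtain ⟨z, hz⟩ : ∃ z, z ∈ e.1 := by
        obtain ⟨e, he⟩ := e
        induction e using Sym2.ind with
        | _ a b => exact ⟨a, Sym2.mem_mk_left a b⟩
      exact (h1 z).trans (subdiv_adj hz).reachable
  haveI : Nonempty (A ⊕ F.edgeSet) := ⟨Sum.inl x0⟩
  exact ⟨fun a b => (key a).symm.trans (key b)⟩

end HD21
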