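import Mathlib
import Pool.Agent.HD21.RTour

/-!
The TSP value of the subdivision decides whether the graph has a closed trail through all
vertices; for cubic graphs, whether it is Hamiltonian.
-/

namespace HD21

open SimpleGraph

variable {A : Type*} {F : SimpleGraph A}

/-- The length of every tour, by the numbers of visits. -/
theorem tour_ge [Fintype A] [Fintype F.edgeSet] [DecidableEq (A ⊕ F.edgeSet)]
    (num : F.edgeSet → ℕ) {x : A}
    (p : (subdiv F).Walk (Sum.inl x) (Sum.inl x)) (hp : ∀ u, u ∈ p.support) :
    2 * ∑ e : F.edgeSet, (8 : ℝ) ^ num e ≤ wlen (subWt num) p := by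
  rw [wlen_closed num p]
  refine mul_le_mul_of_nonneg_left (Finset.sum_le_sum ?_) (by norm_num)
  intro e _
  have h1 : 1 ≤ p.support.count (Sum.inr e) := List.one_le_count_iff.2 (hp _)
  have h2 : (1 : ℝ) ≤ (p.support.count (Sum.inr e) : ℝ) := by exact_mod_cast h1
  have h3 : (0 : ℝ) < 8 ^ num e := by positivity
  nlinarith

theorem tsp_ge [Fintype A] [Fintype F.edgeSet] (hF : F.Connected) (num : F.edgeSet → ℕ) :
    2 * ∑ e : F.edgeSet, (8 : ℝ) ^ num e ≤ tsp (subdiv F) (subWt num) := by
  letI : DecidableEq (A ⊕ F.edgeSet) := Classical.decEq _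
  obtain ⟨x0⟩ := hF.nonempty
  refine le_csInf (tourWeights_nonempty (connected_subdiv hF) _) ?_
  rintro w ⟨v, p, hp, rfl⟩
  obtain ⟨p', h1, h2⟩ := exists_rotate (subWt num) p hp (Sum.inl x0)
  rw [← h2]
  exact tour_ge num p' h1

theorem count_le_one_of_short [Fintype A] [Fintype F.edgeSet] [DecidableEq (A ⊕ F.edgeSet)]
    [DecidableEq F.edgeSet] (num : F.edgeSet → ℕ) {x : A} (p : (subdiv F).Walk (Sum.inl x) (Sum.inl x))
    (hp : ∀ u, u ∈ p.support)
    (hlt : wlen (subWt num) p < 2 * ∑ e : F.edgeSet, (8 : ℝ) ^ num e + 1) (e : F.edgeSet) :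
    p.support.count (Sum.inr e) ≤ 1 := by
  by_contra hcon
  push Not at hcon
  have h0 : ∀ e' : F.edgeSet, (8 : ℝ) ^ num e' + (if e' = e then 1 else 0) ≤
      (p.support.count (Sum.inr e') : ℝ) * 8 ^ num e' := by
    intro e'
    have h3 : (1 : ℝ) ≤ 8 ^ num e' := one_le_pow₀ (by norm_num)
    by_cases he : e' = e
    · subst he
      have h2 : (2 : ℝ) ≤ (p.support.count (Sum.inr e') : ℝ) := by exact_mod_cast hcon
      simp only [if_true]
      nlinarith
    · have h1 : 1 ≤ p.support.count (Sum.inr e') := List.one_le_count_iff.2 (hp _)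
      have h2 : (1 : ℝ) ≤ (p.support.count (Sum.inr e') : ℝ) := by exact_mod_cast h1
      simp only [he, if_false, add_zero]
      nlinarith
  have h1 := Finset.sum_le_sum (fun e' (_ : e' ∈ Finset.univ) => h0 e')
  rw [Finset.sum_add_distrib] at h1
  simp only [Finset.sum_ite_eq', Finset.mem_univ, if_true] at h1
  rw [wlen_closed num p] at hlt
  linarith

theorem tsp_eq_iff_trail [Fintype A] [Fintype F.edgeSet] [DecidableEq (Sym2 A)]
    [DecidableEq (A ⊕ F.edgeSet)] [DecidableEq F.edgeSet] (hF : F.Connected)
    (num : F.edgeSet → ℕ) :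
    tsp (subdiv F) (subWt num) = 2 * ∑ e : F.edgeSet, (8 : ℝ) ^ num e ↔
      ∃ (x : A) (q : F.Walk x x), q.IsTrail ∧ ∀ y, y ∈ q.support := by
  constructor
  · intro h
    obtain ⟨x0⟩ := hF.nonempty
    have h1 : tsp (subdiv F) (subWt num) < 2 * ∑ e : F.edgeSet, (8 : ℝ) ^ num e + 1 := by
      rw [h]; linarith
    obtain ⟨w, ⟨v, p, hp, rfl⟩, hw⟩ := exists_lt_of_csInf_lt
      (tourWeights_nonempty (connected_subdiv hF) _) h1
    obtain ⟨p', h2, h3⟩ := exists_rotate (subWt num) p hp (Sum.inl x0)
    rw [← h3] at hw
    have hcnt := count_le_one_of_short num p' h2 hw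
    obtain ⟨q, h4, h5⟩ := proj_walk p'.length p' le_rfl
    refine ⟨x0, q, ?_, fun y => h4 y (h2 _)⟩
    rw [Walk.isTrail_def, List.nodup_iff_count_le_one]
    intro a
    by_cases ha : a ∈ F.edgeSet
    · exact (h5 ⟨a, ha⟩).trans (hcnt ⟨a, ha⟩)
    · have : a ∉ q.edges := fun h6 => ha (q.edges_subset_edgeSet h6)
      rw [List.count_eq_zero_of_not_mem this]
      exact Nat.zero_le _
  · rintro ⟨x, q, hq, hall⟩
    refine le_antisymm ?_ (tsp_ge hF num)
    obtain ⟨p, h1, h2, h3⟩ := exists_lift_wlen num q
    obtain ⟨p', h4, h5, h6⟩ := exists_detours num p (fun z => h1 z (hall z))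
      (Finset.univ.filter (fun e : F.edgeSet => e.1 ∉ q.edges))
    have hvis : ∀ u, u ∈ p'.support := by
      intro u
      cases u with
      | inl z => exact h4 _ (h1 z (hall z))
      | inr e =>
        by_cases he : e.1 ∈ q.edges
        · exact h4 _ (h2 e he)
        · exact h5 e (Finset.mem_filter.2 ⟨Finset.mem_univ _, he⟩)
    refine (tsp_le (subWt_nonneg num) p' hvis).trans ?_
    rw [h6, h3, ← mul_add, Finset.sum_filter, ← Finset.sum_add_distrib]
    refine mul_le_mul_of_nonneg_left (Finset.sum_le_sum ?_) (by norm_num)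
    intro e _
    have h7 : q.edges.count e.1 ≤ 1 := List.nodup_iff_count_le_one.1 hq.edges_nodup _
    have h9 : (0 : ℝ) < 8 ^ num e := by positivity
    by_cases he : e.1 ∈ q.edges
    · have h10 : (q.edges.count e.1 : ℝ) ≤ 1 := by exact_mod_cast h7
      simp only [he, not_true_eq_false, if_false, add_zero]
      nlinarith
    · have h10 : q.edges.count e.1 = 0 := List.count_eq_zero_of_not_mem he
      simp [he, h10]

theorem countP_edges [DecidableEq A] {u v : A} (p : F.Walk u v) (x : A) :
    p.edges.countP (fun e => x ∈ e) + ((if u = x then 1 else 0) + (if v = x then 1 else 0)) =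
      2 * p.support.count x := by
  induction p with
  | nil => by_cases h : ‹A› = x <;> simp [h, List.count_singleton]
  | @cons u w v h p ih =>
    have hne : u ≠ w := h.ne
    rw [Walk.edges_cons, Walk.support_cons, List.countP_cons, List.count_cons]
    by_cases h1 : u = x
    · subst h1
      have h2 : ¬ w = u := fun h3 => hne h3.symm
      simp [h2] at ih ⊢
      omega
    · by_cases h2 : w = x
      · subst h2
        simp [h1] at ih ⊢
        omega
      · have h3 : ¬ x = u := fun h => h1 h.symm
        have h4 : ¬ x = w := fun h => h2 h.symm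
        simp [h1, h2, h3, h4] at ih ⊢
        omega

theorem ham_iff_trail [Fintype A] [DecidableEq A] [DecidableRel F.Adj]
    (h3 : F.IsRegularOfDegree 3) :
    (∃ (x : A) (q : F.Walk x x), q.IsTrail ∧ ∀ y, y ∈ q.support) ↔ F.IsHamiltonian := by
  constructor
  · rintro ⟨x, q, hq, hall⟩ _
    refine ⟨x, q, ?_⟩
    have hnn : ¬ q.Nil := by
      intro hnil
      have h1 : q.support = [x] := Walk.nil_iff_support_eq.1 hnil
      have h2 : 0 < F.degree x := by rw [h3 x]; norm_num
      obtain ⟨y, hy⟩ := (F.degree_pos_iff_exists_adj x).1 h2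
      have h4 := hall y
      rw [h1, List.mem_singleton] at h4
      exact hy.ne h4.symm
    have hcount : ∀ y, q.support.tail.count y ≤ 1 := by
      intro y
      have h1 := countP_edges q y
      have h2 : q.support.count y = q.support.tail.count y + (if x = y then 1 else 0) := by
        conv_lhs => rw [← q.cons_tail_support, List.count_cons]
        simp
      have h4 : q.edges.countP (fun e => y ∈ e) ≤ 3 := by
        rw [List.countP_eq_length_filter]
        have h5 : (q.edges.filter (fun e => decide (y ∈ e))).Nodup := hq.edges_nodup.filter _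
        rw [← List.toFinset_card_of_nodup h5]
        have h6 := F.card_incidenceFinset_eq_degree y
        rw [h3 y] at h6
        rw [← h6]
        refine Finset.card_le_card ?_
        intro e he
        rw [List.mem_toFinset, List.mem_filter] at he
        rw [SimpleGraph.mem_incidenceFinset]
        exact ⟨q.edges_subset_edgeSet he.1, by simpa using he.2⟩
      have h7 : q.edges.countP (fun e => decide (y ∈ e)) ≤ 3 := h4
      by_cases hxy : x = y
      · subst hxy
        simp only [if_true] at h1 h2
        have h8 : List.countP (fun e => decide (x ∈ e)) q.edges + 2 =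
          2 * (q.support.tail.count x + 1) := by
          rw [← h2]; exact h1
        omega
      · simp only [hxy, if_false, add_zero] at h1 h2
        have h8 : List.countP (fun e => decide (y ∈ e)) q.edges =
          2 * (q.support.tail.count y) := by
          rw [← h2]; exact h1
        omega
    have hone : ∀ y, q.support.tail.count y = 1 := by
      intro y
      refine le_antisymm (hcount y) ?_
      rw [List.one_le_count_iff]
      have h1 := hall y
      rw [← q.cons_tail_support, List.mem_cons] at h1
      rcases h1 with rfl | h1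
      · exact q.end_mem_tail_support hnn
      · exact h1
    rw [Walk.isHamiltonianCycle_iff_isCycle_and_support_count_tail_eq_one]
    refine ⟨⟨⟨hq, ?_⟩, ?_⟩, hone⟩
    · rintro rfl
      exact hnn Walk.Nil.nil
    · rw [List.nodup_iff_count_le_one]
      exact hcount
  · intro h
    have hcard : Fintype.card A ≠ 1 := by
      intro h1
      obtain ⟨x, _⟩ := Fintype.card_eq_one_iff.1 h1
      have h2 := F.degree_lt_card_verts x
      rw [h3 x, h1] at h2
      omega
    obtain ⟨x, q, hq⟩ := h hcard
    exact ⟨x, q, hq.isCycle.isTrail, fun y => hq.mem_support y⟩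

end HD21
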